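-- Proof of the frozen statement S00046 (negation of the modified Kouchnirenko bound).
-- Counterexample with 3 and 4 monomials: f = 1 - x^400 - y^400 and
-- g = x y (k - 10243 (x^2 y^990 + x^990 y^2) - 27128 x^420 y^420), k slightly above 10000,
-- whose common zeros include 36 simple real ones, while (2*3-1)*(2*4-1) = 35.
import Pool.Statements.S00046

set_option autoImplicit false
open Pool Pool.MP_172a5c_ag

namespace Pool.Agent.S00046

open MvPolynomial MeasureTheory Set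

set_option exponentiation.threshold 2000

noncomputable section

/-- the branch `y = (1 - x^400)^(1/400)` -/
def yy (x : ℝ) : ℝ := (1 - x ^ 400) ^ ((400 : ℝ)⁻¹)

/-- the non-constant part of the second polynomial (after removing the factor `x y`) -/
def HH (x y : ℝ) : ℝ :=
  10243 * (x ^ 2 * y ^ 990 + x ^ 990 * y ^ 2) + 27128 * (x ^ 420 * y ^ 420)

/-- partial derivative in `x` -/
def Hx (x y : ℝ) : ℝ :=
  10243 * (2 * x * y ^ 990 + 990 * x ^ 989 * y ^ 2) + 27128 * (420 * x ^ 419 * y ^ 420)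

/-- partial derivative in `y` -/
def Hy (x y : ℝ) : ℝ :=
  10243 * (990 * x ^ 2 * y ^ 989 + 2 * x ^ 990 * y) + 27128 * (420 * x ^ 420 * y ^ 419)

def hh (x : ℝ) : ℝ := HH x (yy x)

lemma one_sub_nonneg {x : ℝ} (h0 : 0 ≤ x) (h1 : x ≤ 1) : 0 ≤ 1 - x ^ 400 := by
  have := pow_le_one₀ h0 h1 (n := 400)
  linarith

lemma one_sub_pos {x : ℝ} (h0 : 0 ≤ x) (h1 : x < 1) : 0 < 1 - x ^ 400 := by
  have := pow_lt_one₀ h0 h1 (n := 400) (by norm_num)
  linarith

lemma yy_pow {x : ℝ} (h0 : 0 ≤ x) (h1 : x ≤ 1) : (yy x) ^ 400 = 1 - x ^ 400 := by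
  have h := one_sub_nonneg h0 h1
  unfold yy
  rw [← Real.rpow_natCast, ← Real.rpow_mul h]
  norm_num

lemma yy_nonneg {x : ℝ} (h0 : 0 ≤ x) (h1 : x ≤ 1) : 0 ≤ yy x :=
  Real.rpow_nonneg (one_sub_nonneg h0 h1) _

lemma yy_pos {x : ℝ} (h0 : 0 ≤ x) (h1 : x < 1) : 0 < yy x :=
  Real.rpow_pos_of_pos (one_sub_pos h0 h1) _

lemma yy_cont : Continuous yy := by
  unfold yy
  apply Continuous.rpow_const
  · fun_prop
  · intro x; right; norm_num

lemma hh_cont : Continuous hh := by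
  unfold hh HH
  have := yy_cont
  fun_prop

lemma yy_deriv {x : ℝ} (h0 : 0 < x) (h1 : x < 1) :
    HasDerivAt yy (-(x ^ 399) / (yy x) ^ 399) x := by
  have hp := one_sub_pos h0.le h1
  have hy := yy_pos h0.le h1
  have h : HasDerivAt (fun x : ℝ => 1 - x ^ 400) (-(400 * x ^ 399)) x := by
    have := (hasDerivAt_pow 400 x).const_sub (1 : ℝ)
    simpa using this
  have h2 := h.rpow_const (p := (400 : ℝ)⁻¹) (Or.inl hp.ne')
  have e : -(400 * x ^ 399) * (400 : ℝ)⁻¹ * (1 - x ^ 400) ^ ((400 : ℝ)⁻¹ - 1)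
      = -(x ^ 399) / (yy x) ^ 399 := by
    have e1 : (1 - x ^ 400) ^ ((400 : ℝ)⁻¹ - 1) = yy x / (yy x) ^ 400 := by
      rw [Real.rpow_sub_one hp.ne', yy_pow h0.le h1.le]
      rfl
    rw [e1]
    have : (yy x) ^ 400 = yy x * (yy x) ^ 399 := by ring
    rw [this]
    field_simp
  rw [e] at h2
  exact h2

lemma hh_deriv {x : ℝ} (h0 : 0 < x) (h1 : x < 1) :
    HasDerivAt hh (Hx x (yy x) + Hy x (yy x) * (-(x ^ 399) / (yy x) ^ 399)) x := by
  have hy := yy_deriv h0 h1
  have hid := hasDerivAt_id' x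
  unfold hh HH
  have A := (hid.pow 2).mul (hy.pow 990)
  have B := (hid.pow 990).mul (hy.pow 2)
  have C := (hid.pow 420).mul (hy.pow 420)
  have D := ((A.add B).const_mul 10243).add (C.const_mul 27128)
  refine D.congr_deriv ?_
  unfold Hx Hy
  simp only [Nat.cast_ofNat]
  norm_num
  ring

lemma HH_mono {x y z : ℝ} (_hx : 0 ≤ x) (hy : 0 ≤ y) (hyz : y ≤ z) : HH x y ≤ HH x z := by
  unfold HH
  gcongr

lemma hh_lower {x y k : ℝ} (h0 : 0 ≤ x) (h1 : x ≤ 1) (hy : 0 ≤ y)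
    (hc : x ^ 400 + y ^ 400 ≤ 1) (hk : k < HH x y) : k < hh x := by
  have h : y ≤ yy x := by
    refine le_of_pow_le_pow_left₀ (n := 400) (by norm_num) (yy_nonneg h0 h1) ?_
    rw [yy_pow h0 h1]; linarith
  exact lt_of_lt_of_le hk (HH_mono h0 hy h)

lemma hh_upper {x y k : ℝ} (h0 : 0 ≤ x) (h1 : x ≤ 1) (hy : 0 ≤ y)
    (hc : 1 ≤ x ^ 400 + y ^ 400) (hk : HH x y < k) : hh x < k := by
  have h : yy x ≤ y := by
    refine le_of_pow_le_pow_left₀ (n := 400) (by norm_num) hy ?_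
    rw [yy_pow h0 h1]; linarith
  exact lt_of_le_of_lt (HH_mono h0 (yy_nonneg h0 h1) h) hk

lemma hh0 : hh 0 < 10000 := by
  unfold hh HH
  norm_num

lemma hh1 : 10000 + 1 / 100 < hh (993 / 1000) := by
  apply hh_lower (y := 9998447 / 10000000) (by norm_num) (by norm_num) (by norm_num)
  · norm_num
  · unfold HH; norm_num

lemma hh2 : hh (9956 / 10000) < 10000 := by
  apply hh_upper (y := 99953014 / 100000000) (by norm_num) (by norm_num) (by norm_num)
  · norm_num
  · unfold HH; norm_num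

lemma hh3 : 10000 + 1 / 100 < hh (997 / 1000) := by
  apply hh_lower (y := 99910638 / 100000000) (by norm_num) (by norm_num) (by norm_num)
  · norm_num
  · unfold HH; norm_num

lemma hh4 : hh (9982 / 10000) < 10000 := by
  apply hh_upper (y := 99833544 / 100000000) (by norm_num) (by norm_num) (by norm_num)
  · norm_num
  · unfold HH; norm_num

/-- critical points of `hh` in `(0,1)` -/
def crit : Set ℝ := {x | 0 < x ∧ x < 1 ∧
  Hx x (yy x) + Hy x (yy x) * (-(x ^ 399) / (yy x) ^ 399) = 0}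

lemma sard : volume (hh '' crit) = 0 := by
  apply addHaar_image_eq_zero_of_det_fderivWithin_eq_zero volume
    (f' := fun x => ContinuousLinearMap.toSpanSingleton ℝ
      (Hx x (yy x) + Hy x (yy x) * (-(x ^ 399) / (yy x) ^ 399)))
  · intro x hx
    exact (hh_deriv hx.1 hx.2.1).hasFDerivAt.hasFDerivWithinAt
  · intro x hx
    simp only [hx.2.2]
    simp

lemma exists_reg : ∃ k : ℝ, 10000 < k ∧ k < 10000 + 1 / 100 ∧ k ∉ hh '' crit := by
  by_contra hcon
  push Not at hcon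
  have hsub : Ioo (10000 : ℝ) (10000 + 1 / 100) ⊆ hh '' crit := by
    intro k hk
    exact hcon k hk.1 hk.2
  have := measure_mono_null hsub sard
  rw [Real.volume_Ioo] at this
  norm_num at this

/-- four regular solutions in the lower half -/
lemma zeros {k : ℝ} (h1 : 10000 < k) (h2 : k < 10000 + 1 / 100) :
    ∃ a : Fin 4 → ℝ, StrictMono a ∧ ∀ i, 0 < a i ∧ a i < 9982 / 10000 ∧ hh (a i) = k := by
  have c : ∀ s : Set ℝ, ContinuousOn hh s := fun s => hh_cont.continuousOn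
  obtain ⟨a0, ha0, e0⟩ := intermediate_value_Ioo (by norm_num : (0 : ℝ) ≤ 993 / 1000)
    (c _) ⟨hh0.trans h1, h2.trans hh1⟩
  obtain ⟨a1, ha1, e1⟩ := intermediate_value_Ioo' (by norm_num : (993 / 1000 : ℝ) ≤ 9956 / 10000)
    (c _) ⟨hh2.trans h1, h2.trans hh1⟩
  obtain ⟨a2, ha2, e2⟩ := intermediate_value_Ioo (by norm_num : (9956 / 10000 : ℝ) ≤ 997 / 1000)
    (c _) ⟨hh2.trans h1, h2.trans hh3⟩
  obtain ⟨a3, ha3, e3⟩ := intermediate_value_Ioo' (by norm_num : (997 / 1000 : ℝ) ≤ 9982 / 10000)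
    (c _) ⟨hh4.trans h1, h2.trans hh3⟩
  refine ⟨![a0, a1, a2, a3], ?_, ?_⟩
  · rw [Fin.strictMono_iff_lt_succ]
    intro i
    fin_cases i
    · exact ha0.2.trans ha1.1
    · exact ha1.2.trans ha2.1
    · exact ha2.2.trans ha3.1
  · intro i
    have l0 := ha0.1
    have l1 := ha1.1
    have l2 := ha2.1
    have l3 := ha3.1
    have u0 := ha0.2
    have u1 := ha1.2
    have u2 := ha2.2
    have u3 := ha3.2
    fin_cases i
    · exact ⟨l0, by simp; linarith, e0⟩
    · exact ⟨by simp; linarith, by simp; linarith, e1⟩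
    · exact ⟨by simp; linarith, by simp; linarith, e2⟩
    · exact ⟨by simp; linarith, by simp; linarith, e3⟩

/-- the Jacobian factor -/
def WW (x y : ℝ) : ℝ := y ^ 399 * Hx x y - x ^ 399 * Hy x y

lemma WW_ne {k x : ℝ} (hk : k ∉ hh '' crit) (h0 : 0 < x) (h1 : x < 1) (hx : hh x = k) :
    WW x (yy x) ≠ 0 := by
  intro h
  apply hk
  refine ⟨x, ⟨h0, h1, ?_⟩, hx⟩
  have hy := yy_pos h0.le h1
  unfold WW at h
  have hy' : (yy x) ^ 399 ≠ 0 := by positivity
  field_simp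
  linarith

lemma yy_gt {x : ℝ} (h0 : 0 < x) (h1 : x < 9982 / 10000) : 9982 / 10000 < yy x := by
  refine lt_of_pow_lt_pow_left₀ 400 (yy_nonneg h0.le (by linarith)) ?_
  rw [yy_pow h0.le (by linarith)]
  have h2 : x ^ 400 < (9982 / 10000 : ℝ) ^ 400 := by gcongr
  have h3 : (9982 / 10000 : ℝ) ^ 400 < 1 / 2 := by norm_num
  linarith

/-- monomials `a x^i y^j` -/
def PM (a : ℝ) (i j : ℕ) : MvPolynomial (Fin 2) ℝ := C a * X 0 ^ i * X 1 ^ j

lemma PM_card (a : ℝ) (i j : ℕ) : (PM a i j).support.card ≤ 1 := by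
  have : PM a i j = monomial (Finsupp.single 0 i + Finsupp.single 1 j) a := by
    unfold PM
    rw [C_mul_X_pow_eq_monomial, X_pow_eq_monomial, monomial_mul, mul_one]
  rw [this]
  exact (Finset.card_le_card support_monomial_subset).trans (by simp)

lemma eval_PM (p : Fin 2 → ℝ) (a : ℝ) (i j : ℕ) :
    eval p (PM a i j) = a * p 0 ^ i * p 1 ^ j := by
  simp [PM]

lemma eval_d0 (p : Fin 2 → ℝ) (a : ℝ) (i j : ℕ) :
    eval p (pderiv 0 (PM a i j)) = a * (i * p 0 ^ (i - 1)) * p 1 ^ j := by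
  simp [PM, Derivation.leibniz, Derivation.leibniz_pow]
  ring

lemma eval_d1 (p : Fin 2 → ℝ) (a : ℝ) (i j : ℕ) :
    eval p (pderiv 1 (PM a i j)) = a * p 0 ^ i * (j * p 1 ^ (j - 1)) := by
  simp [PM, Derivation.leibniz, Derivation.leibniz_pow]

def FF : MvPolynomial (Fin 2) ℝ := PM 1 0 0 + PM (-1) 400 0 + PM (-1) 0 400

def GG (k : ℝ) : MvPolynomial (Fin 2) ℝ :=
  PM k 1 1 + PM (-10243) 3 991 + PM (-10243) 991 3 + PM (-27128) 421 421

lemma card_add (p q : MvPolynomial (Fin 2) ℝ) :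
    (p + q).support.card ≤ p.support.card + q.support.card :=
  (Finset.card_le_card support_add).trans (Finset.card_union_le _ _)

lemma FF_card : FF.support.card ≤ 3 := by
  unfold FF
  have h1 := card_add (PM 1 0 0 + PM (-1) 400 0) (PM (-1) 0 400)
  have h2 := card_add (PM 1 0 0) (PM (-1) 400 0)
  have a := PM_card 1 0 0
  have b := PM_card (-1) 400 0
  have c := PM_card (-1) 0 400
  omega

lemma GG_card (k : ℝ) : (GG k).support.card ≤ 4 := by
  unfold GG
  have h1 := card_add (PM k 1 1 + PM (-10243) 3 991 + PM (-10243) 991 3) (PM (-27128) 421 421)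
  have h2 := card_add (PM k 1 1 + PM (-10243) 3 991) (PM (-10243) 991 3)
  have h3 := card_add (PM k 1 1) (PM (-10243) 3 991)
  have a := PM_card k 1 1
  have b := PM_card (-10243) 3 991
  have c := PM_card (-10243) 991 3
  have d := PM_card (-27128) 421 421
  omega

/-- being a simple common zero -/
def Good (k : ℝ) (p : Fin 2 → ℝ) : Prop :=
  eval p FF = 0 ∧ eval p (GG k) = 0 ∧
    eval p (pderiv 0 FF) * eval p (pderiv 1 (GG k)) -
      eval p (pderiv 1 FF) * eval p (pderiv 0 (GG k)) ≠ 0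

lemma ev_F (p : Fin 2 → ℝ) : eval p FF = 1 - p 0 ^ 400 - p 1 ^ 400 := by
  simp only [FF, map_add, eval_PM]; ring

lemma ev_G (k : ℝ) (p : Fin 2 → ℝ) : eval p (GG k) = p 0 * p 1 * (k - HH (p 0) (p 1)) := by
  simp only [GG, map_add, eval_PM, HH]; ring

lemma ev_F0 (p : Fin 2 → ℝ) : eval p (pderiv 0 FF) = - (400 * p 0 ^ 399) := by
  simp only [FF, map_add, eval_d0]; norm_num

lemma ev_F1 (p : Fin 2 → ℝ) : eval p (pderiv 1 FF) = - (400 * p 1 ^ 399) := by
  simp only [FF, map_add, eval_d1]; norm_num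

lemma ev_G0 (k : ℝ) (p : Fin 2 → ℝ) : eval p (pderiv 0 (GG k)) =
    p 1 * (k - HH (p 0) (p 1)) - p 0 * p 1 * Hx (p 0) (p 1) := by
  simp only [GG, map_add, eval_d0, HH, Hx]; norm_num; ring

lemma ev_G1 (k : ℝ) (p : Fin 2 → ℝ) : eval p (pderiv 1 (GG k)) =
    p 0 * (k - HH (p 0) (p 1)) - p 0 * p 1 * Hy (p 0) (p 1) := by
  simp only [GG, map_add, eval_d1, HH, Hy]; norm_num; ring

lemma good_of {k x y : ℝ} (hx : x ≠ 0) (hy : y ≠ 0) (h : x ^ 400 + y ^ 400 = 1)
    (hH : HH x y = k) (hW : WW x y ≠ 0) : Good k ![x, y] := by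
  refine ⟨?_, ?_, ?_⟩
  · rw [ev_F]; simp only [Matrix.cons_val_zero, Matrix.cons_val_one]; linarith
  · rw [ev_G]; simp only [Matrix.cons_val_zero, Matrix.cons_val_one, hH]; ring
  · rw [ev_F0, ev_F1, ev_G0, ev_G1]
    simp only [Matrix.cons_val_zero, Matrix.cons_val_one, hH]
    have : -(400 * x ^ 399) * (x * (k - k) - x * y * Hy x y) -
        -(400 * y ^ 399) * (y * (k - k) - x * y * Hx x y) = -(400 * x * y * WW x y) := by
      unfold WW; ring
    rw [this]
    simp [hx, hy, hW]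

lemma good_axis0 {k e : ℝ} (hk : k ≠ 0) (he : e = 1 ∨ e = -1) : Good k ![e, 0] := by
  refine ⟨?_, ?_, ?_⟩
  · rw [ev_F]; rcases he with rfl | rfl <;> norm_num
  · rw [ev_G]; simp
  · rw [ev_F0, ev_F1, ev_G0, ev_G1]
    rcases he with rfl | rfl <;> simp [HH, Hx, Hy, hk]

lemma good_axis1 {k e : ℝ} (hk : k ≠ 0) (he : e = 1 ∨ e = -1) : Good k ![0, e] := by
  refine ⟨?_, ?_, ?_⟩
  · rw [ev_F]; rcases he with rfl | rfl <;> norm_num
  · rw [ev_G]; simp
  · rw [ev_F0, ev_F1, ev_G0, ev_G1]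
    rcases he with rfl | rfl <;> simp [HH, Hx, Hy, hk]

/-- signs -/
def sg (b : Bool) : ℝ := if b then 1 else -1

lemma sg_or (b : Bool) : sg b = 1 ∨ sg b = -1 := by cases b <;> simp [sg]

lemma good_signs {k x y : ℝ} (hx : x ≠ 0) (hy : y ≠ 0) (h : x ^ 400 + y ^ 400 = 1)
    (hH : HH x y = k) (hW : WW x y ≠ 0) (b c : Bool) : Good k ![sg b * x, sg c * y] := by
  have hb := sg_or b
  have hc := sg_or c
  apply good_of
  · rcases hb with hb | hb <;> simp [hb, hx]
  · rcases hc with hc | hc <;> simp [hc, hy]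
  · rcases hb with hb | hb <;> rcases hc with hc | hc <;> rw [hb, hc] <;> ring_nf <;>
      ring_nf at h <;> exact h
  · rw [← hH]
    rcases hb with hb | hb <;> rcases hc with hc | hc <;> rw [hb, hc] <;> unfold HH <;> ring
  · rcases hb with hb | hb <;> rcases hc with hc | hc <;> rw [hb, hc]
    · simpa using hW
    · have : WW (1 * x) (-1 * y) = - WW x y := by unfold WW Hx Hy; ring
      rw [this]; simpa using hW
    · have : WW (-1 * x) (1 * y) = - WW x y := by unfold WW Hx Hy; ring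
      rw [this]; simpa using hW
    · have : WW (-1 * x) (-1 * y) = WW x y := by unfold WW Hx Hy; ring
      rw [this]; exact hW

/-- index type of the 36 points -/
abbrev Idx := (Bool × Fin 4 × Bool × Bool) ⊕ (Bool × Bool)

/-- the 36 points -/
def pt (a : Fin 4 → ℝ) : Idx → (Fin 2 → ℝ)
  | .inl (false, i, b, c) => ![sg b * a i, sg c * yy (a i)]
  | .inl (true, i, b, c) => ![sg b * yy (a i), sg c * a i]
  | .inr (false, b) => ![sg b, 0]
  | .inr (true, b) => ![0, sg b]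

lemma sg_mul_inj {b c : Bool} {x y : ℝ} (hx : 0 < x) (hy : 0 < y) (h : sg b * x = sg c * y) :
    b = c ∧ x = y := by
  cases b <;> cases c <;> simp [sg] at h ⊢ <;> linarith

lemma sg_mul_ne {b : Bool} {x : ℝ} (hx : 0 < x) : sg b * x ≠ 0 := by
  cases b <;> simp [sg] <;> linarith

lemma sg_ne {b : Bool} : sg b ≠ 0 := by
  cases b <;> simp [sg]

lemma sg_inj {b c : Bool} (h : sg b = sg c) : b = c := by
  cases b <;> cases c <;> simp [sg] at h ⊢ <;> linarith

lemma pt_inj {a : Fin 4 → ℝ} (hm : StrictMono a)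
    (ha : ∀ i, 0 < a i ∧ a i < 9982 / 10000) : Function.Injective (pt a) := by
  have hy : ∀ i, 9982 / 10000 < yy (a i) := fun i => yy_gt (ha i).1 (ha i).2
  have hp : ∀ i, 0 < yy (a i) := fun i => by linarith [hy i]
  intro p q h
  have h0 := congrFun h 0
  have h1 := congrFun h 1
  rcases p with ⟨s, i, b, c⟩ | ⟨s, b⟩ <;> rcases q with ⟨s', i', b', c'⟩ | ⟨s', b'⟩ <;>
    cases s <;> cases s' <;>
    simp only [pt, Matrix.cons_val_zero, Matrix.cons_val_one] at h0 h1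
  · obtain ⟨e1, e2⟩ := sg_mul_inj (ha i).1 (ha i').1 h0
    obtain ⟨e3, -⟩ := sg_mul_inj (hp i) (hp i') h1
    have e4 := hm.injective e2
    subst e1 e3 e4
    rfl
  · obtain ⟨-, e2⟩ := sg_mul_inj (ha i).1 (hp i') h0
    exact absurd e2 (by linarith [hy i', (ha i).2])
  · obtain ⟨-, e2⟩ := sg_mul_inj (hp i) (ha i').1 h0
    exact absurd e2 (by linarith [hy i, (ha i').2])
  · obtain ⟨e1, e2⟩ := sg_mul_inj (ha i).1 (ha i').1 h1
    obtain ⟨e3, -⟩ := sg_mul_inj (hp i) (hp i') h0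
    have e4 := hm.injective e2
    subst e1 e3 e4
    rfl
  · exact absurd h1 (sg_mul_ne (hp i))
  · exact absurd h0 (sg_mul_ne (ha i).1)
  · exact absurd h1 (sg_mul_ne (ha i).1)
  · exact absurd h0 (sg_mul_ne (hp i))
  · exact absurd h1.symm (sg_mul_ne (hp i'))
  · exact absurd h1.symm (sg_mul_ne (ha i').1)
  · exact absurd h0.symm (sg_mul_ne (ha i').1)
  · exact absurd h0.symm (sg_mul_ne (hp i'))
  · rw [sg_inj h0]
  · exact absurd h0 sg_ne
  · exact absurd h0.symm sg_ne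
  · rw [sg_inj h1]

lemma HH_symm (x y : ℝ) : HH y x = HH x y := by unfold HH; ring

lemma WW_symm (x y : ℝ) : WW y x = - WW x y := by unfold WW Hx Hy; ring

lemma pt_good {k : ℝ} {a : Fin 4 → ℝ} (hk0 : 0 < k) (hk : k ∉ hh '' crit)
    (ha : ∀ i, 0 < a i ∧ a i < 9982 / 10000 ∧ hh (a i) = k) (p : Idx) : Good k (pt a p) := by
  rcases p with ⟨s, i, b, c⟩ | ⟨s, b⟩
  · obtain ⟨h0, h1, h2⟩ := ha i
    have h1' : a i < 1 := by linarith
    have hy := yy_pos h0.le h1'
    have hp := yy_pow h0.le h1'.le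
    have hW := WW_ne hk h0 h1' h2
    cases s
    · exact good_signs h0.ne' hy.ne' (by linarith) h2 hW b c
    · refine good_signs hy.ne' h0.ne' (by linarith) ?_ ?_ b c
      · rw [HH_symm]; exact h2
      · rw [WW_symm]; simpa using hW
  · cases s
    · exact good_axis0 hk0.ne' (sg_or b)
    · exact good_axis1 hk0.ne' (sg_or b)

end

/-- The negation of the preceding statement: Any real system f(x,y)=g(x,y)=0, with f having m₁ and g having m₂ monomials, has at most (2m₁−1)(2m₂−1) real solutions with nonzero Jacobian, and this number is attained for all m₁, m₂ ≥ 1. -/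
theorem result :
    ¬ ((∀ (f g : MvPolynomial (Fin 2) ℝ) (S : Finset (Fin 2 → ℝ)),
      (∀ p ∈ S, MvPolynomial.eval p f = 0 ∧ MvPolynomial.eval p g = 0 ∧
        MvPolynomial.eval p (MvPolynomial.pderiv 0 f) * MvPolynomial.eval p (MvPolynomial.pderiv 1 g) -
          MvPolynomial.eval p (MvPolynomial.pderiv 1 f) * MvPolynomial.eval p (MvPolynomial.pderiv 0 g) ≠ 0) →
      S.card ≤ (2 * f.support.card - 1) * (2 * g.support.card - 1)) ∧
    (∀ m₁ m₂ : ℕ, 1 ≤ m₁ → 1 ≤ m₂ →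
      ∃ f g : MvPolynomial (Fin 2) ℝ, f.support.card = m₁ ∧ g.support.card = m₂ ∧
        ∃ S : Finset (Fin 2 → ℝ), S.card = (2 * m₁ - 1) * (2 * m₂ - 1) ∧
          ∀ p ∈ S, MvPolynomial.eval p f = 0 ∧ MvPolynomial.eval p g = 0 ∧
            MvPolynomial.eval p (MvPolynomial.pderiv 0 f) * MvPolynomial.eval p (MvPolynomial.pderiv 1 g) -
              MvPolynomial.eval p (MvPolynomial.pderiv 1 f) * MvPolynomial.eval p (MvPolynomial.pderiv 0 g) ≠ 0)) := by
  rintro ⟨hbound, -⟩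
  obtain ⟨k, hk1, hk2, hk3⟩ := exists_reg
  obtain ⟨a, hm, ha⟩ := zeros hk1 hk2
  have hinj := pt_inj hm (fun i => ⟨(ha i).1, (ha i).2.1⟩)
  have hcard : ((Finset.univ : Finset Idx).map ⟨pt a, hinj⟩).card = 36 := by
    rw [Finset.card_map]
    simp
  have := hbound FF (GG k) ((Finset.univ : Finset Idx).map ⟨pt a, hinj⟩) (by
    intro p hp
    obtain ⟨q, -, rfl⟩ := Finset.mem_map.1 hp
    exact pt_good (by linarith) hk3 ha q)
  rw [hcard] at this
  have h3 := FF_card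
  have h4 := GG_card k
  have h5 : (2 * FF.support.card - 1) * (2 * (GG k).support.card - 1) ≤ 5 * 7 :=
    Nat.mul_le_mul (by omega) (by omega)
  omega

end Pool.Agent.S00046
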