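import Pool.Statements.S01299
import Pool.Agent.H.MP_405479_al.TypeThree

set_option autoImplicit false
open Pool Pool.MP_405479_al

namespace Pool.Agent.S01299

open Polynomial Pool.Agent.H.MP_405479_al

/-- Lifting a polynomial to a subalgebra containing its coefficients. -/
lemma exists_lift {A : Type} [CommRing A] [Algebra ℚ A] (B : Subalgebra ℚ A) (q : A[X])
    (hq : ∀ i, q.coeff i ∈ B) : ∃ q0 : B[X], q0.map B.val.toRingHom = q := by
  have h : q ∈ lifts B.val.toRingHom := by
    rw [lifts_iff_coeff_lifts]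
    intro i
    exact ⟨⟨_, hq i⟩, rfl⟩
  exact (mem_lifts q).mp h

theorem result :
    ∀ (A : Type) [CommRing A] [Algebra ℚ A] (c : A) (a : Polynomial A) (f g : Polynomial A),
      (∀ m : ℕ, 1 ≤ m →
        ∃ h : Polynomial A, Polynomial.C c * Polynomial.derivative h - a * h = f ^ m) →
      ∃ N : ℕ, ∀ m : ℕ, N ≤ m →
        ∃ h : Polynomial A, Polynomial.C c * Polynomial.derivative h - a * h = g * f ^ m := by
  intro A _ _ c a f g hyp
  -- a suitable prime
  obtain ⟨p, hp, hlt, hmod⟩ := Nat.exists_prime_gt_modEq_one (k := f.natDegree.factorial)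
    (a.natDegree + 1) (Nat.factorial_ne_zero _)
  have : Fact p.Prime := ⟨hp⟩
  have hdiv : ∀ n, 1 ≤ n → n ≤ f.natDegree → n ∣ p - 1 := by
    intro n hn1 hn2
    have h1 : f.natDegree.factorial ∣ p - 1 := (Nat.modEq_iff_dvd' hp.one_lt.le).mp hmod.symm
    exact (Nat.dvd_factorial hn1 hn2).trans h1
  -- choose the solutions
  choose h hh using fun m : ℕ => fun hm : 1 ≤ m => hyp m hm
  let H : ℕ → A[X] := fun m => if hm : 1 ≤ m then h m hm else 0
  have hH : ∀ m, 1 ≤ m → C c * derivative (H m) - a * H m = f ^ m := by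
    intro m hm
    simp only [H, dif_pos hm]
    exact hh m hm
  -- a finitely generated subalgebra
  let s : Set A := {c} ∪ ((a.coeffs : Set A) ∪ (f.coeffs : Set A) ∪ (g.coeffs : Set A)) ∪
    ⋃ m ∈ Finset.range (p + 1), ((H m).coeffs : Set A)
  have hs : s.Finite := by
    refine Set.Finite.union (Set.Finite.union (Set.finite_singleton _) ?_) ?_
    · exact ((Finset.finite_toSet _).union (Finset.finite_toSet _)).union (Finset.finite_toSet _)
    · exact Set.Finite.biUnion (Finset.finite_toSet _) fun _ _ => Finset.finite_toSet _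
  let B : Subalgebra ℚ A := Algebra.adjoin ℚ s
  have hBfg : B.FG := ⟨hs.toFinset, by rw [Set.Finite.coe_toFinset]⟩
  have hft : Algebra.FiniteType ℚ B := (Subalgebra.fg_iff_finiteType B).mp hBfg
  have hnoeth : IsNoetherianRing B := Algebra.FiniteType.isNoetherianRing ℚ B
  have hsB : ∀ z ∈ s, z ∈ B := fun z hz => Algebra.subset_adjoin hz
  have hcoef : ∀ q : A[X], (q.coeffs : Set A) ⊆ s → ∀ i, q.coeff i ∈ B := by
    intro q hq i
    by_cases h0 : q.coeff i = 0
    · rw [h0]; exact B.zero_mem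
    · exact hsB _ (hq (coeff_mem_coeffs h0))
  obtain ⟨a0, ha0⟩ := exists_lift B a (hcoef a fun z hz => Or.inl (Or.inr (Or.inl (Or.inl hz))))
  obtain ⟨f0, hf0⟩ := exists_lift B f (hcoef f fun z hz => Or.inl (Or.inr (Or.inl (Or.inr hz))))
  obtain ⟨g0, hg0⟩ := exists_lift B g (hcoef g fun z hz => Or.inl (Or.inr (Or.inr hz)))
  have hHl : ∀ m, m ≤ p → ∃ q0 : B[X], q0.map B.val.toRingHom = H m := by
    intro m hm
    refine exists_lift B (H m) (hcoef (H m) fun z hz => Or.inr ?_)
    exact Set.mem_biUnion (Finset.mem_coe.mpr (Finset.mem_range.mpr (Nat.lt_succ_of_le hm))) hz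
  let c0 : B := ⟨c, hsB c (Or.inl (Or.inl rfl))⟩
  have hc0 : B.val.toRingHom c0 = c := rfl
  have hinj : Function.Injective B.val.toRingHom := Subtype.val_injective
  have hpinj : Function.Injective (Polynomial.map B.val.toRingHom) :=
    Polynomial.map_injective _ hinj
  have hpow : ∀ m, 1 ≤ m → m ≤ p → ∃ h0, Dop c0 a0 h0 = f0 ^ m := by
    intro m hm1 hm2
    obtain ⟨h0, hh0⟩ := hHl m hm2
    refine ⟨h0, hpinj ?_⟩
    rw [Dop_map, hc0, ha0, hh0, Polynomial.map_pow, hf0]
    exact hH m hm1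
  have hadeg : a0.natDegree = a.natDegree := by
    rw [← ha0, natDegree_map_eq_of_injective hinj]
  have hfdeg : f0.natDegree = f.natDegree := by
    rw [← hf0, natDegree_map_eq_of_injective hinj]
  obtain ⟨N, hN⟩ := noetherian_case p c0 a0 f0 g0 (by rw [hadeg]; exact hlt)
    (by rw [hfdeg]; exact hdiv) hpow
  refine ⟨N, fun m hm => ?_⟩
  obtain ⟨u, hu⟩ := hN m hm
  refine ⟨u.map B.val.toRingHom, ?_⟩
  have h1 := congrArg (Polynomial.map B.val.toRingHom) hu
  rw [Dop_map, hc0, ha0, Polynomial.map_mul, Polynomial.map_pow, hf0, hg0] at h1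
  exact h1

end Pool.Agent.S01299
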