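import Pool.Statements.S01444
import Pool.Agent.H.MP_50b7e0_al.Main

set_option autoImplicit false
open Pool Pool.MP_50b7e0_al

namespace Pool.Agent.S01444

/-- The negation of the preceding statement: Every finite magma satisfying x = y◇(x◇((y◇x)◇y)) for all x, y also satisfies x = ((x◇x)◇x)◇x for all x. -/
theorem result :
    ¬ (∀ (G : Type) [Finite G] (op : G → G → G),
      (∀ x y : G, x = op y (op x (op (op y x) y))) →
        ∀ x : G, x = op (op (op x x) x) x) :=
  Pool.Agent.H.MP50b7e0.main

end Pool.Agent.S01444
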