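import Pool.Statements.S01820
import Pool.Agent.H.MP_6c6198_al.Model

set_option autoImplicit false
open Pool Pool.MP_6c6198_al

namespace Pool.Agent.S01820

/-- The negation of the preceding statement: If A is an abelian minimal normal subgroup of a group G and G/A is soluble of finite rank (every finitely generated subgroup needs at most r generators), then for some prime p every element of A has order dividing p. -/
theorem result :
    ¬ (∀ (G : Type) [Group G] (A : Subgroup G) [A.Normal],
      A ≠ ⊥ →
      (∀ x ∈ A, ∀ y ∈ A, x * y = y * x) →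
      (∀ N : Subgroup G, N.Normal → N ≤ A → N = ⊥ ∨ N = A) →
      IsSolvable (G ⧸ A) →
      (∃ r : ℕ, ∀ s : Finset (G ⧸ A), ∃ t : Finset (G ⧸ A),
          t.card ≤ r ∧ Subgroup.closure (t : Set (G ⧸ A)) = Subgroup.closure (s : Set (G ⧸ A))) →
      ∃ p : ℕ, p.Prime ∧ ∀ a ∈ A, a ^ p = 1) := by
  exact Pool.Agent.H.MP_6c6198.not_stmt

end Pool.Agent.S01820
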