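import Pool.Statements.S02014
import Pool.Agent.H.MP_7a18c0_al.Concrete

set_option autoImplicit false
open Pool Pool.MP_7a18c0_al

namespace Pool.Agent.S02014

/-- The negation of the preceding statement: For every n and every torsion-free group G in which each subgroup is joined to G by a chain of n subgroups, each normal in the next, the n-th term of the upper central series is G, so G is nilpotent of class at most n. -/
theorem result :
    ¬ (∀ (n : ℕ) (G : Type) [Group G],
    (∀ g : G, ∀ k : ℕ, 0 < k → g ^ k = 1 → g = 1) →
    (∀ H : Subgroup G, ∃ f : ℕ → Subgroup G, f 0 = H ∧ f n = ⊤ ∧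
        ∀ i, i < n → f i ≤ f (i + 1) ∧ ((f i).subgroupOf (f (i + 1))).Normal) →
    upperCentralSeries G n = ⊤) := by
  intro h
  obtain ⟨G, hG, h1, h2, h3⟩ := Pool.Agent.H.MP_7a18c0_al.theData.final
  exact h3 (@h 9 G hG h1 h2)

end Pool.Agent.S02014
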