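import Pool.Statements.S02574
import Pool.Agent.H.MP_a47eec_al.Main

set_option autoImplicit false
open Pool Pool.MP_a47eec_al

namespace Pool.Agent.S02574

/-- The negation of the preceding statement: Over a char-0 field, any three identities of the split octonions, evaluated in any alternative algebra at any substitution, satisfy (fg)h = f(gh); i.e. the ideal of such identities in the free alternative algebra is associative. -/
theorem result :
    ¬ (∀ (F : Type) [Field F] [CharZero F]
    (C : Type) [NonUnitalNonAssocRing C] [Module F C] [IsScalarTower F C C] [SMulCommClass F C C]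
    (e : (Matrix (Fin 2) (Fin 2) F × Matrix (Fin 2) (Fin 2) F) ≃ₗ[F] C),
    (∀ x y : Matrix (Fin 2) (Fin 2) F × Matrix (Fin 2) (Fin 2) F,
      e (x.1 * y.1 + Matrix.adjugate y.2 * x.2, y.2 * x.1 + x.2 * Matrix.adjugate y.1) = e x * e y) →
    ∀ f g h : FreeMagma ℕ →₀ F,
      (∀ ψ : ℕ → C, f.sum (fun m c => c • FreeMagma.lift ψ m) = 0) →
      (∀ ψ : ℕ → C, g.sum (fun m c => c • FreeMagma.lift ψ m) = 0) →
      (∀ ψ : ℕ → C, h.sum (fun m c => c • FreeMagma.lift ψ m) = 0) →
      ∀ (B : Type) [NonUnitalNonAssocRing B] [Module F B] [IsScalarTower F B B] [SMulCommClass F B B],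
        (∀ x y : B, (x * x) * y = x * (x * y) ∧ (y * x) * x = y * (x * x)) →
        ∀ φ : ℕ → B,
          (f.sum (fun m c => c • FreeMagma.lift φ m) * g.sum (fun m c => c • FreeMagma.lift φ m))
              * h.sum (fun m c => c • FreeMagma.lift φ m) =
          f.sum (fun m c => c • FreeMagma.lift φ m)
              * (g.sum (fun m c => c • FreeMagma.lift φ m) * h.sum (fun m c => c • FreeMagma.lift φ m))) := by
  intro H
  refine Pool.Agent.H.MP_a47eec_al.key_ne ?_
  exact H ℚ Pool.Agent.H.MP_a47eec_al.Oct Pool.Agent.H.MP_a47eec_al.Oct.e (fun _ _ => rfl)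
    (Pool.Agent.H.MP_a47eec_al.skew 0) (Pool.Agent.H.MP_a47eec_al.skew 1)
    (Pool.Agent.H.MP_a47eec_al.skewMul 2 27)
    (Pool.Agent.H.MP_a47eec_al.skew_zero 0) (Pool.Agent.H.MP_a47eec_al.skew_zero 1)
    (Pool.Agent.H.MP_a47eec_al.skewMul_zero 2 27)
    (Pool.Agent.H.MP_a47eec_al.Alt 27)
    (fun x y => ⟨Pool.Agent.H.MP_a47eec_al.Alt.left_alt x y,
      Pool.Agent.H.MP_a47eec_al.Alt.right_alt x y⟩)
    Pool.Agent.H.MP_a47eec_al.phi

end Pool.Agent.S02574
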