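import Pool.Statements.S02604
import Pool.Agent.H.MP_a7957c_al.Frozen

set_option autoImplicit false
open Pool Pool.MP_a7957c_al

namespace Pool.Agent.S02604

/-- The negation of the preceding statement: For distinct n, m ≥ 2, the full box space of the rank-n free group (disjoint union of all its finite quotients with word metrics, components pushed apart) is coarsely equivalent to that of the rank-m free group. -/
theorem result :
    ¬ (∀ d : (k : ℕ) →
      ({N : Subgroup (FreeGroup (Fin k)) // N.Normal ∧ N.FiniteIndex} × FreeGroup (Fin k)) →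
      ({N : Subgroup (FreeGroup (Fin k)) // N.Normal ∧ N.FiniteIndex} × FreeGroup (Fin k)) → ℕ,
    (∀ (k : ℕ) (p q : {N : Subgroup (FreeGroup (Fin k)) // N.Normal ∧ N.FiniteIndex} × FreeGroup (Fin k)),
        p.1 = q.1 →
        d k p q = sInf {r : ℕ | ∃ g : FreeGroup (Fin k),
          g⁻¹ * p.2⁻¹ * q.2 ∈ p.1.val ∧ (FreeGroup.toWord g).length = r}) →
    (∀ (k : ℕ) (p q : {N : Subgroup (FreeGroup (Fin k)) // N.Normal ∧ N.FiniteIndex} × FreeGroup (Fin k)),
        p.1 ≠ q.1 → d k p q = p.1.val.index + q.1.val.index) →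
    ∀ n m : ℕ, 2 ≤ n → 2 ≤ m → n ≠ m →
      ∃ f : ({N : Subgroup (FreeGroup (Fin n)) // N.Normal ∧ N.FiniteIndex} × FreeGroup (Fin n)) →
            ({N : Subgroup (FreeGroup (Fin m)) // N.Normal ∧ N.FiniteIndex} × FreeGroup (Fin m)),
      ∃ h : ({N : Subgroup (FreeGroup (Fin m)) // N.Normal ∧ N.FiniteIndex} × FreeGroup (Fin m)) →
            ({N : Subgroup (FreeGroup (Fin n)) // N.Normal ∧ N.FiniteIndex} × FreeGroup (Fin n)),
        (∀ R : ℕ, ∃ S : ℕ, ∀ p q, d n p q ≤ R → d m (f p) (f q) ≤ S) ∧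
        (∀ R : ℕ, ∃ S : ℕ, ∀ p q, d m p q ≤ R → d n (h p) (h q) ≤ S) ∧
        (∃ C : ℕ, ∀ p, d n (h (f p)) p ≤ C) ∧
        (∃ C : ℕ, ∀ q, d m (f (h q)) q ≤ C)) := by
  intro H
  classical
  let T : ℕ → Type := fun k =>
    {N : Subgroup (FreeGroup (Fin k)) // N.Normal ∧ N.FiniteIndex} × FreeGroup (Fin k)
  let d : (k : ℕ) → T k → T k → ℕ := fun k p q =>
    if p.1 = q.1 then sInf {r : ℕ | ∃ g : FreeGroup (Fin k),
          g⁻¹ * p.2⁻¹ * q.2 ∈ p.1.val ∧ (FreeGroup.toWord g).length = r}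
    else p.1.val.index + q.1.val.index
  have hd1 : ∀ (k : ℕ) (p q : T k), p.1 = q.1 → d k p q =
      sInf {r : ℕ | ∃ g : FreeGroup (Fin k),
          g⁻¹ * p.2⁻¹ * q.2 ∈ p.1.val ∧ (FreeGroup.toWord g).length = r} := by
    intro k p q h
    exact if_pos h
  have hd2 : ∀ (k : ℕ) (p q : T k), p.1 ≠ q.1 → d k p q = p.1.val.index + q.1.val.index := by
    intro k p q h
    exact if_neg h
  have hbox : ∀ k : ℕ, Pool.Agent.H.MP_a7957c_al.BoxClose k (fun R p q => d k p q ≤ R) := by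
    intro k
    refine ⟨?_, ?_⟩
    · intro R N a b
      rw [hd1 k (N, a) (N, b) rfl]
      have hne : {r : ℕ | ∃ g : FreeGroup (Fin k),
          g⁻¹ * a⁻¹ * b ∈ N.val ∧ (FreeGroup.toWord g).length = r}.Nonempty := by
        refine ⟨_, a⁻¹ * b, ?_, rfl⟩
        have : (a⁻¹ * b)⁻¹ * a⁻¹ * b = 1 := by group
        rw [this]
        exact N.val.one_mem
      constructor
      · intro h
        obtain ⟨g, hg, hr⟩ := Nat.sInf_mem hne
        exact ⟨g, le_trans (le_of_eq hr) h, hg⟩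
      · rintro ⟨g, hg, hm⟩
        exact le_trans (Nat.sInf_le ⟨g, hm, rfl⟩) hg
    · intro R
      refine ⟨_, Pool.Agent.H.MP_a7957c_al.normal_index_le_finite k R, ?_⟩
      intro p q h hne
      have h' : d k p q ≤ R := h
      rw [hd2 k p q hne] at h'
      constructor
      · show p.1.val.index ≤ R
        omega
      · show q.1.val.index ≤ R
        omega
  obtain ⟨f, h, hf, hh, hhf, hfh⟩ := H d hd1 hd2 2 3 le_rfl (by norm_num) (by norm_num)
  exact Pool.Agent.H.MP_a7957c_al.core (n := 2) (m := 3) (by norm_num) (hbox 3) (hbox 2) h f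
    hh hf hfh hhf

end Pool.Agent.S02604
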