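import Pool.Statements.S02695
import Pool.Agent.H.MP_aed2d0_al.Bounds
import Pool.Agent.H.MP_aed2d0_al.Limit

set_option autoImplicit false
open Pool Pool.MP_aed2d0_al

namespace Pool.Agent.S02695

open Pool.Agent.H.MP_aed2d0_al

/-- The explicit limit for `k ≥ 2`. -/
theorem limit_two (F : Type) [Field F] [CharZero F] (k : ℕ) (hk : 2 ≤ k) :
    Filter.Tendsto (fun n : ℕ =>
          (Module.finrank F (Submodule.span F (Set.range (fun σ : Equiv.Perm (Fin n) =>
              fun x : Fin n → Matrix (Fin k) (Fin k) F =>
                Submodule.mkQ (Subalgebra.toSubmodule (Subalgebra.center F (Matrix (Fin k) (Fin k) F)))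
                  (List.ofFn (fun i => x (σ i))).prod))) : ℝ) /
          (Module.finrank F (Submodule.span F (Set.range (fun σ : Equiv.Perm (Fin n) =>
              fun x : Fin n → Matrix (Fin k) (Fin k) F =>
                (List.ofFn (fun i => x (σ i))).prod))) : ℝ))
          Filter.atTop (nhds (1 - 1 / ((k : ℝ) ^ 2))) := by
  have hk1 : 1 ≤ k := by omega
  have hkr : (2 : ℝ) ≤ k := by exact_mod_cast hk
  -- the denominators
  have hc : ∀ n, Module.finrank F (Submodule.span F (Set.range (fun σ : Equiv.Perm (Fin n) =>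
              fun x : Fin n → Matrix (Fin k) (Fin k) F =>
                (List.ofFn (fun i => x (σ i))).prod))) = Module.finrank ℚ (VQ k n) := by
    intro n
    have h1 := finrank_words (k := k) (n := n) (F := F)
      (LinearMap.id : Matrix (Fin k) (Fin k) F →ₗ[F] Matrix (Fin k) (Fin k) F)
    simp only [LinearMap.id_coe, id_eq] at h1
    rw [h1, c_transfer]
    rfl
  have hz : ∀ n, (Module.finrank F (Submodule.span F (Set.range (fun σ : Equiv.Perm (Fin n) =>
              fun x : Fin n → Matrix (Fin k) (Fin k) F =>
                Submodule.mkQ (Subalgebra.toSubmodule (Subalgebra.center F (Matrix (Fin k) (Fin k) F)))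
                  (List.ofFn (fun i => x (σ i))).prod))) : ℝ) =
      (Module.finrank ℚ (VQ k n) : ℝ) - (del k n : ℝ) := by
    intro n
    rw [finrank_center hk1, z_transfer]
    have h1 := zn_add_del k n
    rw [← h1]
    push_cast
    ring
  simp only [hc, hz]
  set B : ℝ := (k : ℝ) ^ 2 - 1 with hB
  have hBcast : ((k * k - 1 : ℕ) : ℝ) = B := by
    have : 1 ≤ k * k := Nat.mul_pos (by omega) (by omega)
    rw [Nat.cast_sub this, hB]
    push_cast
    ring
  have hBpos : 0 < B := by rw [hB]; nlinarith
  have hpos : ∀ n, (0 : ℝ) < (tdim k n : ℝ) := fun n => by exact_mod_cast tdim_pos k hk1 n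
  have hlc : ∀ n, (tdim k (n + 1) : ℝ) ^ 2 ≤ (tdim k n : ℝ) * (tdim k (n + 2) : ℝ) := fun n => by
    exact_mod_cast tdim_logconvex k n
  have hup : ∀ n, (tdim k n : ℝ) ≤ ((k : ℝ) ^ 2) ^ n := fun n => by
    exact_mod_cast tdim_le k n
  have hlow : ∀ n : ℕ, ((k : ℝ) ^ 2) ^ n ≤ (tdim k n : ℝ) * ((n : ℝ) + 1) ^ (k * k) := fun n => by
    exact_mod_cast tdim_growth k n
  have hlim := ratio_limit (fun n => (tdim k n : ℝ)) hpos hlc ((k : ℝ) ^ 2) (by positivity)
    hup (k * k) hlow
  refine final_limit (fun n => (tdim k n : ℝ)) _ _ hpos ((k : ℝ) ^ 2) B hBpos (by rw [hB]; linarith)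
    (k * k + k * k) (k * k) hlim hlow ?_ ?_ ?_ ?_
  · intro n
    exact_mod_cast VQ_le k n
  · intro n
    rw [← hBcast]
    exact_mod_cast VQ_ge k n hk
  · intro n
    exact_mod_cast del_le k n hk1
  · intro n
    rw [← hBcast]
    exact_mod_cast del_ge k n hk

/-- For every characteristic-zero field F and k ≥ 1, the ratio of central codimensions to ordinary codimensions of k×k matrices over F converges to some real limit between 0 and 1 as n goes to infinity. -/
theorem result :
    ∀ (F : Type) [Field F] [CharZero F] (k : ℕ), 1 ≤ k →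
      ∃ α : ℝ, 0 ≤ α ∧ α ≤ 1 ∧
        Filter.Tendsto (fun n : ℕ =>
          (Module.finrank F (Submodule.span F (Set.range (fun σ : Equiv.Perm (Fin n) =>
              fun x : Fin n → Matrix (Fin k) (Fin k) F =>
                Submodule.mkQ (Subalgebra.toSubmodule (Subalgebra.center F (Matrix (Fin k) (Fin k) F)))
                  (List.ofFn (fun i => x (σ i))).prod))) : ℝ) /
          (Module.finrank F (Submodule.span F (Set.range (fun σ : Equiv.Perm (Fin n) =>
              fun x : Fin n → Matrix (Fin k) (Fin k) F =>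
                (List.ofFn (fun i => x (σ i))).prod))) : ℝ))
          Filter.atTop (nhds α) := by
  intro F _ _ k hk
  by_cases hk2 : 2 ≤ k
  · refine ⟨1 - 1 / ((k : ℝ) ^ 2), ?_, ?_, limit_two F k hk2⟩
    · have hkr : (2 : ℝ) ≤ k := by exact_mod_cast hk2
      have : 1 / ((k : ℝ) ^ 2) ≤ 1 := by
        rw [div_le_one (by positivity)]
        nlinarith
      linarith
    · have : (0 : ℝ) ≤ 1 / ((k : ℝ) ^ 2) := by positivity
      linarith
  · have hk1 : k = 1 := by omega
    subst hk1
    refine ⟨0, le_refl _, zero_le_one, ?_⟩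
    have hz : ∀ n : ℕ, Module.finrank F (Submodule.span F (Set.range
        (fun σ : Equiv.Perm (Fin n) =>
              fun x : Fin n → Matrix (Fin 1) (Fin 1) F =>
                Submodule.mkQ (Subalgebra.toSubmodule (Subalgebra.center F (Matrix (Fin 1) (Fin 1) F)))
                  (List.ofFn (fun i => x (σ i))).prod))) = 0 := by
      intro n
      rw [finrank_center le_rfl]
      have h0 : Submodule.span F (Set.range (fun σ : Equiv.Perm (Fin n) =>
          fun w : Fin n → Fin 1 × Fin 1 =>
            tz 1 F (List.ofFn (fun i => ewF F w (σ i))).prod)) = ⊥ := by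
        rw [Submodule.span_eq_bot]
        rintro _ ⟨σ, rfl⟩
        funext w
        change tz 1 F (List.ofFn (fun i => ewF F w (σ i))).prod = 0
        rw [tz_apply]
        ext a b
        have ha : a = 0 := Subsingleton.elim _ _
        have hb : b = 0 := Subsingleton.elim _ _
        subst ha
        subst hb
        simp [Matrix.trace]
      rw [h0]
      exact finrank_bot F _
    simp only [hz, Nat.cast_zero, zero_div]
    exact tendsto_const_nhds

end Pool.Agent.S02695
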