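import Pool.Statements.S02958
import Pool.Agent.H.MP_c12e41_al.Lamp

set_option autoImplicit false
open Pool Pool.MP_c12e41_al

namespace Pool.Agent.S02958

open Pool.Agent.H.MP_c12e41_al

/-- the rational group algebra of the lamplighter group -/
abbrev R := MonoidAlgebra ℚ Lamp

noncomputable def T (s : ℤ) : R := MonoidAlgebra.of ℚ Lamp (tt s)
noncomputable def A (i : ℤ) : R := MonoidAlgebra.of ℚ Lamp (aa i)
noncomputable def e (i : ℤ) : R := (1 / 2 : ℚ) • (1 + A i)

lemma T_mul (r s : ℤ) : T r * T s = T (r + s) := by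
  unfold T; rw [← map_mul, tt_mul]

lemma A_sq (i : ℤ) : A i * A i = 1 := by
  unfold A; rw [← map_mul, aa_mul_self, map_one]

lemma A_comm (i j : ℤ) : A i * A j = A j * A i := by
  unfold A; rw [← map_mul, ← map_mul, aa_comm]

lemma T_A (s i : ℤ) : T s * A i = A (i - s) * T s := by
  unfold A T; rw [← map_mul, ← map_mul, tt_mul_aa]

lemma e_idem (i : ℤ) : e i * e i = e i := by
  unfold e
  rw [smul_mul_smul_comm]
  have : (1 + A i) * (1 + A i) = (2 : ℚ) • (1 + A i) := by
    rw [add_mul, mul_add, mul_add, A_sq, two_smul]; simp; abel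
  rw [this, smul_smul]; norm_num

lemma e_comm (i j : ℤ) : e i * e j = e j * e i := by
  unfold e
  rw [smul_mul_smul_comm, smul_mul_smul_comm]
  congr 1
  rw [add_mul, mul_add, mul_add, add_mul, mul_add, mul_add, A_comm]; simp; abel

lemma T_e (s i : ℤ) : T s * e i = e (i - s) * T s := by
  unfold e
  rw [mul_smul_comm, smul_mul_assoc, mul_add, add_mul, T_A]; simp

noncomputable def alpha : R := T 1 * e 0 + e 0 * T (-1)

lemma T_alpha (s : ℤ) : T s * alpha = e (-s - 1) * T (s + 1) + e (-s) * T (s - 1) := by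
  unfold alpha
  rw [mul_add, ← mul_assoc, T_mul, T_e, ← mul_assoc, T_e, mul_assoc, T_mul]
  congr 3 <;> ring

/-- product of the idempotents -/
noncomputable def E : ℕ → R
  | 0 => 1 - e (-1)
  | k + 1 => E k * e k

lemma E_neg (k : ℕ) : E k * e (-1) = 0 := by
  induction k with
  | zero => simp [E, sub_mul, e_idem]
  | succ k ih => rw [E, mul_assoc, e_comm, ← mul_assoc, ih, zero_mul]

lemma E_e (k i : ℕ) (h : i < k) : E k * e (i : ℤ) = E k := by
  induction k with
  | zero => omega
  | succ k ih =>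
    rcases Nat.lt_succ_iff_lt_or_eq.1 h with h' | rfl
    · rw [E, mul_assoc, e_comm, ← mul_assoc, ih h']
    · rw [E, mul_assoc, e_idem]

lemma E_comm (k : ℕ) (j : ℤ) : E k * e j = e j * E k := by
  induction k with
  | zero => simp [E, sub_mul, mul_sub, e_comm]
  | succ k ih => rw [E, mul_assoc, e_comm, ← mul_assoc, ih, mul_assoc]

noncomputable def Sm (k : ℕ) : R := ∑ j ∈ Finset.range k, (-1 : ℚ) ^ j • T (-2 * (j : ℤ))

lemma partial_sum (m k : ℕ) (hk : 1 ≤ k) (hkm : k ≤ m) :
    E (2 * m) * (Sm k * alpha) = (-1 : ℚ) ^ (k - 1) • (E (2 * m) * T (-2 * (k : ℤ) + 1)) := by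
  induction k with
  | zero => omega
  | succ k ih =>
    rcases Nat.eq_zero_or_pos k with rfl | hpos
    · simp only [Sm, zero_add, Finset.range_one, Finset.sum_singleton, pow_zero, one_smul]
      rw [T_alpha, mul_add, ← mul_assoc, ← mul_assoc]
      have h1 := E_neg (2 * m)
      have h2 := E_e (2 * m) 0 (by omega)
      norm_num at h1 h2 ⊢
      rw [h1, h2]
      simp
    · have ih' := ih hpos (by omega)
      have hs : Sm (k + 1) = Sm k + (-1 : ℚ) ^ k • T (-2 * (k : ℤ)) := by
        simp [Sm, Finset.sum_range_succ]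
      rw [hs, add_mul, mul_add, ih', smul_mul_assoc, mul_smul_comm, T_alpha, mul_add, ← mul_assoc,
        ← mul_assoc]
      have h1 := E_e (2 * m) (2 * k - 1) (by omega)
      have h2 := E_e (2 * m) (2 * k) (by omega)
      have e1 : (-(-2 * (k : ℤ)) - 1) = ((2 * k - 1 : ℕ) : ℤ) := by
        rw [Nat.cast_sub (by omega)]; push_cast; ring
      have e2 : (-(-2 * (k : ℤ))) = ((2 * k : ℕ) : ℤ) := by push_cast; ring
      rw [e1, e2, h1, h2, smul_add, ← add_assoc]
      have hsgn : (-1 : ℚ) ^ k = -((-1 : ℚ) ^ (k - 1)) := by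
        obtain ⟨l, rfl⟩ : ∃ l, k = l + 1 := ⟨k - 1, by omega⟩
        simp [pow_succ]
      have hcancel : (-1 : ℚ) ^ (k - 1) • (E (2 * m) * T (-2 * (k : ℤ) + 1)) +
          (-1 : ℚ) ^ k • (E (2 * m) * T (-2 * (k : ℤ) + 1)) = 0 := by
        rw [← add_smul, hsgn]; simp
      rw [hcancel, zero_add]
      have e3 : -2 * ((k : ℤ)) - 1 = -2 * ((k + 1 : ℕ) : ℤ) + 1 := by push_cast; ring
      rw [e3]; simp

noncomputable def gam (m : ℕ) : R := (E (2 * m) * (1 - e ((2 * m : ℕ) : ℤ))) * Sm (m + 1)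

lemma gam_alpha (m : ℕ) (hm : 1 ≤ m) : gam m * alpha = 0 := by
  have hcomm : E (2 * m) * (1 - e ((2 * m : ℕ) : ℤ)) = (1 - e ((2 * m : ℕ) : ℤ)) * E (2 * m) := by
    rw [mul_sub, sub_mul, E_comm]; simp
  have hs : Sm (m + 1) = Sm m + (-1 : ℚ) ^ m • T (-2 * (m : ℤ)) := by
    simp [Sm, Finset.sum_range_succ]
  unfold gam
  rw [hcomm, mul_assoc, mul_assoc, hs, add_mul, mul_add, partial_sum m m hm le_rfl,
    smul_mul_assoc, mul_smul_comm, T_alpha, mul_add (E (2 * m)), ← mul_assoc (E (2 * m)),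
    ← mul_assoc (E (2 * m))]
  have h1 := E_e (2 * m) (2 * m - 1) (by omega)
  have e1 : (-(-2 * (m : ℤ)) - 1) = ((2 * m - 1 : ℕ) : ℤ) := by
    rw [Nat.cast_sub (by omega)]; push_cast; ring
  have e2 : (-(-2 * (m : ℤ))) = ((2 * m : ℕ) : ℤ) := by push_cast; ring
  rw [e1, e2, h1, smul_add, ← add_assoc]
  have hsgn : (-1 : ℚ) ^ m = -((-1 : ℚ) ^ (m - 1)) := by
    obtain ⟨l, rfl⟩ : ∃ l, m = l + 1 := ⟨m - 1, by omega⟩
    simp [pow_succ]
  have hcancel : (-1 : ℚ) ^ (m - 1) • (E (2 * m) * T (-2 * (m : ℤ) + 1)) +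
      (-1 : ℚ) ^ m • (E (2 * m) * T (-2 * (m : ℤ) + 1)) = 0 := by
    rw [← add_smul, hsgn]; simp
  rw [hcancel, zero_add, mul_smul_comm, E_comm, ← mul_assoc, ← mul_assoc]
  rw [sub_mul, e_idem]
  simp

/-- the representation with walls at `u` and `v` -/
noncomputable def act (u v : ℤ) : Lamp →* Module.End ℚ (ℤ → ℚ) where
  toFun g :=
    { toFun := fun φ m => sg (g.lamps (u - m) + g.lamps (v - m)) * φ (m - g.shift)
      map_add' := by intro φ ψ; funext m; simp [mul_add]
      map_smul' := by intro c φ; funext m; simp; ring }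
  map_one' := by
    apply LinearMap.ext; intro φ; funext m
    simp [sg]
  map_mul' := by
    intro g h
    apply LinearMap.ext; intro φ; funext m
    simp only [LinearMap.coe_mk, AddHom.coe_mk, Module.End.mul_apply, Lamp.mul_lamps,
      Lamp.mul_shift]
    rw [← mul_assoc, ← sg_add]
    congr 2
    · rw [show u - m + g.shift = u - (m - g.shift) by ring,
        show v - m + g.shift = v - (m - g.shift) by ring]
      ring
    · ring

lemma act_apply (u v : ℤ) (g : Lamp) (φ : ℤ → ℚ) (m : ℤ) :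
    act u v g φ m = sg (g.lamps (u - m) + g.lamps (v - m)) * φ (m - g.shift) := rfl

noncomputable def rho (u v : ℤ) : R →ₐ[ℚ] Module.End ℚ (ℤ → ℚ) :=
  MonoidAlgebra.lift ℚ _ Lamp (act u v)

lemma rho_of (u v : ℤ) (g : Lamp) : rho u v (MonoidAlgebra.of ℚ Lamp g) = act u v g := by
  simp [rho]

lemma rho_T (u v s : ℤ) (φ : ℤ → ℚ) (m : ℤ) : rho u v (T s) φ m = φ (m - s) := by
  unfold T
  rw [rho_of, act_apply]
  simp [tt, sg]

lemma rho_e (u v : ℤ) (huv : u ≠ v) (i : ℤ) (φ : ℤ → ℚ) (m : ℤ) :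
    rho u v (e i) φ m = if (i = u - m ∨ i = v - m) then 0 else φ m := by
  have h1 : rho u v (e i) φ m = (1 / 2 : ℚ) * (φ m + act u v (aa i) φ m) := by
    unfold e A
    rw [map_smul, map_add, map_one, rho_of]
    simp [mul_add]
  rw [h1, act_apply]
  have h11 : (1 : ZMod 2) + 1 = 0 := by decide
  by_cases hu : i = u - m
  · have hv : i ≠ v - m := by omega
    subst hu
    have : (aa (u - m)).lamps (v - m) = 0 := by
      simp [aa, Finsupp.single_apply]; omega
    rw [this]
    simp [aa, sg]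
  · by_cases hv : i = v - m
    · subst hv
      have : (aa (v - m)).lamps (u - m) = 0 := by
        simp [aa, Finsupp.single_apply]; omega
      rw [this]
      simp [aa, sg]
    · have e1 : (aa i).lamps (u - m) = 0 := by simp [aa, hu]
      have e2 : (aa i).lamps (v - m) = 0 := by simp [aa, hv]
      rw [e1, e2]
      simp [hu, hv, sg, aa]
      ring

lemma rho_E (V : ℕ) (k : ℕ) (hk : k ≤ V) (φ : ℤ → ℚ) :
    rho (-1) (V : ℤ) (E k) φ 0 = φ 0 := by
  induction k generalizing φ with
  | zero =>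
    rw [E, map_sub, map_one, LinearMap.sub_apply, Pi.sub_apply, rho_e _ _ (by omega)]
    simp
  | succ k ih =>
    rw [E, map_mul, Module.End.mul_apply, ih (by omega), rho_e _ _ (by omega), if_neg]
    omega

lemma rho_gam (m : ℕ) (φ : ℤ → ℚ) :
    rho (-1) ((2 * m : ℕ) : ℤ) (gam m) φ 0 =
      ∑ j ∈ Finset.range (m + 1), (-1 : ℚ) ^ j * φ (2 * (j : ℤ)) := by
  unfold gam
  rw [map_mul, map_mul, Module.End.mul_apply, Module.End.mul_apply, rho_E _ _ le_rfl,
    map_sub, map_one, LinearMap.sub_apply, Pi.sub_apply, rho_e _ _ (by omega)]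
  simp only [sub_zero, or_true, if_true, Module.End.one_apply]
  unfold Sm
  rw [map_sum, LinearMap.sum_apply, Finset.sum_apply]
  refine Finset.sum_congr rfl fun j _ => ?_
  rw [map_smul, LinearMap.smul_apply, Pi.smul_apply, rho_T, smul_eq_mul]
  congr 2
  ring

lemma coeffT (k j : ℤ) :
    (LaurentPolynomial.T k : LaurentPolynomial ℚ).coeff j = if k = j then 1 else 0 := by
  unfold LaurentPolynomial.T
  rw [AddMonoidAlgebra.coeff_single, Finsupp.single_apply]

/-- forgetting the lamps -/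
noncomputable def prHom : Lamp →* LaurentPolynomial ℚ where
  toFun g := LaurentPolynomial.T g.shift
  map_one' := by simp
  map_mul' := by intro a b; rw [Lamp.mul_shift, LaurentPolynomial.T_add]

lemma prHom_apply (g : Lamp) : prHom g = LaurentPolynomial.T g.shift := rfl

/-- forgetting the lamps -/
noncomputable def pr : R →ₐ[ℚ] LaurentPolynomial ℚ :=
  MonoidAlgebra.lift ℚ _ Lamp prHom

lemma pr_of (g : Lamp) : pr (MonoidAlgebra.of ℚ Lamp g) = LaurentPolynomial.T g.shift := by
  unfold pr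
  rw [MonoidAlgebra.lift_of]
  rfl

lemma pr_alpha : pr alpha ≠ 0 := by
  have : pr alpha = LaurentPolynomial.T 1 + LaurentPolynomial.T (-1) := by
    unfold alpha e A T
    simp only [map_add, map_mul, map_smul, map_one, pr_of]
    simp only [tt, aa, LaurentPolynomial.T_zero]
    have h2 : ((1 / 2 : ℚ) • (1 + 1) : LaurentPolynomial ℚ) = 1 := by
      rw [← two_smul ℚ (1 : LaurentPolynomial ℚ), smul_smul]; norm_num
    rw [h2]; simp
  rw [this]
  intro h
  have h' := congrArg (fun p : LaurentPolynomial ℚ => p.coeff (1 : ℤ)) h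
  simp only [AddMonoidAlgebra.coeff_add, Finsupp.add_apply, coeffT] at h'
  norm_num at h'

lemma pr_eq_zero (b : R) (h : b * alpha = 0) : pr b = 0 := by
  have : pr b * pr alpha = 0 := by rw [← map_mul, h, map_zero]
  exact (mul_eq_zero.1 this).resolve_right pr_alpha

lemma far (u v n : ℤ) (b : R) (h : ∀ g ∈ b.coeff.support, g.lamps (u - (n + g.shift)) = 0 ∧
    g.lamps (v - (n + g.shift)) = 0) (hb : pr b = 0) :
    rho u v b (Pi.single n 1) = 0 := by
  funext m
  have h1 : rho u v b (Pi.single n 1) m = (pr b).coeff (m - n) := by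
    unfold rho pr
    rw [MonoidAlgebra.lift_apply, MonoidAlgebra.lift_apply, Finsupp.sum, Finsupp.sum,
      LinearMap.sum_apply, Finset.sum_apply, AddMonoidAlgebra.coeff_sum, Finsupp.finsetSum_apply]
    refine Finset.sum_congr rfl fun g hg => ?_
    obtain ⟨h1, h2⟩ := h g hg
    rw [LinearMap.smul_apply, Pi.smul_apply, act_apply]
    simp only [prHom_apply, AddMonoidAlgebra.coeff_smul, Finsupp.smul_apply, smul_eq_mul, coeffT]
    congr 1
    by_cases hm : m = n + g.shift
    · subst hm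
      rw [h1, h2]
      simp [sg]
    · have hm' : m - g.shift ≠ n := by omega
      rw [Pi.single_eq_of_ne hm', if_neg (by omega)]
      simp
  rw [h1, hb]; rfl

lemma exists_far (S : Finset Lamp) : ∃ J : ℕ, 1 ≤ J ∧ ∀ g ∈ S,
    g.lamps (-1 - (((2 * J : ℕ) : ℤ) + g.shift)) = 0 ∧
    g.lamps (((2 * (2 * J) : ℕ) : ℤ) - (((2 * J : ℕ) : ℤ) + g.shift)) = 0 := by
  have key : ∀ g : Lamp, ∀ᶠ J : ℕ in Filter.atTop,
      g.lamps (-1 - (((2 * J : ℕ) : ℤ) + g.shift)) = 0 ∧
      g.lamps (((2 * (2 * J) : ℕ) : ℤ) - (((2 * J : ℕ) : ℤ) + g.shift)) = 0 := by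
    intro g
    have hfin := g.lamps.hasFiniteSupport
    rw [← Nat.cofinite_eq_atTop]
    refine Filter.Eventually.and ?_ ?_
    · have hinj : Function.Injective (fun J : ℕ => (-1 - (((2 * J : ℕ) : ℤ) + g.shift))) := by
        intro a b hab; simp only at hab; omega
      have := (hfin.preimage hinj.injOn).eventually_cofinite_notMem
      filter_upwards [this] with J hJ
      simpa using hJ
    · have hinj : Function.Injective
          (fun J : ℕ => (((2 * (2 * J) : ℕ) : ℤ) - (((2 * J : ℕ) : ℤ) + g.shift))) := by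
        intro a b hab; simp only at hab; omega
      have := (hfin.preimage hinj.injOn).eventually_cofinite_notMem
      filter_upwards [this] with J hJ
      simpa using hJ
  have hall : ∀ᶠ J : ℕ in Filter.atTop, 1 ≤ J ∧ ∀ g ∈ S,
      g.lamps (-1 - (((2 * J : ℕ) : ℤ) + g.shift)) = 0 ∧
      g.lamps (((2 * (2 * J) : ℕ) : ℤ) - (((2 * J : ℕ) : ℤ) + g.shift)) = 0 :=
    (Filter.eventually_ge_atTop 1).and ((Filter.eventually_all_finset S).2 fun g _ => key g)
  exact hall.exists

/-- The negation of the preceding statement: For every field K, every group G and every element a of the group algebra K[G], the set of x with x·a = 0 equals the left ideal generated by some finite set of elements of K[G]. -/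
theorem result :
    ¬ (∀ (K : Type) [Field K] (G : Type) [Group G] (a : MonoidAlgebra K G),
      ∃ s : Finset (MonoidAlgebra K G),
        ((Submodule.span (MonoidAlgebra K G) (s : Set (MonoidAlgebra K G)) :
            Set (MonoidAlgebra K G)) = {x : MonoidAlgebra K G | x * a = 0})) := by
  intro hall
  obtain ⟨s, hs⟩ := hall ℚ Lamp alpha
  classical
  obtain ⟨J, hJ1, hJ⟩ := exists_far (s.biUnion fun b => b.coeff.support)
  have hkill : ∀ b ∈ s, rho (-1) ((2 * (2 * J) : ℕ) : ℤ) b
      (Pi.single ((2 * J : ℕ) : ℤ) 1) = 0 := by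
    intro b hb
    refine far _ _ _ b (fun g hg => hJ g (Finset.mem_biUnion.2 ⟨b, hb, hg⟩)) ?_
    apply pr_eq_zero
    have : b ∈ (Submodule.span (MonoidAlgebra ℚ Lamp) (s : Set (MonoidAlgebra ℚ Lamp)) :
      Set (MonoidAlgebra ℚ Lamp)) := Submodule.subset_span hb
    rw [hs] at this
    exact this
  have hg : gam (2 * J) ∈ (Submodule.span (MonoidAlgebra ℚ Lamp)
      (s : Set (MonoidAlgebra ℚ Lamp)) : Set (MonoidAlgebra ℚ Lamp)) := by
    rw [hs]
    exact gam_alpha (2 * J) (by omega)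
  have hzero : rho (-1) ((2 * (2 * J) : ℕ) : ℤ) (gam (2 * J))
      (Pi.single ((2 * J : ℕ) : ℤ) 1) = 0 := by
    have : ∀ x ∈ Submodule.span (MonoidAlgebra ℚ Lamp) (s : Set (MonoidAlgebra ℚ Lamp)),
        rho (-1) ((2 * (2 * J) : ℕ) : ℤ) x (Pi.single ((2 * J : ℕ) : ℤ) 1) = 0 := by
      intro x hx
      induction hx using Submodule.span_induction with
      | mem x h => exact hkill x h
      | zero => simp
      | add x y _ _ hx hy => rw [map_add, LinearMap.add_apply, hx, hy, add_zero]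
      | smul a x _ hx => rw [smul_eq_mul, map_mul, Module.End.mul_apply, hx, map_zero]
    exact this _ hg
  have h0 := congrFun hzero 0
  rw [rho_gam] at h0
  have h1 : ∑ j ∈ Finset.range (2 * J + 1),
      (-1 : ℚ) ^ j * (Pi.single ((2 * J : ℕ) : ℤ) (1 : ℚ) : ℤ → ℚ) (2 * (j : ℤ)) = (-1) ^ J := by
    rw [Finset.sum_eq_single J]
    · simp
    · intro j _ hj
      rw [Pi.single_eq_of_ne (by push_cast; omega)]; simp
    · intro h; exact absurd (Finset.mem_range.2 (by omega)) h
  rw [h1] at h0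
  simp at h0

end Pool.Agent.S02958
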