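import Pool.Statements.S03232
import Pool.Agent.H.MP_d9e773_al.helper54.NotOre

set_option autoImplicit false
open Pool Pool.MP_d9e773_al

namespace Pool.Agent.S03232

/-- The negation of the preceding statement: For every prime p and algebraically closed field k of characteristic p, every finitely generated connected Hopf domain over k of GK dimension 2 admits an iterated Hopf Ore extension structure (polynomial start, Ore steps with automorphisms, each stage a Hopf subalgebra). -/
theorem result :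
    ¬ (∀ (p : ℕ), p.Prime → ∀ (k : Type) [Field k] [IsAlgClosed k] [CharP k p]
    (H : Type) [Ring H] [IsDomain H] [HopfAlgebra k H],
    Algebra.FiniteType k H →
    (∀ C : Submodule k H, C ≠ ⊥ →
      (∀ c ∈ C, Coalgebra.comul (R := k) c ∈
        LinearMap.range (TensorProduct.map C.subtype C.subtype)) →
      (1 : H) ∈ C) →
    (∀ V : Submodule k H, FiniteDimensional k V → (1 : H) ∈ V →
      Algebra.adjoin k (V : Set H) = ⊤ →
      Filter.limsup (fun n : ℕ =>
        (((Real.log (Module.finrank k ↥(V ^ n) : ℝ)) / Real.log (n : ℝ) : ℝ) : EReal))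
        Filter.atTop = 2) →
    ∃ n : ℕ, 1 ≤ n ∧ ∃ X : ℕ → H, ∃ A : ℕ → Subalgebra k H,
      (∀ i, A i = Algebra.adjoin k (X '' {j | j < i})) ∧
      A n = ⊤ ∧
      (∀ i, 1 ≤ i → i ≤ n → ∀ a ∈ A i,
        Coalgebra.comul (R := k) a ∈
          LinearMap.range (TensorProduct.map (Subalgebra.toSubmodule (A i)).subtype
            (Subalgebra.toSubmodule (A i)).subtype) ∧
        HopfAlgebraStruct.antipode (R := k) a ∈ A i) ∧
      (∀ i, i < n →
        (∀ m : ℕ, ∀ c : ℕ → H, (∀ j, c j ∈ A i) →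
          ∑ j ∈ Finset.range m, c j * X i ^ j = 0 → ∀ j, j < m → c j = 0) ∧
        (∀ a ∈ A i, ∃ b ∈ A i, X i * a - b * X i ∈ A i) ∧
        (∀ b ∈ A i, ∃ a ∈ A i, X i * a - b * X i ∈ A i) ∧
        (∀ a ∈ A i, X i * a ∈ A i → a = 0))) := by
  intro H0
  have hft : Algebra.FiniteType (AlgebraicClosure (ZMod 2))
      (Pool.Agent.HopfTwo.HH (AlgebraicClosure (ZMod 2))) := by
    classical
    refine ⟨⟨{Pool.Agent.HopfTwo.HH.io (MvPolynomial.X 0),
      Pool.Agent.HopfTwo.HH.io (MvPolynomial.X 1), Pool.Agent.HopfTwo.HH.zz}, ?_⟩⟩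
    rw [← Pool.Agent.HopfTwo.HH.adjoin_eq_top]
    simp
  obtain ⟨n, hn, X, A, hA, htop, -, hore⟩ := H0 2 Nat.prime_two (AlgebraicClosure (ZMod 2))
    (Pool.Agent.HopfTwo.HH (AlgebraicClosure (ZMod 2))) hft
    (fun C hC h => Pool.Agent.HopfTwo.HH.connected C hC h)
    (fun V hV h1 h => Pool.Agent.HopfTwo.HH.gk V hV h1 h)
  have hfree := fun i (hi : i < n) => (hore i hi).1
  have hrel := fun i (hi : i < n) => (hore i hi).2.1
  rcases Nat.lt_or_ge n 3 with h3 | h3
  · interval_cases n
    · exact Pool.Agent.HopfTwo.HH.no_one X A hA htop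
    · exact Pool.Agent.HopfTwo.HH.no_two 2 X A hA hfree hrel rfl htop
  · exact Pool.Agent.HopfTwo.HH.no_three n X A hA hfree h3

end Pool.Agent.S03232
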