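import Pool.Statements.S03757
import Pool.Agent.H.MP_09f213_an.Final

set_option autoImplicit false
open Pool Pool.MP_09f213_an

namespace Pool.Agent.S03757

/-- If f on an open planar set has L² weak derivatives, its Hopf product f_z·conj(f_z̄) is weakly antiholomorphic-free (∂_z̄ of it is 0), and its Jacobian is ≥ 0 a.e., then ∣Df∣ agrees a.e. with a continuous function. -/
theorem result :
  ∀ (Ω : Set ℂ) (f fx fy : ℂ → ℂ), IsOpen Ω →
    MeasureTheory.LocallyIntegrableOn f Ω →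
    MeasureTheory.MemLp fx 2 (MeasureTheory.volume.restrict Ω) →
    MeasureTheory.MemLp fy 2 (MeasureTheory.volume.restrict Ω) →
    (∀ φ : ℂ → ℂ, ContDiff ℝ ((⊤ : ℕ∞) : WithTop ℕ∞) φ → HasCompactSupport φ → tsupport φ ⊆ Ω →
      ((∫ z, f z * fderiv ℝ φ z 1) = - ∫ z, fx z * φ z) ∧
      ((∫ z, f z * fderiv ℝ φ z Complex.I) = - ∫ z, fy z * φ z)) →
    (∀ φ : ℂ → ℂ, ContDiff ℝ ((⊤ : ℕ∞) : WithTop ℕ∞) φ → HasCompactSupport φ → tsupport φ ⊆ Ω →
      (∫ z, ((fx z - Complex.I * fy z) / 2 * (starRingEnd ℂ) ((fx z + Complex.I * fy z) / 2)) *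
        ((fderiv ℝ φ z 1 + Complex.I * fderiv ℝ φ z Complex.I) / 2)) = 0) →
    (∀ᵐ z ∂(MeasureTheory.volume.restrict Ω), ‖fx z + Complex.I * fy z‖ ≤ ‖fx z - Complex.I * fy z‖) →
    ∃ g : ℂ → ℝ, ContinuousOn g Ω ∧
      ∀ᵐ z ∂(MeasureTheory.volume.restrict Ω), g z = Real.sqrt (‖fx z‖ ^ 2 + ‖fy z‖ ^ 2) := by
  intro Ω f fx fy hΩ hf hfx hfy hweak hhopf hjac
  have H : Pool.Agent.H.MP_09f213_an.Hyp Ω f fx fy := by
    refine ⟨hΩ, hf, hfx, hfy, hweak, hhopf, ?_⟩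
    filter_upwards [hjac] with z hz
    unfold Pool.Agent.H.MP_09f213_an.wzb Pool.Agent.H.MP_09f213_an.wz
    rw [norm_div, norm_div]
    exact div_le_div_of_nonneg_right hz (norm_nonneg _)
  exact Pool.Agent.H.MP_09f213_an.main_thm H

end Pool.Agent.S03757
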