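import Pool.Statements.S04301
import Pool.Agent.H.MP_345fd7_an.Main

set_option autoImplicit false
open Pool Pool.MP_345fd7_an

namespace Pool.Agent.S04301

open Pool.Agent.H.MP_345fd7_an in
/-- For finite abelian G, if A is a nonempty G-primitive matrix over Z+G (some power has all coefficients of all entries positive) and det(I-tA)=det(I-tB) for B over ZG, then B is shift equivalent over ZG to some G-primitive matrix. -/
theorem result :
    ∀ (G : Type) [CommGroup G] [Fintype G] (n m : ℕ)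
      (A : Matrix (Fin (n + 1)) (Fin (n + 1)) (MonoidAlgebra ℤ G))
      (B : Matrix (Fin m) (Fin m) (MonoidAlgebra ℤ G)),
      (∀ i j, A i j ∈ AddSubmonoid.closure (Set.range (MonoidAlgebra.of ℤ G))) →
      (∃ k : ℕ, 0 < k ∧ ∀ i j,
        (A ^ k) i j - ∑ g : G, MonoidAlgebra.of ℤ G g ∈
          AddSubmonoid.closure (Set.range (MonoidAlgebra.of ℤ G))) →
      Matrix.det (1 - (Polynomial.X : Polynomial (MonoidAlgebra ℤ G)) • A.map Polynomial.C) =
        Matrix.det (1 - (Polynomial.X : Polynomial (MonoidAlgebra ℤ G)) • B.map Polynomial.C) →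
      ∃ (p : ℕ) (C : Matrix (Fin p) (Fin p) (MonoidAlgebra ℤ G)),
        (∀ i j, C i j ∈ AddSubmonoid.closure (Set.range (MonoidAlgebra.of ℤ G))) ∧
        (∃ k : ℕ, 0 < k ∧ ∀ i j,
          (C ^ k) i j - ∑ g : G, MonoidAlgebra.of ℤ G g ∈
            AddSubmonoid.closure (Set.range (MonoidAlgebra.of ℤ G))) ∧
        ∃ ℓ : ℕ, 0 < ℓ ∧
          ∃ (R : Matrix (Fin m) (Fin p) (MonoidAlgebra ℤ G))
            (S : Matrix (Fin p) (Fin m) (MonoidAlgebra ℤ G)),
            B * R = R * C ∧ S * B = C * S ∧ R * S = B ^ ℓ ∧ S * R = C ^ ℓ := by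
  classical
  intro G _ _ n m A B hA hk hdet
  have hsum : ∀ h : G, (∑ g : G, MonoidAlgebra.of ℤ G g).coeff h = 1 := by
    intro h
    rw [MonoidAlgebra.coeff_sum, Finsupp.finsetSum_apply, Finset.sum_eq_single h]
    · rw [MonoidAlgebra.of_apply, MonoidAlgebra.coeff_single, Finsupp.single_apply]; simp
    · intro b _ hb
      rw [MonoidAlgebra.of_apply, MonoidAlgebra.coeff_single, Finsupp.single_apply]; simp [hb]
    · simp
  have hiff : ∀ x : MonoidAlgebra ℤ G, x - ∑ g : G, MonoidAlgebra.of ℤ G g ∈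
      AddSubmonoid.closure (Set.range (MonoidAlgebra.of ℤ G)) ↔ ∀ g, 0 < x.coeff g := by
    intro x
    rw [mem_closure_iff_Nn]
    refine forall_congr' fun g => ?_
    rw [MonoidAlgebra.coeff_sub, Finsupp.sub_apply, hsum]
    omega
  have hA' : ∀ i j, Nn (A i j) := fun i j => (mem_closure_iff_Nn _).1 (hA i j)
  have hk' : ∃ k : ℕ, 0 < k ∧ ∀ i j g, 0 < ((A ^ k) i j).coeff g := by
    obtain ⟨k, hk0, hk⟩ := hk
    exact ⟨k, hk0, fun i j => (hiff _).1 (hk i j)⟩
  by_cases hnt : n = 0 ∧ Fintype.card G = 1 ∧ A 0 0 = 1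
  · obtain ⟨rfl, hG, hA1⟩ := hnt
    have hd : (1 - (Polynomial.X : Polynomial (MonoidAlgebra ℤ G)) • B.map Polynomial.C).det =
        1 - (Polynomial.X : Polynomial (MonoidAlgebra ℤ G)) := by
      rw [← hdet, Matrix.det_fin_one]
      simp [hA1]
    obtain ⟨ℓ, hℓ, R, S, h1, h2, h3, h4⟩ := triv_case G hG B hd
    refine ⟨1, 1, ?_, ⟨1, one_pos, ?_⟩, ℓ, hℓ, R, S, ?_, ?_, ?_, ?_⟩
    · intro i j
      rw [mem_closure_iff_Nn, Subsingleton.elim j i, Matrix.one_apply_eq]
      exact Nn.one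
    · intro i j
      rw [hiff, pow_one, Subsingleton.elim j i, Matrix.one_apply_eq]
      intro g
      obtain ⟨g0, hg0⟩ := Fintype.card_eq_one_iff.1 hG
      rw [hg0 g, ← hg0 1]
      rw [MonoidAlgebra.coeff_one_one]
      exact one_pos
    · rw [h1, Matrix.mul_one]
    · rw [h2, Matrix.one_mul]
    · exact h3
    · rw [h4, one_pow]
  · obtain ⟨p, Cm, hC, hCk, hrest⟩ := main_nontriv A B hA' hk' hnt hdet
    refine ⟨p, Cm, fun i j => (mem_closure_iff_Nn _).2 (hC i j), ?_, hrest⟩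
    obtain ⟨k, hk0, hk⟩ := hCk
    exact ⟨k, hk0, fun i j => (hiff _).2 (hk i j)⟩

end Pool.Agent.S04301
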