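import Pool.Statements.S04339
import Pool.Agent.H.MP_36cdb9_an.Main

set_option autoImplicit false
open Pool Pool.MP_36cdb9_an

namespace Pool.Agent.S04339

/-- For every separable real Banach space X with no subspace isomorphic to ℓ1, every nonempty weak-star compact subset K of the dual is dentable: for each ε>0 some f in K lies outside the norm-closed convex hull of the points of K at distance ≥ ε from f. -/
theorem result :
    ∀ (X : Type) [NormedAddCommGroup X] [NormedSpace ℝ X] [CompleteSpace X]
      [TopologicalSpace.SeparableSpace X],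
      (¬ ∃ (T : lp (fun _ : ℕ => ℝ) 1 →L[ℝ] X) (c : ℝ),
          0 < c ∧ ∀ v : lp (fun _ : ℕ => ℝ) 1, c * ‖v‖ ≤ ‖T v‖) →
      ∀ K : Set (X →L[ℝ] ℝ),
        @IsCompact (X →L[ℝ] ℝ)
          (TopologicalSpace.induced (fun (f : X →L[ℝ] ℝ) (x : X) => f x) inferInstance) K →
        K.Nonempty →
        ∀ ε : ℝ, 0 < ε →
          ∃ f ∈ K, f ∉ closure (convexHull ℝ (K \ Metric.ball f ε)) := by
  intro X _ _ _ _ hno K hK hne ε hε
  exact Pool.Agent.H.MP_36cdb9_an.main hno K hK hne ε hε

end Pool.Agent.S04339
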