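import Pool.Statements.S04983
import Pool.Agent.H.MP_6ea4aa_an.Final

set_option autoImplicit false
open Pool Pool.MP_6ea4aa_an

namespace Pool.Agent.S04983

/-- The set of (c,b) is not connected, where for b=0 the Julia set of z^2+c is connected, and for b≠0 the intersection of the boundaries of the bounded-forward-orbit and bounded-backward-orbit sets of (x,y)↦(x^2+c−by,x) is connected. -/
theorem result :
    ¬ IsConnected {q : ℂ × ℂ |
      (q.2 = 0 ∧ IsConnected (frontier {z : ℂ | ∃ R : ℝ, ∀ n : ℕ,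
          ‖(fun w : ℂ => w ^ 2 + q.1)^[n] z‖ ≤ R})) ∨
      (q.2 ≠ 0 ∧ IsConnected
        (frontier {p : ℂ × ℂ | ∃ R : ℝ, ∀ n : ℕ,
            ‖(fun r : ℂ × ℂ => (r.1 ^ 2 + q.1 - q.2 * r.2, r.1))^[n] p‖ ≤ R} ∩
         frontier {p : ℂ × ℂ | ∃ R : ℝ, ∀ n : ℕ,
            ‖(fun r : ℂ × ℂ => (r.2, (r.2 ^ 2 + q.1 - r.1) / q.2))^[n] p‖ ≤ R}))} := by
  exact H6ea4aa.main

end Pool.Agent.S04983
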