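import Pool.Statements.S05043
import Pool.Agent.H.MP_725863_an.Final

set_option autoImplicit false
open Pool Pool.MP_725863_an

namespace Pool.Agent.S05043

/-- Take any strongly continuous semigroup of positive operators on real ℓ^1 that preserves the norm of nonnegative vectors, with T at time 1 bijective. Then T t tends to the identity in operator norm as t tends to 0, i.e. its generator is bounded. -/
theorem result :
    ∀ T : NNReal → (lp (fun _ : ℕ => ℝ) 1 →L[ℝ] lp (fun _ : ℕ => ℝ) 1),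
      T 0 = ContinuousLinearMap.id ℝ (lp (fun _ : ℕ => ℝ) 1) →
      (∀ s t : NNReal, T (s + t) = (T s).comp (T t)) →
      (∀ x : lp (fun _ : ℕ => ℝ) 1, Continuous fun t : NNReal => T t x) →
      (∀ (t : NNReal) (x : lp (fun _ : ℕ => ℝ) 1), (∀ n : ℕ, 0 ≤ x n) →
          ∀ n : ℕ, 0 ≤ (T t x) n) →
      (∀ (t : NNReal) (x : lp (fun _ : ℕ => ℝ) 1), (∀ n : ℕ, 0 ≤ x n) →
          ‖T t x‖ = ‖x‖) →
      Function.Bijective (T 1) →
      Filter.Tendsto T (nhds 0)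
        (nhds (ContinuousLinearMap.id ℝ (lp (fun _ : ℕ => ℝ) 1))) := by
  intro T h0 hadd hcont hpos hnorm hbij
  have hT : Pool.Agent.H.MP_725863_an.SG T :=
    { zero := h0
      add := hadd
      cont := hcont
      markov := fun t => { pos := hpos t, norm := hnorm t } }
  -- bounded inverse
  have hker : LinearMap.ker (T 1 : lp (fun _ : ℕ => ℝ) 1 →ₗ[ℝ] lp (fun _ : ℕ => ℝ) 1) = ⊥ :=
    LinearMap.ker_eq_bot.2 hbij.1
  have hran : LinearMap.range (T 1 : lp (fun _ : ℕ => ℝ) 1 →ₗ[ℝ] lp (fun _ : ℕ => ℝ) 1) = ⊤ :=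
    LinearMap.range_eq_top.2 hbij.2
  set E := ContinuousLinearEquiv.ofBijective (T 1) hker hran with hE
  have hEa : ∀ x, E x = T 1 x := fun x => by
    rw [hE, ContinuousLinearEquiv.coeFn_ofBijective]
  set M : ℝ := ‖(E.symm : lp (fun _ : ℕ => ℝ) 1 →L[ℝ] lp (fun _ : ℕ => ℝ) 1)‖ + 1 with hM
  have hM0 : 0 < M := by positivity
  have hb1 : ∀ x, M⁻¹ * ‖x‖ ≤ ‖T 1 x‖ := by
    intro x
    have h1 : ‖E.symm (E x)‖ ≤
        ‖(E.symm : lp (fun _ : ℕ => ℝ) 1 →L[ℝ] lp (fun _ : ℕ => ℝ) 1)‖ * ‖E x‖ :=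
      (E.symm : lp (fun _ : ℕ => ℝ) 1 →L[ℝ] lp (fun _ : ℕ => ℝ) 1).le_opNorm (E x)
    rw [E.symm_apply_apply, hEa] at h1
    rw [inv_mul_le_iff₀ hM0]
    refine h1.trans ?_
    apply mul_le_mul_of_nonneg_right _ (norm_nonneg _)
    linarith
  have hb : ∀ t : NNReal, t ≤ 1 → ∀ x, M⁻¹ * ‖x‖ ≤ ‖T t x‖ := by
    intro t ht x
    refine (hb1 x).trans ?_
    have h1 : T 1 x = T (1 - t) (T t x) := by
      rw [← hT.apply_add, tsub_add_cancel_of_le ht]
    rw [h1]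
    exact (hT.markov _).norm_le _
  exact Pool.Agent.H.MP_725863_an.main hT (inv_pos.2 hM0) hb

end Pool.Agent.S05043
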