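import Pool.Statements.S05588
import Pool.Agent.H.MP_9f60e7_an.Facts
import Pool.Agent.H.MP_9f60e7_an.Final

set_option autoImplicit false
open Pool Pool.MP_9f60e7_an

namespace Pool.Agent.S05588

/-- The negation of the preceding statement: For every smooth initial position and velocity with values in hyperbolic 3-space (upper half-space model), there is a smooth solution of the wave map equation from 3+1 Minkowski space into hyperbolic 3-space, defined for all times, with that data. -/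
theorem result :
    ¬ (∀ (u0 u1 : (Fin 3 → ℝ) → (Fin 3 → ℝ)),
      ContDiff ℝ (⊤ : ℕ∞) u0 → ContDiff ℝ (⊤ : ℕ∞) u1 → (∀ x, 0 < u0 x 2) →
      ∃ u : (Fin 4 → ℝ) → (Fin 3 → ℝ),
        ContDiff ℝ (⊤ : ℕ∞) u ∧
        (∀ X, 0 < u X 2) ∧
        (∀ x, u (Matrix.vecCons 0 x) = u0 x) ∧
        (∀ x, fderiv ℝ u (Matrix.vecCons 0 x) (Pi.single 0 1) = u1 x) ∧
        ∀ (X : Fin 4 → ℝ) (k : Fin 3),
          ∑ μ : Fin 4, (if μ = 0 then (-1 : ℝ) else 1) *
            (fderiv ℝ (fun Y => fderiv ℝ u Y (Pi.single μ 1) k) X (Pi.single μ 1) +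
              ∑ i : Fin 3, ∑ j : Fin 3,
                (-((if i = k then (1 : ℝ) else 0) * (if j = 2 then (1 : ℝ) else 0)
                    + (if j = k then (1 : ℝ) else 0) * (if i = 2 then (1 : ℝ) else 0)
                    - (if i = j then (1 : ℝ) else 0) * (if k = 2 then (1 : ℝ) else 0)) / u X 2)
                  * fderiv ℝ u X (Pi.single μ 1) i * fderiv ℝ u X (Pi.single μ 1) j) = 0) := by
  exact Pool.Agent.H.MP_9f60e7_an.main_of Pool.Agent.H.MP_9f60e7_an.NK.Acol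
    Pool.Agent.H.MP_9f60e7_an.NK.NN_cx Pool.Agent.H.MP_9f60e7_an.NK.NN_cb
    Pool.Agent.H.MP_9f60e7_an.NK.NN_cm Pool.Agent.H.MP_9f60e7_an.NK.cl_ubar
    Pool.Agent.H.MP_9f60e7_an.NK.NN_K12 Pool.Agent.H.MP_9f60e7_an.NK.NN_K13
    Pool.Agent.H.MP_9f60e7_an.NK.NN_K23 Pool.Agent.H.MP_9f60e7_an.NK.NN_K32
    Pool.Agent.H.MP_9f60e7_an.NK.NN_K33 Pool.Agent.H.MP_9f60e7_an.NK.low_bound
    Pool.Agent.H.MP_9f60e7_an.NK.resid_bound

end Pool.Agent.S05588
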