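import Pool.Statements.S05808
import Mathlib

/-!
A real Banach space with numerical index one, an extreme point x of its unit ball and an extreme
point f of its dual unit ball with absolute value of f(x) different from 1.

The space. Let G be the countable discrete set of triples (n, k, b) and let (q n) be dense in the
real line. E is the space of all bounded continuous functions f on the disjoint union of G and
the real line such that for every n the difference f(n,k,true) - f(n,k,false) tends to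
f(q n) / 2^n as k tends to infinity, with the supremum norm.

1. E contains, up to small errors, bump functions supported in every nonempty open set (property
   `Rich`), and this gives numerical index one (`numerical_index_one`; the proof compares
   the norms of x + a T x and x - a T x, no Bishop-Phelps type theorem is needed).
2. The function which is 1 on G and 0 on the line is an extreme point of the unit ball, because an
   element of E which vanishes on G vanishes on the line as well.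
3. There is a function h in E of norm one which is at most 1/2 on G. An extreme functional f of the
   dual ball with f(h) = 1 (Krein-Milman) cannot be of absolute value one at x.
-/

set_option autoImplicit false
open Pool Pool.MP_ae5379_an
open Filter Topology BoundedContinuousFunction

namespace Pool.Agent.S05808

section General

variable {K : Type} [TopologicalSpace K]

variable {X : Type} [NormedAddCommGroup X] [NormedSpace ℝ X]

/-- A richness condition: bump functions supported (up to ε) in arbitrary nonempty open sets.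
Here `J` is an isometric embedding of `X` into the bounded continuous functions on `K`. -/
def Rich (J : X →ₗᵢ[ℝ] (K →ᵇ ℝ)) : Prop :=
  ∀ U : Set K, IsOpen U → U.Nonempty → ∀ ε : ℝ, 0 < ε →
    ∃ h : X, ∃ t ∈ U, J h t = 1 ∧ (∀ s, -ε ≤ J h s ∧ J h s ≤ 1) ∧ (∀ s, s ∉ U → J h s ≤ ε)

/-- almost norming pairs -/
theorem almost_pair (J : X →ₗᵢ[ℝ] (K →ᵇ ℝ)) (hX : Rich J) (T : X →L[ℝ] X) (η : ℝ) (hη : 0 < η)
    (hη' : η < ‖T‖) :
    ∃ (x : X) (t : K), ‖x‖ ≤ 1 + 3 * η ∧ 1 - η ≤ |J x t| ∧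
      ‖T‖ - η < |J (T x) t| := by
  -- a vector almost attaining the norm
  obtain ⟨x₀, hx₀, hTx₀⟩ := ContinuousLinearMap.exists_lt_apply_of_lt_opNorm T
    (show ‖T‖ - η < ‖T‖ by linarith)
  -- choose the sign so that T x₀ is large and positive at some point
  obtain ⟨x, t₀, hx, ht₀⟩ : ∃ (x : X) (t₀ : K), ‖x‖ < 1 ∧ ‖T‖ - η < J (T x) t₀ := by
    have h1 : ∃ t₀, ‖T‖ - η < |J (T x₀) t₀| := by
      by_contra hcon
      push Not at hcon
      have : ‖J (T x₀)‖ ≤ ‖T‖ - η := by
        rw [BoundedContinuousFunction.norm_le (by linarith)]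
        intro s
        exact hcon s
      have h2 : ‖T x₀‖ = ‖J (T x₀)‖ := (J.norm_map _).symm
      linarith
    obtain ⟨t₀, ht₀⟩ := h1
    rcases abs_cases (J (T x₀) t₀) with h | h
    · exact ⟨x₀, t₀, hx₀, by linarith⟩
    · refine ⟨-x₀, t₀, by simpa using hx₀, ?_⟩
      have : J (T (-x₀)) t₀ = -(J (T x₀) t₀) := by
        rw [map_neg, map_neg]; rfl
      rw [this]; linarith
  obtain ⟨lam, hlam⟩ : ∃ lam : ℝ, lam = J x t₀ := ⟨_, rfl⟩
  have hxs : ∀ s, |J x s| ≤ 1 := by
    intro s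
    have h1 := BoundedContinuousFunction.norm_coe_le_norm (J x) s
    have h2 : ‖J x‖ = ‖x‖ := J.norm_map x
    rw [Real.norm_eq_abs] at h1
    linarith
  have hlam1 : -1 ≤ lam ∧ lam ≤ 1 := by rw [hlam]; exact abs_le.1 (hxs t₀)
  let U : Set K := {s | ‖T‖ - η < J (T x) s} ∩ {s | |J x s - lam| < η}
  have hU : IsOpen U := by
    apply IsOpen.inter
    · exact isOpen_lt continuous_const (BoundedContinuousFunction.continuous _)
    · exact isOpen_lt (((BoundedContinuousFunction.continuous _).sub continuous_const).abs)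
        continuous_const
  obtain ⟨h', t, htU, ht1, hh, hh'⟩ := hX U hU ⟨t₀, ht₀, by simp [← hlam, hη]⟩ η hη
  have htU1 : ‖T‖ - η < J (T x) t := htU.1
  have htU2 : |J x t - lam| < η := htU.2
  rw [abs_lt] at htU2
  -- the two vectors
  let x₁ : X := x + (1 - lam) • h'
  let x₂ : X := x - (1 + lam) • h'
  have e1 : ∀ s, J x₁ s = J x s + (1 - lam) * J h' s := fun s => by simp [x₁]
  have e2 : ∀ s, J x₂ s = J x s - (1 + lam) * J h' s := fun s => by simp [x₂]
  have n1 : ‖x₁‖ ≤ 1 + 3 * η := by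
    rw [← J.norm_map]
    rw [BoundedContinuousFunction.norm_le (by linarith)]
    intro s
    rw [Real.norm_eq_abs, e1 s, abs_le]
    have hs := abs_le.1 (hxs s)
    have hs1 := (hh s).1
    have hs2 := (hh s).2
    by_cases hsU : s ∈ U
    · have hs3 : |J x s - lam| < η := hsU.2
      rw [abs_lt] at hs3
      constructor <;> nlinarith
    · have hs3 := hh' s hsU
      constructor <;> nlinarith
  have n2 : ‖x₂‖ ≤ 1 + 3 * η := by
    rw [← J.norm_map]
    rw [BoundedContinuousFunction.norm_le (by linarith)]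
    intro s
    rw [Real.norm_eq_abs, e2 s, abs_le]
    have hs := abs_le.1 (hxs s)
    have hs1 := (hh s).1
    have hs2 := (hh s).2
    by_cases hsU : s ∈ U
    · have hs3 : |J x s - lam| < η := hsU.2
      rw [abs_lt] at hs3
      constructor <;> nlinarith
    · have hs3 := hh' s hsU
      constructor <;> nlinarith
  -- values at t
  have v1 : 1 - η ≤ |J x₁ t| := by
    refine le_trans ?_ (le_abs_self _)
    rw [e1 t, ht1]; linarith
  have v2 : 1 - η ≤ |J x₂ t| := by
    refine le_trans ?_ (neg_le_abs _)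
    rw [e2 t, ht1]; linarith
  have hcomb : J (T x) t = (1 + lam) / 2 * J (T x₁) t
      + (1 - lam) / 2 * J (T x₂) t := by
    have h1 : J (T x₁) t = J (T x) t + (1 - lam) * J (T h') t := by
      simp [x₁]
    have h2 : J (T x₂) t = J (T x) t - (1 + lam) * J (T h') t := by
      simp [x₂]
    rw [h1, h2]; ring
  by_cases hc : ‖T‖ - η < J (T x₁) t
  · exact ⟨x₁, t, n1, v1, lt_of_lt_of_le hc (le_abs_self _)⟩
  · refine ⟨x₂, t, n2, v2, lt_of_lt_of_le ?_ (le_abs_self _)⟩
    by_contra hc2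
    push Not at hc hc2
    nlinarith

end General

/-- rich spaces have numerical index one -/
theorem numerical_index_one {K : Type} [TopologicalSpace K]
    {X : Type} [NormedAddCommGroup X] [NormedSpace ℝ X] (J : X →ₗᵢ[ℝ] (K →ᵇ ℝ)) (hX : Rich J)
    (hne : ∃ x : X, x ≠ 0) (T : X →L[ℝ] X) (ε : ℝ) (hε : 0 < ε) :
    ∃ (x : X) (f : X →L[ℝ] ℝ), ‖x‖ = 1 ∧ ‖f‖ = 1 ∧ f x = 1 ∧ ‖T‖ - ε < ‖f (T x)‖ := by
  by_contra hcon
  push Not at hcon
  obtain ⟨N, hN⟩ : ∃ N : ℝ, N = ‖T‖ := ⟨_, rfl⟩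
  obtain ⟨M, hM⟩ : ∃ M : ℝ, M = N - ε := ⟨_, rfl⟩
  have hM' : ∀ (x : X) (f : X →L[ℝ] ℝ), ‖x‖ = 1 → ‖f‖ = 1 → f x = 1 → |f (T x)| ≤ M := by
    intro x f h1 h2 h3
    have := hcon x f h1 h2 h3
    rw [hM, hN]
    exact this
  have hM0 : 0 ≤ M := by
    obtain ⟨x, hx⟩ := hne
    have hxn : ‖x‖ ≠ 0 := norm_ne_zero_iff.2 hx
    obtain ⟨f, hf1, hf2⟩ := exists_dual_vector ℝ x hxn
    have := hM' (‖x‖⁻¹ • x) f (by rw [norm_smul, norm_inv, norm_norm, inv_mul_cancel₀ hxn]) hf1
      (by rw [map_smul, hf2]; simp [hxn])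
    exact le_trans (abs_nonneg _) this
  have hNM : M < N := by linarith
  have hN0 : 0 < N := by linarith
  -- Claim 1
  have claim1 : ∀ (a : ℝ), |a| * M ≤ 1 → ∀ x : X, (1 - |a| * M) * ‖x‖ ≤ ‖x - a • T x‖ := by
    intro a ha x
    by_cases hx : x = 0
    · simp [hx]
    have hxn : ‖x‖ ≠ 0 := norm_ne_zero_iff.2 hx
    have hxp : 0 < ‖x‖ := norm_pos_iff.2 hx
    obtain ⟨f, hf1, hf2⟩ := exists_dual_vector ℝ x hxn
    have h1 := hM' (‖x‖⁻¹ • x) f (by rw [norm_smul, norm_inv, norm_norm, inv_mul_cancel₀ hxn]) hf1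
      (by rw [map_smul, hf2]; simp [hxn])
    rw [map_smul, map_smul, smul_eq_mul, abs_mul, abs_inv, abs_norm, inv_mul_eq_div,
      div_le_iff₀ hxp] at h1
    have h2 : f (x - a • T x) ≤ ‖x - a • T x‖ := by
      have h3 := f.le_opNorm (x - a • T x)
      rw [hf1, one_mul] at h3
      exact le_trans (le_abs_self _) h3
    have h4 : f (x - a • T x) = ‖x‖ - a * f (T x) := by
      rw [map_sub, map_smul, hf2]; simp
    have h5 : a * f (T x) ≤ |a| * (M * ‖x‖) := by
      calc a * f (T x) ≤ |a * f (T x)| := le_abs_self _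
        _ = |a| * |f (T x)| := abs_mul _ _
        _ ≤ |a| * (M * ‖x‖) := mul_le_mul_of_nonneg_left h1 (abs_nonneg _)
    nlinarith
  -- Claim 2
  have claim2 : ∀ (a : ℝ), |a| * M ≤ 1 → ∀ x : X, (1 - |a| * M) * ‖x + a • T x‖ ≤
      (1 + a^2 * N^2) * ‖x‖ := by
    intro a ha x
    refine le_trans (claim1 a ha (x + a • T x)) ?_
    have h1 : x + a • T x - a • T (x + a • T x) = x - (a^2) • T (T x) := by
      rw [map_add, map_smul, smul_add, smul_smul, pow_two]; abel
    rw [h1]
    calc ‖x - (a^2) • T (T x)‖ ≤ ‖x‖ + ‖(a^2) • T (T x)‖ := norm_sub_le _ _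
      _ = ‖x‖ + a^2 * ‖T (T x)‖ := by rw [norm_smul, Real.norm_of_nonneg (sq_nonneg a)]
      _ ≤ ‖x‖ + a^2 * (N * (N * ‖x‖)) := by
          have h2 : ‖T (T x)‖ ≤ N * (N * ‖x‖) := by
            rw [hN]
            exact le_trans (T.le_opNorm _) (mul_le_mul_of_nonneg_left (T.le_opNorm _) (norm_nonneg _))
          have := mul_le_mul_of_nonneg_left h2 (sq_nonneg a)
          linarith
      _ = (1 + a^2 * N^2) * ‖x‖ := by ring
  -- the choice of a
  obtain ⟨a, ha⟩ : ∃ a : ℝ, a = (N - M) / (2 * (N^2 + M*N)) := ⟨_, rfl⟩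
  have hden : 0 < 2 * (N^2 + M*N) := by positivity
  have ha0 : 0 < a := by rw [ha]; exact div_pos (by linarith) hden
  have haeq : a * (2 * (N^2 + M*N)) = N - M := by
    rw [ha]; field_simp
  have haM : a * M ≤ 1 := by
    have h1 : a * (2 * N^2) ≤ N := by nlinarith [mul_nonneg ha0.le (mul_nonneg hM0 hN0.le)]
    have h2 : a * (2 * N) ≤ 1 := by
      by_contra hc
      push Not at hc
      nlinarith
    nlinarith
  -- main inequality
  have key : ∀ η : ℝ, 0 < η → η < N → (1 - a * M) * (1 - η + a * (N - η)) ≤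
      (1 + a^2 * N^2) * (1 + 3 * η) := by
    intro η hη hηN
    obtain ⟨x, t, hx1, hx2, hx3⟩ := almost_pair J hX T η hη (by rw [← hN]; exact hηN)
    rw [← hN] at hx3
    have hpt : ∀ b : ℝ, |J x t + b * J (T x) t| ≤ ‖x + b • T x‖ := by
      intro b
      have h1 := BoundedContinuousFunction.norm_coe_le_norm (J (x + b • T x)) t
      rw [J.norm_map] at h1
      simpa using h1
    -- choose the sign
    have hsign : ∃ b : ℝ, |b| = a ∧ b^2 = a^2 ∧ |J x t| + a * |J (T x) t| ≤
        |J x t + b * J (T x) t| := by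
      rcases le_total 0 (J x t * J (T x) t) with h | h
      · refine ⟨a, abs_of_pos ha0, rfl, ?_⟩
        rw [← abs_of_pos ha0, ← abs_mul, abs_of_pos ha0]
        rw [abs_add_eq_add_abs_iff _ _ |>.2]
        rcases (mul_nonneg_iff.1 h) with h | h
        · left; exact ⟨h.1, mul_nonneg ha0.le h.2⟩
        · right; exact ⟨h.1, mul_nonpos_of_nonneg_of_nonpos ha0.le h.2⟩
      · refine ⟨-a, by rw [abs_neg, abs_of_pos ha0], by ring, ?_⟩
        have e : a * |J (T x) t| = |-a * J (T x) t| := by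
          rw [abs_mul, abs_neg, abs_of_pos ha0]
        rw [e, abs_add_eq_add_abs_iff _ _ |>.2]
        rcases (mul_nonpos_iff.1 h) with h | h
        · left; exact ⟨h.1, mul_nonneg_of_nonpos_of_nonpos (by linarith) h.2⟩
        · right; exact ⟨h.1, mul_nonpos_of_nonpos_of_nonneg (by linarith) h.2⟩
    obtain ⟨b, hb1, hb2, hb3⟩ := hsign
    have h1 := claim2 b (by rw [hb1]; exact haM) x
    rw [hb1, hb2] at h1
    have h2 : 1 - η + a * (N - η) ≤ ‖x + b • T x‖ := by
      refine le_trans ?_ (hpt b)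
      refine le_trans ?_ hb3
      have := mul_le_mul_of_nonneg_left hx3.le ha0.le
      linarith
    calc (1 - a * M) * (1 - η + a * (N - η)) ≤ (1 - a * M) * ‖x + b • T x‖ :=
          mul_le_mul_of_nonneg_left h2 (by linarith)
      _ ≤ (1 + a^2 * N^2) * ‖x‖ := h1
      _ ≤ (1 + a^2 * N^2) * (1 + 3 * η) := mul_le_mul_of_nonneg_left hx1 (by positivity)
  -- conclusion
  obtain ⟨g, hg⟩ : ∃ g : ℝ, g = (1 - a * M) * (1 + a * N) - (1 + a^2 * N^2) := ⟨_, rfl⟩
  have hgpos : 0 < g := by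
    have : g = a * ((N - M) - a * (N^2 + M * N)) := by rw [hg]; ring
    rw [this]
    apply mul_pos ha0
    linarith
  obtain ⟨C, hC⟩ : ∃ C : ℝ, C = (1 - a * M) * (1 + a) + 3 * (1 + a^2 * N^2) := ⟨_, rfl⟩
  have hCpos : 0 < C := by
    rw [hC]
    have h1 : 0 ≤ (1 - a * M) * (1 + a) := mul_nonneg (by linarith) (by linarith)
    positivity
  obtain ⟨η, hη⟩ : ∃ η : ℝ, η = min (g / (2 * C)) (N / 2) := ⟨_, rfl⟩
  have hη0 : 0 < η := by rw [hη]; exact lt_min (by positivity) (by positivity)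
  have hη1 : η ≤ g / (2 * C) := by rw [hη]; exact min_le_left _ _
  have hη2 : η < N := by
    have : η ≤ N / 2 := by rw [hη]; exact min_le_right _ _
    linarith
  have h1 := key η hη0 hη2
  have h2 : g ≤ η * C := by
    rw [hg, hC]; nlinarith
  have h3 : η * C ≤ g / 2 := by
    calc η * C ≤ g / (2 * C) * C := mul_le_mul_of_nonneg_right hη1 hCpos.le
      _ = g / 2 := by field_simp
  linarith

section Space

/-- the index space: a countable discrete part and a real line -/
abbrev K : Type := (ℕ × ℕ × Bool) ⊕ ℝ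

/-- a dense sequence of reals -/
noncomputable def q : ℕ → ℝ := TopologicalSpace.denseSeq ℝ

/-- the subspace defined by the limit conditions -/
noncomputable def X0 : Submodule ℝ (K →ᵇ ℝ) where
  carrier := {f | ∀ n : ℕ, Tendsto (fun k : ℕ => f (Sum.inl (n, k, true)) - f (Sum.inl (n, k, false)))
    atTop (𝓝 ((1/2 : ℝ)^n * f (Sum.inr (q n))))}
  add_mem' := by
    intro f g hf hg n
    have := (hf n).add (hg n)
    simp only [BoundedContinuousFunction.coe_add, Pi.add_apply]
    rw [mul_add]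
    refine this.congr fun k => ?_
    ring
  zero_mem' := by
    intro n
    simp
  smul_mem' := by
    intro c f hf n
    have := (hf n).const_mul c
    simp only [BoundedContinuousFunction.coe_smul, smul_eq_mul]
    have e : (1/2 : ℝ)^n * (c * f (Sum.inr (q n))) = c * ((1/2 : ℝ)^n * f (Sum.inr (q n))) := by ring
    rw [e]
    refine this.congr fun k => ?_
    ring

theorem mem_X0 (f : K →ᵇ ℝ) : f ∈ X0 ↔ ∀ n : ℕ, Tendsto (fun k : ℕ => f (Sum.inl (n, k, true)) -
    f (Sum.inl (n, k, false))) atTop (𝓝 ((1/2 : ℝ)^n * f (Sum.inr (q n)))) := Iff.rfl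

theorem isClosed_X0 : IsClosed (X0 : Set (K →ᵇ ℝ)) := by
  apply isClosed_of_closure_subset
  intro f hf
  rw [Metric.mem_closure_iff] at hf
  intro n
  rw [Metric.tendsto_atTop]
  intro ε hε
  obtain ⟨g, hg, hfg⟩ := hf (ε/6) (by positivity)
  have hd : ∀ s, |f s - g s| < ε/6 := by
    intro s
    have h1 := BoundedContinuousFunction.dist_coe_le_dist (f := f) (g := g) s
    rw [Real.dist_eq] at h1
    linarith
  have hgn := hg n
  rw [Metric.tendsto_atTop] at hgn
  obtain ⟨k₀, hk₀⟩ := hgn (ε/2) (by positivity)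
  refine ⟨k₀, fun k hk => ?_⟩
  have h1 := hk₀ k hk
  rw [Real.dist_eq] at h1 ⊢
  have h2 := abs_lt.1 (hd (Sum.inl (n, k, true)))
  have h3 := abs_lt.1 (hd (Sum.inl (n, k, false)))
  have h4 := hd (Sum.inr (q n))
  have h5 : |(1/2 : ℝ)^n * f (Sum.inr (q n)) - (1/2 : ℝ)^n * g (Sum.inr (q n))| < ε / 6 := by
    rw [← mul_sub, abs_mul, abs_of_nonneg (by positivity)]
    have h6 : (1/2 : ℝ)^n ≤ 1 := pow_le_one₀ (by norm_num) (by norm_num)
    calc (1/2 : ℝ)^n * |f (Sum.inr (q n)) - g (Sum.inr (q n))|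
        ≤ 1 * |f (Sum.inr (q n)) - g (Sum.inr (q n))| :=
          mul_le_mul_of_nonneg_right h6 (abs_nonneg _)
      _ < ε / 6 := by rw [one_mul]; exact h4
  rw [abs_lt] at h1 h5 ⊢
  constructor <;> linarith

/-- the Banach space of the counterexample -/
def E : Type := {f : K →ᵇ ℝ // f ∈ X0}

noncomputable instance instNE : NormedAddCommGroup E := X0.normedAddCommGroup

noncomputable instance instSE : NormedSpace ℝ E := X0.normedSpace

/-- the inclusion -/
noncomputable def J : E →ₗᵢ[ℝ] (K →ᵇ ℝ) := X0.subtypeₗᵢ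

instance instCE : CompleteSpace E := isClosed_X0.completeSpace_coe

theorem J_mem (x : E) : J x ∈ X0 := x.2

theorem exists_J (f : K →ᵇ ℝ) (hf : f ∈ X0) : ∃ x : E, J x = f := ⟨⟨f, hf⟩, rfl⟩

/-- a tent function -/
noncomputable def tent (r δ : ℝ) : ℝ → ℝ := fun s => max 0 (1 - |s - r| / δ)

theorem tent_le (r δ : ℝ) (hδ : 0 < δ) (s : ℝ) : tent r δ s ≤ 1 := by
  unfold tent
  apply max_le zero_le_one
  have : 0 ≤ |s - r| / δ := by positivity
  linarith

theorem tent_nonneg (r δ s : ℝ) : 0 ≤ tent r δ s := le_max_left _ _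

theorem tent_self (r δ : ℝ) : tent r δ r = 1 := by simp [tent]

theorem tent_eq_zero (r δ : ℝ) (hδ : 0 < δ) (s : ℝ) (hs : δ ≤ |s - r|) : tent r δ s = 0 := by
  unfold tent
  apply max_eq_left
  have : 1 ≤ |s - r| / δ := by rw [le_div_iff₀ hδ]; linarith
  linarith

theorem continuous_tent (r δ : ℝ) : Continuous (tent r δ) := by
  unfold tent
  fun_prop

/-- bumps on the line part -/
theorem exists_bump_line (V : Set ℝ) (hV : IsOpen V) (hVne : V.Nonempty) (ε : ℝ) (hε : 0 < ε) :
    ∃ h : E, ∃ t ∈ V, J h (Sum.inr t) = 1 ∧ (∀ s, 0 ≤ J h s ∧ J h s ≤ 1) ∧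
      (∀ γ, J h (Sum.inl γ) ≤ ε) ∧ (∀ s, s ∉ V → J h (Sum.inr s) = 0) := by
  -- choose N with (1/2)^N ≤ ε
  obtain ⟨N, hN⟩ := exists_pow_lt_of_lt_one hε (show (1/2 : ℝ) < 1 by norm_num)
  -- remove finitely many points of the dense sequence
  let Fs : Set ℝ := q '' (Set.Iio N)
  have hFs : Fs.Finite := (Set.finite_Iio N).image _
  have hV' : IsOpen (V \ Fs) := hV.sdiff hFs.isClosed
  have hV'ne : (V \ Fs).Nonempty := by
    by_contra hcon
    rw [Set.not_nonempty_iff_eq_empty, Set.sdiff_eq_empty] at hcon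
    exact (infinite_of_mem_nhds hVne.some (hV.mem_nhds hVne.some_mem)) (hFs.subset hcon)
  obtain ⟨r, hr⟩ := hV'ne
  obtain ⟨δ, hδ, hball⟩ := Metric.isOpen_iff.1 hV' r hr
  have htent : ∀ s, s ∉ V \ Fs → tent r δ s = 0 := by
    intro s hs
    apply tent_eq_zero r δ hδ
    by_contra hcon
    push Not at hcon
    exact hs (hball (by rw [Metric.mem_ball, Real.dist_eq]; exact hcon))
  let φ : K → ℝ := Sum.elim (fun γ => if γ.2.2 then (1/2 : ℝ)^γ.1 * tent r δ (q γ.1) else 0) (tent r δ)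
  have hφc : Continuous φ := continuous_of_discreteTopology.sumElim (continuous_tent r δ)
  have hpow : ∀ n : ℕ, (1/2 : ℝ)^n ≤ 1 := fun n => pow_le_one₀ (by norm_num) (by norm_num)
  have hφ0 : ∀ s, 0 ≤ φ s := by
    rintro (⟨n, k, b⟩ | s)
    · simp only [φ, Sum.elim_inl]
      split_ifs
      · exact mul_nonneg (by positivity) (tent_nonneg _ _ _)
      · exact le_rfl
    · exact tent_nonneg _ _ _
  have hφ1 : ∀ s, φ s ≤ 1 := by
    rintro (⟨n, k, b⟩ | s)
    · simp only [φ, Sum.elim_inl]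
      split_ifs
      · exact mul_le_one₀ (hpow n) (tent_nonneg _ _ _) (tent_le _ _ hδ _)
      · exact zero_le_one
    · exact tent_le _ _ hδ _
  have hφε : ∀ γ, φ (Sum.inl γ) ≤ ε := by
    rintro ⟨n, k, b⟩
    simp only [φ, Sum.elim_inl]
    split_ifs
    · by_cases hn : n < N
      · rw [htent (q n) (fun hh => hh.2 ⟨n, hn, rfl⟩), mul_zero]; exact hε.le
      · push Not at hn
        calc (1/2 : ℝ)^n * tent r δ (q n) ≤ (1/2 : ℝ)^n * 1 :=
              mul_le_mul_of_nonneg_left (tent_le _ _ hδ _) (by positivity)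
          _ = (1/2 : ℝ)^n := mul_one _
          _ ≤ (1/2 : ℝ)^N := pow_le_pow_of_le_one (by norm_num) (by norm_num) hn
          _ ≤ ε := hN.le
    · exact hε.le
  let Φ : K →ᵇ ℝ := BoundedContinuousFunction.ofNormedAddCommGroup φ hφc 1 (by
    intro s
    rw [Real.norm_eq_abs, abs_of_nonneg (hφ0 s)]
    exact hφ1 s)
  have hΦ : ∀ s, Φ s = φ s := fun s => rfl
  have hmem : Φ ∈ X0 := by
    rw [mem_X0]
    intro n
    simp [hΦ, φ]
  obtain ⟨x, hx⟩ := exists_J Φ hmem
  refine ⟨x, r, hr.1, ?_, ?_, ?_, ?_⟩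
  · rw [hx, hΦ]; exact tent_self r δ
  · intro s; rw [hx, hΦ]; exact ⟨hφ0 s, hφ1 s⟩
  · intro γ; rw [hx, hΦ]; exact hφε γ
  · intro s hs; rw [hx, hΦ]; exact htent s (fun hh => hs hh.1)

theorem rich_J : Rich J := by
  intro U hU hUne ε hε
  obtain ⟨p, hp⟩ := hUne
  rcases p with γ | r
  · -- a point of the discrete part
    let φ : K → ℝ := Sum.elim (fun γ' => if γ' = γ then 1 else 0) (fun _ => 0)
    have hφc : Continuous φ := continuous_of_discreteTopology.sumElim continuous_const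
    have hφ : ∀ s, 0 ≤ φ s ∧ φ s ≤ 1 := by
      rintro (γ' | s)
      · simp only [φ, Sum.elim_inl]
        split_ifs <;> norm_num
      · simp [φ]
    let Φ : K →ᵇ ℝ := BoundedContinuousFunction.ofNormedAddCommGroup φ hφc 1 (by
      intro s
      rw [Real.norm_eq_abs, abs_of_nonneg (hφ s).1]
      exact (hφ s).2)
    have hΦ : ∀ s, Φ s = φ s := fun s => rfl
    have hmem : Φ ∈ X0 := by
      rw [mem_X0]
      intro n
      simp only [hΦ, φ, Sum.elim_inl, Sum.elim_inr, mul_zero]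
      apply tendsto_const_nhds.congr'
      filter_upwards [eventually_gt_atTop γ.2.1] with k hk
      have h1 : (n, k, true) ≠ γ := by rintro rfl; simp at hk
      have h2 : (n, k, false) ≠ γ := by rintro rfl; simp at hk
      simp [h1, h2]
    obtain ⟨x, hx⟩ := exists_J Φ hmem
    refine ⟨x, Sum.inl γ, hp, ?_, ?_, ?_⟩
    · rw [hx, hΦ]; simp [φ]
    · intro s; rw [hx, hΦ]; exact ⟨by linarith [(hφ s).1], (hφ s).2⟩
    · rintro (γ' | s) hs
      · have : γ' ≠ γ := by rintro rfl; exact hs hp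
        rw [hx, hΦ]; simp [φ, this, hε.le]
      · rw [hx, hΦ]; simp [φ, hε.le]
  · -- a point of the line
    obtain ⟨h, t, ht, h1, h2, h3, h4⟩ := exists_bump_line (Sum.inr ⁻¹' U)
      (hU.preimage continuous_inr) ⟨r, hp⟩ ε hε
    refine ⟨h, Sum.inr t, ht, h1, fun s => ⟨by linarith [(h2 s).1], (h2 s).2⟩, ?_⟩
    rintro (γ | s) hs
    · exact h3 γ
    · rw [h4 s hs]; exact hε.le

end Space

section Extreme

/-- the extreme point of the ball -/
theorem exists_extreme_point : ∃ x : E, ‖x‖ ≤ 1 ∧ (∀ y : E, ‖x + y‖ ≤ 1 → ‖x - y‖ ≤ 1 → y = 0) ∧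
    (∀ γ, J x (Sum.inl γ) = 1) ∧ (∀ r, J x (Sum.inr r) = 0) := by
  let φ : K → ℝ := Sum.elim (fun _ => 1) (fun _ => 0)
  have hφc : Continuous φ := continuous_const.sumElim continuous_const
  have hφ : ∀ s, |φ s| ≤ 1 := by
    rintro (γ' | s) <;> simp [φ]
  let Φ : K →ᵇ ℝ := BoundedContinuousFunction.ofNormedAddCommGroup φ hφc 1 (by
    intro s
    rw [Real.norm_eq_abs]
    exact hφ s)
  have hΦ : ∀ s, Φ s = φ s := fun s => rfl
  have hmem : Φ ∈ X0 := by
    rw [mem_X0]
    intro n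
    simp [hΦ, φ]
  obtain ⟨x, hx⟩ := exists_J Φ hmem
  have hx1 : ∀ γ, J x (Sum.inl γ) = 1 := by intro γ; rw [hx, hΦ]; rfl
  have hx0 : ∀ r, J x (Sum.inr r) = 0 := by intro r; rw [hx, hΦ]; rfl
  refine ⟨x, ?_, ?_, hx1, hx0⟩
  · rw [← J.norm_map, BoundedContinuousFunction.norm_le zero_le_one]
    intro s
    rw [hx, hΦ, Real.norm_eq_abs]
    exact hφ s
  · intro y hy1 hy2
    have hp : ∀ s, |J x s + J y s| ≤ 1 := by
      intro s
      have := BoundedContinuousFunction.norm_coe_le_norm (J (x + y)) s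
      rw [J.norm_map, map_add] at this
      exact le_trans this hy1
    have hm : ∀ s, |J x s - J y s| ≤ 1 := by
      intro s
      have := BoundedContinuousFunction.norm_coe_le_norm (J (x - y)) s
      rw [J.norm_map, map_sub] at this
      exact le_trans this hy2
    have hy : ∀ γ, J y (Sum.inl γ) = 0 := by
      intro γ
      have h1 := hp (Sum.inl γ)
      have h2 := hm (Sum.inl γ)
      rw [hx1 γ, abs_le] at h1 h2
      linarith [h1.1, h1.2, h2.1, h2.2]
    have hyq : ∀ n, J y (Sum.inr (q n)) = 0 := by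
      intro n
      have h1 := (mem_X0 _).1 (J_mem y) n
      simp only [hy, sub_zero] at h1
      have h2 := tendsto_nhds_unique h1 tendsto_const_nhds
      have h3 : (1/2 : ℝ)^n ≠ 0 := by positivity
      exact (mul_eq_zero.1 h2).resolve_left h3
    have hyr : (fun r : ℝ => J y (Sum.inr r)) = fun _ => 0 := by
      apply Continuous.ext_on (s := Set.range q)
      · exact TopologicalSpace.denseRange_denseSeq ℝ
      · exact (J y).continuous.comp continuous_inr
      · exact continuous_const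
      · rintro _ ⟨n, rfl⟩
        exact hyq n
    apply J.injective
    rw [map_zero]
    ext s
    rcases s with γ | r
    · exact hy γ
    · exact congrFun hyr r

/-- Krein-Milman: every vector of norm one is attained by an extreme functional -/
theorem exists_extreme_functional {X : Type} [NormedAddCommGroup X] [NormedSpace ℝ X]
    (h : X) (hh : ‖h‖ = 1) :
    ∃ f : X →L[ℝ] ℝ, f h = 1 ∧ ‖f‖ ≤ 1 ∧ ∀ g : X →L[ℝ] ℝ, ‖f + g‖ ≤ 1 → ‖f - g‖ ≤ 1 → g = 0 := by
  let S : Set (WeakDual ℝ X) := (WeakDual.toStrongDual ⁻¹' Metric.closedBall (0 : StrongDual ℝ X) 1) ∩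
    {f | f h = 1}
  have hcomp : IsCompact S := by
    apply (WeakDual.isCompact_closedBall (𝕜 := ℝ) (0 : StrongDual ℝ X) 1).inter_right
    exact isClosed_eq (WeakDual.eval_continuous h) continuous_const
  have hne : S.Nonempty := by
    obtain ⟨f, hf1, hf2⟩ := exists_dual_vector ℝ h (by rw [hh]; norm_num)
    refine ⟨StrongDual.toWeakDual f, ?_, ?_⟩
    · simp [hf1]
    · simp only [Set.mem_ofPred_eq]
      have : (StrongDual.toWeakDual f) h = f h := rfl
      rw [this, hf2, hh]; norm_num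
  have : LocallyConvexSpace ℝ (WeakDual ℝ X) :=
    WeakBilin.locallyConvexSpace (B := topDualPairing ℝ X)
  obtain ⟨f, hf⟩ := hcomp.extremePoints_nonempty hne
  rw [mem_extremePoints] at hf
  obtain ⟨hfS, hfe⟩ := hf
  let f' : X →L[ℝ] ℝ := WeakDual.toStrongDual f
  have hf'1 : f' h = 1 := hfS.2
  have hf'2 : ‖f'‖ ≤ 1 := by
    have := hfS.1
    simpa using this
  refine ⟨f', hf'1, hf'2, ?_⟩
  intro g hg1 hg2
  have a1 : (f' + g) h ≤ 1 := by
    have := (f' + g).le_opNorm h
    rw [hh, mul_one] at this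
    exact le_trans (le_abs_self _) (le_trans this hg1)
  have a2 : (f' - g) h ≤ 1 := by
    have := (f' - g).le_opNorm h
    rw [hh, mul_one] at this
    exact le_trans (le_abs_self _) (le_trans this hg2)
  have hgh : g h = 0 := by
    have b1 : (f' + g) h = f' h + g h := rfl
    have b2 : (f' - g) h = f' h - g h := rfl
    rw [b1, hf'1] at a1
    rw [b2, hf'1] at a2
    linarith
  have m1 : StrongDual.toWeakDual (f' + g) ∈ S := by
    refine ⟨by simpa using hg1, ?_⟩
    show (f' + g) h = 1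
    have b1 : (f' + g) h = f' h + g h := rfl
    rw [b1, hf'1, hgh, add_zero]
  have m2 : StrongDual.toWeakDual (f' - g) ∈ S := by
    refine ⟨by simpa using hg2, ?_⟩
    show (f' - g) h = 1
    have b1 : (f' - g) h = f' h - g h := rfl
    rw [b1, hf'1, hgh, sub_zero]
  have hseg : f ∈ openSegment ℝ (StrongDual.toWeakDual (f' + g)) (StrongDual.toWeakDual (f' - g)) := by
    refine ⟨1/2, 1/2, by norm_num, by norm_num, by norm_num, ?_⟩
    have e : (1/2 : ℝ) • (f' + g) + (1/2 : ℝ) • (f' - g) = f' := by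
      ext y
      have e0 : ((1/2 : ℝ) • (f' + g) + (1/2 : ℝ) • (f' - g)) y =
        1/2 * (f' y + g y) + 1/2 * (f' y - g y) := rfl
      rw [e0]; ring
    exact e
  have := hfe _ m1 _ m2 hseg
  have h1 : f' + g = f' := this.1
  exact left_eq_add.1 h1.symm

end Extreme

theorem counterexample : ∃ (f : E →L[ℝ] ℝ) (x : E),
      (‖f‖ ≤ 1 ∧ ∀ g : E →L[ℝ] ℝ, ‖f + g‖ ≤ 1 → ‖f - g‖ ≤ 1 → g = 0) ∧
      (‖x‖ ≤ 1 ∧ ∀ y : E, ‖x + y‖ ≤ 1 → ‖x - y‖ ≤ 1 → y = 0) ∧
      ‖f x‖ ≠ 1 := by
  obtain ⟨x, hx1, hx2, hx3, hx4⟩ := exists_extreme_point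
  obtain ⟨h, t, -, ht1, hh, hhγ, -⟩ := exists_bump_line Set.univ isOpen_univ Set.univ_nonempty
    (1/2) (by norm_num)
  have hnorm : ‖h‖ = 1 := by
    apply le_antisymm
    · rw [← J.norm_map, BoundedContinuousFunction.norm_le zero_le_one]
      intro s
      rw [Real.norm_eq_abs, abs_of_nonneg (hh s).1]
      exact (hh s).2
    · have := BoundedContinuousFunction.norm_coe_le_norm (J h) (Sum.inr t)
      rw [J.norm_map, ht1] at this
      simpa using this
  obtain ⟨f, hf1, hf2, hf3⟩ := exists_extreme_functional h hnorm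
  refine ⟨f, x, ⟨hf2, hf3⟩, ⟨hx1, hx2⟩, ?_⟩
  intro hcon
  rw [Real.norm_eq_abs] at hcon
  -- choose σ = f x = ± 1
  have hbound : ∀ σ : ℝ, |σ| = 1 → ‖σ • x + h‖ ≤ 3/2 := by
    intro σ hσ
    rw [← J.norm_map, BoundedContinuousFunction.norm_le (by norm_num)]
    intro s
    rw [map_add, map_smul]
    have e : (σ • J x + J h) s = σ * J x s + J h s := rfl
    rw [e, Real.norm_eq_abs]
    have hs := hh s
    rcases s with γ | r
    · rw [hx3 γ, mul_one]
      calc |σ + J h (Sum.inl γ)| ≤ |σ| + |J h (Sum.inl γ)| := abs_add_le _ _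
        _ ≤ 1 + 1/2 := by
            rw [hσ, abs_of_nonneg hs.1]
            linarith [hhγ γ]
        _ = 3/2 := by norm_num
    · rw [hx4 r, mul_zero, zero_add, abs_of_nonneg hs.1]
      linarith [hs.2]
  have hfx : f (f x • x + h) = 2 := by
    rw [map_add, map_smul, hf1, smul_eq_mul]
    have : f x * f x = 1 := by
      have h1 : |f x| * |f x| = f x * f x := abs_mul_abs_self _
      rw [← h1, hcon, one_mul]
    rw [this]; norm_num
  have h1 := hbound (f x) hcon
  have h2 := f.le_opNorm (f x • x + h)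
  rw [hfx, Real.norm_eq_abs] at h2
  have h3 : ‖f‖ * ‖f x • x + h‖ ≤ 1 * (3/2) := by
    apply mul_le_mul hf2 h1 (norm_nonneg _) zero_le_one
  have h4 : |(2:ℝ)| = 2 := by norm_num
  rw [h4] at h2
  linarith

/-- The negation of the preceding statement: For every real or complex Banach space with numerical index 1 (every operator's numerical radius equals its norm), every extreme point f of the dual unit ball and every extreme point x of the unit ball satisfy ∣f(x)∣ = 1. -/
theorem result :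
    ¬ (∀ (𝕜 : Type) [RCLike 𝕜] (X : Type) [NormedAddCommGroup X] [NormedSpace 𝕜 X] [CompleteSpace X],
    (∀ T : X →L[𝕜] X, ∀ ε : ℝ, 0 < ε →
      ∃ (x : X) (f : X →L[𝕜] 𝕜), ‖x‖ = 1 ∧ ‖f‖ = 1 ∧ f x = 1 ∧ ‖T‖ - ε < ‖f (T x)‖) →
    ∀ (f : X →L[𝕜] 𝕜) (x : X),
      (‖f‖ ≤ 1 ∧ ∀ g : X →L[𝕜] 𝕜, ‖f + g‖ ≤ 1 → ‖f - g‖ ≤ 1 → g = 0) →
      (‖x‖ ≤ 1 ∧ ∀ y : X, ‖x + y‖ ≤ 1 → ‖x - y‖ ≤ 1 → y = 0) →
      ‖f x‖ = 1) := by
  intro H
  obtain ⟨f, x, hf, hx, hne⟩ := counterexample
  have hne0 : ∃ y : E, y ≠ 0 := by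
    obtain ⟨h, t, -, ht1, -, -, -⟩ := exists_bump_line Set.univ isOpen_univ Set.univ_nonempty
      (1/2) (by norm_num)
    refine ⟨h, ?_⟩
    rintro rfl
    rw [map_zero] at ht1
    simp at ht1
  exact hne (H ℝ E (fun T ε hε => numerical_index_one J rich_J hne0 T ε hε) f x hf hx)

end Pool.Agent.S05808
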