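import Pool.Statements.S05847
import Mathlib

/-!
The symmetric Kottman constant of every non-reflexive real Banach space is at least 11/10.

Idea. In a non-reflexive space pick x_n in the unit ball and functionals f_n in the dual unit ball
with f_n(x_k) close to 9/10 for n <= k and f_n(x_k) = 0 for k < n.
Suppose every sequence of the unit ball has two distinct terms whose sum or difference has norm
smaller than d, where d < 11/10. Iterated limits along a free ultrafilter give:
1. norm (x_a - x_b) < d, because x_a + x_b has norm at least 1.798;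
2. u = x_a + x_b - x_c has norm at most 1 + d;
3. for two successive copies u, u' either u + u' or u - u' has norm at most d (1 + d);
4. in both cases successive copies of that vector (with x_a, x_b kept fixed in the second case)
   have sums and differences of norm at least 2.69, more than d * d * (1 + d). Contradiction.
-/

set_option autoImplicit false
open Pool Pool.MP_b0b663_an
open Filter Topology

namespace Pool.Agent.S05847

section Ultra

/-- iterated product of ultrafilters -/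
noncomputable def prodU {α β : Type} (A : Ultrafilter α) (B : Ultrafilter β) : Ultrafilter (α × β) :=
  A.bind (fun a => B.map (Prod.mk a))

theorem eventually_prodU {α β : Type} (A : Ultrafilter α) (B : Ultrafilter β) (P : α × β → Prop) :
    (∀ᶠ p in (prodU A B : Filter (α × β)), P p) ↔
      ∀ᶠ a in (A : Filter α), ∀ᶠ b in (B : Filter β), P (a, b) := by
  rfl

end Ultra

variable {X : Type} [NormedAddCommGroup X] [NormedSpace ℝ X]

/-- the extraction lemma -/
theorem extraction {α : Type} (F : Filter α) [F.NeBot] (z : α → X) (d r : ℝ) (hr : 0 < r)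
    (hz : ∀ᶠ a in F, ‖z a‖ ≤ r)
    (hgood : ∀ᶠ a in F, ∀ᶠ b in F, d * r ≤ ‖z a + z b‖ ∧ d * r ≤ ‖z a - z b‖) :
    ∃ x : ℕ → X, (∀ n, ‖x n‖ ≤ 1) ∧
            ∀ n m : ℕ, n ≠ m → d ≤ ‖x n + x m‖ ∧ d ≤ ‖x n - x m‖ := by
  obtain ⟨f, hf1, hf2⟩ := exists_seq_of_forall_finset_exists
    (fun a => ‖z a‖ ≤ r ∧ ∀ᶠ b in F, d * r ≤ ‖z a + z b‖ ∧ d * r ≤ ‖z a - z b‖)
    (fun a b => d * r ≤ ‖z a + z b‖ ∧ d * r ≤ ‖z a - z b‖)
    (by
      intro s hs
      have h1 : ∀ᶠ b in F, ∀ a ∈ s, d * r ≤ ‖z a + z b‖ ∧ d * r ≤ ‖z a - z b‖ := by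
        rw [Filter.eventually_all_finset]
        intro a ha
        exact (hs a ha).2
      obtain ⟨b, hb1, hb2, hb3⟩ := ((hz.and (hgood.and h1))).exists
      exact ⟨b, ⟨hb1, hb2⟩, hb3⟩)
  have key : ∀ m n : ℕ, m < n → d ≤ ‖r⁻¹ • z (f m) + r⁻¹ • z (f n)‖ ∧
      d ≤ ‖r⁻¹ • z (f m) - r⁻¹ • z (f n)‖ := by
    intro m n hmn
    have := hf2 m n hmn
    rw [← smul_add, ← smul_sub, norm_smul, norm_smul, norm_inv, Real.norm_of_nonneg hr.le]
    constructor
    · rw [inv_mul_eq_div, le_div_iff₀ hr]; exact this.1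
    · rw [inv_mul_eq_div, le_div_iff₀ hr]; exact this.2
  refine ⟨fun n => r⁻¹ • z (f n), ?_, ?_⟩
  · intro n
    rw [norm_smul, norm_inv, Real.norm_of_nonneg hr.le, inv_mul_eq_div, div_le_one hr]
    exact (hf1 n).1
  · intro n m hnm
    rcases lt_or_gt_of_ne hnm with h | h
    · exact key n m h
    · have := key m n h
      constructor
      · show d ≤ ‖r⁻¹ • z (f n) + r⁻¹ • z (f m)‖
        rw [add_comm]; exact this.1
      · show d ≤ ‖r⁻¹ • z (f n) - r⁻¹ • z (f m)‖
        rw [norm_sub_rev]; exact this.2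

/-- abstract form: a functional far from a finite-dimensional space of functionals -/
theorem exists_annihilated {Y : Type} [NormedAddCommGroup Y] [NormedSpace ℝ Y]
    (F : StrongDual ℝ Y) (r θ : ℝ) (hθ : 0 < θ) (hr : θ < r) {ι : Type} [Finite ι]
    (L : ι → StrongDual ℝ Y)
    (hF : ∀ c : ι →₀ ℝ, r ≤ ‖F - c.sum (fun i a => a • L i)‖) :
    ∃ y : Y, ‖y‖ ≤ 1 ∧ F y = θ ∧ ∀ i, L i y = 0 := by
  classical
  obtain ⟨W, hWdef⟩ : ∃ W : Submodule ℝ Y, W =
    ⨅ i : ι, LinearMap.ker ((L i : StrongDual ℝ Y) : Y →ₗ[ℝ] ℝ) := ⟨_, rfl⟩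
  have hW : ∀ y : Y, y ∈ W ↔ ∀ i, L i y = 0 := by
    intro f
    simp [hWdef, Submodule.mem_iInf]
  let g : StrongDual ℝ W := F.comp W.subtypeL
  obtain ⟨G, hG1, hG2⟩ := exists_extension_norm_eq (𝕜 := ℝ) W g
  have hmem : ((F - G : StrongDual ℝ Y) : Y →ₗ[ℝ] ℝ) ∈
      Submodule.span ℝ (Set.range fun i : ι => ((L i : StrongDual ℝ Y) : Y →ₗ[ℝ] ℝ)) := by
    apply mem_span_of_iInf_ker_le_ker
    rw [← hWdef]
    intro f hf
    have h1 : G f = F f := by
      have := hG1 ⟨f, hf⟩
      simpa [g] using this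
    simp [h1]
  obtain ⟨c, hc⟩ := (Finsupp.mem_span_range_iff_exists_finsupp).1 hmem
  have hg : r ≤ ‖g‖ := by
    rw [← hG2]
    have h2 : (F - G : StrongDual ℝ Y) = c.sum (fun i a => a • L i) := by
      ext y
      have := congrArg (fun L : Y →ₗ[ℝ] ℝ => L y) hc
      simp only [Finsupp.sum, LinearMap.sum_apply, LinearMap.smul_apply] at this
      simp only [Finsupp.sum, sum_apply, smul_apply]
      exact this.symm
    have := hF c
    rw [← h2] at this
    simpa using this
  obtain ⟨f, hf1, hf2⟩ := ContinuousLinearMap.exists_lt_apply_of_lt_opNorm g (lt_of_lt_of_le hr hg)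
  have hgf : g f = F (f : Y) := rfl
  rw [hgf, Real.norm_eq_abs] at hf2
  have hne : F (f : Y) ≠ 0 := by
    intro h0
    rw [h0, abs_zero] at hf2
    linarith
  refine ⟨(θ / F (f : Y)) • (f : Y), ?_, ?_, ?_⟩
  · rw [norm_smul, norm_div, Real.norm_eq_abs, Real.norm_eq_abs, abs_of_pos hθ]
    have h1 : θ / |F (f : Y)| ≤ 1 := by
      rw [div_le_one (by linarith)]
      exact hf2.le
    have h2 : ‖(f : Y)‖ ≤ 1 := by
      have : ‖f‖ < 1 := hf1
      exact this.le
    have h3 : 0 ≤ θ / |F (f : Y)| := by positivity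
    calc θ / |F (f : Y)| * ‖(f : Y)‖ ≤ 1 * 1 :=
        mul_le_mul h1 h2 (norm_nonneg _) (by norm_num)
      _ = 1 := by norm_num
  · simp only [map_smul, smul_eq_mul]
    field_simp
  · intro i
    have := (hW f).1 f.2 i
    simp [this]

/-- Existence of functionals: part of James' construction -/
theorem exists_functional (F : StrongDual ℝ (StrongDual ℝ X)) (r θ : ℝ) (hθ : 0 < θ) (hr : θ < r)
    (hF : ∀ w : X, r ≤ ‖F - NormedSpace.inclusionInDoubleDual ℝ X w‖) (s : Finset X) :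
    ∃ f : StrongDual ℝ X, ‖f‖ ≤ 1 ∧ F f = θ ∧ ∀ x ∈ s, f x = 0 := by
  classical
  obtain ⟨f, hf1, hf2, hf3⟩ := exists_annihilated F r θ hθ hr
    (fun x : s => NormedSpace.inclusionInDoubleDual ℝ X (x : X)) (by
      intro c
      have : (c.sum fun i a => a • (NormedSpace.inclusionInDoubleDual ℝ X) (i : X)) =
        NormedSpace.inclusionInDoubleDual ℝ X (c.sum fun i a => a • (i : X)) := by
        simp only [Finsupp.sum, map_sum, map_smul]
      rw [this]
      exact hF _)
  refine ⟨f, hf1, hf2, fun x hx => ?_⟩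
  have := hf3 ⟨x, hx⟩
  simpa using this

/-- Goldstine / Helly approximation -/
theorem exists_vector (F : StrongDual ℝ (StrongDual ℝ X)) (hF : ‖F‖ ≤ 1) (δ : ℝ) (hδ : 0 < δ)
    (s : Finset (StrongDual ℝ X)) :
    ∃ x : X, ‖x‖ ≤ 1 ∧ ∀ f ∈ s, |f x - F f| < δ := by
  classical
  let T : X →L[ℝ] (s → ℝ) := ContinuousLinearMap.pi (fun f : s => (f : StrongDual ℝ X))
  let c : s → ℝ := fun f => F (f : StrongDual ℝ X)
  have hconv : Convex ℝ (closure (T '' Metric.ball (0:X) 1)) :=
    ((convex_ball (0:X) 1).is_linear_image T.isLinear).closure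
  by_cases hc : c ∈ closure (T '' Metric.ball (0:X) 1)
  · rw [Metric.mem_closure_iff] at hc
    obtain ⟨b, ⟨x, hx, rfl⟩, hb⟩ := hc δ hδ
    refine ⟨x, ?_, ?_⟩
    · have : ‖x‖ < 1 := by simpa using hx
      exact this.le
    · intro f hf
      have h1 := (dist_pi_lt_iff hδ).1 hb ⟨f, hf⟩
      have h2 : dist (F f) (f x) < δ := h1
      rw [dist_comm, Real.dist_eq] at h2
      exact h2
  · exfalso
    obtain ⟨g, u, hg1, hg2⟩ := geometric_hahn_banach_closed_point hconv isClosed_closure hc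
    -- φ = g ∘ T
    let φ : StrongDual ℝ X := g.comp T
    have hφ : ∀ x ∈ Metric.ball (0:X) 1, φ x < u := by
      intro x hx
      exact hg1 _ (subset_closure ⟨x, hx, rfl⟩)
    have hu0 : 0 < u := by
      have := hφ 0 (by simp)
      simpa using this
    have hnorm : ‖φ‖ ≤ u := by
      by_contra hcon
      push Not at hcon
      obtain ⟨x, hx1, hx2⟩ := ContinuousLinearMap.exists_lt_apply_of_lt_opNorm φ hcon
      rw [Real.norm_eq_abs] at hx2
      rcases abs_cases (φ x) with h | h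
      · have := hφ x (by simpa using hx1)
        linarith
      · have := hφ (-x) (by simpa using hx1)
        rw [map_neg] at this
        linarith
    have hφs : φ = ∑ i : s, g (Pi.single i 1) • (i : StrongDual ℝ X) := by
      ext x
      have : φ x = g (T x) := rfl
      rw [this]
      have h2 : T x = ∑ i : s, (T x i) • (Pi.single i (1:ℝ) : s → ℝ) := by
        ext j
        simp [Finset.sum_apply, Pi.single_apply]
      rw [h2, map_sum]
      simp only [sum_apply, smul_apply, map_smul, smul_eq_mul]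
      refine Finset.sum_congr rfl fun i _ => ?_
      rw [mul_comm]
      rfl
    have hFφ : F φ = g c := by
      rw [hφs, map_sum]
      have h2 : c = ∑ i : s, (c i) • (Pi.single i (1:ℝ) : s → ℝ) := by
        ext j
        simp [Finset.sum_apply, Pi.single_apply]
      rw [h2, map_sum]
      simp only [map_smul, smul_eq_mul]
      refine Finset.sum_congr rfl fun i _ => ?_
      rw [mul_comm]
    have h3 : |F φ| ≤ ‖F‖ * ‖φ‖ := F.le_opNorm φ
    have h4 : F φ ≤ |F φ| := le_abs_self _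
    have h5 : ‖F‖ * ‖φ‖ ≤ 1 * ‖φ‖ := mul_le_mul_of_nonneg_right hF (norm_nonneg _)
    rw [hFφ] at h4 h3
    linarith

theorem riesz_range {Y : Type} [NormedAddCommGroup Y] [NormedSpace ℝ Y] [CompleteSpace X]
    (J : X →ₗᵢ[ℝ] Y) (hJs : ¬ Function.Surjective J) :
    ∃ F : Y, ‖F‖ = 1 ∧ ∀ w : X, (99/100 : ℝ) ≤ ‖F - J w‖ := by
  have hclosed : IsClosed (LinearMap.range J.toLinearMap : Set Y) := by
    have := J.isometry.isClosedEmbedding.isClosed_range
    simpa [LinearMap.coe_range] using this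
  have hne : ∃ F : Y, F ∉ LinearMap.range J.toLinearMap := by
    by_contra hcon
    push Not at hcon
    apply hJs
    intro F
    obtain ⟨w, hw⟩ := hcon F
    exact ⟨w, hw⟩
  obtain ⟨F, -, hF1, hF2⟩ := riesz_lemma_of_lt_one hclosed hne (r := 99/100) (by norm_num)
  exact ⟨F, hF1, fun w => hF2 _ ⟨w, rfl⟩⟩

theorem riesz_bidual [CompleteSpace X] (hX : ¬ Function.Surjective (NormedSpace.inclusionInDoubleDual ℝ X)) : 
    ∃ F : StrongDual ℝ (StrongDual ℝ X), ‖F‖ = 1 ∧ ∀ w : X, (99/100 : ℝ) ≤ ‖F - NormedSpace.inclusionInDoubleDual ℝ X w‖ := by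
  have h1 : ¬ Function.Surjective (NormedSpace.inclusionInDoubleDualLi ℝ (E := X)) := by
    intro h
    apply hX
    intro F
    obtain ⟨w, hw⟩ := h F
    exact ⟨w, hw⟩
  obtain ⟨F, hF1, hF2⟩ := riesz_range (Y := StrongDual ℝ (StrongDual ℝ X)) (NormedSpace.inclusionInDoubleDualLi ℝ (E := X)) h1
  exact ⟨F, hF1, hF2⟩

/-- James sequences (approximate form) in a nonreflexive space -/
theorem james [CompleteSpace X]
    (hX : ¬ Function.Surjective (NormedSpace.inclusionInDoubleDual ℝ X)) (δ : ℝ) (hδ : 0 < δ) :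
    ∃ (x : ℕ → X) (f : ℕ → StrongDual ℝ X), (∀ n, ‖x n‖ ≤ 1) ∧ (∀ n, ‖f n‖ ≤ 1) ∧
      (∀ n k, n ≤ k → |f n (x k) - 9/10| < δ) ∧ (∀ n k, k < n → f n (x k) = 0) := by
  classical
  obtain ⟨F, hF1, hF3⟩ := riesz_bidual hX
  obtain ⟨g, hg1, hg2⟩ := exists_seq_of_forall_finset_exists
    (fun p : X × StrongDual ℝ X => ‖p.1‖ ≤ 1 ∧ ‖p.2‖ ≤ 1 ∧ F p.2 = 9/10 ∧ |p.2 p.1 - 9/10| < δ)
    (fun p q => q.2 p.1 = 0 ∧ |p.2 q.1 - 9/10| < δ)
    (by
      intro s hs
      obtain ⟨f, hf1, hf2, hf3⟩ := exists_functional F (99/100) (9/10) (by norm_num) (by norm_num)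
        hF3 (s.image Prod.fst)
      obtain ⟨x, hx1, hx2⟩ := exists_vector F hF1.le δ hδ (insert f (s.image Prod.snd))
      refine ⟨(x, f), ⟨hx1, hf1, hf2, ?_⟩, ?_⟩
      · have := hx2 f (Finset.mem_insert_self _ _)
        rwa [hf2] at this
      · intro p hp
        refine ⟨hf3 _ (Finset.mem_image_of_mem _ hp), ?_⟩
        have := hx2 p.2 (Finset.mem_insert_of_mem (Finset.mem_image_of_mem _ hp))
        rwa [(hs p hp).2.2.1] at this)
  refine ⟨fun n => (g n).1, fun n => (g n).2, fun n => (hg1 n).1, fun n => (hg1 n).2.1, ?_, ?_⟩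
  · intro n k hnk
    rcases hnk.eq_or_lt with h | h
    · subst h; exact (hg1 n).2.2.2
    · exact (hg2 n k h).2
  · intro n k hkn
    exact (hg2 k n hkn).1

/-- lower bound for a norm from a functional of norm at most one -/
theorem le_norm_of_functional (f : StrongDual ℝ X) (hf : ‖f‖ ≤ 1) (x : X) (t : ℝ)
    (h : t ≤ |f x|) : t ≤ ‖x‖ := by
  have h1 : |f x| ≤ ‖f‖ * ‖x‖ := f.le_opNorm x
  have h2 : ‖f‖ * ‖x‖ ≤ 1 * ‖x‖ := mul_le_mul_of_nonneg_right hf (norm_nonneg _)
  linarith

theorem main [CompleteSpace X]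
    (hX : ¬ Function.Surjective (NormedSpace.inclusionInDoubleDual ℝ X)) (d : ℝ) (hd : d < 11/10) :
    ∃ x : ℕ → X, (∀ n, ‖x n‖ ≤ 1) ∧
            ∀ n m : ℕ, n ≠ m → d ≤ ‖x n + x m‖ ∧ d ≤ ‖x n - x m‖ := by
  -- trivial case
  rcases le_or_gt d 0 with hd0 | hd0
  · exact ⟨fun _ => 0, by simp, fun n m _ => by simp [hd0]⟩
  by_contra hcon
  obtain ⟨x, f, hx, hf, hxf, hxf0⟩ := james hX (1/1000) (by norm_num)
  let U : Ultrafilter ℕ := hyperfilter ℕ
  have hgt : ∀ n : ℕ, ∀ᶠ m in (U : Filter ℕ), n < m := fun n =>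
    Nat.hyperfilter_le_atTop (eventually_gt_atTop n)
  -- the extraction lemma, contrapositive form, for ultrafilters
  have extr : ∀ {α : Type} (V : Ultrafilter α) (z : α → X) (r : ℝ), 0 < r →
      (∀ᶠ a in (V : Filter α), ‖z a‖ ≤ r) →
      ¬ (∀ᶠ a in (V : Filter α), ∀ᶠ b in (V : Filter α),
        d * r ≤ ‖z a + z b‖ ∧ d * r ≤ ‖z a - z b‖) := by
    intro α V z r hr h1 h2
    exact hcon (extraction (V : Filter α) z d r hr h1 h2)
  -- Step 1
  have step1 : ∀ᶠ a in (U : Filter ℕ), ∀ᶠ b in (U : Filter ℕ), ‖x a - x b‖ < d := by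
    have h := extr U x 1 one_pos (Filter.Eventually.of_forall hx)
    rw [← Ultrafilter.eventually_not] at h
    refine h.mono fun a ha => ?_
    rw [← Ultrafilter.eventually_not] at ha
    refine ha.mono fun b hb => ?_
    have h0 : 2 * (9/10 : ℝ) - 2/1000 ≤ ‖x a + x b‖ := by
      apply le_norm_of_functional (f 0) (hf 0)
      rw [map_add]
      have h1 := abs_lt.1 (hxf 0 a (Nat.zero_le _))
      have h2 := abs_lt.1 (hxf 0 b (Nat.zero_le _))
      refine le_trans ?_ (le_abs_self _)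
      linarith
    by_contra hcon2
    push Not at hcon2
    apply hb
    constructor <;> linarith
  -- Step 2
  let U3 : Ultrafilter (ℕ × ℕ × ℕ) := prodU U (prodU U U)
  let u : ℕ × ℕ × ℕ → X := fun p => x p.1 + x p.2.1 - x p.2.2
  have step2 : ∀ᶠ p in (U3 : Filter (ℕ × ℕ × ℕ)), ‖u p‖ ≤ 1 + d := by
    rw [eventually_prodU]
    refine Filter.Eventually.of_forall fun a => ?_
    rw [eventually_prodU]
    refine step1.mono fun b hb => hb.mono fun c hc => ?_
    calc ‖u (a, b, c)‖ = ‖x a + (x b - x c)‖ := by simp only [u]; congr 1; abel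
      _ ≤ ‖x a‖ + ‖x b - x c‖ := norm_add_le _ _
      _ ≤ 1 + d := add_le_add (hx a) hc.le
  -- Step 3
  obtain ⟨ρ, hρ⟩ : ∃ ρ : ℝ, ρ = d * (1 + d) := ⟨_, rfl⟩
  have hρ0 : 0 < ρ := by rw [hρ]; positivity
  have hdρ : d * ρ ≤ 27/10 - 8/1000 := by
    rw [hρ]
    nlinarith [mul_pos hd0 hd0, mul_pos (sub_pos.2 hd) hd0]
  have step3 : (∀ᶠ p in (U3 : Filter (ℕ × ℕ × ℕ)), ∀ᶠ q in (U3 : Filter (ℕ × ℕ × ℕ)),
        ‖u p + u q‖ ≤ ρ) ∨
      (∀ᶠ p in (U3 : Filter (ℕ × ℕ × ℕ)), ∀ᶠ q in (U3 : Filter (ℕ × ℕ × ℕ)),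
        ‖u p - u q‖ ≤ ρ) := by
    have h := extr U3 u (1 + d) (by linarith) step2
    rw [← hρ] at h
    rw [← Ultrafilter.eventually_not] at h
    rw [← Ultrafilter.eventually_or]
    refine h.mono fun p hp => ?_
    rw [← Ultrafilter.eventually_or]
    rw [← Ultrafilter.eventually_not] at hp
    refine hp.mono fun q hq => ?_
    by_contra hcon2
    push Not at hcon2
    exact hq ⟨hcon2.1.le, hcon2.2.le⟩
  have hgt3 : ∀ n : ℕ, ∀ᶠ p in (U3 : Filter (ℕ × ℕ × ℕ)), n < p.1 ∧ p.1 < p.2.1 ∧ p.2.1 < p.2.2 := by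
    intro n
    rw [eventually_prodU]
    refine (hgt n).mono fun a ha => ?_
    rw [eventually_prodU]
    refine (hgt a).mono fun b hb => ?_
    exact (hgt b).mono fun c hc => ⟨ha, hb, hc⟩
  rcases step3 with hB | hA
  · -- Case B : sums are small
    have hz : ∀ᶠ w in (prodU U3 U3 : Filter ((ℕ × ℕ × ℕ) × (ℕ × ℕ × ℕ))), ‖u w.1 + u w.2‖ ≤ ρ := by
      rw [eventually_prodU]; exact hB
    refine extr (prodU U3 U3) (fun w => u w.1 + u w.2) ρ hρ0 hz ?_
    rw [eventually_prodU]
    refine (hgt3 0).mono fun p hp => ?_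
    refine (hgt3 p.2.2).mono fun q hq => ?_
    rw [eventually_prodU]
    refine (hgt3 q.2.2).mono fun p' hp' => ?_
    refine (hgt3 p'.2.2).mono fun q' hq' => ?_
    obtain ⟨a, b, c⟩ := p
    obtain ⟨a', b', c'⟩ := q
    obtain ⟨a₂, b₂, c₂⟩ := p'
    obtain ⟨a₂', b₂', c₂'⟩ := q'
    simp only at hp hq hp' hq' ⊢
    simp only [u]
    constructor
    · refine le_trans hdρ ?_
      apply le_norm_of_functional (f a) (hf a)
      refine le_trans ?_ (le_abs_self _)
      simp only [map_add, map_sub]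
      have e1 := abs_lt.1 (hxf a a le_rfl)
      have e2 := abs_lt.1 (hxf a b (by omega))
      have e3 := abs_lt.1 (hxf a c (by omega))
      have e4 := abs_lt.1 (hxf a a' (by omega))
      have e5 := abs_lt.1 (hxf a b' (by omega))
      have e6 := abs_lt.1 (hxf a c' (by omega))
      have e7 := abs_lt.1 (hxf a a₂ (by omega))
      have e8 := abs_lt.1 (hxf a b₂ (by omega))
      have e9 := abs_lt.1 (hxf a c₂ (by omega))
      have e10 := abs_lt.1 (hxf a a₂' (by omega))
      have e11 := abs_lt.1 (hxf a b₂' (by omega))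
      have e12 := abs_lt.1 (hxf a c₂' (by omega))
      linarith
    · refine le_trans hdρ ?_
      apply le_norm_of_functional (f c') (hf c')
      refine le_trans ?_ (neg_le_abs _)
      simp only [map_add, map_sub]
      have e1 := hxf0 c' a (by omega)
      have e2 := hxf0 c' b (by omega)
      have e3 := hxf0 c' c (by omega)
      have e4 := hxf0 c' a' (by omega)
      have e5 := hxf0 c' b' (by omega)
      have e6 := abs_lt.1 (hxf c' c' (by omega))
      have e7 := abs_lt.1 (hxf c' a₂ (by omega))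
      have e8 := abs_lt.1 (hxf c' b₂ (by omega))
      have e9 := abs_lt.1 (hxf c' c₂ (by omega))
      have e10 := abs_lt.1 (hxf c' a₂' (by omega))
      have e11 := abs_lt.1 (hxf c' b₂' (by omega))
      have e12 := abs_lt.1 (hxf c' c₂' (by omega))
      linarith
  · -- Case A : differences are small
    rw [eventually_prodU] at hA
    obtain ⟨a, ha⟩ := hA.exists
    rw [eventually_prodU] at ha
    obtain ⟨b, hb⟩ := ha.exists
    let U4 : Ultrafilter (ℕ × (ℕ × ℕ × ℕ)) := prodU U U3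
    let z : ℕ × (ℕ × ℕ × ℕ) → X := fun w => u (a, b, w.1) - u w.2
    have hz : ∀ᶠ w in (U4 : Filter (ℕ × (ℕ × ℕ × ℕ))), ‖z w‖ ≤ ρ := by
      rw [eventually_prodU]; exact hb
    refine extr U4 z ρ hρ0 hz ?_
    rw [eventually_prodU]
    refine ((hgt a).and (hgt b)).mono fun c hc => ?_
    refine (hgt3 c).mono fun q hq => ?_
    rw [eventually_prodU]
    refine (hgt q.2.2).mono fun c₂ hc₂ => ?_
    refine (hgt3 c₂).mono fun q' hq' => ?_
    obtain ⟨a', b', c'⟩ := q
    obtain ⟨a₂', b₂', c₂'⟩ := q'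
    simp only at hc hq hc₂ hq' ⊢
    simp only [z, u]
    constructor
    · refine le_trans hdρ ?_
      apply le_norm_of_functional (f c) (hf c)
      refine le_trans ?_ (neg_le_abs _)
      simp only [map_add, map_sub]
      have e1 := hxf0 c a (by omega)
      have e2 := hxf0 c b (by omega)
      have e3 := abs_lt.1 (hxf c c (by omega))
      have e4 := abs_lt.1 (hxf c a' (by omega))
      have e5 := abs_lt.1 (hxf c b' (by omega))
      have e6 := abs_lt.1 (hxf c c' (by omega))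
      have e9 := abs_lt.1 (hxf c c₂ (by omega))
      have e10 := abs_lt.1 (hxf c a₂' (by omega))
      have e11 := abs_lt.1 (hxf c b₂' (by omega))
      have e12 := abs_lt.1 (hxf c c₂' (by omega))
      linarith
    · refine le_trans hdρ ?_
      apply le_norm_of_functional (f c') (hf c')
      refine le_trans ?_ (le_abs_self _)
      simp only [map_add, map_sub]
      have e1 := hxf0 c' a (by omega)
      have e2 := hxf0 c' b (by omega)
      have e3 := hxf0 c' c (by omega)
      have e4 := hxf0 c' a' (by omega)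
      have e5 := hxf0 c' b' (by omega)
      have e6 := abs_lt.1 (hxf c' c' (by omega))
      have e9 := abs_lt.1 (hxf c' c₂ (by omega))
      have e10 := abs_lt.1 (hxf c' a₂' (by omega))
      have e11 := abs_lt.1 (hxf c' b₂' (by omega))
      have e12 := abs_lt.1 (hxf c' c₂' (by omega))
      linarith

/-- There is c > 1 such that every non-reflexive real Banach space has, for each d < c, a sequence in its unit ball with ‖x_n + x_m‖ ≥ d and ‖x_n − x_m‖ ≥ d for all n ≠ m, i.e. its symmetric Kottman constant is at least c. -/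
theorem result :
    ∃ c : ℝ, 1 < c ∧
      ∀ (X : Type) [NormedAddCommGroup X] [NormedSpace ℝ X] [CompleteSpace X],
        ¬ Function.Surjective (NormedSpace.inclusionInDoubleDual ℝ X) →
        ∀ d : ℝ, d < c →
          ∃ x : ℕ → X, (∀ n, ‖x n‖ ≤ 1) ∧
            ∀ n m : ℕ, n ≠ m → d ≤ ‖x n + x m‖ ∧ d ≤ ‖x n - x m‖ := by
  refine ⟨11/10, by norm_num, ?_⟩
  intro X _ _ _ hX d hd
  exact main hX d hd

end Pool.Agent.S05847
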