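import Pool.Statements.S06057
import Pool.Agent.H.MP_c42e77_an.Basic

set_option autoImplicit false
open Pool Pool.MP_c42e77_an

namespace Pool.Agent.S06057

open Set Filter Topology

/-- the subsum map is continuous -/
lemma continuous_subsum (x : ℕ → ℝ) (hpos : ∀ n, 0 < x n) (hx : Summable x) :
    Continuous (fun ε : ℕ → Bool => ∑' n, if ε n then x n else 0) := by
  refine continuous_tsum (u := x) ?_ hx ?_
  · intro n
    have : (fun ε : ℕ → Bool => if ε n then x n else 0) =
        (fun b : Bool => if b then x n else 0) ∘ (fun ε : ℕ → Bool => ε n) := by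
      ext ε; simp
    rw [this]
    exact (continuous_of_discreteTopology).comp (continuous_apply n)
  · intro n ε
    by_cases h : ε n
    · simp [h, abs_of_pos (hpos n)]
    · simp [h, (hpos n).le]

lemma summable_subsum (x : ℕ → ℝ) (hpos : ∀ n, 0 < x n) (hx : Summable x) (ε : ℕ → Bool) :
    Summable (fun n => if ε n then x n else 0) := by
  refine Summable.of_nonneg_of_le ?_ ?_ hx
  · intro n
    by_cases h : ε n
    · simp [h, (hpos n).le]
    · simp [h]
  · intro n
    by_cases h : ε n
    · simp [h]
    · simp [h, (hpos n).le]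

/-- For every summable sequence of positive reals, the set of reals t that arise as a subsum in continuum-many ways is either empty or contains a subset homeomorphic to the Cantor space. -/
theorem result :
    ∀ x : ℕ → ℝ, (∀ n, 0 < x n) → Summable x →
      ({t : ℝ | Cardinal.mk (↥{ε : ℕ → Bool | (∑' n, if ε n then x n else 0) = t})
            = Cardinal.continuum} = ∅ ∨
        ∃ C : Set ℝ,
          C ⊆ {t : ℝ | Cardinal.mk (↥{ε : ℕ → Bool | (∑' n, if ε n then x n else 0) = t})
                = Cardinal.continuum} ∧
          Nonempty (C ≃ₜ (ℕ → Bool))) := by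
  intro x hpos hx
  rcases Set.eq_empty_or_nonempty
    {t : ℝ | Cardinal.mk (↥{ε : ℕ → Bool | (∑' n, if ε n then x n else 0) = t})
            = Cardinal.continuum} with hemp | ⟨t, ht⟩
  · exact Or.inl hemp
  right
  set f : (ℕ → Bool) → ℝ := fun ε : ℕ → Bool => ∑' n, if ε n then x n else 0 with hf
  have hfc : Continuous f := continuous_subsum x hpos hx
  have hCclosed : IsClosed {ε : ℕ → Bool | f ε = t} := isClosed_eq hfc continuous_const
  have hCunc : ¬ ({ε : ℕ → Bool | f ε = t}).Countable := by
    intro h
    have h1 : Cardinal.mk (↥{ε : ℕ → Bool | f ε = t}) ≤ Cardinal.aleph0 :=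
      Cardinal.le_aleph0_iff_set_countable.2 h
    have h2 : Cardinal.mk (↥{ε : ℕ → Bool | f ε = t}) = Cardinal.continuum := ht
    rw [h2] at h1
    exact absurd Cardinal.aleph0_lt_continuum (not_lt.2 h1)
  obtain ⟨D, n, v, hD, hDne, hDC, hn, hDv⟩ :=
    Pool.Agent.H.MP_c42e77_an.exists_perfect_const _ hCclosed hCunc
  obtain ⟨z0, hz0⟩ := hDne
  classical
  -- combination map
  let comb : (ℕ → Bool) → (ℕ → Bool) → (ℕ → Bool) :=
    fun w z i => if i ∈ Set.range n then w i else z i
  have hcomb : ∀ w, ∀ z ∈ D, f (comb w z) = f (comb w z0) := by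
    intro w z hz
    have e1 : f z = f z0 := by
      have a := hDC hz
      have b := hDC hz0
      simp only [Set.mem_ofPred_eq] at a b
      rw [a, b]
    have s1 := summable_subsum x hpos hx (comb w z)
    have s2 := summable_subsum x hpos hx (comb w z0)
    have s3 := summable_subsum x hpos hx z
    have s4 := summable_subsum x hpos hx z0
    have e2 : f (comb w z) - f (comb w z0) = f z - f z0 := by
      simp only [hf]
      rw [← s1.tsum_sub s2, ← s3.tsum_sub s4]
      refine tsum_congr (fun i => ?_)
      by_cases hi : i ∈ Set.range n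
      · obtain ⟨k, rfl⟩ := hi
        have hc1 : comb w z (n k) = w (n k) := by simp [comb]
        have hc2 : comb w z0 (n k) = w (n k) := by simp [comb]
        rw [hc1, hc2, hDv z hz k, hDv z0 hz0 k]
        simp
      · have hc1 : comb w z i = z i := by
          simp only [comb]; rw [if_neg hi]
        have hc2 : comb w z0 i = z0 i := by
          simp only [comb]; rw [if_neg hi]
        rw [hc1, hc2]
    linarith
  have hinj : ∀ w, Set.InjOn (comb w) D := by
    intro w z hz z' hz' h
    funext i
    by_cases hi : i ∈ Set.range n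
    · obtain ⟨k, rfl⟩ := hi
      rw [hDv z hz k, hDv z' hz' k]
    · have := congrFun h i
      simp only [comb] at this
      rwa [if_neg hi, if_neg hi] at this
  have hcard : ∀ w, Cardinal.mk (↥{ε : ℕ → Bool | f ε = f (comb w z0)}) = Cardinal.continuum := by
    intro w
    refine le_antisymm ?_ ?_
    · calc Cardinal.mk (↥{ε : ℕ → Bool | f ε = f (comb w z0)}) ≤ Cardinal.mk (ℕ → Bool) :=
            Cardinal.mk_set_le _
        _ = Cardinal.continuum := by simp
    · exact Pool.Agent.H.MP_c42e77_an.mk_of_perfect_image D hD ⟨z0, hz0⟩ _ (comb w) (hinj w)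
        (fun z hz => hcomb w z hz)
  -- the set of new values is perfect
  let T : Set ℝ := Set.range (fun w => f (comb w z0))
  have hcombc : Continuous (fun w => comb w z0) := by
    refine continuous_pi (fun i => ?_)
    by_cases hi : i ∈ Set.range n
    · have : (fun w => comb w z0 i) = (fun w : ℕ → Bool => w i) := by
        funext w; simp only [comb]; rw [if_pos hi]
      rw [this]; exact continuous_apply i
    · have : (fun w => comb w z0 i) = (fun _ : ℕ → Bool => z0 i) := by
        funext w; simp only [comb]; rw [if_neg hi]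
      rw [this]; exact continuous_const
  have hTclosed : IsClosed T := (isCompact_range (hfc.comp hcombc)).isClosed
  have hTpre : Preperfect T := by
    rw [preperfect_iff_nhds]
    rintro _ ⟨w, rfl⟩ U hU
    obtain ⟨δ, hδ, hball⟩ := Metric.mem_nhds_iff.1 hU
    have htend : Tendsto (fun k => x (n k)) atTop (𝓝 0) :=
      hx.tendsto_atTop_zero.comp hn.tendsto_atTop
    obtain ⟨k, hk⟩ := ((tendsto_order.1 htend).2 δ hδ).exists
    let w' : ℕ → Bool := Function.update w (n k) (!(w (n k)))
    have hdiff : f (comb w' z0) - f (comb w z0) = if w (n k) then - x (n k) else x (n k) := by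
      have s1 := summable_subsum x hpos hx (comb w' z0)
      have s2 := summable_subsum x hpos hx (comb w z0)
      simp only [hf]
      rw [← s1.tsum_sub s2]
      rw [tsum_eq_single (n k)]
      · have hc1 : comb w' z0 (n k) = !(w (n k)) := by simp [comb, w']
        have hc2 : comb w z0 (n k) = w (n k) := by simp [comb]
        rw [hc1, hc2]
        cases w (n k) <;> simp
      · intro j hj
        have hc : comb w' z0 j = comb w z0 j := by
          simp only [comb, w']
          rw [Function.update_of_ne hj]
        rw [hc]; simp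
    have habs : |f (comb w' z0) - f (comb w z0)| = x (n k) := by
      rw [hdiff]
      cases w (n k) <;> simp [abs_of_pos (hpos (n k))]
    refine ⟨f (comb w' z0), ⟨hball ?_, ⟨w', rfl⟩⟩, ?_⟩
    · rw [Metric.mem_ball, Real.dist_eq]
      show |f (comb w' z0) - f (comb w z0)| < δ
      rw [habs]; exact hk
    · intro h
      have : |f (comb w' z0) - f (comb w z0)| = 0 := by
        have h' : f (comb w' z0) = f (comb w z0) := h
        rw [h', sub_self, abs_zero]
      rw [habs] at this
      exact absurd this (hpos (n k)).ne'
  have hTperf : Perfect T := ⟨hTclosed, hTpre⟩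
  obtain ⟨g, hg1, hg2, hg3⟩ := hTperf.exists_nat_bool_injection ⟨_, ⟨z0, rfl⟩⟩
  refine ⟨Set.range g, ?_, ⟨?_⟩⟩
  · refine hg1.trans ?_
    rintro _ ⟨w, rfl⟩
    exact hcard w
  · exact ((hg2.isClosedEmbedding hg3).isEmbedding.toHomeomorph).symm

end Pool.Agent.S06057
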