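import Pool.Statements.S06872
import Pool.Agent.H.MP_00c8a8_co.Main

set_option autoImplicit false
open Pool Pool.MP_00c8a8_co

namespace Pool.Agent.S06872

/-- The negation of the preceding statement: For 2 ≤ k ≤ n, every k-uniform hypergraph on n vertices in which each (k−1)-set lies in at least n/k edges has a tight component (edges linked via sharing k−1 vertices) whose edges cover every vertex. -/
theorem result :
    ¬ (∀ (k n : ℕ), 2 ≤ k → k ≤ n →
      ∀ H : Finset (Finset (Fin n)),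
        (∀ e ∈ H, e.card = k) →
        (∀ S : Finset (Fin n), S.card = k - 1 →
          n ≤ k * (H.filter (fun e => S ⊆ e)).card) →
        ∃ e ∈ H, ∀ v : Fin n, ∃ f ∈ H,
          Relation.ReflTransGen
            (fun a b : Finset (Fin n) => a ∈ H ∧ b ∈ H ∧ k - 1 ≤ (a ∩ b).card) e f
          ∧ v ∈ f) := by
  intro h
  obtain ⟨e, he, hcov⟩ := h 6 192 (by norm_num) (by norm_num)
    Pool.Agent.H.MP_00c8a8_co.HG
    (fun e he => Pool.Agent.H.MP_00c8a8_co.card_edge he)
    (fun S hS => Pool.Agent.H.MP_00c8a8_co.codegree S hS)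
  have hecard := Pool.Agent.H.MP_00c8a8_co.card_edge he
  obtain ⟨u, hu⟩ : e.Nonempty := Finset.card_pos.1 (by rw [hecard]; norm_num)
  have hS5 : (e.erase u).card = 5 := by rw [Finset.card_erase_of_mem hu, hecard]
  obtain ⟨_, _, _, hlt, _⟩ := Pool.Agent.H.MP_00c8a8_co.good_spec (e.erase u) hS5
  obtain ⟨f, hf, hreach, hv⟩ :=
    hcov ⟨Pool.Agent.H.MP_00c8a8_co.C (e.erase u), lt_trans hlt (by norm_num)⟩
  obtain ⟨_, hcol⟩ := Pool.Agent.H.MP_00c8a8_co.reach_colour he hreach
  have hfcard := Pool.Agent.H.MP_00c8a8_co.card_edge hf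
  obtain ⟨w, hw, hwne⟩ := Finset.exists_mem_ne (by rw [hfcard]; norm_num : 1 < f.card)
    (⟨Pool.Agent.H.MP_00c8a8_co.C (e.erase u), lt_trans hlt (by norm_num)⟩ : Fin 192)
  have hT5 : (f.erase w).card = 5 := by rw [Finset.card_erase_of_mem hw, hfcard]
  obtain ⟨_, _, hcnt, _, _⟩ := Pool.Agent.H.MP_00c8a8_co.good_spec (f.erase w) hT5
  rw [← hcol u hu w hw] at hcnt
  unfold Pool.Agent.H.MP_00c8a8_co.cnt at hcnt
  rw [Finset.card_eq_zero, Finset.filter_eq_empty_iff] at hcnt
  refine hcnt (Finset.mem_erase.2 ⟨hwne.symm, hv⟩) ?_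
  unfold Pool.Agent.H.MP_00c8a8_co.ty
  rw [if_pos hlt]

end Pool.Agent.S06872
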