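import Pool.Statements.S08645
-- import your own Pool.Agent.* helpers here
import Pool.Agent.H.MP_4d2320_co.Knap
import Pool.Agent.H.MP_4d2320_co.Partition

set_option autoImplicit false
open Pool Pool.MP_4d2320_co

namespace Pool.Agent.S08645

open Finset Pool.Agent.H.MP_4d2320_co

/-- Sum over ordered pairs of a symmetric function vanishing on the diagonal. -/
theorem sum_pairs' {n : ℕ} (f : Fin n → Fin n → ℝ) (hsym : ∀ a b, f a b = f b a)
    (hd : ∀ a, f a a = 0) :
    ∑ a, ∑ b, f a b = 2 * ∑ p ∈ univ.filter (fun p : Fin n × Fin n => p.1 < p.2), f p.1 p.2 := by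
  have e1 : ∑ p ∈ univ.filter (fun p : Fin n × Fin n => p.1 < p.2), f p.1 p.2
      = ∑ a, ∑ b, if a < b then f a b else 0 := by
    rw [sum_filter, ← univ_product_univ, sum_product]
  have e2 : ∑ a, ∑ b, (if a < b then f a b else 0) = ∑ a, ∑ b, (if b < a then f a b else 0) := by
    rw [sum_comm]
    apply sum_congr rfl; intro a _
    apply sum_congr rfl; intro b _
    rw [hsym]
  rw [e1, two_mul]
  nth_rewrite 2 [e2]
  rw [← sum_add_distrib]
  apply sum_congr rfl; intro a _
  rw [← sum_add_distrib]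
  apply sum_congr rfl; intro b _
  rcases lt_trichotomy a b with h | h | h
  · rw [if_pos h, if_neg (lt_asymm h), add_zero]
  · subst h
    rw [if_neg (lt_irrefl a), hd]; simp
  · rw [if_neg (lt_asymm h), if_pos h, zero_add]

/-- Number of pairs above the diagonal. -/
theorem card_pairs (n : ℕ) :
    (univ.filter (fun p : Fin n × Fin n => p.1 < p.2)).card = n.choose 2 := by
  have h1 := sum_pairs' (n := n) (fun a b => if a = b then 0 else 1)
    (fun a b => by simp only [eq_comm]) (fun a => by simp)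
  have h2 : ∑ p ∈ univ.filter (fun p : Fin n × Fin n => p.1 < p.2),
      (if p.1 = p.2 then (0 : ℝ) else 1)
      = (univ.filter (fun p : Fin n × Fin n => p.1 < p.2)).card := by
    rw [sum_congr rfl (g := fun _ => (1 : ℝ))]
    · simp
    · intro p hp
      rw [mem_filter] at hp
      rw [if_neg (ne_of_lt hp.2)]
  rw [h2] at h1
  have h3 : ∑ a : Fin n, ∑ b : Fin n, (if a = b then (0 : ℝ) else 1) = n * (n - 1) := by
    have : ∀ a : Fin n, ∑ b : Fin n, (if a = b then (0 : ℝ) else 1) = n - 1 := by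
      intro a
      have e3 : ∀ b : Fin n, (if a = b then (0 : ℝ) else 1) = 1 - (if a = b then 1 else 0) := by
        intro b; split_ifs <;> norm_num
      simp only [e3, sum_sub_distrib, sum_const, card_univ, Fintype.card_fin, nsmul_eq_mul,
        sum_ite_eq, mem_univ, if_true]
      ring
    simp only [this, sum_const, card_univ, Fintype.card_fin, nsmul_eq_mul]
  rw [h3] at h1
  have h4 : ((univ.filter (fun p : Fin n × Fin n => p.1 < p.2)).card : ℝ)
      = ((n.choose 2 : ℕ) : ℝ) := by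
    rw [Nat.cast_choose_two]
    linarith
  exact_mod_cast h4

/-- For every symmetric nonnegative zero-diagonal real matrix and each k from 1 to n−1, the sum of the k largest Laplacian eigenvalues is at most the total edge weight plus the sum of the C(k+1,2) largest off-diagonal weights. -/
theorem result :
    ∀ (n : ℕ) (A : Matrix (Fin n) (Fin n) ℝ), A.IsSymm → (∀ i j, 0 ≤ A i j) → (∀ i, A i i = 0) →
      ∀ (hL : (Matrix.diagonal (fun i => ∑ j, A i j) - A).IsHermitian),
      ∀ k : ℕ, 1 ≤ k → k ≤ n - 1 →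
      ∀ s : Finset (Fin n), s.card = k →
        ∃ P : Finset (Fin n × Fin n), P.card = (k + 1).choose 2 ∧ (∀ p ∈ P, p.1 < p.2) ∧
          ∑ i ∈ s, hL.eigenvalues i ≤
            (∑ i, ∑ j, if i < j then A i j else 0) + ∑ p ∈ P, A p.1 p.2 := by
  intro n A hA hA0 hAd hL k hk1 hk2 s hs
  classical
  -- the eigenvectors with nonzero eigenvalue
  set s' : Finset (Fin n) := s.filter (fun i => hL.eigenvalues i ≠ 0) with hs'
  set y : Fin n → s' → ℝ := fun u t => hL.eigenvectorBasis t.1 u with hy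
  have hsymm : ∀ a b, A a b = A b a := fun a b => hA.apply b a
  have horth : ∀ a t : s', ∑ u, y u a * y u t = if a = t then 1 else 0 := by
    intro a t
    have h1 := hL.eigenvectorBasis.orthonormal
    rw [orthonormal_iff_ite] at h1
    have h2 := h1 t.1 a.1
    rw [EuclideanSpace.inner_eq_star_dotProduct] at h2
    simp only [dotProduct, star_trivial] at h2
    rw [show (∑ u, y u a * y u t)
      = ∑ x, (hL.eigenvectorBasis a.1).ofLp x * (hL.eigenvectorBasis t.1).ofLp x from rfl]
    rw [h2]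
    by_cases hij : a = t
    · simp [hij]
    · rw [if_neg hij, if_neg (fun h => hij (Subtype.ext h.symm))]
  -- eigenvalue equation
  have hLsym : ∀ a b, (Matrix.diagonal (fun i => ∑ j, A i j) - A) a b
      = (Matrix.diagonal (fun i => ∑ j, A i j) - A) b a := by
    intro a b
    rw [Matrix.sub_apply, Matrix.sub_apply, hsymm a b]
    congr 1
    by_cases hab : a = b
    · rw [hab]
    · rw [Matrix.diagonal_apply_ne _ hab, Matrix.diagonal_apply_ne _ (Ne.symm hab)]
  have heig : ∀ (v : Fin n) (t : s'), ∑ u, (Matrix.diagonal (fun i => ∑ j, A i j) - A) u v * y u t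
      = hL.eigenvalues t.1 * y v t := by
    intro v t
    have h1 := congrFun (hL.mulVec_eigenvectorBasis t.1) v
    rw [Pi.smul_apply, smul_eq_mul] at h1
    rw [← show _ = hL.eigenvalues t.1 * y v t from h1]
    simp only [Matrix.mulVec, dotProduct]
    apply sum_congr rfl; intro u _
    rw [hLsym v u]
  have hcol : ∀ u, ∑ v, (Matrix.diagonal (fun i => ∑ j, A i j) - A) u v = 0 := by
    intro u
    simp only [Matrix.sub_apply, sum_sub_distrib, Matrix.diagonal_apply, sum_ite_eq, mem_univ,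
      if_true, sub_self]
  have hsum : ∀ t : s', ∑ u, y u t = 0 := by
    intro t
    have h0 : hL.eigenvalues t.1 ≠ 0 := (mem_filter.1 t.2).2
    have h1 : hL.eigenvalues t.1 * ∑ v, y v t = 0 := by
      rw [mul_sum]
      simp only [← heig]
      rw [sum_comm]
      apply sum_eq_zero
      intro u _
      rw [← sum_mul, hcol, zero_mul]
    exact (mul_eq_zero.1 h1).resolve_left h0
  obtain ⟨Q, hQ0, hQ1, hQs, hQL⟩ := exists_proj y hsum horth
  have htr := hQL (fun u v => (Matrix.diagonal (fun i => ∑ j, A i j) - A) u v)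
    (fun t => hL.eigenvalues t.1) heig
  -- the sum of the eigenvalues
  have e1 : ∑ t : s', hL.eigenvalues t.1 = ∑ i ∈ s, hL.eigenvalues i := by
    rw [sum_coe_sort s' (fun i => hL.eigenvalues i), hs', sum_filter_ne_zero]
  have e2 : ∑ u, ∑ v, (Matrix.diagonal (fun i => ∑ j, A i j) - A) u v * Q u v
      = ∑ u, ∑ v, A u v * (Q u u - Q u v) := by
    apply sum_congr rfl; intro u _
    simp only [Matrix.sub_apply, sub_mul, sum_sub_distrib, Matrix.diagonal_apply, ite_mul, zero_mul,
      sum_ite_eq, mem_univ, if_true, mul_sub, sum_mul]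
  set U := univ.filter (fun p : Fin n × Fin n => p.1 < p.2) with hU
  have e3 : ∑ u, ∑ v, A u v * (Q u u - Q u v)
      = ∑ p ∈ U, A p.1 p.2 * ((Q p.1 p.1 - Q p.1 p.2) + (Q p.2 p.2 - Q p.2 p.1)) := by
    have h1 : ∑ u, ∑ v, A u v * (Q u u - Q u v) = ∑ u, ∑ v, A u v * (Q v v - Q v u) := by
      rw [sum_comm]
      apply sum_congr rfl; intro u _
      apply sum_congr rfl; intro v _
      rw [hsymm]
    have h2 := sum_pairs' (fun u v => A u v * ((Q u u - Q u v) + (Q v v - Q v u)))
      (fun u v => by rw [hsymm]; ring) (fun u => by rw [hAd, zero_mul])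
    have h3 : ∑ u, ∑ v, A u v * ((Q u u - Q u v) + (Q v v - Q v u))
        = ∑ u, ∑ v, A u v * (Q u u - Q u v) + ∑ u, ∑ v, A u v * (Q v v - Q v u) := by
      simp only [mul_add, sum_add_distrib]
    rw [h3, ← h1] at h2
    linarith
  -- knapsack
  have hcs : ∑ p ∈ U, (Q p.1 p.1 - Q p.1 p.2) * (Q p.2 p.2 - Q p.2 p.1)
      ≤ (((k + 1).choose 2 : ℕ) : ℝ) := by
    have h1 := sum_pairs' (fun u v => (Q u u - Q u v) * (Q v v - Q v u))
      (fun u v => by ring) (fun u => by ring)
    rw [hQs] at h1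
    have h2 : (Fintype.card s' : ℝ) ≤ k := by
      have : s'.card ≤ s.card := card_filter_le _ _
      rw [Fintype.card_coe]
      rw [hs] at this
      exact_mod_cast this
    have h3 : (0 : ℝ) ≤ Fintype.card s' := by positivity
    rw [Nat.cast_choose_two]
    push_cast
    nlinarith
  obtain ⟨S, hSU, hScard, hSsum⟩ := knap U (fun p => A p.1 p.2)
    (fun p => (Q p.1 p.1 - Q p.1 p.2) * (Q p.2 p.2 - Q p.2 p.1)) (fun p _ => hA0 _ _)
    (fun p _ => mul_nonneg (hQ0 _ _) (hQ0 _ _))
    (fun p _ => mul_le_one₀ (hQ1 _ _) (hQ0 _ _) (hQ1 _ _)) _ hcs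
  have hUc : (k + 1).choose 2 ≤ U.card := by
    rw [hU, card_pairs]
    exact Nat.choose_le_choose 2 (by omega)
  obtain ⟨P, hSP, hPU, hPc⟩ := exists_subsuperset_card_eq hSU hScard hUc
  refine ⟨P, hPc, fun p hp => ?_, ?_⟩
  · have := hPU hp
    rw [hU, mem_filter] at this
    exact this.2
  · have e5 : ∑ i, ∑ j, (if i < j then A i j else 0) = ∑ p ∈ U, A p.1 p.2 := by
      rw [hU, sum_filter, ← univ_product_univ, sum_product]
    rw [← e1, ← htr, e2, e3, e5]
    have h6 : ∑ p ∈ S, A p.1 p.2 ≤ ∑ p ∈ P, A p.1 p.2 :=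
      sum_le_sum_of_subset_of_nonneg hSP fun p _ _ => hA0 _ _
    have h7 : ∑ p ∈ U, A p.1 p.2 * ((Q p.1 p.1 - Q p.1 p.2) + (Q p.2 p.2 - Q p.2 p.1))
        ≤ ∑ p ∈ U, A p.1 p.2
          + ∑ p ∈ U, (Q p.1 p.1 - Q p.1 p.2) * (Q p.2 p.2 - Q p.2 p.1) * A p.1 p.2 := by
      rw [← sum_add_distrib]
      apply sum_le_sum
      intro p _
      have h8 : 0 ≤ (1 - (Q p.1 p.1 - Q p.1 p.2)) * (1 - (Q p.2 p.2 - Q p.2 p.1)) :=
        mul_nonneg (by linarith [hQ1 p.1 p.2]) (by linarith [hQ1 p.2 p.1])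
      nlinarith [mul_nonneg (hA0 p.1 p.2) h8]
    linarith

end Pool.Agent.S08645
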