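import Pool.Statements.S08710

set_option autoImplicit false
open Pool Pool.MP_4fae64_co

namespace Pool.Agent.S08710

/-! The counterexample.  Vertices `x = 0`, `y = 1`, `z = 2`, `a = 3`, `b = 4`, `w = 5`; the critical edge
`e = 0` joins `x` and `y`; the edge `11 = z w` is pendant.  The set `{x, y, z}` is closed, the colour `4`
is defective for it, and the rule (E3) adds the pendant vertex `w`, which misses the colour `0` that `x`
misses too. -/

/-- First ends of the 18 edges. -/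
def sr : Fin 18 → Fin 6 :=
  ![0, 1, 3, 1, 3, 0, 3, 0, 3, 0, 1, 2, 0, 3, 0, 1, 0, 1]

/-- Second ends of the 18 edges. -/
def tg : Fin 18 → Fin 6 :=
  ![1, 2, 4, 2, 4, 2, 4, 2, 4, 3, 4, 5, 1, 4, 4, 2, 3, 2]

/-- The colouring (the value at the edge `0` is irrelevant). -/
def col : Fin 18 → Fin 8 :=
  ![0, 0, 0, 1, 1, 2, 2, 3, 3, 4, 4, 4, 5, 5, 6, 6, 7, 7]

theorem deg_le (v : Fin 6) : Set.ncard {f : Fin 18 | sr f = v ∨ tg f = v} + 1 ≤ 8 := by
  have h : {f : Fin 18 | sr f = v ∨ tg f = v}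
      = ((Finset.univ.filter (fun f : Fin 18 => sr f = v ∨ tg f = v) : Finset (Fin 18)) : Set (Fin 18)) := by
    ext f; simp
  rw [h, Set.ncard_coe_finset]
  clear h
  revert v
  decide +kernel

theorem three_edges : ∀ f g h : Fin 18, f ≠ 11 → g ≠ 11 → h ≠ 11 → f ≠ g → f ≠ h → g ≠ h →
    (∃ v : Fin 6, (sr f = v ∨ tg f = v) ∧ (sr g = v ∨ tg g = v)) ∨
    (∃ v : Fin 6, (sr f = v ∨ tg f = v) ∧ (sr h = v ∨ tg h = v)) ∨
    (∃ v : Fin 6, (sr g = v ∨ tg g = v) ∧ (sr h = v ∨ tg h = v)) := by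
  decide +kernel

theorem not_colorable : ¬ ∃ ψ : Fin 18 → Fin 8, ∀ f g : Fin 18, f ≠ g →
        (∃ v : Fin 6, (sr f = v ∨ tg f = v) ∧ (sr g = v ∨ tg g = v)) → ψ f ≠ ψ g := by
  rintro ⟨ψ, hψ⟩
  have hcard : (Finset.univ : Finset (Fin 8)).card * 2 < (Finset.univ.erase (11 : Fin 18)).card := by
    decide
  obtain ⟨c, -, hc⟩ := Finset.exists_lt_card_fiber_of_mul_lt_card_of_maps_to
    (f := ψ) (s := Finset.univ.erase (11 : Fin 18)) (t := Finset.univ) (n := 2)
    (fun _ _ => Finset.mem_univ _) hcard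
  obtain ⟨f, g, h, hf, hg, hh, hfg, hfh, hgh⟩ := Finset.two_lt_card_iff.1 hc
  simp only [Finset.mem_filter, Finset.mem_erase, Finset.mem_univ, and_true] at hf hg hh
  rcases three_edges f g h hf.1 hg.1 hh.1 hfg hfh hgh with hv | hv | hv
  · exact hψ f g hfg hv (hf.2.trans hg.2.symm)
  · exact hψ f h hfh hv (hf.2.trans hh.2.symm)
  · exact hψ g h hgh hv (hg.2.trans hh.2.symm)

theorem proper : ∀ f g : Fin 18, f ≠ 0 → g ≠ 0 → f ≠ g →
        (∃ v : Fin 6, (sr f = v ∨ tg f = v) ∧ (sr g = v ∨ tg g = v)) → col f ≠ col g := by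
  decide +kernel

/-- The negation of the preceding statement: In a loopless multigraph with chromatic index k+1, k ≥ Δ+1, e critical and φ a k-colouring of G−e, every vertex set built from e by the extended Tashkinov rules E2 and E3 is elementary: no two of its vertices miss the same colour. -/
theorem result :
    ¬ (∀ (V E : Type) [Fintype V] [Fintype E] [DecidableEq V] [DecidableEq E]
    (src tgt : E → V) (k : ℕ) (e : E) (φ : E → Fin k),
    (∀ f : E, src f ≠ tgt f) →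
    (∀ v : V, Set.ncard {f : E | src f = v ∨ tgt f = v} + 1 ≤ k) →
    (¬ ∃ ψ : E → Fin k, ∀ f g : E, f ≠ g →
        (∃ v : V, (src f = v ∨ tgt f = v) ∧ (src g = v ∨ tgt g = v)) → ψ f ≠ ψ g) →
    (∀ f g : E, f ≠ e → g ≠ e → f ≠ g →
        (∃ v : V, (src f = v ∨ tgt f = v) ∧ (src g = v ∨ tgt g = v)) → φ f ≠ φ g) →
    ∀ (A : Finset V) (F : Finset E),
      (∀ S : Set (Finset V × Finset E),
        Prod.mk ({src e, tgt e} : Finset V) ({e} : Finset E) ∈ S →
        (∀ B : Finset V, ∀ H : Finset E, Prod.mk B H ∈ S →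
          ∀ f : E, f ≠ e → ∀ a b : V, a ∈ B → b ∉ B →
          ((src f = a ∧ tgt f = b) ∨ (src f = b ∧ tgt f = a)) →
          (∃ z ∈ B, ∀ g : E, g ≠ e → (src g = z ∨ tgt g = z) → φ g ≠ φ f) →
          Prod.mk (insert b B) (insert f H) ∈ S) →
        (∀ B : Finset V, ∀ H : Finset E, Prod.mk B H ∈ S →
          (∀ g : E, g ≠ e → ∀ a b : V, a ∈ B → b ∉ B →
            ((src g = a ∧ tgt g = b) ∨ (src g = b ∧ tgt g = a)) →
            ∀ z ∈ B, ∃ g' : E, g' ≠ e ∧ (src g' = z ∨ tgt g' = z) ∧ φ g' = φ g) →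
          ∀ α : Fin k,
          (∃ g₁ g₂ : E, g₁ ≠ g₂ ∧ g₁ ≠ e ∧ g₂ ≠ e ∧ φ g₁ = α ∧ φ g₂ = α ∧
            (∃ a b : V, a ∈ B ∧ b ∉ B ∧
              ((src g₁ = a ∧ tgt g₁ = b) ∨ (src g₁ = b ∧ tgt g₁ = a))) ∧
            (∃ a b : V, a ∈ B ∧ b ∉ B ∧
              ((src g₂ = a ∧ tgt g₂ = b) ∨ (src g₂ = b ∧ tgt g₂ = a)))) →
          ∀ f : E, f ≠ e → φ f = α → ∀ a b : V, a ∈ B → b ∉ B →
          ((src f = a ∧ tgt f = b) ∨ (src f = b ∧ tgt f = a)) →
          ∀ u ∈ B, ∀ γ : Fin k,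
          (∀ g : E, g ≠ e → (src g = u ∨ tgt g = u) → φ g ≠ γ) →
          (∀ g ∈ H, g ≠ e → φ g ≠ γ) →
          (∃ m : ℕ, ∃ w : ℕ → V, ∃ p : ℕ → E, 0 < m ∧ w 0 = u ∧ p (m - 1) = f ∧
            (∀ i : ℕ, i < m → p i ≠ e ∧ (φ (p i) = α ∨ φ (p i) = γ) ∧
              ((src (p i) = w i ∧ tgt (p i) = w (i + 1)) ∨
               (src (p i) = w (i + 1) ∧ tgt (p i) = w i))) ∧
            (∀ i j : ℕ, i < m → j < m → i ≠ j → p i ≠ p j) ∧
            (∀ i : ℕ, i + 1 < m → ¬ ∃ a' b' : V, a' ∈ B ∧ b' ∉ B ∧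
              ((src (p i) = a' ∧ tgt (p i) = b') ∨ (src (p i) = b' ∧ tgt (p i) = a')))) →
          Prod.mk (insert b B) (insert f H) ∈ S) →
        Prod.mk A F ∈ S) →
      ∀ u ∈ A, ∀ v ∈ A, u ≠ v → ∀ c : Fin k,
        (∀ f : E, f ≠ e → (src f = u ∨ tgt f = u) → φ f ≠ c) →
        ∃ f : E, f ≠ e ∧ (src f = v ∨ tgt f = v) ∧ φ f = c) := by
  intro hall
  have key := hall (Fin 6) (Fin 18) sr tg 8 0 col (by decide +kernel) deg_le not_colorable proper
    (insert 5 (insert 2 {sr 0, tg 0})) (insert 11 (insert 1 {0})) (fun S h1 h2 h3 => by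
      exact h3 _ _ (h2 _ _ h1 1 (by decide) 1 2 (by decide) (by decide) (by decide)
        ⟨0, by decide, by decide⟩) (by decide +kernel) 4
        ⟨9, 10, by decide, by decide, by decide, by decide, by decide,
          ⟨0, 3, by decide, by decide, by decide⟩, ⟨1, 4, by decide, by decide, by decide⟩⟩
        11 (by decide) (by decide) 2 5 (by decide) (by decide) (by decide) 2 (by decide) 5
        (by decide) (by decide)
        ⟨1, fun i => if i = 0 then 2 else 5, fun _ => 11, by decide, rfl, rfl,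
          fun i hi => by
            obtain rfl : i = 0 := by omega
            exact ⟨by decide, by decide, by decide⟩,
          fun i j hi hj hij => by omega,
          fun i hi => by omega⟩)
    0 (by decide) 5 (by decide) (by decide) 0 (by decide)
  revert key
  decide +kernel

end Pool.Agent.S08710
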