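import Pool.Statements.S08715
import Pool.Agent.H.MP_505085_co.CaseOne

set_option autoImplicit false
open Pool Pool.MP_505085_co

namespace Pool.Agent.S08715

/-- For every infinite word over a finite alphabet that is not purely periodic, and every c below (5+√5)/2, there are arbitrarily large n such that some length-n factor fails to occur in some window of length c·n; i.e. limsup R(n)/n ≥ (5+√5)/2. -/
theorem result :
    ∀ (k : ℕ) (u : ℕ → Fin k),
      (¬ ∃ p : ℕ, 0 < p ∧ ∀ i : ℕ, u (i + p) = u i) →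
      ∀ c : ℝ, c < (5 + Real.sqrt 5) / 2 →
      ∀ N : ℕ, ∃ n : ℕ, N ≤ n ∧ 0 < n ∧
        ¬ (∀ i j : ℕ, ∃ t : ℕ, ((t + n : ℕ) : ℝ) ≤ c * (n : ℝ) ∧
            ∀ l : ℕ, l < n → u (j + t + l) = u (i + l)) := by
  intro k u hu c hc N
  by_contra hcon
  push Not at hcon
  have h5 : 2 < Real.sqrt 5 := by
    rw [Real.lt_sqrt (by norm_num)]; norm_num
  have H : Pool.Agent.Rauzy.Ctx u (max c 3) (max N 1) := by
    refine ⟨hu, ?_, le_max_right _ _, le_max_right _ _, max_lt hc (by linarith)⟩
    intro n hn i j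
    obtain ⟨t, ht, hE⟩ := hcon n (le_trans (le_max_left _ _) hn)
      (lt_of_lt_of_le one_pos (le_trans (le_max_right N 1) hn)) i j
    refine ⟨t, le_trans ht ?_, hE⟩
    exact mul_le_mul_of_nonneg_right (le_max_left _ _) (by positivity)
  exact H.false

end Pool.Agent.S08715
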