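import Pool.Statements.S10082
import Pool.Agent.H.MP_8e3df5_co.NF
import Pool.Agent.H.MP_8e3df5_co.ND

set_option autoImplicit false
open Pool Pool.MP_8e3df5_co

namespace Pool.Agent.S10082

/-- The negation of the preceding statement: For any char-0 field and any finite set of distinct projective plane lines, if the module of derivations of K[x,y,z] preserving the ideal of the product of the lines is not free, then some point lies on exactly two of the lines. -/
theorem result :
    ¬ (∀ (K : Type) [Field K] [CharZero K] (A : Finset (Projectivization K (Fin 3 → K))),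
      ¬ Module.Free (MvPolynomial (Fin 3) K)
          (Submodule.span (MvPolynomial (Fin 3) K)
            {θ : Derivation K (MvPolynomial (Fin 3) K) (MvPolynomial (Fin 3) K) |
              (∏ H ∈ A, ∑ i : Fin 3, MvPolynomial.C (H.rep i) * MvPolynomial.X i) ∣
                θ (∏ H ∈ A, ∑ i : Fin 3, MvPolynomial.C (H.rep i) * MvPolynomial.X i)}) →
      ∃ p : Projectivization K (Fin 3 → K), ∃ H₁ ∈ A, ∃ H₂ ∈ A, H₁ ≠ H₂ ∧
        ∀ H ∈ A, (∑ i : Fin 3, H.rep i * p.rep i = 0 ↔ (H = H₁ ∨ H = H₂))) := by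
  intro h
  obtain ⟨w, hw⟩ : ∃ w : ℂ, w ^ 2 + w + 1 = 0 := by
    refine ⟨(-1 + (Real.sqrt 3 : ℂ) * Complex.I) / 2, ?_⟩
    have h3 : (Real.sqrt 3 : ℂ) ^ 2 = 3 := by
      rw [← Complex.ofReal_pow, Real.sq_sqrt (by norm_num)]
      norm_num
    have hI := Complex.I_sq
    linear_combination (1 / 4 : ℂ) * Complex.I ^ 2 * h3 + (3 / 4 : ℂ) * hI
  have hi : Complex.I ^ 2 = -1 := Complex.I_sq
  exact Pool.Agent.MP_8e3df5_co.no_double w Complex.I hw hi
    (h ℂ (Pool.Agent.MP_8e3df5_co.AA w Complex.I)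
      (Pool.Agent.MP_8e3df5_co.not_free_AA w Complex.I hw hi))

end Pool.Agent.S10082
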