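import Pool.Statements.S10902

set_option autoImplicit false
open Pool Pool.MP_b33253_co

namespace Pool.Agent.S10902

/-- The colouring: the floor of the square, modulo 4. -/
def col (x : ℚ) : Fin 4 := ⟨(⌊x ^ 2⌋ % 4).toNat, by omega⟩

lemma col_eq {x y : ℚ} (h : col x = col y) : ⌊x ^ 2⌋ % 4 = ⌊y ^ 2⌋ % 4 := by
  have := congrArg Fin.val h
  simp only [col] at this
  omega

/-- The negation of the preceding statement: For every colouring of the rationals with finitely many colours there are rationals x and d, with d nonzero, such that x, x+d, x+1/d and x+d+1/d all have the same colour. -/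
theorem result :
    ¬ (∀ (r : ℕ) (c : ℚ → Fin r), ∃ x d : ℚ, d ≠ 0 ∧
      c (x + d) = c x ∧ c (x + 1 / d) = c x ∧ c (x + d + 1 / d) = c x) := by
  intro h
  obtain ⟨x, d, hd, h1, h2, h3⟩ := h 4 col
  have e1 := col_eq h1
  have e2 := col_eq h2
  have e3 := col_eq h3
  have key : (x + d + 1 / d) ^ 2 - (x + d) ^ 2 - (x + 1 / d) ^ 2 + x ^ 2 = 2 := by
    field_simp
    ring
  have a0 := Int.floor_le (x ^ 2)
  have b0 := Int.lt_floor_add_one (x ^ 2)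
  have a1 := Int.floor_le ((x + d) ^ 2)
  have b1 := Int.lt_floor_add_one ((x + d) ^ 2)
  have a2 := Int.floor_le ((x + 1 / d) ^ 2)
  have b2 := Int.lt_floor_add_one ((x + 1 / d) ^ 2)
  have a3 := Int.floor_le ((x + d + 1 / d) ^ 2)
  have b3 := Int.lt_floor_add_one ((x + d + 1 / d) ^ 2)
  have u : ((⌊(x + d + 1 / d) ^ 2⌋ - ⌊(x + d) ^ 2⌋ - ⌊(x + 1 / d) ^ 2⌋ + ⌊x ^ 2⌋ : ℤ) : ℚ) < 4 := by
    push_cast
    linarith
  have l : (0 : ℚ) <
      ((⌊(x + d + 1 / d) ^ 2⌋ - ⌊(x + d) ^ 2⌋ - ⌊(x + 1 / d) ^ 2⌋ + ⌊x ^ 2⌋ : ℤ) : ℚ) := by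
    push_cast
    linarith
  have u' : ⌊(x + d + 1 / d) ^ 2⌋ - ⌊(x + d) ^ 2⌋ - ⌊(x + 1 / d) ^ 2⌋ + ⌊x ^ 2⌋ < 4 := by
    exact_mod_cast u
  have l' : 0 < ⌊(x + d + 1 / d) ^ 2⌋ - ⌊(x + d) ^ 2⌋ - ⌊(x + 1 / d) ^ 2⌋ + ⌊x ^ 2⌋ := by
    exact_mod_cast l
  omega

end Pool.Agent.S10902
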