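import Pool.Statements.S11077

/-!
# Contracting a matching keeps the nonrepetitive chromatic number bounded

Proof outline.  Let `c` be a nonrepetitive colouring of `G` with `k` colours and let `M` be a
matching of `G`; the vertices of `G/M` are the classes of `Quot M.Adj`.

* `U u v`: `v` is the only neighbour of `u` having the colour `c v`.  Since `c` has no two-coloured
  path on four vertices, every edge `u v` satisfies `U u v` or `U v u`.
* `R α β X Y`: the classes `X ≠ Y` are joined by an edge `u v` with `u ∈ X`, `v ∈ Y`, `c u = α`,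
  `c v = β` and `U u v`.  For fixed `α β` this is a partial function of `X`.
* Two different out-neighbours `Y`, `Z` of one class `X` are separated by a single bit for each
  pattern of four colours: the relation `D` joining them contains no two consecutive arcs, because
  two consecutive arcs produce a repetition on six or eight vertices of `G`.
* If `Z ≠ X` is reached from `X` by two consecutive arcs, then `X` and `Z` are separated by
  3-colourings of functional graphs.
* Storing in the colour of `X` the above colours of its out-neighbours, the colours of two adjacent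
  classes `X`, `Y` of `G/M` determine colours `(α, β)` for which there is an edge of `G` from the
  vertex of `X` with colour `α` to the vertex of `Y` with colour `β`.
* A repetitively coloured path of `G/M` then lifts to a repetitively coloured path of `G`.
-/

set_option autoImplicit false
open Pool Pool.MP_bae42e_co

namespace Pool.Agent.S11077

/-! ## Functional graphs are 3-colourable -/

theorem three_col_aux {Q : Type} [DecidableEq Q] (g : Q → Q) (n : ℕ) :
    ∀ S : Finset Q, S.card = n →
      ∃ ψ : Q → Fin 3, ∀ x ∈ S, g x ∈ S → g x ≠ x → ψ x ≠ ψ (g x) := by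
  induction n with
  | zero =>
    intro S hS
    refine ⟨fun _ => 0, ?_⟩
    intro x hx
    rw [Finset.card_eq_zero] at hS
    simp [hS] at hx
  | succ n ih =>
    intro S hS
    -- a vertex with at most one preimage in `S`
    have hex : ∃ v ∈ S, (S.filter (fun x => g x = v)).card ≤ 1 := by
      by_contra hcon
      push Not at hcon
      have h1 : ∑ v ∈ S, (S.filter (fun x => g x = v)).card ≤ S.card := by
        have hdis : (S.filter (fun x => g x ∈ S)).card
            = ∑ v ∈ S, ((S.filter (fun x => g x ∈ S)).filter (fun x => g x = v)).card := by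
          apply Finset.card_eq_sum_card_fiberwise
          intro x hx
          simp only [Finset.coe_filter, Set.mem_ofPred_eq] at hx
          exact hx.2
        have heq : ∀ v ∈ S, ((S.filter (fun x => g x ∈ S)).filter (fun x => g x = v)).card
            = (S.filter (fun x => g x = v)).card := by
          intro v hv
          congr 1
          ext x
          simp only [Finset.mem_filter]
          constructor
          · rintro ⟨⟨h1, _⟩, h3⟩
            exact ⟨h1, h3⟩
          · rintro ⟨h1, h3⟩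
            exact ⟨⟨h1, h3 ▸ hv⟩, h3⟩
        rw [← Finset.sum_congr rfl heq, ← hdis]
        exact Finset.card_filter_le _ _
      have h2 : ∑ v ∈ S, 2 ≤ ∑ v ∈ S, (S.filter (fun x => g x = v)).card :=
        Finset.sum_le_sum (fun v hv => hcon v hv)
      simp only [Finset.sum_const, smul_eq_mul] at h2
      omega
    obtain ⟨v, hvS, hv⟩ := hex
    obtain ⟨ψ, hψ⟩ := ih (S.erase v) (by rw [Finset.card_erase_of_mem hvS]; omega)
    -- the preimage
    have hpre : ∃ w : Q, ∀ x ∈ S, g x = v → x = w := by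
      rcases Nat.lt_or_ge (S.filter (fun x => g x = v)).card 1 with h0 | h0
      · refine ⟨v, fun x hx hgx => ?_⟩
        have : S.filter (fun x => g x = v) = ∅ := by
          rw [← Finset.card_eq_zero]; omega
        have hmem : x ∈ S.filter (fun x => g x = v) := Finset.mem_filter.2 ⟨hx, hgx⟩
        rw [this] at hmem
        simp at hmem
      · have h1 : (S.filter (fun x => g x = v)).card = 1 := le_antisymm hv h0
        obtain ⟨w, hw⟩ := Finset.card_eq_one.1 h1
        refine ⟨w, fun x hx hgx => ?_⟩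
        have hmem : x ∈ S.filter (fun x => g x = v) := Finset.mem_filter.2 ⟨hx, hgx⟩
        rw [hw] at hmem
        exact Finset.mem_singleton.1 hmem
    obtain ⟨w, hw⟩ := hpre
    obtain ⟨a, ha1, ha2⟩ : ∃ a : Fin 3, a ≠ ψ (g v) ∧ a ≠ ψ w := by
      generalize ψ (g v) = p
      generalize ψ w = q
      revert p q
      decide
    refine ⟨Function.update ψ v a, ?_⟩
    intro x hx hgx hne
    by_cases hxv : x = v
    · subst hxv
      rw [Function.update_self, Function.update_of_ne hne]
      exact ha1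
    · by_cases hgv : g x = v
      · have hxw : x = w := hw x hx hgv
        rw [hgv, Function.update_self, Function.update_of_ne hxv, hxw]
        exact ha2.symm
      · rw [Function.update_of_ne hxv, Function.update_of_ne hgv]
        exact hψ x (Finset.mem_erase.2 ⟨hxv, hx⟩) (Finset.mem_erase.2 ⟨hgv, hgx⟩) hne

theorem three_col {Q : Type} [Finite Q] (g : Q → Q) :
    ∃ ψ : Q → Fin 3, ∀ x, g x ≠ x → ψ x ≠ ψ (g x) := by
  classical
  have := Fintype.ofFinite Q
  obtain ⟨ψ, hψ⟩ := three_col_aux g _ Finset.univ rfl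
  exact ⟨ψ, fun x hx => hψ x (Finset.mem_univ _) (Finset.mem_univ _) hx⟩

/-! ## Nonrepetitive colourings in terms of lists -/

/-- `c` has no repetitively coloured path, paths being given by their list of vertices. -/
def NonRep {V : Type} (G : SimpleGraph V) {C : Type} (c : V → C) : Prop :=
  ∀ A B : List V, A ≠ [] → (A ++ B).IsChain G.Adj → (A ++ B).Nodup → A.map c = B.map c → False

theorem nonRep_of_walk {V : Type} {G : SimpleGraph V} {C : Type} {c : V → C}
    (hc : ∀ (u v : V) (p : G.Walk u v), p.IsPath → Even p.support.length →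
      (p.support.map c).take (p.support.length / 2) ≠
        (p.support.map c).drop (p.support.length / 2)) : NonRep G c := by
  intro A B hA hch hnd hAB
  have hlen : A.length = B.length := by
    have := congrArg List.length hAB
    simpa using this
  have hne : A ++ B ≠ [] := by simp [hA]
  have hsupp := SimpleGraph.Walk.support_ofSupport (G := G) hne hch
  have hhalf : (A ++ B).length / 2 = A.length := by
    rw [List.length_append, ← hlen]; omega
  refine hc _ _ (SimpleGraph.Walk.ofSupport (A ++ B) hne hch) ?_ ?_ ?_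
  · rw [SimpleGraph.Walk.isPath_def, hsupp]; exact hnd
  · rw [hsupp, List.length_append, ← hlen]; exact ⟨A.length, rfl⟩
  · rw [hsupp, hhalf, List.map_append]
    rw [List.take_left' (by simp), List.drop_left' (by simp)]
    exact hAB

theorem walk_of_nonRep {V : Type} {G : SimpleGraph V} {C : Type} {c : V → C}
    (hc : NonRep G c) :
    ∀ (u v : V) (p : G.Walk u v), p.IsPath → Even p.support.length →
      (p.support.map c).take (p.support.length / 2) ≠
        (p.support.map c).drop (p.support.length / 2) := by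
  intro u v p hp hev heq
  have hpos : 0 < p.support.length := List.length_pos_of_ne_nil p.support_ne_nil
  obtain ⟨m, hm⟩ := hev
  refine hc (p.support.take (p.support.length / 2)) (p.support.drop (p.support.length / 2))
    ?_ ?_ ?_ ?_
  · intro h
    have := congrArg List.length h
    simp only [List.length_take, List.length_nil] at this
    omega
  · rw [List.take_append_drop]; exact p.isChain_adj_support
  · rw [List.take_append_drop]; exact (SimpleGraph.Walk.isPath_def p).1 hp
  · rw [List.map_take, List.map_drop]; exact heq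

/-! ## The main construction -/

section Main

variable {V : Type} {G : SimpleGraph V} {M : G.Subgraph} {k : ℕ} {c : V → Fin k}

theorem mk_eq (hM : M.IsMatching) {u v : V} (h : Quot.mk M.Adj u = Quot.mk M.Adj v) :
    u = v ∨ M.Adj u v := by
  have h' := Quot.eqvGen_exact h
  induction h' with
  | rel x y hxy => exact Or.inr hxy
  | refl x => exact Or.inl rfl
  | symm x y _ ih =>
    rcases ih (Quot.eqvGen_sound (by assumption)) with h1 | h1
    · exact Or.inl h1.symm
    · exact Or.inr h1.symm
  | trans x y z hxy hyz ih1 ih2 =>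
    have h1 := ih1 (Quot.eqvGen_sound hxy)
    have h2 := ih2 (Quot.eqvGen_sound hyz)
    rcases h1 with h1 | h1
    · subst h1; exact h2
    · rcases h2 with h2 | h2
      · subst h2; exact Or.inr h1
      · left
        exact (hM (M.edge_vert h1.symm)).unique h1.symm h2

theorem proper (hc : NonRep G c) {u v : V} (h : G.Adj u v) : c u ≠ c v := by
  intro he
  refine hc [u] [v] (by simp) ?_ ?_ ?_
  · simpa using h
  · simpa using h.ne
  · simpa using he

/-- In a class of `M` the colours are different. -/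
theorem class_inj (hM : M.IsMatching) (hc : NonRep G c) {u v : V}
    (h : Quot.mk M.Adj u = Quot.mk M.Adj v) (hcol : c u = c v) : u = v := by
  rcases mk_eq hM h with h1 | h1
  · exact h1
  · exact absurd hcol (proper hc h1.adj_sub)

theorem class_adj (hM : M.IsMatching) {u v : V}
    (h : Quot.mk M.Adj u = Quot.mk M.Adj v) (hne : u ≠ v) : G.Adj u v := by
  rcases mk_eq hM h with h1 | h1
  · exact absurd h1 hne
  · exact h1.adj_sub

/-- `v` is the only neighbour of `u` with the colour of `v`. -/
def U (G : SimpleGraph V) (c : V → Fin k) (u v : V) : Prop :=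
  G.Adj u v ∧ ∀ w, G.Adj u w → c w = c v → w = v

theorem star (hc : NonRep G c) {u v : V} (h : G.Adj u v) : U G c u v ∨ U G c v u := by
  by_contra hcon
  push Not at hcon
  obtain ⟨h1, h2⟩ := hcon
  have h1' : ∃ w, G.Adj u w ∧ c w = c v ∧ w ≠ v := by
    by_contra h3
    push Not at h3
    exact h1 ⟨h, fun w hw hcw => h3 w hw hcw⟩
  have h2' : ∃ w, G.Adj v w ∧ c w = c u ∧ w ≠ u := by
    by_contra h3
    push Not at h3
    exact h2 ⟨h.symm, fun w hw hcw => h3 w hw hcw⟩
  obtain ⟨w, hw, hcw, hwv⟩ := h1'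
  obtain ⟨w', hw', hcw', hwu⟩ := h2'
  have huv := proper hc h
  have hww' : w ≠ w' := by
    intro e
    subst e
    exact huv (hcw'.symm.trans hcw)
  refine hc [w, u] [v, w'] (by simp) ?_ ?_ ?_
  · simp [hw.symm, h, hw']
  · simp [hw.ne', hwv, hww', h.ne, hw'.ne, hwu.symm]
  · simp [hcw, hcw']

/-- The classes `X ≠ Y` are joined by an edge with colours `α`, `β` directed from `X` to `Y`. -/
def R (G : SimpleGraph V) (M : G.Subgraph) (c : V → Fin k) (α β : Fin k)
    (X Y : Quot M.Adj) : Prop :=
  X ≠ Y ∧ ∃ u v, Quot.mk M.Adj u = X ∧ Quot.mk M.Adj v = Y ∧ c u = α ∧ c v = β ∧ U G c u v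

theorem R_unique (hM : M.IsMatching) (hc : NonRep G c) {α β : Fin k} {X Y Z : Quot M.Adj}
    (h1 : R G M c α β X Y) (h2 : R G M c α β X Z) : Y = Z := by
  obtain ⟨_, u, v, hu, hv, hcu, hcv, hU⟩ := h1
  obtain ⟨_, u', v', hu', hv', hcu', hcv', hU'⟩ := h2
  have e : u = u' := class_inj hM hc (hu.trans hu'.symm) (hcu.trans hcu'.symm)
  subst e
  have e2 : v' = v := hU.2 v' hU'.1 (hcv'.trans hcv.symm)
  subst e2
  exact hv.symm.trans hv'

/-- `Y ≠ Z` are the out-neighbours of a common class, with given colour pattern. -/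
def D (G : SimpleGraph V) (M : G.Subgraph) (c : V → Fin k) (α β γ δ : Fin k)
    (Y Z : Quot M.Adj) : Prop :=
  Y ≠ Z ∧ ∃ X, R G M c α β X Y ∧ R G M c γ δ X Z

/-- The relation `D` has no two consecutive arcs. -/
theorem no_two (hM : M.IsMatching) (hc : NonRep G c) {α β γ δ : Fin k} {Y Z W : Quot M.Adj}
    (h1 : D G M c α β γ δ Y Z) (h2 : D G M c α β γ δ Z W) : False := by
  obtain ⟨hYZ, X, hXY, hXZ⟩ := h1
  obtain ⟨hZW, X', hXZ', hXW⟩ := h2
  have hXX : X ≠ X' := by
    intro e
    subst e
    exact hYZ (R_unique hM hc hXY hXZ')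
  obtain ⟨nXY, u, v, hu, hv, hcu, hcv, hUuv⟩ := hXY
  obtain ⟨nXZ, s, z, hs, hz, hcs, hcz, hUsz⟩ := hXZ
  obtain ⟨nXZ', u', z', hu', hz', hcu', hcz', hUuz'⟩ := hXZ'
  obtain ⟨nXW, s', w, hs', hw, hcs', hcw, hUsw'⟩ := hXW
  -- the classes are different, hence so are the vertices
  have vz' : v ≠ z' := fun e => hYZ (by rw [← hv, ← hz', e])
  have vz : v ≠ z := fun e => hYZ (by rw [← hv, ← hz, e])
  have uu' : u ≠ u' := fun e => hXX (by rw [← hu, ← hu', e])
  have ss' : s ≠ s' := fun e => hXX (by rw [← hs, ← hs', e])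
  have zw : z ≠ w := fun e => hZW (by rw [← hz, ← hw, e])
  have av : c u ≠ c v := proper hc hUuv.1
  have sz : c s ≠ c z := proper hc hUsz.1
  by_cases hβδ : β = δ
  · -- then `z = z'`
    have ezz : z = z' := class_inj hM hc (hz.trans hz'.symm) (by rw [hcz, hcz', hβδ])
    subst ezz
    have hαγ : α ≠ γ := by
      intro e
      have e1 : u = s := class_inj hM hc (hu.trans hs.symm) (by rw [hcu, hcs, e])
      subst e1
      exact vz (hUuv.2 z hUsz.1 (by rw [hcz, hcv, hβδ])).symm
    have us : u ≠ s := fun e => hαγ (by rw [← hcu, ← hcs, e])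
    have us' : u' ≠ s' := fun e => hαγ (by rw [← hcu', ← hcs', e])
    have adj1 : G.Adj u s := class_adj hM (hu.trans hs.symm) us
    have adj2 : G.Adj u' s' := class_adj hM (hu'.trans hs'.symm) us'
    -- colours: `β α γ β α γ`
    have cab : α ≠ β := by rw [← hcu, ← hcv]; exact av
    have cgb : γ ≠ β := by rw [← hcs, hβδ, ← hcz]; exact sz
    have nd : ∀ a b : V, c a ≠ c b → a ≠ b := fun a b h e => h (by rw [e])
    refine hc [v, u, s] [z, u', s'] (by simp) ?_ ?_ ?_
    · simp [hUuv.1.symm, adj1, hUsz.1, hUuz'.1.symm, adj2]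
    · simp only [List.cons_append, List.nil_append, List.nodup_cons, List.mem_cons,
        List.not_mem_nil, or_false, not_or, not_false_eq_true, List.nodup_nil, and_true]
      refine ⟨⟨nd _ _ ?_, nd _ _ ?_, vz, nd _ _ ?_, nd _ _ ?_⟩,
        ⟨nd _ _ ?_, nd _ _ ?_, uu', nd _ _ ?_⟩, ⟨nd _ _ ?_, nd _ _ ?_, ss'⟩,
        ⟨nd _ _ ?_, nd _ _ ?_⟩, nd _ _ ?_⟩ <;>
      simp only [hcu, hcv, hcs, hcz', hcu', hcs'] <;>
      first
        | exact cab | exact cab.symm | exact cgb | exact cgb.symm | exact hαγ | exact hαγ.symm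
    · simp only [List.map_cons, List.map_nil, hcu, hcv, hcs, hcz', hcu', hcs']
  · have zz' : z ≠ z' := fun e => hβδ (by rw [← hcz, ← hcz', e])
    have adjz : G.Adj z z' := class_adj hM (hz.trans hz'.symm) zz'
    have cab : α ≠ β := by rw [← hcu, ← hcv]; exact av
    have cgd : γ ≠ δ := by rw [← hcs, ← hcz]; exact sz
    have nd : ∀ a b : V, c a ≠ c b → a ≠ b := fun a b h e => h (by rw [e])
    by_cases hαγ : α = γ
    · -- then `u = s`, `u' = s'`
      have e1 : u = s := class_inj hM hc (hu.trans hs.symm) (by rw [hcu, hcs, hαγ])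
      have e2 : u' = s' := class_inj hM hc (hu'.trans hs'.symm) (by rw [hcu', hcs', hαγ])
      subst e1 e2
      have cad : α ≠ δ := by rw [hαγ]; exact cgd
      refine hc [v, u, z] [z', u', w] (by simp) ?_ ?_ ?_
      · simp [hUuv.1.symm, hUsz.1, adjz, hUuz'.1.symm, hUsw'.1]
      · simp only [List.cons_append, List.nil_append, List.nodup_cons, List.mem_cons,
          List.not_mem_nil, or_false, not_or, not_false_eq_true, List.nodup_nil, and_true]
        refine ⟨⟨nd _ _ ?_, nd _ _ ?_, vz', nd _ _ ?_, nd _ _ ?_⟩,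
          ⟨nd _ _ ?_, nd _ _ ?_, uu', nd _ _ ?_⟩, ⟨nd _ _ ?_, nd _ _ ?_, zw⟩,
          ⟨nd _ _ ?_, nd _ _ ?_⟩, nd _ _ ?_⟩ <;>
        simp only [hcu, hcv, hcz, hcz', hcu', hcw] <;>
        first
          | exact cab | exact cab.symm | exact cad | exact cad.symm | exact hβδ
          | exact (Ne.symm hβδ)
      · simp only [List.map_cons, List.map_nil, hcu, hcv, hcz, hcz', hcu', hcw]
    · have us : u ≠ s := fun e => hαγ (by rw [← hcu, ← hcs, e])
      have us' : u' ≠ s' := fun e => hαγ (by rw [← hcu', ← hcs', e])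
      have adj1 : G.Adj u s := class_adj hM (hu.trans hs.symm) us
      have adj2 : G.Adj u' s' := class_adj hM (hu'.trans hs'.symm) us'
      have cbg : β ≠ γ := by
        intro e
        have e1 : s = v := hUuv.2 s adj1 (by rw [hcs, hcv, e])
        exact nXY (by rw [← hs, ← hv, e1])
      have cad : α ≠ δ := by
        intro e
        have e1 : u = z := hUsz.2 u adj1.symm (by rw [hcu, hcz, e])
        exact nXZ (by rw [← hu, ← hz, e1])
      refine hc [v, u, s, z] [z', u', s', w] (by simp) ?_ ?_ ?_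
      · simp [hUuv.1.symm, adj1, hUsz.1, adjz, hUuz'.1.symm, adj2, hUsw'.1]
      · simp only [List.cons_append, List.nil_append, List.nodup_cons, List.mem_cons,
          List.not_mem_nil, or_false, not_or, not_false_eq_true, List.nodup_nil, and_true]
        refine ⟨⟨nd _ _ ?_, nd _ _ ?_, nd _ _ ?_, vz', nd _ _ ?_, nd _ _ ?_, nd _ _ ?_⟩,
          ⟨nd _ _ ?_, nd _ _ ?_, nd _ _ ?_, uu', nd _ _ ?_, nd _ _ ?_⟩,
          ⟨nd _ _ ?_, nd _ _ ?_, nd _ _ ?_, ss', nd _ _ ?_⟩,
          ⟨nd _ _ ?_, nd _ _ ?_, nd _ _ ?_, zw⟩,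
          ⟨nd _ _ ?_, nd _ _ ?_, nd _ _ ?_⟩, ⟨nd _ _ ?_, nd _ _ ?_⟩, nd _ _ ?_⟩ <;>
        simp only [hcu, hcv, hcs, hcz, hcz', hcu', hcs', hcw] <;>
        first
          | exact cab | exact cab.symm | exact cad | exact cad.symm | exact hβδ
          | exact (Ne.symm hβδ) | exact hαγ | exact (Ne.symm hαγ) | exact cbg | exact cbg.symm
          | exact cgd | exact cgd.symm
      · simp only [List.map_cons, List.map_nil, hcu, hcv, hcs, hcz, hcz', hcu', hcs', hcw]

/-- Two consecutive arcs with given colours. -/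
def T (G : SimpleGraph V) (M : G.Subgraph) (c : V → Fin k) (α β γ δ : Fin k)
    (X Z : Quot M.Adj) : Prop :=
  ∃ Y, R G M c α β X Y ∧ R G M c γ δ Y Z

theorem T_unique (hM : M.IsMatching) (hc : NonRep G c) {α β γ δ : Fin k} {X Z Z' : Quot M.Adj}
    (h1 : T G M c α β γ δ X Z) (h2 : T G M c α β γ δ X Z') : Z = Z' := by
  obtain ⟨Y, h11, h12⟩ := h1
  obtain ⟨Y', h21, h22⟩ := h2
  have e := R_unique hM hc h11 h21
  subst e
  exact R_unique hM hc h12 h22

/-- The preliminary colours. -/
abbrev Col0 (k : ℕ) : Type := Fin k → Fin k → Fin k → Fin k → Bool × Fin 3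

/-- The final colours. -/
abbrev Col (k : ℕ) : Type := (Fin k → Bool) × Col0 k × (Fin k → Fin k → Option (Col0 k))

theorem finite_col (k : ℕ) : Finite (Col k) := by
  have h0 : Finite (Option (Col0 k)) := inferInstance
  have h1 : Finite (Fin k → Option (Col0 k)) := @Pi.finite _ _ _ (fun _ => h0)
  have h2 : Finite (Fin k → Fin k → Option (Col0 k)) := @Pi.finite _ _ _ (fun _ => h1)
  exact inferInstance

/-- Adjacency of classes, i.e. adjacency in `G/M`. -/
def HAdj (G : SimpleGraph V) (M : G.Subgraph) (X Y : Quot M.Adj) : Prop :=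
  X ≠ Y ∧ ∃ u v, Quot.mk M.Adj u = X ∧ Quot.mk M.Adj v = Y ∧ G.Adj u v

theorem exists_col0 [Finite V] (hM : M.IsMatching) (hc : NonRep G c) :
    ∃ χ : Quot M.Adj → Col0 k, ∀ (α β γ δ : Fin k) (Y Z : Quot M.Adj), Y ≠ Z →
      (D G M c α β γ δ Y Z ∨ T G M c α β γ δ Y Z) → χ Y ≠ χ Z := by
  classical
  have hg : ∀ α β γ δ : Fin k, ∃ ψ : Quot M.Adj → Fin 3, ∀ X Z, Z ≠ X →
      T G M c α β γ δ X Z → ψ X ≠ ψ Z := by
    intro α β γ δ
    obtain ⟨ψ, hψ⟩ := three_col (Q := Quot M.Adj)
      (fun X => if h : ∃ Z, T G M c α β γ δ X Z then Classical.choose h else X)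
    refine ⟨ψ, fun X Z hne hT => ?_⟩
    have hex : ∃ Z, T G M c α β γ δ X Z := ⟨Z, hT⟩
    have e : Classical.choose hex = Z := T_unique hM hc (Classical.choose_spec hex) hT
    have h2 := hψ X
    simp only [dif_pos hex, e] at h2
    exact h2 hne
  choose ψ hψ using hg
  refine ⟨fun X α β γ δ => (decide (∃ Z, D G M c α β γ δ X Z), ψ α β γ δ X), ?_⟩
  intro α β γ δ Y Z hne h heq
  have h1 := congrFun (congrFun (congrFun (congrFun heq α) β) γ) δ
  simp only [Prod.mk.injEq, decide_eq_decide] at h1
  rcases h with h | h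
  · obtain ⟨W, hW⟩ := h1.1.1 ⟨Z, h⟩
    exact no_two hM hc h hW
  · exact hψ α β γ δ Y Z hne.symm h h1.2

theorem exists_col [Finite V] (hM : M.IsMatching) (hc : NonRep G c) :
    ∃ φ : Quot M.Adj → Col k,
      (∀ X Y, φ X = φ Y → ∀ u, Quot.mk M.Adj u = X → ∃ v, Quot.mk M.Adj v = Y ∧ c v = c u) ∧
      ∀ p q : Col k, (∃ X Y, HAdj G M X Y ∧ φ X = p ∧ φ Y = q) →
        ∃ t : Fin k × Fin k, ∀ X Y, HAdj G M X Y → φ X = p → φ Y = q →
          ∃ u v, Quot.mk M.Adj u = X ∧ Quot.mk M.Adj v = Y ∧ c u = t.1 ∧ c v = t.2 ∧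
            G.Adj u v := by
  classical
  obtain ⟨χ, hχ⟩ := exists_col0 hM hc
  -- the partial functions
  let P : Fin k → Fin k → Quot M.Adj → Option (Quot M.Adj) := fun α β X =>
    if h : ∃ Y, R G M c α β X Y then some (Classical.choose h) else none
  have hP : ∀ α β X Y, P α β X = some Y → R G M c α β X Y := by
    intro α β X Y h
    by_cases hex : ∃ Y, R G M c α β X Y
    · simp only [P, dif_pos hex, Option.some.injEq] at h
      rw [← h]
      exact Classical.choose_spec hex
    · simp only [P, dif_neg hex] at h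
      exact absurd h (by simp)
  have hP' : ∀ α β X Y, R G M c α β X Y → P α β X = some Y := by
    intro α β X Y h
    have hex : ∃ Y, R G M c α β X Y := ⟨Y, h⟩
    simp only [P, dif_pos hex, Option.some.injEq]
    exact R_unique hM hc (Classical.choose_spec hex) h
  -- the key property
  have key : ∀ X Y, HAdj G M X Y → ∀ α β, (P α β X).map χ = some (χ Y) → R G M c α β X Y := by
    intro X Y hXY α β h
    rw [Option.map_eq_some_iff] at h
    obtain ⟨Z, hZ, hZY⟩ := h
    have hR := hP _ _ _ _ hZ
    by_cases e : Z = Y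
    · rw [← e]; exact hR
    · exfalso
      obtain ⟨hne, u, v, hu, hv, huv⟩ := hXY
      rcases star hc huv with hU | hU
      · have hR2 : R G M c (c u) (c v) X Y := ⟨hne, u, v, hu, hv, rfl, rfl, hU⟩
        exact hχ _ _ _ _ Z Y e (Or.inl ⟨e, X, hR, hR2⟩) hZY
      · have hR2 : R G M c (c v) (c u) Y X := ⟨hne.symm, v, u, hv, hu, rfl, rfl, hU⟩
        exact hχ _ _ _ _ Y Z (Ne.symm e) (Or.inr ⟨X, hR2, hR⟩) hZY.symm
  refine ⟨fun X => (fun α => decide (∃ v, Quot.mk M.Adj v = X ∧ c v = α), χ X,
    fun α β => (P α β X).map χ), ?_, ?_⟩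
  · intro X Y h u hu
    simp only [Prod.mk.injEq] at h
    have h1 := congrFun h.1 (c u)
    rw [decide_eq_decide] at h1
    exact h1.1 ⟨u, hu, rfl⟩
  · rintro p q ⟨X, Y, hXY, hX, hY⟩
    -- choose the type from this edge
    have hex : ∃ t : Fin k × Fin k, p.2.2 t.1 t.2 = some q.2.1 ∨ q.2.2 t.2 t.1 = some p.2.1 := by
      obtain ⟨hne, u, v, hu, hv, huv⟩ := hXY
      rcases star hc huv with hU | hU
      · refine ⟨(c u, c v), Or.inl ?_⟩
        have hR2 : R G M c (c u) (c v) X Y := ⟨hne, u, v, hu, hv, rfl, rfl, hU⟩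
        rw [← hX, ← hY]
        simp only [hP' _ _ _ _ hR2, Option.map_some]
      · refine ⟨(c u, c v), Or.inr ?_⟩
        have hR2 : R G M c (c v) (c u) Y X := ⟨hne.symm, v, u, hv, hu, rfl, rfl, hU⟩
        rw [← hX, ← hY]
        simp only [hP' _ _ _ _ hR2, Option.map_some]
    obtain ⟨t, ht⟩ := hex
    refine ⟨t, ?_⟩
    intro X' Y' hXY' hX' hY'
    rcases ht with ht | ht
    · rw [← hX', ← hY'] at ht
      obtain ⟨_, u, v, hu, hv, hcu, hcv, hU⟩ := key X' Y' hXY' _ _ ht
      exact ⟨u, v, hu, hv, hcu, hcv, hU.1⟩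
    · rw [← hX', ← hY'] at ht
      have hYX' : HAdj G M Y' X' := by
        obtain ⟨hne, u, v, hu, hv, huv⟩ := hXY'
        exact ⟨hne.symm, v, u, hv, hu, huv.symm⟩
      obtain ⟨_, u, v, hu, hv, hcu, hcv, hU⟩ := key Y' X' hYX' _ _ ht
      exact ⟨v, u, hv, hu, hcv, hcu, hU.1.symm⟩

/-! ## Lifting paths -/

/-- The colours met inside one class, entering at colour `β` and leaving at colour `α`. -/
def seg {C : Type} [DecidableEq C] (β α : C) : List C := if β = α then [β] else [β, α]

/-- The colour sequence of a lifted path. -/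
def colr {C Φ : Type} [DecidableEq C] (τ : Φ → Φ → C × C) : C → List Φ → C → List C
  | _, [], _ => []
  | β, [_], α => seg β α
  | β, p :: q :: l, α => seg β (τ p q).1 ++ colr τ (τ p q).2 (q :: l) α

theorem seg_lift (hM : M.IsMatching) (hc : NonRep G c) {u w : V}
    (h : Quot.mk M.Adj u = Quot.mk M.Adj w) :
    ∃ S : List V, S.IsChain G.Adj ∧ S.Nodup ∧ S.map c = seg (c u) (c w) ∧
      (∀ v ∈ S, Quot.mk M.Adj v = Quot.mk M.Adj u) ∧ S.head? = some u ∧ S.getLast? = some w := by
  by_cases e : c u = c w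
  · have e1 : u = w := class_inj hM hc h e
    subst e1
    refine ⟨[u], ?_, ?_, ?_, ?_, ?_, ?_⟩
    · simp
    · simp
    · simp [seg]
    · simp
    · simp
    · simp
  · have e1 : u ≠ w := fun h => e (by rw [h])
    have hadj := class_adj hM h e1
    refine ⟨[u, w], ?_, ?_, ?_, ?_, ?_, ?_⟩
    · simp [hadj]
    · simp [e1]
    · simp [seg, e]
    · simp [h]
    · simp
    · simp

theorem lift (hM : M.IsMatching) (hc : NonRep G c) {Φ : Type} (φ : Quot M.Adj → Φ)
    (τ : Φ → Φ → Fin k × Fin k)
    (hτ : ∀ X Y, HAdj G M X Y → ∃ u v, Quot.mk M.Adj u = X ∧ Quot.mk M.Adj v = Y ∧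
      c u = (τ (φ X) (φ Y)).1 ∧ c v = (τ (φ X) (φ Y)).2 ∧ G.Adj u v) :
    ∀ (l : List (Quot M.Adj)) (X : Quot M.Adj) (u w : V),
      (X :: l).IsChain (HAdj G M) → (X :: l).Nodup → Quot.mk M.Adj u = X →
      (X :: l).getLast? = some (Quot.mk M.Adj w) →
      ∃ P : List V, P.IsChain G.Adj ∧ P.Nodup ∧
        P.map c = colr τ (c u) ((X :: l).map φ) (c w) ∧
        (∀ v ∈ P, Quot.mk M.Adj v ∈ X :: l) ∧ P.head? = some u ∧ P.getLast? = some w := by
  intro l
  induction l with
  | nil =>
    intro X u w _ _ hu hw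
    simp only [List.getLast?_singleton, Option.some.injEq] at hw
    obtain ⟨S, h1, h2, h3, h4, h5, h6⟩ := seg_lift hM hc (hu.trans hw)
    refine ⟨S, h1, h2, ?_, ?_, h5, h6⟩
    · simpa [colr] using h3
    · intro v hv
      rw [h4 v hv, hu]
      simp
  | cons Y l ih =>
    intro X u w hch hnd hu hw
    have hXY : HAdj G M X Y := by
      have := hch
      rw [List.isChain_cons_cons] at this
      exact this.1
    obtain ⟨a, b, ha, hb, hca, hcb, hab⟩ := hτ X Y hXY
    obtain ⟨S, h1, h2, h3, h4, h5, h6⟩ := seg_lift hM hc (hu.trans ha.symm)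
    have hch' : (Y :: l).IsChain (HAdj G M) := by
      rw [List.isChain_cons_cons] at hch
      exact hch.2
    rw [List.nodup_cons] at hnd
    have hw' : (Y :: l).getLast? = some (Quot.mk M.Adj w) := by
      rw [List.getLast?_cons_cons] at hw
      exact hw
    obtain ⟨P, g1, g2, g3, g4, g5, g6⟩ := ih Y b w hch' hnd.2 hb hw'
    refine ⟨S ++ P, ?_, ?_, ?_, ?_, ?_, ?_⟩
    · rw [List.isChain_append]
      refine ⟨h1, g1, ?_⟩
      rw [h6, g5]
      intro x hx y hy
      simp only [Option.mem_def, Option.some.injEq] at hx hy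
      subst hx hy
      exact hab
    · rw [List.nodup_append]
      refine ⟨h2, g2, ?_⟩
      intro x hx y hy e
      subst e
      have e1 := h4 x hx
      have e2 := g4 x hy
      rw [e1, hu] at e2
      exact hnd.1 e2
    · rw [List.map_append, h3, g3]
      simp only [List.map_cons, colr, hca, hcb]
    · intro v hv
      rw [List.mem_append] at hv
      rcases hv with hv | hv
      · rw [h4 v hv, hu]; simp
      · exact List.mem_cons_of_mem _ (g4 v hv)
    · rw [List.head?_append, h5]; rfl
    · rw [List.getLast?_append, g6]; rfl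

theorem nonRep_contract [Finite V] (hM : M.IsMatching) (hc : NonRep G c) :
    ∃ φ : Quot M.Adj → Col k, ∀ A B : List (Quot M.Adj), A ≠ [] →
      (A ++ B).IsChain (HAdj G M) → (A ++ B).Nodup → A.map φ = B.map φ → False := by
  classical
  obtain ⟨φ, h1, h2⟩ := exists_col hM hc
  refine ⟨φ, ?_⟩
  intro A B hA hch hnd hAB
  cases A with
  | nil => exact hA rfl
  | cons X A =>
  cases B with
  | nil => simp at hAB
  | cons Y B =>
  -- some vertex exists, so `Fin k` is inhabited
  obtain ⟨x0, hx0⟩ := Quot.exists_rep X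
  let t0 : Fin k × Fin k := (c x0, c x0)
  have h2' : ∀ p q : Col k, ∃ t : Fin k × Fin k, ∀ X Y, HAdj G M X Y → φ X = p → φ Y = q →
          ∃ u v, Quot.mk M.Adj u = X ∧ Quot.mk M.Adj v = Y ∧ c u = t.1 ∧ c v = t.2 ∧
            G.Adj u v := by
    intro p q
    by_cases h : ∃ X Y, HAdj G M X Y ∧ φ X = p ∧ φ Y = q
    · exact h2 p q h
    · refine ⟨t0, fun X Y hXY hX hY => ?_⟩
      exact absurd ⟨X, Y, hXY, hX, hY⟩ h
  choose τ hτ using h2'
  have hτ' : ∀ X Y, HAdj G M X Y → ∃ u v, Quot.mk M.Adj u = X ∧ Quot.mk M.Adj v = Y ∧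
      c u = (τ (φ X) (φ Y)).1 ∧ c v = (τ (φ X) (φ Y)).2 ∧ G.Adj u v :=
    fun X Y h => hτ _ _ X Y h rfl rfl
  rw [List.isChain_append] at hch
  obtain ⟨hchA, hchB, hmid⟩ := hch
  rw [List.nodup_append] at hnd
  obtain ⟨hndA, hndB, hdis⟩ := hnd
  -- last elements
  obtain ⟨LA, hLA⟩ : ∃ L, (X :: A).getLast? = some L := by
    exact ⟨_, List.getLast?_eq_some_getLast (by simp)⟩
  obtain ⟨LB, hLB⟩ : ∃ L, (Y :: B).getLast? = some L := by
    exact ⟨_, List.getLast?_eq_some_getLast (by simp)⟩
  have hφL : φ LA = φ LB := by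
    have e := congrArg List.getLast? hAB
    rw [List.getLast?_map, List.getLast?_map, hLA, hLB] at e
    simpa using e
  have hφX : φ X = φ Y := by
    have e := congrArg List.head? hAB
    simpa using e
  have hmid' : HAdj G M LA Y := hmid LA (by rw [hLA]; rfl) Y (by simp)
  obtain ⟨a, b, ha, hb, hca, hcb, hab⟩ := hτ' LA Y hmid'
  -- entrance of the first half, exit of the second half
  obtain ⟨u, hu, hcu⟩ := h1 Y X hφX.symm b hb
  obtain ⟨w, hw, hcw⟩ := h1 LA LB hφL a ha
  obtain ⟨P, p1, p2, p3, p4, p5, p6⟩ := lift hM hc φ τ hτ' A X u a hchA hndA hu (by rw [hLA, ha])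
  obtain ⟨P', q1, q2, q3, q4, q5, q6⟩ := lift hM hc φ τ hτ' B Y b w hchB hndB hb (by rw [hLB, hw])
  refine hc P P' ?_ ?_ ?_ ?_
  · intro e
    rw [e] at p5
    simp at p5
  · rw [List.isChain_append]
    refine ⟨p1, q1, ?_⟩
    rw [p6, q5]
    intro x hx y hy
    simp only [Option.mem_def, Option.some.injEq] at hx hy
    subst hx hy
    exact hab
  · rw [List.nodup_append]
    refine ⟨p2, q2, ?_⟩
    intro x hx y hy e
    subst e
    exact hdis _ (p4 x hx) _ (q4 x hy) rfl
  · rw [p3, q3, hAB, hcu, hcw]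

end Main

/-- There is f such that for every finite graph G with a nonrepetitive k-colouring and every matching M of G, the graph G/M obtained by contracting the edges of M has a nonrepetitive f(k)-colouring. -/
theorem result :
    ∃ f : ℕ → ℕ, ∀ (V : Type) [Fintype V] (G : SimpleGraph V) (M : G.Subgraph),
      M.IsMatching → ∀ k : ℕ,
        (∃ c : V → Fin k, ∀ (u v : V) (p : G.Walk u v), p.IsPath →
          Even p.support.length →
          (p.support.map c).take (p.support.length / 2) ≠
            (p.support.map c).drop (p.support.length / 2)) →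
        ∃ c : Quot M.Adj → Fin (f k),
          ∀ (a b : Quot M.Adj)
            (p : (SimpleGraph.fromRel (fun x y : Quot M.Adj =>
                ∃ u v : V, Quot.mk M.Adj u = x ∧ Quot.mk M.Adj v = y ∧ G.Adj u v)).Walk a b),
            p.IsPath → Even p.support.length →
            (p.support.map c).take (p.support.length / 2) ≠
              (p.support.map c).drop (p.support.length / 2) := by
  refine ⟨fun k => Nat.card (Col k), ?_⟩
  intro V _ G M hM k hex
  have := finite_col k
  obtain ⟨c, hc⟩ := hex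
  obtain ⟨φ, hφ⟩ := nonRep_contract hM (nonRep_of_walk hc)
  refine ⟨fun X => Finite.equivFin (Col k) (φ X), ?_⟩
  apply walk_of_nonRep
  intro A B hA hch hnd hAB
  refine hφ A B hA ?_ hnd ?_
  · refine List.IsChain.imp ?_ hch
    intro X Y h
    rw [SimpleGraph.fromRel_adj] at h
    obtain ⟨hne, h | h⟩ := h
    · obtain ⟨u, v, hu, hv, huv⟩ := h
      exact ⟨hne, u, v, hu, hv, huv⟩
    · obtain ⟨u, v, hu, hv, huv⟩ := h
      exact ⟨hne, v, u, hv, hu, huv.symm⟩
  · have e := congrArg (List.map (Finite.equivFin (Col k)).symm) hAB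
    simpa [List.map_map, Function.comp_def] using e

end Pool.Agent.S11077
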