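import Pool.Statements.S11563
import Pool.Agent.H.MP_d03aa7_co.Final

set_option autoImplicit false
open Pool Pool.MP_d03aa7_co

namespace Pool.Agent.S11563

open Pool.Agent.H.MP_d03aa7_co in
open Classical in
lemma conv {n : ℕ} (G : SimpleGraph (Fin n)) {α : ℝ}
    (h : α ≤ ({K : SimpleGraph (Fin n) | ∃ f : Fin n → Fin n, Function.Injective f ∧
              ∀ u v, G.Adj u v → K.Adj (f u) (f v)}.ncard : ℝ)
            / (Nat.card (SimpleGraph (Fin n)) : ℝ)) :
    α * (Fintype.card (SimpleGraph (Fin n)) : ℕ) ≤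
      ((Finset.univ.filter (fun K : SimpleGraph (Fin n) => Emb G K)).card : ℕ) := by
  have h1 : {K : SimpleGraph (Fin n) | ∃ f : Fin n → Fin n, Function.Injective f ∧
              ∀ u v, G.Adj u v → K.Adj (f u) (f v)}.ncard =
      (Finset.univ.filter (fun K : SimpleGraph (Fin n) => Emb G K)).card := by
    rw [← Set.ncard_coe_finset]
    congr 1
    ext K
    simp [Emb]
  rw [h1, Nat.card_eq_fintype_card] at h
  have h2 : (0:ℝ) < (Fintype.card (SimpleGraph (Fin n)) : ℝ) := by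
    exact_mod_cast Fintype.card_pos
  rwa [le_div_iff₀ h2] at h

lemma eventually_params (α : ℝ) (hα : 0 < α) : ∃ N : ℕ, ∀ n : ℕ, N ≤ n →
    (∃ L : ℕ, n ≤ 2^L ∧ 10^5 ≤ L ∧ L^20 ≤ n) ∧ 1 ≤ α * (n:ℝ) ∧
      2 * (n:ℝ)^2 * (9:ℝ)^n < 9 * 12^n := by
  have t1 := tendsto_pow_const_div_const_pow_of_one_lt 20 (r := 2) (by norm_num)
  have t2 := tendsto_pow_const_div_const_pow_of_one_lt 2 (r := 4/3) (by norm_num)
  have e1 := (t1.eventually (gt_mem_nhds (show (0:ℝ) < 1/2 by norm_num)))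
  have e2 := (t2.eventually (gt_mem_nhds (show (0:ℝ) < 9/2 by norm_num)))
  rw [Filter.eventually_atTop] at e1 e2
  obtain ⟨N1, h1⟩ := e1
  obtain ⟨N2, h2⟩ := e2
  refine ⟨max (2^(max N1 (10^5))) (max N2 (Nat.ceil (1/α))), fun n hn => ⟨?_, ?_, ?_⟩⟩
  · have hn1 : 2^(max N1 (10^5)) ≤ n := (le_max_left _ _).trans hn
    have hclog : max N1 (10^5) ≤ Nat.clog 2 n := by
      have := Nat.clog_mono_right 2 hn1
      rwa [Nat.clog_pow 2 _ (by norm_num)] at this
    refine ⟨Nat.clog 2 n, Nat.le_pow_clog (by norm_num) n, (le_max_right _ _).trans hclog, ?_⟩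
    set L := Nat.clog 2 n with hL
    have hLN : N1 ≤ L := (le_max_left _ _).trans hclog
    have hL5 : 10^5 ≤ L := (le_max_right _ _).trans hclog
    have h3 := h1 L hLN
    rw [div_lt_iff₀ (by positivity)] at h3
    have h4 : 2^(L-1) < n := by
      apply Nat.pow_pred_clog_lt_self (by norm_num)
      have : 2^1 ≤ 2^(max N1 (10^5)) := Nat.pow_le_pow_right (by norm_num) (by omega)
      omega
    obtain ⟨k, hk⟩ : ∃ k, L = k + 1 := ⟨L - 1, by omega⟩
    have h5 : (L:ℝ)^20 < 2^k := by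
      rw [hk] at h3 ⊢
      rw [pow_succ (2:ℝ) k] at h3
      linarith
    have h6 : L^20 < 2^k := by exact_mod_cast h5
    have h7 : L - 1 = k := by omega
    rw [h7] at h4
    omega
  · have hn1 : Nat.ceil (1/α) ≤ n := (le_max_right _ _).trans ((le_max_right _ _).trans hn)
    have h3 : 1/α ≤ n := (Nat.le_ceil _).trans (by exact_mod_cast hn1)
    rw [div_le_iff₀ hα] at h3
    linarith
  · have hn1 : N2 ≤ n := (le_max_left _ _).trans ((le_max_right _ _).trans hn)
    have h3 := h2 n hn1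
    rw [div_lt_iff₀ (by positivity), div_pow, mul_div_assoc', lt_div_iff₀ (by positivity)] at h3
    have h4 : (12:ℝ)^n = 4^n * 3^n := by rw [← mul_pow]; norm_num
    have h5 : (9:ℝ)^n = 3^n * 3^n := by rw [← mul_pow]; norm_num
    have h6 : (0:ℝ) < 3^n := by positivity
    rw [h4, h5]
    nlinarith

/-- For every α>0 there is N such that for all n≥N, any two n-vertex graphs G, H, each contained (as a subgraph, up to relabelling) in G(n,1/2) with probability ≥ α, pack: some vertex permutation maps H's edges to non-edges of G. -/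
theorem result :
    ∀ α : ℝ, 0 < α → ∃ N : ℕ, ∀ n : ℕ, N ≤ n → ∀ G H : SimpleGraph (Fin n),
      α ≤ ({K : SimpleGraph (Fin n) | ∃ f : Fin n → Fin n, Function.Injective f ∧
              ∀ u v, G.Adj u v → K.Adj (f u) (f v)}.ncard : ℝ)
            / (Nat.card (SimpleGraph (Fin n)) : ℝ) →
      α ≤ ({K : SimpleGraph (Fin n) | ∃ f : Fin n → Fin n, Function.Injective f ∧
              ∀ u v, H.Adj u v → K.Adj (f u) (f v)}.ncard : ℝ)
            / (Nat.card (SimpleGraph (Fin n)) : ℝ) →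
      ∃ σ : Fin n ≃ Fin n, ∀ u v, H.Adj u v → ¬ G.Adj (σ u) (σ v) := by
  intro α hα
  obtain ⟨N, hN⟩ := eventually_params α hα
  refine ⟨N, fun n hn G H hG hH => ?_⟩
  obtain ⟨⟨L, l1, l2, l3⟩, h2, h3⟩ := hN n hn
  have hcard : Fintype.card (Fin n) = n := Fintype.card_fin n
  exact Pool.Agent.H.MP_d03aa7_co.final G H hα (L := L) (by rw [hcard]; exact l1) l2
    (by rw [hcard]; exact l3) (by rw [hcard]; exact h2) (by rw [hcard]; exact h3)
    (conv G hG) (conv H hH)

end Pool.Agent.S11563
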