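import Pool.Statements.S11770
import Pool.Agent.H.MP_d93746_co.Graph

set_option autoImplicit false
open Classical
open Pool Pool.MP_d93746_co

namespace Pool.Agent.S11770

open Pool.Agent.H.MP_d93746_co

/-- The graph. -/
def H : SimpleGraph Vtx where
  Adj x y := adj x y = true
  symm := ⟨fun x y h => by rw [adj_symm]; exact h⟩
  loopless := ⟨fun x h => by rw [adj_self] at h; exact absurd h (by simp)⟩

theorem H_colorable : H.Colorable 2 := by
  have C : H.Coloring Bool := SimpleGraph.Coloring.mk side (fun {x y} h => side_ne x y h)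
  have := C.colorable
  simpa using this

/-- Neighbourhood sums as sums over all vertices. -/
theorem sum_nbr (f : Vtx → ℕ) (u : Vtx) :
    ∑ w ∈ H.neighborFinset u, f w = nsum f u := by
  unfold nsum
  rw [← Finset.sum_filter]
  apply Finset.sum_congr _ (fun _ _ => rfl)
  ext w
  rw [SimpleGraph.mem_neighborFinset, Finset.mem_filter]
  exact ⟨fun h => ⟨Finset.mem_univ _, h⟩, fun h => h.2⟩

/-- The negation of the preceding statement: Every finite simple graph has a vertex labeling with integers from 1 to its chromatic number in which any two adjacent vertices have different sums of labels over their neighbourhoods. -/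
theorem result :
    ¬ (∀ (V : Type) [Fintype V] (G : SimpleGraph V),
      ∃ f : V → ℕ,
        (∀ v, 1 ≤ f v ∧ ((f v : ℕ) : ℕ∞) ≤ G.chromaticNumber) ∧
        ∀ u v, G.Adj u v →
          ∑ w ∈ G.neighborFinset u, f w ≠ ∑ w ∈ G.neighborFinset v, f w) := by
  intro hall
  obtain ⟨f, hf, hne⟩ := hall Vtx H
  have hchi : H.chromaticNumber ≤ 2 := H_colorable.chromaticNumber_le
  apply no_labelling f
  · intro v
    refine ⟨(hf v).1, ?_⟩
    have h2 : ((f v : ℕ) : ℕ∞) ≤ 2 := (hf v).2.trans hchi
    exact_mod_cast h2
  · intro u v huv
    have := hne u v huv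
    rwa [sum_nbr, sum_nbr] at this

end Pool.Agent.S11770
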