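import Pool.Statements.S11974

set_option autoImplicit false
open Pool Pool.MP_e09a39_co

namespace Pool.Agent.S11974

/-!
A sign pattern with 11 rows and 14 columns, three zeros in every column, whose real minimum
rank is 3 and which has no rational realisation of rank 3. The rows are 11 points of the
projective plane over the field generated by the square root of 5, the columns are 14 of the 16
lines containing exactly three of them (the sporadic orchard configuration with 11 points and 16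
lines). The incidences force a number `a` with `a ^ 2 = 3 * a - 1`.
-/

/-- The sign pattern, with entries `-1, 0, 1`. -/
def pat : Fin 11 → Fin 14 → ℤ :=
![![ 0, 1, 0, 1,-1, 1, 0, 1,-1, 1, 0, 0,-1, 1],
  ![ 0,-1, 1, 0, 1, 0, 1, 0, 1,-1, 1, 1, 1, 0],
  ![ 1,-1, 1,-1, 1,-1,-1, 0, 0,-1,-1, 0, 1,-1],
  ![ 1, 1, 1, 0, 0, 1, 0, 1,-1, 1,-1, 1,-1, 1],
  ![ 1,-1, 1,-1, 1, 0, 0, 1, 0, 0,-1, 1, 1,-1],
  ![ 1, 0, 0,-1, 1,-1,-1, 0,-1, 0,-1,-1, 1,-1],
  ![ 1, 1, 0,-1, 0, 0,-1, 1,-1, 1,-1,-1, 0,-1],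
  ![ 0, 0, 1, 1, 0, 1, 1, 1, 1, 1, 1, 1,-1, 1],
  ![ 1,-1, 1,-1, 1, 1, 1, 1, 1, 0, 0, 1, 1, 0],
  ![ 1, 0, 1, 0, 1, 1, 1, 1, 0, 1, 0, 1, 0, 1],
  ![ 1, 1, 1,-1, 1, 1,-1, 1,-1, 1,-1, 0, 0, 0]]

/-- The sign pattern as a matrix of signs. -/
noncomputable def A : Matrix (Fin 11) (Fin 14) SignType := fun i j => SignType.sign (pat i j)

/-- Points: rational part. -/
def Up : Fin 11 → Fin 3 → ℤ :=
![![1,0,0],![0,1,0],![0,-2,-1],![0,-1,0],![1,-1,0],![0,0,1],![1,0,0],![1,1,0],![1,-1,-1],![1,1,1],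
  ![1,-2,-1]]
/-- Points: coefficient of `a`. -/
def Uq : Fin 11 → Fin 3 → ℤ :=
![![0,0,0],![0,0,0],![0,1,1],![1,1,1],![0,1,1],![0,0,0],![0,0,1],![0,0,0],![0,1,1],![0,0,0],
  ![0,1,1]]
/-- Lines: rational part. -/
def Vp : Fin 3 → Fin 14 → ℤ :=
![![0,1,0,1,0,0,0,1,-1,-1,0,0,0,-1],
  ![0,-1,1,0,0,0,0,0,-1,-1,1,-1,-1,0],
  ![1,0,0,-1,1,-1,1,0,2,0,-1,2,1,-1]]
/-- Lines: coefficient of `a`. -/
def Vq : Fin 3 → Fin 14 → ℤ :=
![![0,0,0,0,-1,1,0,0,0,1,0,0,-1,1],
  ![0,0,0,0,1,0,1,0,1,0,0,1,1,0],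
  ![0,0,0,0,0,0,-1,0,-1,0,0,-1,0,0]]

/-- Rational part of the product. -/
def Bp (i : Fin 11) (j : Fin 14) : ℤ :=
  (Up i 0 * Vp 0 j - Uq i 0 * Vq 0 j) + (Up i 1 * Vp 1 j - Uq i 1 * Vq 1 j)
    + (Up i 2 * Vp 2 j - Uq i 2 * Vq 2 j)
/-- Coefficient of `a` in the product. -/
def Bq (i : Fin 11) (j : Fin 14) : ℤ :=
  (Up i 0 * Vq 0 j + Uq i 0 * Vp 0 j + 3 * (Uq i 0 * Vq 0 j))
    + (Up i 1 * Vq 1 j + Uq i 1 * Vp 1 j + 3 * (Uq i 1 * Vq 1 j))
    + (Up i 2 * Vq 2 j + Uq i 2 * Vp 2 j + 3 * (Uq i 2 * Vq 2 j))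

theorem table : ∀ i j, (pat i j = 0 ∧ Bp i j = 0 ∧ Bq i j = 0) ∨
    (pat i j = 1 ∧ 0 < 100 * Bp i j + 261 * Bq i j ∧ 0 < 100 * Bp i j + 262 * Bq i j) ∨
    (pat i j = -1 ∧ 100 * Bp i j + 261 * Bq i j < 0 ∧ 100 * Bp i j + 262 * Bq i j < 0) := by
  decide +kernel

/-- The number `a = (3 + √5)/2`. -/
noncomputable def a : ℝ := (3 + √5) / 2

theorem a_sq : a ^ 2 = 3 * a - 1 := by
  have h : √5 ^ 2 = 5 := Real.sq_sqrt (by norm_num)
  unfold a; nlinarith

theorem a_lb : 261 / 100 < a := by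
  have : (2.23 : ℝ) < √5 := Real.lt_sqrt_of_sq_lt (by norm_num)
  unfold a; linarith

theorem a_ub : a < 262 / 100 := by
  have : √5 < (2.24 : ℝ) := by
    rw [Real.sqrt_lt' (by norm_num)]; norm_num
  unfold a; linarith

/-- The points. -/
noncomputable def U : Matrix (Fin 11) (Fin 3) ℝ := fun i k => (Up i k : ℝ) + (Uq i k : ℝ) * a
/-- The lines. -/
noncomputable def V : Matrix (Fin 3) (Fin 14) ℝ := fun k j => (Vp k j : ℝ) + (Vq k j : ℝ) * a

theorem UV_apply (i : Fin 11) (j : Fin 14) : (U * V) i j = (Bp i j : ℝ) + (Bq i j : ℝ) * a := by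
  rw [Matrix.mul_apply, Fin.sum_univ_three]
  simp only [U, V, Bp, Bq]
  push_cast
  have h := a_sq
  linear_combination ((Uq i 0 : ℝ) * Vq 0 j + (Uq i 1 : ℝ) * Vq 1 j + (Uq i 2 : ℝ) * Vq 2 j) * h

theorem lin_pos (p q : ℤ) (h1 : 0 < 100 * p + 261 * q) (h2 : 0 < 100 * p + 262 * q) :
    0 < (p : ℝ) + (q : ℝ) * a := by
  have h1' : (0 : ℝ) < 100 * p + 261 * q := by exact_mod_cast h1
  have h2' : (0 : ℝ) < 100 * p + 262 * q := by exact_mod_cast h2
  have l := a_lb
  have u := a_ub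
  nlinarith [mul_pos h1' (sub_pos.mpr u), mul_pos h2' (sub_pos.mpr l)]

theorem UV_sign (i : Fin 11) (j : Fin 14) : SignType.sign ((U * V) i j) = A i j := by
  rw [UV_apply]
  rcases table i j with ⟨h, h1, h2⟩ | ⟨h, h1, h2⟩ | ⟨h, h1, h2⟩
  · simp [A, h, h1, h2]
  · have := lin_pos _ _ h1 h2
    simp [A, h, sign_pos this]
  · have := lin_pos (-Bp i j) (-Bq i j) (by linarith) (by linarith)
    have h3 : (Bp i j : ℝ) + (Bq i j : ℝ) * a < 0 := by push_cast at this; linarith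
    simp [A, h, sign_neg h3]

theorem A_zero_iff (i : Fin 11) (j : Fin 14) : A i j = 0 ↔ pat i j = 0 := by
  simp [A]

section ring
variable {K : Type*} [Field K] [LinearOrder K] [IsStrictOrderedRing K]

omit [IsStrictOrderedRing K] in
theorem zero_iff {B : Matrix (Fin 11) (Fin 14) K}
    (h : ∀ i j, SignType.sign (B i j) = A i j) (i : Fin 11) (j : Fin 14) :
    B i j = 0 ↔ pat i j = 0 := by
  rw [← A_zero_iff, ← h i j, sign_eq_zero_iff]

/-- Rows 0, 1, 5 are linearly independent. -/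
theorem rows_indep {B : Matrix (Fin 11) (Fin 14) K}
    (h : ∀ i j, SignType.sign (B i j) = A i j) : 3 ≤ B.rank := by
  have hz := zero_iff h
  have hli : LinearIndependent K ![B 0, B 1, B 5] := by
    rw [Fintype.linearIndependent_iff]
    intro g hg
    rw [Fin.sum_univ_three] at hg
    have e7 := congrFun hg 7
    have e2 := congrFun hg 2
    have e0 := congrFun hg 0
    have z17 : B 1 7 = 0 := (hz 1 7).2 (by decide)
    have z57 : B 5 7 = 0 := (hz 5 7).2 (by decide)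
    have n07 : B 0 7 ≠ 0 := fun hh => absurd ((hz 0 7).1 hh) (by decide)
    have z02 : B 0 2 = 0 := (hz 0 2).2 (by decide)
    have z52 : B 5 2 = 0 := (hz 5 2).2 (by decide)
    have n12 : B 1 2 ≠ 0 := fun hh => absurd ((hz 1 2).1 hh) (by decide)
    have z00 : B 0 0 = 0 := (hz 0 0).2 (by decide)
    have z10 : B 1 0 = 0 := (hz 1 0).2 (by decide)
    have n50 : B 5 0 ≠ 0 := fun hh => absurd ((hz 5 0).1 hh) (by decide)
    simp [z17, z57, z02, z52, z00, z10, n07, n12, n50] at e7 e2 e0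
    intro i
    fin_cases i <;> simp [e7, e2, e0]
  rw [Matrix.rank_eq_finrank_span_row]
  have h3 : Module.finrank K (Submodule.span K (Set.range ![B 0, B 1, B 5])) = 3 := by
    rw [finrank_span_eq_card hli]; simp
  rw [← h3]
  apply Submodule.finrank_mono
  apply Submodule.span_mono
  rintro _ ⟨k, rfl⟩
  fin_cases k
  · exact ⟨0, rfl⟩
  · exact ⟨1, rfl⟩
  · exact ⟨5, rfl⟩

end ring

section rat

variable {Q : Matrix (Fin 11) (Fin 14) ℚ}

/-- In a rank three realisation every row is a combination of rows 0, 1, 5. -/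
theorem rows_span (h : ∀ i j, SignType.sign (Q i j) = A i j) (hr : Q.rank = 3) (i : Fin 11) :
    ∃ x y z : ℚ, ∀ j, Q i j = x * Q 0 j + y * Q 1 j + z * Q 5 j := by
  have hz := zero_iff h
  have z17 : Q 1 7 = 0 := (hz 1 7).2 (by decide)
  have z57 : Q 5 7 = 0 := (hz 5 7).2 (by decide)
  have n07 : Q 0 7 ≠ 0 := fun hh => absurd ((hz 0 7).1 hh) (by decide)
  have z02 : Q 0 2 = 0 := (hz 0 2).2 (by decide)
  have z52 : Q 5 2 = 0 := (hz 5 2).2 (by decide)
  have n12 : Q 1 2 ≠ 0 := fun hh => absurd ((hz 1 2).1 hh) (by decide)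
  have z00 : Q 0 0 = 0 := (hz 0 0).2 (by decide)
  have z10 : Q 1 0 = 0 := (hz 1 0).2 (by decide)
  have n50 : Q 5 0 ≠ 0 := fun hh => absurd ((hz 5 0).1 hh) (by decide)
  have hnot : ¬ LinearIndependent ℚ ![Q 0, Q 1, Q 5, Q i] := by
    intro hli
    have h4 : Module.finrank ℚ (Submodule.span ℚ (Set.range ![Q 0, Q 1, Q 5, Q i])) = 4 := by
      rw [finrank_span_eq_card hli]; simp
    have h3 : Module.finrank ℚ (Submodule.span ℚ (Set.range ![Q 0, Q 1, Q 5, Q i])) ≤ 3 := by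
      rw [← hr, Matrix.rank_eq_finrank_span_row]
      apply Submodule.finrank_mono
      apply Submodule.span_mono
      rintro _ ⟨k, rfl⟩
      fin_cases k
      · exact ⟨0, rfl⟩
      · exact ⟨1, rfl⟩
      · exact ⟨5, rfl⟩
      · exact ⟨i, rfl⟩
    omega
  rw [Fintype.not_linearIndependent_iff] at hnot
  obtain ⟨g, hg, k, hk⟩ := hnot
  rw [Fin.sum_univ_four] at hg
  have hgj : ∀ j, g 0 * Q 0 j + g 1 * Q 1 j + g 2 * Q 5 j + g 3 * Q i j = 0 := by
    intro j
    have := congrFun hg j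
    simpa using this
  have g3 : g 3 ≠ 0 := by
    intro g3
    have e7 := hgj 7
    have e2 := hgj 2
    have e0 := hgj 0
    simp [z17, z57, z02, z52, z00, z10, n07, n12, n50, g3] at e7 e2 e0
    fin_cases k <;> simp_all
  refine ⟨-(g 0) / g 3, -(g 1) / g 3, -(g 2) / g 3, fun j => ?_⟩
  field_simp
  linear_combination hgj j

end rat

/-- Three vectors orthogonal to a nonzero covector have determinant zero. -/
theorem det_zero {u v w a1 a2 a3 b1 b2 b3 c1 c2 c3 : ℚ}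
    (hn : ¬ (u = 0 ∧ v = 0 ∧ w = 0)) (ha : a1 * u + a2 * v + a3 * w = 0)
    (hb : b1 * u + b2 * v + b3 * w = 0) (hc : c1 * u + c2 * v + c3 * w = 0) :
    a1 * (b2 * c3 - b3 * c2) - a2 * (b1 * c3 - b3 * c1) + a3 * (b1 * c2 - b2 * c1) = 0 := by
  by_contra hd
  apply hn
  set D := a1 * (b2 * c3 - b3 * c2) - a2 * (b1 * c3 - b3 * c1) + a3 * (b1 * c2 - b2 * c1) with hD
  have h1 : D * u = 0 := by
    rw [hD]; linear_combination (b2 * c3 - b3 * c2) * ha - (a2 * c3 - a3 * c2) * hb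
      + (a2 * b3 - a3 * b2) * hc
  have h2 : D * v = 0 := by
    rw [hD]; linear_combination -(b1 * c3 - b3 * c1) * ha + (a1 * c3 - a3 * c1) * hb
      - (a1 * b3 - a3 * b1) * hc
  have h3 : D * w = 0 := by
    rw [hD]; linear_combination (b1 * c2 - b2 * c1) * ha - (a1 * c2 - a2 * c1) * hb
      + (a1 * b2 - a2 * b1) * hc
  exact ⟨by simpa [hd] using h1, by simpa [hd] using h2, by simpa [hd] using h3⟩

/-- No rational number satisfies `a ^ 2 = 3 * a - 1`. -/
theorem no_rat (a : ℚ) (h : a ^ 2 - 3 * a + 1 = 0) : False := by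
  have h5 : (2 * a - 3) ^ 2 = 5 := by linear_combination 4 * h
  have hirr : Irrational (√(5 : ℝ)) := by
    have := Nat.Prime.irrational_sqrt (p := 5) (by norm_num)
    simpa using this
  have hr : ((2 * a - 3 : ℚ) : ℝ) ^ 2 = 5 := by exact_mod_cast h5
  apply hirr
  rcases abs_choice (((2 * a - 3 : ℚ) : ℝ)) with hc | hc
  · refine ⟨2 * a - 3, ?_⟩
    rw [← hr, Real.sqrt_sq_eq_abs, hc]
  · refine ⟨-(2 * a - 3), ?_⟩
    rw [← hr, Real.sqrt_sq_eq_abs, hc]; push_cast; ring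

/-- The algebraic core, with row 9 normalised to `(1, 1, 1)`. -/
theorem core' (X Y Z : Fin 11 → ℚ) (u v w : Fin 14 → ℚ)
    (h : ∀ i j, X i * u j + Y i * v j + Z i * w j = 0 ↔ pat i j = 0)
    (hY0 : Y 0 = 0) (hZ0 : Z 0 = 0) (hX1 : X 1 = 0) (hZ1 : Z 1 = 0) (hX5 : X 5 = 0)
    (hY5 : Y 5 = 0) (hX9 : X 9 = 1) (hY9 : Y 9 = 1) (hZ9 : Z 9 = 1) : False := by
  have hn : ∀ j, ¬ (u j = 0 ∧ v j = 0 ∧ w j = 0) := by
    rintro j ⟨h1, h2, h3⟩
    have key : ∀ j, ∃ i, pat i j ≠ 0 := by decide +kernel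
    obtain ⟨i, hi⟩ := key j
    exact hi ((h i j).1 (by rw [h1, h2, h3]; ring))
  have hd : ∀ j a b c, pat a j = 0 → pat b j = 0 → pat c j = 0 →
      X a * (Y b * Z c - Z b * Y c) - Y a * (X b * Z c - Z b * X c)
        + Z a * (X b * Y c - Y b * X c) = 0 := fun j a b c ha hb hc =>
    det_zero (hn j) ((h a j).2 ha) ((h b j).2 hb) ((h c j).2 hc)
  have hX0 : X 0 ≠ 0 := by
    intro h0
    exact absurd ((h 0 1).1 (by rw [h0, hY0, hZ0]; ring)) (by decide)
  have hY1 : Y 1 ≠ 0 := by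
    intro h0
    exact absurd ((h 1 1).1 (by rw [h0, hX1, hZ1]; ring)) (by decide)
  have hZ5 : Z 5 ≠ 0 := by
    intro h0
    exact absurd ((h 5 0).1 (by rw [h0, hX5, hY5]; ring)) (by decide)
  -- column 0
  have u0 : u 0 = 0 := by
    have := (h 0 0).2 (by decide); rw [hY0, hZ0] at this; simpa [hX0] using this
  have v0 : v 0 = 0 := by
    have := (h 1 0).2 (by decide); rw [hX1, hZ1] at this; simpa [hY1] using this
  -- column 2
  have u2 : u 2 = 0 := by
    have := (h 0 2).2 (by decide); rw [hY0, hZ0] at this; simpa [hX0] using this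
  have w2 : w 2 = 0 := by
    have := (h 5 2).2 (by decide); rw [hX5, hY5] at this; simpa [hZ5] using this
  -- column 7
  have v7 : v 7 = 0 := by
    have := (h 1 7).2 (by decide); rw [hX1, hZ1] at this; simpa [hY1] using this
  have w7 : w 7 = 0 := by
    have := (h 5 7).2 (by decide); rw [hX5, hY5] at this; simpa [hZ5] using this
  have w0 : w 0 ≠ 0 := fun h0 => hn 0 ⟨u0, v0, h0⟩
  have v2 : v 2 ≠ 0 := fun h0 => hn 2 ⟨u2, h0, w2⟩
  have u7 : u 7 ≠ 0 := fun h0 => hn 7 ⟨h0, v7, w7⟩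
  have hZ : ∀ i, Z i = 0 ↔ pat i 0 = 0 := by
    intro i; rw [← h i 0, u0, v0]; simp [w0]
  have hY : ∀ i, Y i = 0 ↔ pat i 2 = 0 := by
    intro i; rw [← h i 2, u2, w2]; simp [v2]
  have hX : ∀ i, X i = 0 ↔ pat i 7 = 0 := by
    intro i; rw [← h i 7, v7, w7]; simp [u7]
  have hX2 : X 2 = 0 := (hX 2).2 (by decide)
  have hY6 : Y 6 = 0 := (hY 6).2 (by decide)
  have hZ7 : Z 7 = 0 := (hZ 7).2 (by decide)
  have X3 : X 3 ≠ 0 := fun hh => absurd ((hX 3).1 hh) (by decide)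
  have X4 : X 4 ≠ 0 := fun hh => absurd ((hX 4).1 hh) (by decide)
  have X6 : X 6 ≠ 0 := fun hh => absurd ((hX 6).1 hh) (by decide)
  have X7 : X 7 ≠ 0 := fun hh => absurd ((hX 7).1 hh) (by decide)
  have X8 : X 8 ≠ 0 := fun hh => absurd ((hX 8).1 hh) (by decide)
  have X10 : X 10 ≠ 0 := fun hh => absurd ((hX 10).1 hh) (by decide)
  have Z2 : Z 2 ≠ 0 := fun hh => absurd ((hZ 2).1 hh) (by decide)
  -- the incidences
  have d1 := hd 1 5 7 9 (by decide) (by decide) (by decide)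
  have d3 := hd 3 1 3 9 (by decide) (by decide) (by decide)
  have d4 := hd 4 3 6 7 (by decide) (by decide) (by decide)
  have d5 := hd 5 1 4 6 (by decide) (by decide) (by decide)
  have d6 := hd 6 0 3 4 (by decide) (by decide) (by decide)
  have d8 := hd 8 2 4 9 (by decide) (by decide) (by decide)
  have d9 := hd 9 4 5 8 (by decide) (by decide) (by decide)
  have d10 := hd 10 0 8 9 (by decide) (by decide) (by decide)
  have d11 := hd 11 0 2 10 (by decide) (by decide) (by decide)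
  have d12 := hd 12 6 9 10 (by decide) (by decide) (by decide)
  have d13 := hd 13 1 8 10 (by decide) (by decide) (by decide)
  simp only [hY0, hZ0, hX1, hZ1, hX5, hY5, hX9, hY9, hZ9, hX2, hY6, hZ7, mul_zero, zero_mul,
    sub_zero, zero_sub, add_zero, zero_add, mul_one, one_mul, neg_eq_zero, mul_eq_zero, hX0, hY1,
    hZ5, false_or] at d1 d3 d4 d5 d6 d8 d9 d10 d11 d12 d13
  set a : ℚ := Z 6 / X 6 with ha
  have e6 : Z 6 = a * X 6 := by rw [ha]; field_simp
  have e7 : Y 7 = X 7 := by linarith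
  have e3 : Z 3 = X 3 := by linarith
  have e8 : Z 8 = Y 8 := by linarith
  have f3 : Y 3 * a = X 3 * (a - 1) := by
    have : X 6 * X 7 * (Y 3 * a - X 3 * (a - 1)) = 0 := by
      rw [e7, e3, e6] at d4; linear_combination d4
    have h0 := (mul_eq_zero.1 this).resolve_left (mul_ne_zero X6 X7)
    linarith
  have f4 : Z 4 = a * X 4 := by
    have : X 6 * (Z 4 - a * X 4) = 0 := by rw [e6] at d5; linear_combination -d5
    have h0 := (mul_eq_zero.1 this).resolve_left X6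
    linarith
  have g4 : Y 4 = (a - 1) * X 4 := by
    have : X 3 * (Y 4 - (a - 1) * X 4) = 0 := by
      rw [e3, f4] at d6; linear_combination -d6 + X 4 * f3
    have h0 := (mul_eq_zero.1 this).resolve_left X3
    linarith
  have g8 : Y 8 = (a - 1) * X 8 := by
    have : Z 5 * X 4 * (Y 8 - (a - 1) * X 8) = 0 := by
      rw [g4] at d9; linear_combination -d9
    have h0 := (mul_eq_zero.1 this).resolve_left (mul_ne_zero hZ5 X4)
    linarith
  have g10 : Z 10 = (a - 1) * X 10 := by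
    have : X 8 * (Z 10 - (a - 1) * X 10) = 0 := by
      rw [e8, g8] at d13; linear_combination d13
    have h0 := (mul_eq_zero.1 this).resolve_left X8
    linarith
  have g2 : Y 2 * (a - 1) = Z 2 * (a - 2) := by
    have : X 4 * (Y 2 * (a - 1) - Z 2 * (a - 2)) = 0 := by
      rw [f4, g4] at d8; linear_combination d8
    have h0 := (mul_eq_zero.1 this).resolve_left X4
    linarith
  have k10 : Y 10 = (a - 2) * X 10 := by
    have : Z 2 * (Y 10 - (a - 2) * X 10) = 0 := by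
      rw [g10] at d11; linear_combination -d11 + X 10 * g2
    have h0 := (mul_eq_zero.1 this).resolve_left Z2
    linarith
  have fin : X 6 * X 10 * (a ^ 2 - 3 * a + 1) = 0 := by
    rw [e6, g10, k10] at d12; linear_combination d12
  exact no_rat a ((mul_eq_zero.1 fin).resolve_left (mul_ne_zero X6 X10))

/-- The algebraic core: the incidences force `a ^ 2 = 3 * a - 1`. -/
theorem core (X Y Z : Fin 11 → ℚ) (u v w : Fin 14 → ℚ)
    (h : ∀ i j, X i * u j + Y i * v j + Z i * w j = 0 ↔ pat i j = 0)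
    (hY0 : Y 0 = 0) (hZ0 : Z 0 = 0) (hX1 : X 1 = 0) (hZ1 : Z 1 = 0) (hX5 : X 5 = 0)
    (hY5 : Y 5 = 0) (hX9 : X 9 ≠ 0) (hY9 : Y 9 ≠ 0) (hZ9 : Z 9 ≠ 0) : False := by
  refine core' (fun i => X i / X 9) (fun i => Y i / Y 9) (fun i => Z i / Z 9)
    (fun j => u j * X 9) (fun j => v j * Y 9) (fun j => w j * Z 9) ?_ ?_ ?_ ?_ ?_ ?_ ?_ ?_ ?_ ?_
  · intro i j
    rw [← h i j]
    have : X i / X 9 * (u j * X 9) + Y i / Y 9 * (v j * Y 9) + Z i / Z 9 * (w j * Z 9)
        = X i * u j + Y i * v j + Z i * w j := by field_simp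
    simp only [this]
  all_goals simp [*]

/-- The negation of the preceding statement: For every sign pattern whose real minimum rank is 3 and whose columns each have at most 3 zero entries, there is a rational matrix with exactly that sign pattern and rank 3, i.e. the rational minimum rank is also 3. -/
theorem result :
    ¬ (∀ (m n : ℕ) (A : Matrix (Fin m) (Fin n) SignType),
      (∀ j : Fin n, (Finset.univ.filter (fun i : Fin m => A i j = 0)).card ≤ 3) →
      (∃ B : Matrix (Fin m) (Fin n) ℝ,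
          (∀ i j, SignType.sign (B i j) = A i j) ∧ B.rank = 3) →
      (∀ B : Matrix (Fin m) (Fin n) ℝ,
          (∀ i j, SignType.sign (B i j) = A i j) → 3 ≤ B.rank) →
      ∃ Q : Matrix (Fin m) (Fin n) ℚ,
        (∀ i j, SignType.sign (Q i j) = A i j) ∧ Q.rank = 3) := by
  intro H
  have hcol : ∀ j : Fin 14, (Finset.univ.filter (fun i : Fin 11 => A i j = 0)).card ≤ 3 := by
    intro j
    have key : ∀ j : Fin 14, (Finset.univ.filter (fun i : Fin 11 => pat i j = 0)).card ≤ 3 := by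
      decide +kernel
    simpa only [A_zero_iff] using key j
  have hrk : (U * V).rank = 3 := by
    apply le_antisymm _ (rows_indep UV_sign)
    exact (Matrix.rank_mul_le_right U V).trans ((Matrix.rank_le_card_height V).trans (by simp))
  obtain ⟨Q, hs, hr⟩ := H 11 14 A hcol ⟨U * V, UV_sign, hrk⟩ (fun B hB => rows_indep hB)
  · have hz := zero_iff hs
    choose x y z hxyz using rows_span hs hr
    have z17 : Q 1 7 = 0 := (hz 1 7).2 (by decide)
    have z57 : Q 5 7 = 0 := (hz 5 7).2 (by decide)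
    have n07 : Q 0 7 ≠ 0 := fun hh => absurd ((hz 0 7).1 hh) (by decide)
    have z02 : Q 0 2 = 0 := (hz 0 2).2 (by decide)
    have z52 : Q 5 2 = 0 := (hz 5 2).2 (by decide)
    have n12 : Q 1 2 ≠ 0 := fun hh => absurd ((hz 1 2).1 hh) (by decide)
    have z00 : Q 0 0 = 0 := (hz 0 0).2 (by decide)
    have z10 : Q 1 0 = 0 := (hz 1 0).2 (by decide)
    have n50 : Q 5 0 ≠ 0 := fun hh => absurd ((hz 5 0).1 hh) (by decide)
    have ex : ∀ i, Q i 7 = x i * Q 0 7 := fun i => by rw [hxyz i 7, z17, z57]; ring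
    have ey : ∀ i, Q i 2 = y i * Q 1 2 := fun i => by rw [hxyz i 2, z02, z52]; ring
    have ez : ∀ i, Q i 0 = z i * Q 5 0 := fun i => by rw [hxyz i 0, z00, z10]; ring
    have hx : ∀ i, x i = 0 ↔ pat i 7 = 0 := by
      intro i; rw [← hz i 7, ex i]; simp [n07]
    have hy : ∀ i, y i = 0 ↔ pat i 2 = 0 := by
      intro i; rw [← hz i 2, ey i]; simp [n12]
    have hz' : ∀ i, z i = 0 ↔ pat i 0 = 0 := by
      intro i; rw [← hz i 0, ez i]; simp [n50]
    refine core x y z (fun j => Q 0 j) (fun j => Q 1 j) (fun j => Q 5 j) ?_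
      ((hy 0).2 (by decide)) ((hz' 0).2 (by decide)) ((hx 1).2 (by decide))
      ((hz' 1).2 (by decide)) ((hx 5).2 (by decide)) ((hy 5).2 (by decide))
      (fun hh => absurd ((hx 9).1 hh) (by decide)) (fun hh => absurd ((hy 9).1 hh) (by decide))
      (fun hh => absurd ((hz' 9).1 hh) (by decide))
    intro i j
    rw [← hz i j, hxyz i j]

end Pool.Agent.S11974
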