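import Pool.Statements.S12791

/-!
# A tight smooth Klein bottle spanning four-space

The Klein bottle is parametrised by `(θ, v)` modulo `(θ + π, -v)` and `(θ, v + 2π)` and is mapped to
`ℂ × ℂ = ℝ⁴` by `(A(v) e^{2iθ}, sin v e^{iθ})`, where `A(v) = (1 + cos v)/2 + g(cos v)` and `g` is a small
smooth bump function supported in `u < -1/2`.

* On the outer region `cos v > -1/2` the map agrees with the projected Veronese surface
  `(w², 2 w z)`, `|w|² + z² = 1`, whose height functions are quadratic forms on the sphere, so a local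
  maximum there is a top eigenvector (`outer_top`).
* On the inner region `cos v ≤ -1/2` no nonzero height function has a local maximum (`inner_none`).

Hence all local maxima of a height function have the same value and lie on a connected curve
(`key`), which gives the two-piece property.
-/

set_option autoImplicit false
open Pool Pool.MP_13fe75_gt

namespace Pool.Agent.S12791


open Real Set Filter Topology

/-- bump -/
noncomputable def gb (u : ℝ) : ℝ := (1/2) * expNegInvGlue (-1/2 - u)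
noncomputable def gb1 (u : ℝ) : ℝ := -(1/2) * ((-1/2 - u)⁻¹ ^ 2 * expNegInvGlue (-1/2 - u))
noncomputable def gb2 (u : ℝ) : ℝ :=
  (1/2) * (((-1/2 - u)⁻¹ ^ 4 - 2 * (-1/2 - u)⁻¹ ^ 3) * expNegInvGlue (-1/2 - u))

lemma hasDerivAt_E (x : ℝ) : HasDerivAt expNegInvGlue (x⁻¹ ^ 2 * expNegInvGlue x) x := by
  have := expNegInvGlue.hasDerivAt_polynomial_eval_inv_mul 1 x
  simpa using this

lemma hasDerivAt_E1 (x : ℝ) : HasDerivAt (fun x => x⁻¹ ^ 2 * expNegInvGlue x)
    ((x⁻¹ ^ 4 - 2 * x⁻¹ ^ 3) * expNegInvGlue x) x := by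
  have := expNegInvGlue.hasDerivAt_polynomial_eval_inv_mul (Polynomial.X ^ 2) x
  have h2 : (Polynomial.eval x⁻¹ (Polynomial.X ^ 2 * (Polynomial.X ^ 2 - Polynomial.derivative (R := ℝ) (Polynomial.X ^ 2)))) = (x⁻¹ ^ 4 - 2 * x⁻¹ ^ 3) := by
    simp
    ring
  rw [h2] at this
  simpa using this

lemma hasDerivAt_gb (u : ℝ) : HasDerivAt gb (gb1 u) u := by
  have h1 : HasDerivAt (fun u : ℝ => -1/2 - u) (-1) u := by
    simpa using (hasDerivAt_id u).const_sub (-1/2)
  have := ((hasDerivAt_E (-1/2 - u)).comp u h1).const_mul (1/2)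
  refine HasDerivAt.congr_deriv this ?_
  unfold gb1
  ring

lemma hasDerivAt_gb1 (u : ℝ) : HasDerivAt gb1 (gb2 u) u := by
  have h1 : HasDerivAt (fun u : ℝ => -1/2 - u) (-1) u := by
    simpa using (hasDerivAt_id u).const_sub (-1/2)
  have := ((hasDerivAt_E1 (-1/2 - u)).comp u h1).const_mul (-(1/2))
  refine HasDerivAt.congr_deriv this ?_
  unfold gb2
  ring

lemma gb_nonneg (u : ℝ) : 0 ≤ gb u := by
  unfold gb
  have := expNegInvGlue.nonneg (-1/2 - u)
  positivity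

lemma gb_eq_zero {u : ℝ} (hu : -1/2 ≤ u) : gb u = 0 := by
  unfold gb
  rw [expNegInvGlue.zero_of_nonpos (by linarith)]
  simp

lemma gb1_eq_zero {u : ℝ} (hu : -1/2 ≤ u) : gb1 u = 0 := by
  unfold gb1
  rw [expNegInvGlue.zero_of_nonpos (by linarith)]
  simp

lemma gb_neg_one_pos : 0 < gb (-1) := by
  unfold gb
  have := expNegInvGlue.pos_of_pos (x := -1/2 - (-1)) (by norm_num)
  positivity

lemma gb1_nonpos (u : ℝ) : gb1 u ≤ 0 := by
  unfold gb1
  have h1 := expNegInvGlue.nonneg (-1/2 - u)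
  have h2 : 0 ≤ (-1/2 - u)⁻¹ ^ 2 * expNegInvGlue (-1/2 - u) := by positivity
  linarith

lemma sq_lt_exp {y : ℝ} (hy : 0 ≤ y) : y ^ 2 < Real.exp y := by
  have h := Real.quadratic_le_exp_of_nonneg (x := y/2) (by linarith)
  have h2 : y < Real.exp (y/2) := by nlinarith [sq_nonneg (y/2 - 1)]
  have h3 : Real.exp y = Real.exp (y/2) ^ 2 := by
    rw [← Real.exp_nat_mul]; congr 1; push_cast; ring
  rw [h3]
  exact pow_lt_pow_left₀ h2 hy (by norm_num)

lemma gb1_gt (u : ℝ) : -(1/2) < gb1 u := by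
  unfold gb1
  rcases le_or_gt (-1/2 - u) 0 with h | h
  · rw [expNegInvGlue.zero_of_nonpos h]; norm_num
  · have h1 : expNegInvGlue (-1/2 - u) = Real.exp (-(-1/2-u)⁻¹) := by
      simp only [expNegInvGlue, if_neg (not_le.2 h)]
    rw [h1]
    have h2 := sq_lt_exp (y := (-1/2 - u)⁻¹) (by positivity)
    have h3 : (-1/2 - u)⁻¹ ^ 2 * Real.exp (-(-1/2 - u)⁻¹) < 1 := by
      rw [Real.exp_neg, ← div_eq_mul_inv, div_lt_one (Real.exp_pos _)]
      exact h2
    linarith

lemma gb2_nonneg {u : ℝ} (hu : -1 ≤ u) : 0 ≤ gb2 u := by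
  unfold gb2
  rcases le_or_gt (-1/2 - u) 0 with h | h
  · rw [expNegInvGlue.zero_of_nonpos h]; norm_num
  · have h1 : 2 ≤ (-1/2 - u)⁻¹ := by
      rw [le_inv_comm₀ (by norm_num) h]
      linarith
    have h2 := expNegInvGlue.nonneg (-1/2 - u)
    have h3 : 0 ≤ (-1/2 - u)⁻¹ ^ 4 - 2 * (-1/2 - u)⁻¹ ^ 3 := by
      have : (-1/2 - u)⁻¹ ^ 4 - 2 * (-1/2 - u)⁻¹ ^ 3 = (-1/2 - u)⁻¹ ^ 3 * ((-1/2 - u)⁻¹ - 2) := by ring
      rw [this]
      apply mul_nonneg (by positivity) (by linarith)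
    positivity

/-- the profile function -/
noncomputable def AA (v : ℝ) : ℝ := (1 + Real.cos v) / 2 + gb (Real.cos v)
noncomputable def AA1 (v : ℝ) : ℝ := - Real.sin v * (1/2 + gb1 (Real.cos v))
noncomputable def AA2 (v : ℝ) : ℝ :=
  Real.sin v ^ 2 * gb2 (Real.cos v) - Real.cos v * (1/2 + gb1 (Real.cos v))

lemma hasDerivAt_AA (v : ℝ) : HasDerivAt AA (AA1 v) v := by
  have h1 : HasDerivAt (fun v => (1 + Real.cos v)/2) (-Real.sin v / 2) v := by
    have := ((Real.hasDerivAt_cos v).const_add 1).div_const 2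
    simpa using this
  have h2 := (hasDerivAt_gb (Real.cos v)).comp v (Real.hasDerivAt_cos v)
  have := h1.add h2
  refine HasDerivAt.congr_deriv this ?_
  unfold AA1; ring

lemma hasDerivAt_AA1 (v : ℝ) : HasDerivAt AA1 (AA2 v) v := by
  have h2 := (hasDerivAt_gb1 (Real.cos v)).comp v (Real.hasDerivAt_cos v)
  have := ((Real.hasDerivAt_sin v).neg).mul (h2.const_add (1/2))
  refine HasDerivAt.congr_deriv this ?_
  unfold AA2
  simp only [Function.comp, Pi.neg_apply]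
  ring

lemma AA_pos (v : ℝ) : 0 < AA v := by
  unfold AA
  have h1 := gb_nonneg (Real.cos v)
  rcases eq_or_lt_of_le (Real.neg_one_le_cos v) with h | h
  · rw [← h]; have := gb_neg_one_pos; linarith
  · linarith

lemma AA_outer {v : ℝ} (hv : -1/2 ≤ Real.cos v) : AA v = (1 + Real.cos v) / 2 := by
  unfold AA; rw [gb_eq_zero hv, add_zero]

lemma AA_neg (v : ℝ) : AA (-v) = AA v := by unfold AA; rw [Real.cos_neg]

lemma AA_periodic (v : ℝ) : AA (v + 2 * π) = AA v := by unfold AA; rw [Real.cos_add_two_pi]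

lemma contDiff_AA : ContDiff ℝ (⊤ : ℕ∞) AA := by
  unfold AA gb
  have h := expNegInvGlue.contDiff (n := (⊤ : ℕ∞))
  fun_prop

/-- convexity of the inner profile -/
lemma kappa_pos {v : ℝ} (hv : Real.cos v ≤ -1/2) :
    0 < AA1 v * (-Real.sin v) - Real.cos v * AA2 v := by
  unfold AA1 AA2
  have h1 := gb1_gt (Real.cos v)
  have h2 := gb2_nonneg (u := Real.cos v) (Real.neg_one_le_cos v)
  have h3 := Real.sin_sq_add_cos_sq v
  have h4 : - Real.sin v * (1/2 + gb1 (Real.cos v)) * (-Real.sin v) -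
      Real.cos v * (Real.sin v ^ 2 * gb2 (Real.cos v) - Real.cos v * (1/2 + gb1 (Real.cos v)))
      = (Real.sin v ^ 2 + Real.cos v ^ 2) * (1/2 + gb1 (Real.cos v)) + (- Real.cos v) * (Real.sin v ^ 2 * gb2 (Real.cos v)) := by ring
  rw [h4, h3]
  have h5 : 0 ≤ (- Real.cos v) * (Real.sin v ^ 2 * gb2 (Real.cos v)) := by
    apply mul_nonneg (by linarith) (by positivity)
  linarith

lemma qq_neg {v : ℝ} (hv : Real.cos v ≤ -1/2) :
    4 * AA v * Real.cos v - AA1 v * Real.sin v < 0 := by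
  have h0 : 4 * AA v * Real.cos v - AA1 v * Real.sin v =
     (1 + Real.cos v) * (1 + 3 * Real.cos v) / 2 + 4 * Real.cos v * gb (Real.cos v)
       + gb1 (Real.cos v) * Real.sin v ^ 2 := by
    unfold AA AA1
    have := Real.sin_sq_add_cos_sq v
    have h : Real.sin v ^ 2 = 1 - Real.cos v ^ 2 := by linarith
    ring_nf
    rw [h]; ring
  rw [h0]
  have h1 := gb1_nonpos (Real.cos v)
  have h2 := gb_nonneg (Real.cos v)
  have h3 : gb1 (Real.cos v) * Real.sin v ^ 2 ≤ 0 := mul_nonpos_of_nonpos_of_nonneg h1 (sq_nonneg _)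
  rcases eq_or_lt_of_le (Real.neg_one_le_cos v) with h | h
  · have h6 : gb (Real.cos v) > 0 := by rw [← h]; exact gb_neg_one_pos
    have h7 : (1 + Real.cos v) * (1 + 3 * Real.cos v) / 2 = 0 := by rw [← h]; norm_num
    have h8 : 4 * Real.cos v * gb (Real.cos v) < 0 := by
      apply mul_neg_of_neg_of_pos (by linarith) h6
    linarith
  · have h4 : (1 + Real.cos v) * (1 + 3 * Real.cos v) < 0 := by
      apply mul_neg_of_pos_of_neg <;> linarith
    have h5 : 4 * Real.cos v * gb (Real.cos v) ≤ 0 := by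
      apply mul_nonpos_of_nonpos_of_nonneg (by linarith) h2
    linarith


lemma second_deriv_nonpos {f f' : ℝ → ℝ} {d : ℝ} (hf : ∀ t, HasDerivAt f (f' t) t)
    (hf' : HasDerivAt f' d 0) (hmax : IsLocalMax f 0) : f' 0 = 0 ∧ d ≤ 0 := by
  have h0 : f' 0 = 0 := hmax.hasDerivAt_eq_zero (hf 0)
  refine ⟨h0, ?_⟩
  by_contra hd
  push Not at hd
  have e1 : deriv f = f' := funext (fun t => (hf t).deriv)
  have h2 : deriv (deriv f) 0 = d := by rw [e1]; exact hf'.deriv
  have hmin : IsLocalMin f 0 := isLocalMin_of_deriv_deriv_pos (by rw [h2]; exact hd)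
    (by rw [(hf 0).deriv, h0]) (hf 0).continuousAt
  have hc : f =ᶠ[𝓝 0] fun _ => f 0 := by
    filter_upwards [hmax, hmin] with t a b
    exact le_antisymm a b
  have h3 : deriv f =ᶠ[𝓝 0] fun _ => 0 := by
    have := hc.deriv
    refine this.trans ?_
    simp
  have h4 : deriv (deriv f) 0 = 0 := by
    rw [h3.deriv_eq]; simp
  linarith

/-- height function on the Klein bottle -/
noncomputable def hh (z0 z1 z2 z3 θ v : ℝ) : ℝ :=
  AA v * (z0 * Real.cos (2 * θ) + z1 * Real.sin (2 * θ)) +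
    Real.sin v * (z2 * Real.cos θ + z3 * Real.sin θ)

/-- height function on the (projected) Veronese surface -/
noncomputable def hv (z0 z1 z2 z3 θ v : ℝ) : ℝ :=
  (1 + Real.cos v) / 2 * (z0 * Real.cos (2 * θ) + z1 * Real.sin (2 * θ)) +
    Real.sin v * (z2 * Real.cos θ + z3 * Real.sin θ)

lemma inner_zero {A A1 A2 B B1 P S : ℝ} (hB1 : B1 < 0)
    (h1 : A1 * P + B1 * S = 0) (h2 : A2 * P - B * S ≤ 0) (h3 : 0 ≤ 4 * A * P + B * S)
    (hk : 0 < A1 * (-B) - B1 * A2) (hq : 4 * A * B1 - A1 * B < 0) : P = 0 ∧ S = 0 := by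
  have e1 : (A1 * (-B) - B1 * A2) * P = - (B1 * (A2 * P - B * S)) - 0 := by
    linear_combination (-B) * h1
  have e2 : (4 * A * B1 - A1 * B) * P = B1 * (4 * A * P + B * S) := by
    linear_combination (-B) * h1
  have p1 : P ≤ 0 := by
    have : (A1 * (-B) - B1 * A2) * P ≤ 0 := by
      rw [e1]
      have := mul_nonneg_of_nonpos_of_nonpos hB1.le h2
      linarith
    by_contra hP
    push Not at hP
    have := mul_pos hk hP
    linarith
  have p2 : 0 ≤ P := by
    have : (4 * A * B1 - A1 * B) * P ≤ 0 := by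
      rw [e2]
      exact mul_nonpos_of_nonpos_of_nonneg hB1.le h3
    by_contra hP
    push Not at hP
    have := mul_pos_of_neg_of_neg hq hP
    linarith
  have hP : P = 0 := le_antisymm p1 p2
  refine ⟨hP, ?_⟩
  rw [hP] at h1
  have : B1 * S = 0 := by linarith
  rcases mul_eq_zero.1 this with h | h
  · exact absurd h hB1.ne
  · exact h

lemma top_of_hess {c s P Ph S Sh : ℝ} (hcs : c ^ 2 + s ^ 2 = 1) (hc : c ≠ 0)
    (E1 : c * Ph + s * Sh = 0) (E2 : -s * c * P + (c ^ 2 - s ^ 2) * S = 0)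
    (hess : ∀ a b : ℝ, a ^ 2 * (-4 * c ^ 2 * P - 2 * s * c * S)
      + 2 * a * b * (-2 * s * c * Ph + (c ^ 2 - s ^ 2) * Sh)
      + b ^ 2 * (-(c ^ 2 - s ^ 2) / 2 * P - 2 * s * c * S) ≤ 0) (α β γ : ℝ) :
    P * (α ^ 2 - β ^ 2) + 2 * Ph * α * β + 2 * γ * (α * S + β * Sh)
      ≤ (c ^ 2 * P + 2 * s * c * S) * (α ^ 2 + β ^ 2 + γ ^ 2) := by
  have main : ∀ μ g : ℝ,
      P * ((c * μ - s * g) ^ 2 - β ^ 2) + 2 * Ph * (c * μ - s * g) * β
        + 2 * (s * μ + c * g) * ((c * μ - s * g) * S + β * Sh)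
      ≤ (c ^ 2 * P + 2 * s * c * S) * (μ ^ 2 + β ^ 2 + g ^ 2) := by
    intro μ g
    have h := hess β (2 * c * g)
    have key : c ^ 2 * ((c ^ 2 * P + 2 * s * c * S) * (μ ^ 2 + β ^ 2 + g ^ 2) -
        (P * ((c * μ - s * g) ^ 2 - β ^ 2) + 2 * Ph * (c * μ - s * g) * β
        + 2 * (s * μ + c * g) * ((c * μ - s * g) * S + β * Sh))) =
        - (1/2) * (β ^ 2 * (-4 * c ^ 2 * P - 2 * s * c * S)
      + 2 * β * (2 * c * g) * (-2 * s * c * Ph + (c ^ 2 - s ^ 2) * Sh)
      + (2 * c * g) ^ 2 * (-(c ^ 2 - s ^ 2) / 2 * P - 2 * s * c * S)) := by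
      linear_combination (β ^ 2 * s * c - 2 * c ^ 2 * μ * g) * E2
        + (β ^ 2 * (c ^ 2 * P + s * c * S)) * hcs
        + (-2 * s * c * β * g - 2 * c ^ 2 * μ * β) * E1
    have hc2 : 0 < c ^ 2 := by positivity
    by_contra hcon
    push Not at hcon
    have h5 := mul_neg_of_pos_of_neg hc2 (sub_neg.2 hcon)
    rw [key] at h5
    linarith
  have h := main (c * α + s * γ) (-s * α + c * γ)
  have e1 : c * (c * α + s * γ) - s * (-s * α + c * γ) = α := by
    linear_combination α * hcs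
  have e2 : s * (c * α + s * γ) + c * (-s * α + c * γ) = γ := by
    linear_combination γ * hcs
  have e3 : (c * α + s * γ) ^ 2 + β ^ 2 + (-s * α + c * γ) ^ 2 = α ^ 2 + β ^ 2 + γ ^ 2 := by
    linear_combination (α ^ 2 + γ ^ 2) * hcs
  rw [e1, e2, e3] at h
  linarith

lemma line_max {θ0 v0 : ℝ} {F : ℝ → ℝ → ℝ}
    (hmax : IsLocalMax (fun p : ℝ × ℝ => F p.1 p.2) (θ0, v0)) (a b : ℝ) :
    IsLocalMax (fun t : ℝ => F (θ0 + t * a) (v0 + t * b)) 0 := by
  have hcont : ContinuousAt (fun t : ℝ => ((θ0 + t * a, v0 + t * b) : ℝ × ℝ)) 0 := by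
    fun_prop
  have := IsLocalMax.comp_continuous (f := fun p : ℝ × ℝ => F p.1 p.2)
    (g := fun t : ℝ => ((θ0 + t * a, v0 + t * b) : ℝ × ℝ)) (b := 0) (by simpa using hmax) hcont
  exact this


lemma hasDerivAt_lin (x a t : ℝ) : HasDerivAt (fun t : ℝ => x + t * a) a t := by
  simpa using ((hasDerivAt_id t).mul_const a).const_add x

/-- derivative of hv along a line -/
noncomputable def hv1 (z0 z1 z2 z3 a b θ v : ℝ) : ℝ :=
  a * ((1 + Real.cos v) / 2 * (2 * (-z0 * Real.sin (2 * θ) + z1 * Real.cos (2 * θ)))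
    + Real.sin v * (-z2 * Real.sin θ + z3 * Real.cos θ))
  + b * (-(Real.sin v) / 2 * (z0 * Real.cos (2 * θ) + z1 * Real.sin (2 * θ))
    + Real.cos v * (z2 * Real.cos θ + z3 * Real.sin θ))

lemma hasDerivAt_hv (z0 z1 z2 z3 θ0 v0 a b t : ℝ) :
    HasDerivAt (fun t : ℝ => hv z0 z1 z2 z3 (θ0 + t * a) (v0 + t * b))
      (hv1 z0 z1 z2 z3 a b (θ0 + t * a) (v0 + t * b)) t := by
  have hθ := hasDerivAt_lin θ0 a t
  have hv := hasDerivAt_lin v0 b t
  have h2θ : HasDerivAt (fun t : ℝ => 2 * (θ0 + t * a)) (2 * a) t := hθ.const_mul 2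
  have h1 := ((hv.cos.const_add 1).div_const 2).mul ((h2θ.cos.const_mul z0).add (h2θ.sin.const_mul z1))
  have h2 := hv.sin.mul ((hθ.cos.const_mul z2).add (hθ.sin.const_mul z3))
  refine HasDerivAt.congr_deriv (h1.add h2) ?_
  unfold hv1
  simp only [Pi.add_apply]
  ring

lemma hasDerivAt_hv1 (z0 z1 z2 z3 θ0 v0 a b : ℝ) :
    HasDerivAt (fun t : ℝ => hv1 z0 z1 z2 z3 a b (θ0 + t * a) (v0 + t * b))
      (a ^ 2 * (-4 * ((1 + Real.cos v0) / 2) * (z0 * Real.cos (2 * θ0) + z1 * Real.sin (2 * θ0))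
          - Real.sin v0 * (z2 * Real.cos θ0 + z3 * Real.sin θ0))
        + 2 * a * b * (- Real.sin v0 * (-z0 * Real.sin (2 * θ0) + z1 * Real.cos (2 * θ0))
          + Real.cos v0 * (-z2 * Real.sin θ0 + z3 * Real.cos θ0))
        + b ^ 2 * (- Real.cos v0 / 2 * (z0 * Real.cos (2 * θ0) + z1 * Real.sin (2 * θ0))
          - Real.sin v0 * (z2 * Real.cos θ0 + z3 * Real.sin θ0))) 0 := by
  have hθ := hasDerivAt_lin θ0 a 0
  have hv := hasDerivAt_lin v0 b 0
  have h2θ : HasDerivAt (fun t : ℝ => 2 * (θ0 + t * a)) (2 * a) 0 := hθ.const_mul 2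
  have h1 := (((hv.cos.const_add 1).div_const 2).mul (((h2θ.sin.const_mul (-z0)).add
    (h2θ.cos.const_mul z1)).const_mul 2)).add
    (hv.sin.mul ((hθ.sin.const_mul (-z2)).add (hθ.cos.const_mul z3)))
  have h2 := (((hv.sin.neg).div_const 2).mul ((h2θ.cos.const_mul z0).add (h2θ.sin.const_mul z1))).add
    (hv.cos.mul ((hθ.cos.const_mul z2).add (hθ.sin.const_mul z3)))
  have h3 := (h1.const_mul a).add (h2.const_mul b)
  unfold hv1
  refine HasDerivAt.congr_deriv h3 ?_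
  simp only [Pi.add_apply, Pi.neg_apply, zero_mul, add_zero]
  ring

lemma Q_rot {z0 z1 z2 z3 C S x y w : ℝ} (h : C ^ 2 + S ^ 2 = 1) :
    z0 * (x ^ 2 - y ^ 2) + 2 * z1 * x * y + 2 * w * (z2 * x + z3 * y) =
    (z0 * (C ^ 2 - S ^ 2) + z1 * (2 * S * C)) * ((x * C + y * S) ^ 2 - (-x * S + y * C) ^ 2)
    + 2 * (-z0 * (2 * S * C) + z1 * (C ^ 2 - S ^ 2)) * (x * C + y * S) * (-x * S + y * C)
    + 2 * w * ((x * C + y * S) * (z2 * C + z3 * S) + (-x * S + y * C) * (-z2 * S + z3 * C)) := by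
  linear_combination (-(z0 * (x ^ 2 - y ^ 2) + 2 * z1 * x * y) * (C ^ 2 + S ^ 2 + 1)
    - 2 * w * (z2 * x + z3 * y)) * h

/-- a local maximum of the Veronese height function away from the poles is a global top eigenvector -/
lemma outer_top {z0 z1 z2 z3 θ0 v0 : ℝ} (hc : Real.cos v0 ≠ -1)
    (hmax : IsLocalMax (fun p : ℝ × ℝ => hv z0 z1 z2 z3 p.1 p.2) (θ0, v0)) (x y w : ℝ) :
    z0 * (x ^ 2 - y ^ 2) + 2 * z1 * x * y + 2 * w * (z2 * x + z3 * y)
      ≤ hv z0 z1 z2 z3 θ0 v0 * (x ^ 2 + y ^ 2 + w ^ 2) := by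
  set c := Real.cos (v0 / 2) with hcdef
  set s := Real.sin (v0 / 2) with hsdef
  have hcs : c ^ 2 + s ^ 2 = 1 := by rw [hcdef, hsdef]; exact Real.cos_sq_add_sin_sq _
  have hcosv : Real.cos v0 = c ^ 2 - s ^ 2 := by
    have := Real.cos_two_mul' (v0 / 2)
    rw [mul_div_cancel₀ v0 (two_ne_zero)] at this
    exact this
  have hsinv : Real.sin v0 = 2 * s * c := by
    have := Real.sin_two_mul (v0 / 2)
    rw [mul_div_cancel₀ v0 (two_ne_zero)] at this
    exact this
  have hc0 : c ≠ 0 := by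
    intro h
    apply hc
    rw [hcosv]
    rw [h] at hcs ⊢
    linarith
  have hCS : Real.cos θ0 ^ 2 + Real.sin θ0 ^ 2 = 1 := Real.cos_sq_add_sin_sq _
  have hC2 : Real.cos (2 * θ0) = Real.cos θ0 ^ 2 - Real.sin θ0 ^ 2 := Real.cos_two_mul' θ0
  have hS2 : Real.sin (2 * θ0) = 2 * Real.sin θ0 * Real.cos θ0 := Real.sin_two_mul θ0
  have hA : (1 + Real.cos v0) / 2 = c ^ 2 := by rw [hcosv]; linarith
  have hess : ∀ a b : ℝ, hv1 z0 z1 z2 z3 a b θ0 v0 = 0 ∧
      (a ^ 2 * (-4 * ((1 + Real.cos v0) / 2) * (z0 * Real.cos (2 * θ0) + z1 * Real.sin (2 * θ0))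
          - Real.sin v0 * (z2 * Real.cos θ0 + z3 * Real.sin θ0))
        + 2 * a * b * (- Real.sin v0 * (-z0 * Real.sin (2 * θ0) + z1 * Real.cos (2 * θ0))
          + Real.cos v0 * (-z2 * Real.sin θ0 + z3 * Real.cos θ0))
        + b ^ 2 * (- Real.cos v0 / 2 * (z0 * Real.cos (2 * θ0) + z1 * Real.sin (2 * θ0))
          - Real.sin v0 * (z2 * Real.cos θ0 + z3 * Real.sin θ0))) ≤ 0 := by
    intro a b
    have h := second_deriv_nonpos (hasDerivAt_hv z0 z1 z2 z3 θ0 v0 a b)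
      (hasDerivAt_hv1 z0 z1 z2 z3 θ0 v0 a b)
      (line_max (F := hv z0 z1 z2 z3) hmax a b)
    simpa using h
  rw [hC2, hS2] at hess
  set P := z0 * (Real.cos θ0 ^ 2 - Real.sin θ0 ^ 2) + z1 * (2 * Real.sin θ0 * Real.cos θ0) with hP
  set Ph := -z0 * (2 * Real.sin θ0 * Real.cos θ0) + z1 * (Real.cos θ0 ^ 2 - Real.sin θ0 ^ 2) with hPh
  set S := z2 * Real.cos θ0 + z3 * Real.sin θ0 with hS
  set Sh := -z2 * Real.sin θ0 + z3 * Real.cos θ0 with hSh
  have E1 : c * Ph + s * Sh = 0 := by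
    have h := (hess 1 0).1
    unfold hv1 at h
    rw [hC2, hS2, hA, hsinv] at h
    have h' : 2 * c * (c * Ph + s * Sh) = 0 := by linarith
    rcases mul_eq_zero.1 h' with h1 | h1
    · exact absurd h1 (by simpa using hc0)
    · exact h1
  have E2 : -s * c * P + (c ^ 2 - s ^ 2) * S = 0 := by
    have h := (hess 0 1).1
    unfold hv1 at h
    rw [hC2, hS2, hA, hsinv, hcosv] at h
    linarith
  have main := top_of_hess (P := P) (Ph := Ph) (S := S) (Sh := Sh) hcs hc0 E1 E2 (by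
    intro a b
    have h := (hess a b).2
    rw [hA, hsinv, hcosv] at h
    linarith) (x * Real.cos θ0 + y * Real.sin θ0) (-x * Real.sin θ0 + y * Real.cos θ0) w
  rw [Q_rot (z0 := z0) (z1 := z1) (z2 := z2) (z3 := z3) (x := x) (y := y) (w := w) hCS]
  have e1 : hv z0 z1 z2 z3 θ0 v0 = c ^ 2 * P + 2 * s * c * S := by
    unfold hv
    rw [hC2, hS2, hA, hsinv]
  have e2 : (x * Real.cos θ0 + y * Real.sin θ0) ^ 2 + (-x * Real.sin θ0 + y * Real.cos θ0) ^ 2 + w ^ 2
      = x ^ 2 + y ^ 2 + w ^ 2 := by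
    linear_combination (x ^ 2 + y ^ 2) * hCS
  rw [e1, ← e2]
  exact main


lemma local_box {F : ℝ → ℝ → ℝ} {θ0 v0 : ℝ}
    (h : ∀ᶠ p : ℝ × ℝ in 𝓝 (θ0, v0), F p.1 p.2 ≤ 0) :
    ∃ ε : ℝ, 0 < ε ∧ ∀ τ σ : ℝ, |τ| < ε → |σ| < ε → F (θ0 + τ) (v0 + σ) ≤ 0 := by
  rw [Metric.eventually_nhds_iff] at h
  obtain ⟨ε, hε, hball⟩ := h
  refine ⟨ε, hε, ?_⟩
  intro τ σ h1 h2
  have hd : dist ((θ0 + τ, v0 + σ) : ℝ × ℝ) (θ0, v0) < ε := by
    rw [Prod.dist_eq]
    simp only [Real.dist_eq, add_sub_cancel_left]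
    exact max_lt h1 h2
  exact hball hd

/-- no local maximum of a nonzero height function in the inner region -/
lemma inner_none {z0 z1 z2 z3 θ0 v0 : ℝ} (hc : Real.cos v0 ≤ -1/2)
    (hmax : IsLocalMax (fun p : ℝ × ℝ => hh z0 z1 z2 z3 p.1 p.2) (θ0, v0)) :
    z0 = 0 ∧ z1 = 0 ∧ z2 = 0 ∧ z3 = 0 := by
  set P := z0 * Real.cos (2 * θ0) + z1 * Real.sin (2 * θ0) with hP
  set Ph := -z0 * Real.sin (2 * θ0) + z1 * Real.cos (2 * θ0) with hPh
  set S := z2 * Real.cos θ0 + z3 * Real.sin θ0 with hS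
  set Sh := -z2 * Real.sin θ0 + z3 * Real.cos θ0 with hSh
  have hCS : Real.cos θ0 ^ 2 + Real.sin θ0 ^ 2 = 1 := Real.cos_sq_add_sin_sq _
  have hCS2 : Real.cos (2 * θ0) ^ 2 + Real.sin (2 * θ0) ^ 2 = 1 := Real.cos_sq_add_sin_sq _
  -- expansion
  have hexp : ∀ τ v : ℝ, hh z0 z1 z2 z3 (θ0 + τ) v =
      AA v * (P * Real.cos (2 * τ) + Ph * Real.sin (2 * τ))
        + Real.sin v * (S * Real.cos τ + Sh * Real.sin τ) := by
    intro τ v
    unfold hh
    have e : 2 * (θ0 + τ) = 2 * θ0 + 2 * τ := by ring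
    rw [e, Real.cos_add, Real.sin_add, Real.cos_add, Real.sin_add, hP, hPh, hS, hSh]
    ring
  -- v-direction
  have hv := second_deriv_nonpos (f := fun t => hh z0 z1 z2 z3 (θ0 + t * 0) (v0 + t * 1))
    (f' := fun t => AA1 (v0 + t * 1) * P + Real.cos (v0 + t * 1) * S)
    (d := AA2 v0 * P - Real.sin v0 * S) (by
      intro t
      have hl := hasDerivAt_lin v0 1 t
      have h1 := ((hasDerivAt_AA (v0 + t * 1)).comp t hl).mul_const P
      have h2 := hl.sin.mul_const S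
      have h3 := h1.add h2
      refine (h3.congr_deriv ?_).congr_of_eventuallyEq ?_
      · ring
      · refine Filter.Eventually.of_forall (fun t => ?_)
        simp only [hh, mul_zero, add_zero, Function.comp, Pi.add_apply, hP, hS]) (by
      have hl := hasDerivAt_lin v0 1 0
      have h1 := ((hasDerivAt_AA1 (v0 + 0 * 1)).comp 0 hl).mul_const P
      have h2 := hl.cos.mul_const S
      refine (h1.add h2).congr_deriv ?_
      simp only [zero_mul, add_zero]
      ring) (line_max (F := hh z0 z1 z2 z3) hmax 0 1)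
  -- θ-direction
  have hθ := second_deriv_nonpos (f := fun t => hh z0 z1 z2 z3 (θ0 + t * 1) (v0 + t * 0))
    (f' := fun t => AA v0 * (2 * (-P * Real.sin (2 * t) + Ph * Real.cos (2 * t)))
        + Real.sin v0 * (-S * Real.sin t + Sh * Real.cos t))
    (d := -(4 * AA v0 * P + Real.sin v0 * S)) (by
      intro t
      have hl : HasDerivAt (fun t : ℝ => 2 * t) 2 t := by simpa using (hasDerivAt_id t).const_mul 2
      have hl1 : HasDerivAt (fun t : ℝ => t) 1 t := hasDerivAt_id t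
      have h1 := (((hl.cos.const_mul P).add (hl.sin.const_mul Ph)).const_mul (AA v0)).add
        (((hl1.cos.const_mul S).add (hl1.sin.const_mul Sh)).const_mul (Real.sin v0))
      refine (h1.congr_deriv ?_).congr_of_eventuallyEq ?_
      · ring
      · refine Filter.Eventually.of_forall (fun t => ?_)
        simp only [Pi.add_apply, mul_one, mul_zero, add_zero]
        rw [hexp]) (by
      have hl : HasDerivAt (fun t : ℝ => 2 * t) 2 0 := by simpa using (hasDerivAt_id (0:ℝ)).const_mul 2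
      have hl1 : HasDerivAt (fun t : ℝ => t) 1 0 := hasDerivAt_id 0
      have h1 := ((((hl.sin.const_mul (-P)).add (hl.cos.const_mul Ph)).const_mul 2).const_mul (AA v0)).add
        (((hl1.sin.const_mul (-S)).add (hl1.cos.const_mul Sh)).const_mul (Real.sin v0))
      refine h1.congr_deriv ?_
      simp
      ring) (line_max (F := hh z0 z1 z2 z3) hmax 1 0)
  have hz := inner_zero (A := AA v0) (A1 := AA1 v0) (A2 := AA2 v0) (B := Real.sin v0)
    (B1 := Real.cos v0) (P := P) (S := S) (by linarith) (by simpa using hv.1) hv.2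
    (by linarith [hθ.2]) (kappa_pos hc) (qq_neg hc)
  obtain ⟨hP0, hS0⟩ := hz
  -- oddness
  have hodd : ∀ τ v : ℝ, hh z0 z1 z2 z3 (θ0 + τ) v =
      Real.sin τ * (2 * AA v * Ph * Real.cos τ + Real.sin v * Sh) := by
    intro τ v
    rw [hexp, hP0, hS0, Real.sin_two_mul]
    ring
  have h00 : hh z0 z1 z2 z3 θ0 v0 = 0 := by
    have := hodd 0 v0
    simpa using this
  have hmax' : ∀ᶠ p : ℝ × ℝ in 𝓝 (θ0, v0), hh z0 z1 z2 z3 p.1 p.2 ≤ 0 := by
    have : ∀ᶠ p : ℝ × ℝ in 𝓝 (θ0, v0), hh z0 z1 z2 z3 p.1 p.2 ≤ hh z0 z1 z2 z3 θ0 v0 := hmax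
    rw [h00] at this
    exact this
  obtain ⟨ε, hε, hb⟩ := local_box hmax'
  set δ := min (ε / 2) 1 with hδ
  have hδ0 : 0 < δ := lt_min (by linarith) one_pos
  have hδε : δ < ε := lt_of_le_of_lt (min_le_left _ _) (by linarith)
  have hδ1 : δ ≤ 1 := min_le_right _ _
  have hval : ∀ τ σ : ℝ, 0 < τ → τ ≤ δ → |σ| < ε →
      2 * AA (v0 + σ) * Ph * Real.cos τ + Real.sin (v0 + σ) * Sh = 0 := by
    intro τ σ h1 h2 h3
    have hsin : 0 < Real.sin τ := Real.sin_pos_of_pos_of_lt_pi h1 (by linarith [Real.pi_gt_three])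
    have a1 := hb τ σ (by rw [abs_of_pos h1]; linarith) h3
    have a2 := hb (-τ) σ (by rw [abs_neg, abs_of_pos h1]; linarith) h3
    rw [hodd] at a1 a2
    rw [Real.sin_neg, Real.cos_neg] at a2
    have b1 : Real.sin τ * (2 * AA (v0 + σ) * Ph * Real.cos τ + Real.sin (v0 + σ) * Sh) = 0 :=
      le_antisymm a1 (by linarith)
    rcases mul_eq_zero.1 b1 with h | h
    · exact absurd h hsin.ne'
    · exact h
  have k1 := hval δ 0 hδ0 le_rfl (by simpa using hε)
  have k2 := hval (δ / 2) 0 (by linarith) (by linarith) (by simpa using hε)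
  have hcoslt : Real.cos δ < Real.cos (δ / 2) := by
    apply Real.cos_lt_cos_of_nonneg_of_le_pi (by linarith) (by linarith [Real.pi_gt_three]) (by linarith)
  have hPh0 : Ph = 0 := by
    have h1 : AA (v0 + 0) * Ph * (Real.cos (δ / 2) - Real.cos δ) = 0 := by linarith
    have h2 : (Real.cos (δ / 2) - Real.cos δ) ≠ 0 := (sub_pos.2 hcoslt).ne'
    have h3 : AA (v0 + 0) ≠ 0 := (AA_pos _).ne'
    have h4 := (mul_eq_zero.1 h1).resolve_right h2
    exact (mul_eq_zero.1 h4).resolve_left h3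
  have hSh0 : Sh = 0 := by
    have k3 := hval δ (δ) hδ0 le_rfl (by rw [abs_of_pos hδ0]; exact hδε)
    rw [hPh0] at k1 k3
    by_contra hne
    have s1 : Real.sin v0 = 0 := by
      have : Real.sin v0 * Sh = 0 := by simpa using k1
      exact (mul_eq_zero.1 this).resolve_right hne
    have s2 : Real.sin (v0 + δ) = 0 := by
      have : Real.sin (v0 + δ) * Sh = 0 := by simpa using k3
      exact (mul_eq_zero.1 this).resolve_right hne
    rw [Real.sin_add, s1, zero_mul, zero_add] at s2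
    have hsin : 0 < Real.sin δ := Real.sin_pos_of_pos_of_lt_pi hδ0 (by linarith [Real.pi_gt_three])
    rcases mul_eq_zero.1 s2 with h | h
    · rw [h] at hc; norm_num at hc
    · exact hsin.ne' h
  refine ⟨?_, ?_, ?_, ?_⟩
  · linear_combination Real.cos (2 * θ0) * (hP.symm.trans hP0) - Real.sin (2 * θ0) * (hPh.symm.trans hPh0) - z0 * hCS2
  · linear_combination Real.sin (2 * θ0) * (hP.symm.trans hP0) + Real.cos (2 * θ0) * (hPh.symm.trans hPh0) - z1 * hCS2
  · linear_combination Real.cos θ0 * (hS.symm.trans hS0) - Real.sin θ0 * (hSh.symm.trans hSh0) - z2 * hCS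
  · linear_combination Real.sin θ0 * (hS.symm.trans hS0) + Real.cos θ0 * (hSh.symm.trans hSh0) - z3 * hCS


lemma contDiff_hh' (z0 z1 z2 z3 : ℝ) : Continuous (fun p : ℝ × ℝ => hh z0 z1 z2 z3 p.1 p.2) := by
  unfold hh
  have := contDiff_AA.continuous
  fun_prop

lemma locmax_top {z0 z1 z2 z3 θ0 v0 : ℝ} (hz : ¬ (z0 = 0 ∧ z1 = 0 ∧ z2 = 0 ∧ z3 = 0))
    (hmax : IsLocalMax (fun p : ℝ × ℝ => hh z0 z1 z2 z3 p.1 p.2) (θ0, v0)) :
    -1/2 < Real.cos v0 ∧ ∀ x y w : ℝ,
      z0 * (x ^ 2 - y ^ 2) + 2 * z1 * x * y + 2 * w * (z2 * x + z3 * y)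
      ≤ hh z0 z1 z2 z3 θ0 v0 * (x ^ 2 + y ^ 2 + w ^ 2) := by
  have hc : -1/2 < Real.cos v0 := by
    by_contra h
    push Not at h
    exact hz (inner_none h hmax)
  refine ⟨hc, ?_⟩
  have hev : (fun p : ℝ × ℝ => hh z0 z1 z2 z3 p.1 p.2) =ᶠ[𝓝 (θ0, v0)]
      (fun p : ℝ × ℝ => hv z0 z1 z2 z3 p.1 p.2) := by
    have hcont : ContinuousAt (fun p : ℝ × ℝ => Real.cos p.2) (θ0, v0) := by fun_prop
    filter_upwards [hcont.eventually (lt_mem_nhds hc)] with p hp
    unfold hh hv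
    rw [AA_outer (le_of_lt hp)]
  have hmax2 : IsLocalMax (fun p : ℝ × ℝ => hv z0 z1 z2 z3 p.1 p.2) (θ0, v0) :=
    hmax.congr hev
  have heq : hh z0 z1 z2 z3 θ0 v0 = hv z0 z1 z2 z3 θ0 v0 := hev.self_of_nhds
  rw [heq]
  intro x y w
  exact outer_top (by linarith) hmax2 x y w

lemma lam_pos {z0 z1 z2 z3 lam : ℝ} (hz : ¬ (z0 = 0 ∧ z1 = 0 ∧ z2 = 0 ∧ z3 = 0))
    (hT : ∀ x y w : ℝ, z0 * (x ^ 2 - y ^ 2) + 2 * z1 * x * y + 2 * w * (z2 * x + z3 * y)
      ≤ lam * (x ^ 2 + y ^ 2 + w ^ 2)) : 0 < lam := by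
  have h0 : 0 ≤ lam := by have := hT 0 0 1; linarith
  rcases h0.lt_or_eq with h | h
  · exact h
  · exfalso
    rw [← h] at hT
    apply hz
    have a1 := hT 1 0 0
    have a2 := hT 0 1 0
    have a3 := hT 1 1 0
    have a4 := hT 1 (-1) 0
    have b0 : z0 = 0 := by linarith
    have b1 : z1 = 0 := by linarith
    have a5 := hT 1 0 1
    have a6 := hT 1 0 (-1)
    have a7 := hT 0 1 1
    have a8 := hT 0 1 (-1)
    exact ⟨b0, b1, by linarith, by linarith⟩

lemma S_sq_le {z0 z1 z2 z3 lam : ℝ} (hl : 0 < lam)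
    (hT : ∀ x y w : ℝ, z0 * (x ^ 2 - y ^ 2) + 2 * z1 * x * y + 2 * w * (z2 * x + z3 * y)
      ≤ lam * (x ^ 2 + y ^ 2 + w ^ 2)) (θ : ℝ) :
    lam * (z0 * Real.cos (2 * θ) + z1 * Real.sin (2 * θ)) +
      (z2 * Real.cos θ + z3 * Real.sin θ) ^ 2 - lam ^ 2 ≤ 0 := by
  have h := hT (lam * Real.cos θ) (lam * Real.sin θ) (z2 * Real.cos θ + z3 * Real.sin θ)
  have hCS : Real.cos θ ^ 2 + Real.sin θ ^ 2 = 1 := Real.cos_sq_add_sin_sq _
  have hC2 : Real.cos (2 * θ) = Real.cos θ ^ 2 - Real.sin θ ^ 2 := Real.cos_two_mul' θ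
  have hS2 : Real.sin (2 * θ) = 2 * Real.sin θ * Real.cos θ := Real.sin_two_mul θ
  rw [hC2, hS2]
  set C := Real.cos θ
  set S := Real.sin θ
  have key : lam * (lam * (z0 * (C ^ 2 - S ^ 2) + z1 * (2 * S * C)) + (z2 * C + z3 * S) ^ 2 - lam ^ 2) =
      (z0 * ((lam * C) ^ 2 - (lam * S) ^ 2) + 2 * z1 * (lam * C) * (lam * S) +
      2 * (z2 * C + z3 * S) * (z2 * (lam * C) + z3 * (lam * S))) -
       lam * ((lam * C) ^ 2 + (lam * S) ^ 2 + (z2 * C + z3 * S) ^ 2) := by
    linear_combination (lam ^ 3) * hCS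
  by_contra hcon
  push Not at hcon
  have := mul_pos hl hcon
  rw [key] at this
  linarith

lemma at_max {z0 z1 z2 z3 lam θ v : ℝ} (hl : 0 < lam) (hv0 : -1/2 < Real.cos v)
    (hT : ∀ x y w : ℝ, z0 * (x ^ 2 - y ^ 2) + 2 * z1 * x * y + 2 * w * (z2 * x + z3 * y)
      ≤ lam * (x ^ 2 + y ^ 2 + w ^ 2)) (heq : hh z0 z1 z2 z3 θ v = lam) :
    lam * Real.sin (v / 2) = (z2 * Real.cos θ + z3 * Real.sin θ) * Real.cos (v / 2) ∧
    lam * (z0 * Real.cos (2 * θ) + z1 * Real.sin (2 * θ)) +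
      (z2 * Real.cos θ + z3 * Real.sin θ) ^ 2 - lam ^ 2 = 0 := by
  have h1 := S_sq_le hl hT θ
  set P := z0 * Real.cos (2 * θ) + z1 * Real.sin (2 * θ) with hP
  set S := z2 * Real.cos θ + z3 * Real.sin θ with hS
  set c := Real.cos (v / 2) with hcdef
  set s := Real.sin (v / 2) with hsdef
  have hcs : c ^ 2 + s ^ 2 = 1 := by rw [hcdef, hsdef]; exact Real.cos_sq_add_sin_sq _
  have hcosv : Real.cos v = c ^ 2 - s ^ 2 := by
    have := Real.cos_two_mul' (v / 2)
    rw [mul_div_cancel₀ v (two_ne_zero)] at this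
    exact this
  have hsinv : Real.sin v = 2 * s * c := by
    have := Real.sin_two_mul (v / 2)
    rw [mul_div_cancel₀ v (two_ne_zero)] at this
    exact this
  have hc0 : c ≠ 0 := by
    intro h
    rw [hcosv] at hv0
    rw [h] at hcs hv0
    nlinarith
  have hA : AA v = c ^ 2 := by
    rw [AA_outer hv0.le, hcosv]; linarith
  have hlam : lam = c ^ 2 * P + 2 * s * c * S := by
    rw [← heq]; unfold hh; rw [hA, hsinv]
  have hc2 : 0 < c ^ 2 := by positivity
  have e : (lam * s - S * c) ^ 2 + (-(lam * P + S ^ 2 - lam ^ 2)) * c ^ 2 = 0 := by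
    linear_combination (lam ^ 2) * hcs + lam * hlam
  have n1 : 0 ≤ (-(lam * P + S ^ 2 - lam ^ 2)) * c ^ 2 := by
    apply mul_nonneg (by linarith) hc2.le
  have n2 : 0 ≤ (lam * s - S * c) ^ 2 := sq_nonneg _
  constructor
  · have : (lam * s - S * c) ^ 2 = 0 := by linarith
    have := pow_eq_zero_iff (two_ne_zero) |>.1 this
    linarith
  · have : (-(lam * P + S ^ 2 - lam ^ 2)) * c ^ 2 = 0 := by linarith
    rcases mul_eq_zero.1 this with h | h
    · linarith
    · exact absurd h hc2.ne'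

/-- a nonpositive trigonometric polynomial of degree one with two different zeros vanishes -/
lemma trig_zero {a b d φ1 φ2 : ℝ} (hle : ∀ φ, a + b * Real.cos φ + d * Real.sin φ ≤ 0)
    (h1 : a + b * Real.cos φ1 + d * Real.sin φ1 = 0)
    (h2 : a + b * Real.cos φ2 + d * Real.sin φ2 = 0)
    (hne : Real.sin ((φ1 - φ2) / 2) ≠ 0) : a = 0 ∧ b = 0 ∧ d = 0 := by
  set m := (φ1 + φ2) / 2 with hm
  set η := (φ1 - φ2) / 2 with hη
  have e1 : φ1 = m + η := by rw [hm, hη]; ring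
  have e2 : φ2 = m - η := by rw [hm, hη]; ring
  rw [e1, Real.cos_add, Real.sin_add] at h1
  rw [e2, Real.cos_sub, Real.sin_sub] at h2
  have hmm : Real.cos m ^ 2 + Real.sin m ^ 2 = 1 := Real.cos_sq_add_sin_sq _
  have hee : Real.cos η ^ 2 + Real.sin η ^ 2 = 1 := Real.cos_sq_add_sin_sq _
  have k1 := hle m
  have k2 := hle (m + π)
  rw [Real.cos_add_pi, Real.sin_add_pi] at k2
  set M := b * Real.cos m + d * Real.sin m with hM
  have hN : Real.sin η * (d * Real.cos m - b * Real.sin m) = 0 := by linarith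
  have hN' : d * Real.cos m - b * Real.sin m = 0 := (mul_eq_zero.1 hN).resolve_left hne
  have ha : a = - M * Real.cos η := by rw [hM]; linarith
  have hpos : 0 < Real.sin η ^ 2 := by positivity
  have hc1 : Real.cos η < 1 := by nlinarith [Real.cos_le_one η]
  have hc2 : -1 < Real.cos η := by nlinarith [Real.neg_one_le_cos η]
  have m1 : M * (1 - Real.cos η) ≤ 0 := by linarith
  have m2 : 0 ≤ M * (1 + Real.cos η) := by linarith
  have M0 : M = 0 := by
    apply le_antisymm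
    · by_contra h; push Not at h
      have := mul_pos h (sub_pos.2 hc1); linarith
    · by_contra h; push Not at h
      have := mul_neg_of_neg_of_pos h (by linarith : 0 < 1 + Real.cos η); linarith
  have a0 : a = 0 := by rw [ha, M0]; ring
  refine ⟨a0, ?_, ?_⟩
  · linear_combination Real.cos m * (hM.symm.trans M0) - Real.sin m * hN' - b * hmm
  · linear_combination Real.sin m * (hM.symm.trans M0) + Real.cos m * hN' - d * hmm


/-- attaining the maximum on a doubly periodic open piece -/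
lemma exists_max {h : ℝ × ℝ → ℝ} (hcont : Continuous h) {c : ℝ} {U W : Set (ℝ × ℝ)}
    (hW : IsOpen W) (hU : IsOpen U) (hd : Disjoint U W) (hUW : U ∪ W = {p | c < h p})
    (p1 : ∀ θ v, h (θ + 2 * π, v) = h (θ, v)) (p2 : ∀ θ v, h (θ, v + 2 * π) = h (θ, v))
    (u1 : ∀ θ v, ((θ + 2 * π, v) ∈ U) = ((θ, v) ∈ U)) (u2 : ∀ θ v, ((θ, v + 2 * π) ∈ U) = ((θ, v) ∈ U))
    (hne : U.Nonempty) : ∃ p ∈ U, IsLocalMax h p := by
  have hpi : 0 < 2 * π := by positivity
  -- reduction to the fundamental domain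
  have hred : ∀ q ∈ U, ∃ q' ∈ U ∩ (Icc 0 (2 * π) ×ˢ Icc 0 (2 * π)), h q' = h q := by
    rintro ⟨θ, v⟩ hq
    have per1 : Function.Periodic (fun θ : ℝ => (((θ, v) ∈ U : Prop), h (θ, v))) (2 * π) := by
      intro x
      simp only [u1, p1]
    obtain ⟨θ', hθ', e1⟩ := per1.exists_mem_Ico₀ hpi θ
    have e1a : ((θ, v) ∈ U) = ((θ', v) ∈ U) := congrArg Prod.fst e1
    have e1b : h (θ, v) = h (θ', v) := congrArg Prod.snd e1
    have per2 : Function.Periodic (fun v : ℝ => (((θ', v) ∈ U : Prop), h (θ', v))) (2 * π) := by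
      intro x
      simp only [u2, p2]
    obtain ⟨v', hv', e2⟩ := per2.exists_mem_Ico₀ hpi v
    have e2a : ((θ', v) ∈ U) = ((θ', v') ∈ U) := congrArg Prod.fst e2
    have e2b : h (θ', v) = h (θ', v') := congrArg Prod.snd e2
    refine ⟨(θ', v'), ⟨?_, ?_⟩, ?_⟩
    · rw [← e2a, ← e1a]; exact hq
    · exact ⟨Ico_subset_Icc_self hθ', Ico_subset_Icc_self hv'⟩
    · rw [e1b, e2b]
  obtain ⟨u, hu⟩ := hne
  obtain ⟨u', hu', hu'e⟩ := hred u hu
  have hK : IsCompact (closure U ∩ (Icc 0 (2 * π) ×ˢ Icc 0 (2 * π))) :=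
    (isCompact_Icc.prod isCompact_Icc).inter_left isClosed_closure
  obtain ⟨p, hpC, hpmax⟩ := hK.exists_isMaxOn ⟨u', subset_closure hu'.1, hu'.2⟩ hcont.continuousOn
  have hcU : ∀ q ∈ U, c < h q := by
    intro q hq
    have : q ∈ U ∪ W := Or.inl hq
    rw [hUW] at this
    exact this
  have hpc : c < h p := lt_of_lt_of_le (hcU u' hu'.1) (hpmax ⟨subset_closure hu'.1, hu'.2⟩)
  have hpU : p ∈ U := by
    have : p ∈ U ∪ W := by rw [hUW]; exact hpc
    rcases this with h1 | h1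
    · exact h1
    · exfalso
      have := mem_closure_iff.1 hpC.1 W hW h1
      obtain ⟨x, hx1, hx2⟩ := this
      exact Set.disjoint_left.1 hd hx2 hx1
  refine ⟨p, hpU, ?_⟩
  filter_upwards [hU.mem_nhds hpU] with q hq
  obtain ⟨q', hq', hqe⟩ := hred q hq
  rw [← hqe]
  exact hpmax ⟨subset_closure hq'.1, hq'.2⟩

lemma hh_sym (z0 z1 z2 z3 θ v : ℝ) : hh z0 z1 z2 z3 (θ + π) (-v) = hh z0 z1 z2 z3 θ v := by
  unfold hh
  have e : 2 * (θ + π) = 2 * θ + 2 * π := by ring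
  rw [AA_neg, e, Real.cos_add_two_pi, Real.sin_add_two_pi, Real.sin_neg, Real.cos_add_pi,
    Real.sin_add_pi]
  ring

lemma hh_per (z0 z1 z2 z3 θ v : ℝ) : hh z0 z1 z2 z3 θ (v + 2 * π) = hh z0 z1 z2 z3 θ v := by
  unfold hh
  rw [AA_periodic, Real.sin_add_two_pi]

theorem key {z0 z1 z2 z3 c : ℝ} {U W : Set (ℝ × ℝ)} (hU : IsOpen U) (hW : IsOpen W)
    (iU : ∀ θ v : ℝ, (((θ, v) ∈ U) ↔ ((θ + π, -v) ∈ U)) ∧ (((θ, v) ∈ U) ↔ ((θ, v + 2 * π) ∈ U)))
    (iW : ∀ θ v : ℝ, (((θ, v) ∈ W) ↔ ((θ + π, -v) ∈ W)) ∧ (((θ, v) ∈ W) ↔ ((θ, v + 2 * π) ∈ W)))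
    (hd : Disjoint U W) (hUW : U ∪ W = {p | c < hh z0 z1 z2 z3 p.1 p.2}) : U = ∅ ∨ W = ∅ := by
  by_contra hcon
  push Not at hcon
  obtain ⟨hUne', hWne'⟩ := hcon
  by_cases hz : z0 = 0 ∧ z1 = 0 ∧ z2 = 0 ∧ z3 = 0
  · -- trivial height function
    obtain ⟨a0, a1, a2, a3⟩ := hz
    have hzero : ∀ p : ℝ × ℝ, hh z0 z1 z2 z3 p.1 p.2 = 0 := by
      intro p; unfold hh; rw [a0, a1, a2, a3]; ring
    have huniv : U ∪ W = univ := by
      obtain ⟨u, hu⟩ := hUne'
      have h1 : u ∈ U ∪ W := Or.inl hu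
      rw [hUW] at h1
      have h2 : c < 0 := by
        have : c < hh z0 z1 z2 z3 u.1 u.2 := h1
        rw [hzero] at this
        exact this
      rw [hUW]
      ext p
      simp only [Set.mem_ofPred_eq, mem_univ, iff_true]
      rw [hzero]; exact h2
    have hpre := isPreconnected_univ (α := ℝ × ℝ)
    obtain ⟨x, hx⟩ := hpre U W hU hW (by rw [huniv]) (by simpa using hUne') (by simpa using hWne')
    exact Set.disjoint_left.1 hd hx.2.1 hx.2.2
  · -- the main case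
    have hcont := contDiff_hh' z0 z1 z2 z3
    have p1 : ∀ θ v : ℝ, (fun p : ℝ × ℝ => hh z0 z1 z2 z3 p.1 p.2) (θ + 2 * π, v) =
        (fun p : ℝ × ℝ => hh z0 z1 z2 z3 p.1 p.2) (θ, v) := by
      intro θ v
      have e1 := hh_sym z0 z1 z2 z3 (θ + π) (-v)
      rw [hh_sym z0 z1 z2 z3 θ v, neg_neg] at e1
      have e2 : θ + π + π = θ + 2 * π := by ring
      rw [e2] at e1
      exact e1
    have p2 : ∀ θ v : ℝ, (fun p : ℝ × ℝ => hh z0 z1 z2 z3 p.1 p.2) (θ, v + 2 * π) =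
        (fun p : ℝ × ℝ => hh z0 z1 z2 z3 p.1 p.2) (θ, v) := fun θ v => hh_per z0 z1 z2 z3 θ v
    have perθ : ∀ {V : Set (ℝ × ℝ)}, (∀ θ v : ℝ, (((θ, v) ∈ V) ↔ ((θ + π, -v) ∈ V)) ∧
        (((θ, v) ∈ V) ↔ ((θ, v + 2 * π) ∈ V))) → ∀ θ v : ℝ, ((θ + 2 * π, v) ∈ V) = ((θ, v) ∈ V) := by
      intro V iV θ v
      have e1 := (iV θ v).1
      have e2 := (iV (θ + π) (-v)).1
      rw [neg_neg] at e2
      have e3 : θ + π + π = θ + 2 * π := by ring
      rw [e3] at e2
      exact propext (e2.symm.trans e1.symm)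
    have perv : ∀ {V : Set (ℝ × ℝ)}, (∀ θ v : ℝ, (((θ, v) ∈ V) ↔ ((θ + π, -v) ∈ V)) ∧
        (((θ, v) ∈ V) ↔ ((θ, v + 2 * π) ∈ V))) → ∀ θ v : ℝ, ((θ, v + 2 * π) ∈ V) = ((θ, v) ∈ V) := by
      intro V iV θ v
      exact propext ((iV θ v).2.symm)
    obtain ⟨⟨θp, vp⟩, hpU, hpmax⟩ := exists_max hcont hW hU hd hUW p1 p2 (perθ iU) (perv iU) hUne'
    obtain ⟨⟨θq, vq⟩, hqW, hqmax⟩ := exists_max hcont hU hW hd.symm (by rw [union_comm]; exact hUW)
      p1 p2 (perθ iW) (perv iW) hWne'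
    obtain ⟨cp, Tp⟩ := locmax_top hz hpmax
    obtain ⟨cq, Tq⟩ := locmax_top hz hqmax
    -- the values agree
    have hQ : ∀ θ v : ℝ, -1/2 < Real.cos v → hh z0 z1 z2 z3 θ v =
        z0 * ((Real.cos (v/2) * Real.cos θ) ^ 2 - (Real.cos (v/2) * Real.sin θ) ^ 2)
        + 2 * z1 * (Real.cos (v/2) * Real.cos θ) * (Real.cos (v/2) * Real.sin θ)
        + 2 * Real.sin (v/2) * (z2 * (Real.cos (v/2) * Real.cos θ) + z3 * (Real.cos (v/2) * Real.sin θ)) := by
      intro θ v hv0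
      have hcosv : Real.cos v = 2 * Real.cos (v/2) ^ 2 - 1 := by
        have := Real.cos_two_mul (v / 2)
        rw [mul_div_cancel₀ v (two_ne_zero)] at this
        exact this
      have hsinv : Real.sin v = 2 * Real.sin (v/2) * Real.cos (v/2) := by
        have := Real.sin_two_mul (v / 2)
        rw [mul_div_cancel₀ v (two_ne_zero)] at this
        exact this
      unfold hh
      rw [AA_outer hv0.le, hcosv, hsinv, Real.cos_two_mul', Real.sin_two_mul]
      ring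
    have hnorm : ∀ θ v : ℝ, (Real.cos (v/2) * Real.cos θ) ^ 2 + (Real.cos (v/2) * Real.sin θ) ^ 2
        + Real.sin (v/2) ^ 2 = 1 := by
      intro θ v
      have h1 : Real.cos θ ^ 2 + Real.sin θ ^ 2 = 1 := Real.cos_sq_add_sin_sq _
      have h2 : Real.cos (v/2) ^ 2 + Real.sin (v/2) ^ 2 = 1 := Real.cos_sq_add_sin_sq _
      linear_combination Real.cos (v/2) ^ 2 * h1 + h2
    have hpq : hh z0 z1 z2 z3 θp vp ≤ hh z0 z1 z2 z3 θq vq := by
      have := Tq (Real.cos (vp/2) * Real.cos θp) (Real.cos (vp/2) * Real.sin θp) (Real.sin (vp/2))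
      rw [hnorm, mul_one] at this
      rw [hQ θp vp cp]
      exact this
    have hqp : hh z0 z1 z2 z3 θq vq ≤ hh z0 z1 z2 z3 θp vp := by
      have := Tp (Real.cos (vq/2) * Real.cos θq) (Real.cos (vq/2) * Real.sin θq) (Real.sin (vq/2))
      rw [hnorm, mul_one] at this
      rw [hQ θq vq cq]
      exact this
    set lam := hh z0 z1 z2 z3 θp vp with hlam
    have hlq : hh z0 z1 z2 z3 θq vq = lam := le_antisymm hqp hpq
    have lpos := lam_pos hz Tp
    obtain ⟨ep, fp⟩ := at_max lpos cp Tp hlam.symm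
    obtain ⟨eq, fq⟩ := at_max lpos cq Tp hlq
    -- the curve
    set t : ℝ → ℝ := fun θ => (z2 * Real.cos θ + z3 * Real.sin θ) / lam with ht
    set Γ : ℝ → ℝ × ℝ := fun θ => (θ, 2 * Real.arctan (t θ)) with hΓ
    have hΓc : Continuous Γ := by
      rw [hΓ, ht]
      have := Real.continuous_arctan
      fun_prop
    have tpi : ∀ θ, t (θ + π) = - t θ := by
      intro θ
      simp only [ht, Real.cos_add_pi, Real.sin_add_pi]
      ring
    -- every maximum point is equivalent to a point on the curve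
    have hon : ∀ {V : Set (ℝ × ℝ)}, (∀ θ v : ℝ, (((θ, v) ∈ V) ↔ ((θ + π, -v) ∈ V)) ∧
        (((θ, v) ∈ V) ↔ ((θ, v + 2 * π) ∈ V))) → ∀ θ v : ℝ,
        lam * Real.sin (v / 2) = (z2 * Real.cos θ + z3 * Real.sin θ) * Real.cos (v / 2) →
        (θ, v) ∈ V → Γ θ ∈ V := by
      intro V iV θ v he hmem
      have h1 : Real.sin (v / 2 - Real.arctan (t θ)) = 0 := by
        have h2 : Real.sin (Real.arctan (t θ)) = t θ * Real.cos (Real.arctan (t θ)) := by
          have h3 := Real.tan_arctan (t θ)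
          rw [Real.tan_eq_sin_div_cos] at h3
          have h4 : Real.cos (Real.arctan (t θ)) ≠ 0 := (Real.cos_arctan_pos _).ne'
          field_simp at h3
          linarith
        rw [Real.sin_sub, h2]
        have h5 : Real.sin (v / 2) = t θ * Real.cos (v / 2) := by
          simp only [ht]
          field_simp
          linarith
        rw [h5]; ring
      obtain ⟨n, hn⟩ := Real.sin_eq_zero_iff.1 h1
      have per : Function.Periodic (fun v : ℝ => ((θ, v) ∈ V : Prop)) (2 * π) := by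
        intro x
        exact perv iV θ x
      have h6 := per.int_mul n (2 * Real.arctan (t θ))
      have h7 : 2 * Real.arctan (t θ) + n * (2 * π) = v := by linarith
      rw [h7] at h6
      have h8 : ((θ, v) ∈ V) = ((θ, 2 * Real.arctan (t θ)) ∈ V) := h6
      rw [h8] at hmem
      exact hmem
    have hpΓ : Γ θp ∈ U := hon iU θp vp ep hpU
    have hqΓ : Γ θq ∈ W := hon iW θq vq eq hqW
    by_cases hs : Real.sin (θq - θp) = 0
    · -- same meridian
      obtain ⟨n, hn⟩ := Real.sin_eq_zero_iff.1 hs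
      have per : Function.Periodic (fun θ : ℝ => (Γ θ ∈ U : Prop)) π := by
        intro x
        have h1 : Γ (x + π) = ((Γ x).1 + π, -(Γ x).2) := by
          simp only [hΓ, tpi, Real.arctan_neg]
          ext <;> simp
        show (Γ (x + π) ∈ U) = (Γ x ∈ U)
        rw [h1]
        exact propext ((iU (Γ x).1 (Γ x).2).1.symm)
      have h6 := per.int_mul n θp
      have h7 : θp + n * π = θq := by linarith
      rw [h7] at h6
      have h8 : (Γ θq ∈ U) = (Γ θp ∈ U) := h6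
      rw [← h8] at hpΓ
      exact Set.disjoint_left.1 hd hpΓ hqΓ
    · -- double eigenvalue
      have tz := trig_zero (a := (z2 ^ 2 + z3 ^ 2) / 2 - lam ^ 2)
        (b := lam * z0 + (z2 ^ 2 - z3 ^ 2) / 2) (d := lam * z1 + z2 * z3)
        (φ1 := 2 * θq) (φ2 := 2 * θp) (by
          intro φ
          have h := S_sq_le lpos Tp (φ / 2)
          have e1 : 2 * (φ / 2) = φ := by ring
          have c2 : Real.cos φ = Real.cos (φ/2) ^ 2 - Real.sin (φ/2) ^ 2 := by
            have := Real.cos_two_mul' (φ/2); rw [e1] at this; exact this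
          have s2 : Real.sin φ = 2 * Real.sin (φ/2) * Real.cos (φ/2) := by
            have := Real.sin_two_mul (φ/2); rw [e1] at this; exact this
          have hCS : Real.cos (φ/2) ^ 2 + Real.sin (φ/2) ^ 2 = 1 := Real.cos_sq_add_sin_sq _
          rw [e1] at h
          have e2 : (z2 * Real.cos (φ/2) + z3 * Real.sin (φ/2)) ^ 2 = (z2 ^ 2 + z3 ^ 2) / 2
              + (z2 ^ 2 - z3 ^ 2) / 2 * Real.cos φ + z2 * z3 * Real.sin φ := by
            rw [c2, s2]; linear_combination ((z2 ^ 2 + z3 ^ 2) / 2) * hCS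
          rw [e2] at h
          linarith) (by
          have c2 := Real.cos_two_mul' θq
          have s2 := Real.sin_two_mul θq
          have hCS : Real.cos θq ^ 2 + Real.sin θq ^ 2 = 1 := Real.cos_sq_add_sin_sq _
          have e2 : (z2 * Real.cos θq + z3 * Real.sin θq) ^ 2 = (z2 ^ 2 + z3 ^ 2) / 2
              + (z2 ^ 2 - z3 ^ 2) / 2 * Real.cos (2 * θq) + z2 * z3 * Real.sin (2 * θq) := by
            rw [c2, s2]; linear_combination ((z2 ^ 2 + z3 ^ 2) / 2) * hCS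
          rw [e2] at fq
          linarith) (by
          have c2 := Real.cos_two_mul' θp
          have s2 := Real.sin_two_mul θp
          have hCS : Real.cos θp ^ 2 + Real.sin θp ^ 2 = 1 := Real.cos_sq_add_sin_sq _
          have e2 : (z2 * Real.cos θp + z3 * Real.sin θp) ^ 2 = (z2 ^ 2 + z3 ^ 2) / 2
              + (z2 ^ 2 - z3 ^ 2) / 2 * Real.cos (2 * θp) + z2 * z3 * Real.sin (2 * θp) := by
            rw [c2, s2]; linear_combination ((z2 ^ 2 + z3 ^ 2) / 2) * hCS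
          rw [e2] at fp
          linarith) (by
          have : (2 * θq - 2 * θp) / 2 = θq - θp := by ring
          rw [this]; exact hs)
      obtain ⟨ta, tb, td⟩ := tz
      -- along the curve the height is constant
      have hcurve : ∀ θ, hh z0 z1 z2 z3 (Γ θ).1 (Γ θ).2 = lam := by
        intro θ
        have c2 := Real.cos_two_mul' θ
        have s2 := Real.sin_two_mul θ
        have hCS : Real.cos θ ^ 2 + Real.sin θ ^ 2 = 1 := Real.cos_sq_add_sin_sq _
        have e2 : (z2 * Real.cos θ + z3 * Real.sin θ) ^ 2 = (z2 ^ 2 + z3 ^ 2) / 2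
            + (z2 ^ 2 - z3 ^ 2) / 2 * Real.cos (2 * θ) + z2 * z3 * Real.sin (2 * θ) := by
          rw [c2, s2]; linear_combination ((z2 ^ 2 + z3 ^ 2) / 2) * hCS
        have e3 : lam * (z0 * Real.cos (2 * θ) + z1 * Real.sin (2 * θ)) +
            (z2 * Real.cos θ + z3 * Real.sin θ) ^ 2 - lam ^ 2 = 0 := by
          rw [e2]; linear_combination ta + Real.cos (2 * θ) * tb + Real.sin (2 * θ) * td
        have e4 : (z2 * Real.cos θ + z3 * Real.sin θ) ^ 2 ≤ 2 * lam ^ 2 := by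
          have : (z2 * Real.cos θ + z3 * Real.sin θ) ^ 2 + (z2 * Real.sin θ - z3 * Real.cos θ) ^ 2
            = z2 ^ 2 + z3 ^ 2 := by linear_combination (z2 ^ 2 + z3 ^ 2) * hCS
          nlinarith [sq_nonneg (z2 * Real.sin θ - z3 * Real.cos θ)]
        have htS : lam * t θ = z2 * Real.cos θ + z3 * Real.sin θ := by
          simp only [ht]; field_simp
        rw [← htS] at e3 e4
        have ht2 : t θ ^ 2 ≤ 2 := by
          have : lam ^ 2 * (t θ ^ 2) ≤ lam ^ 2 * 2 := by linarith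
          exact le_of_mul_le_mul_left this (by positivity)
        have hpos : 0 < 1 + t θ ^ 2 := by positivity
        have hcos : Real.cos (2 * Real.arctan (t θ)) = (1 - t θ ^ 2) / (1 + t θ ^ 2) := by
          rw [Real.cos_two_mul, Real.cos_sq_arctan]
          field_simp
          ring
        have hsin : Real.sin (2 * Real.arctan (t θ)) = 2 * t θ / (1 + t θ ^ 2) := by
          have h2 : Real.sin (Real.arctan (t θ)) = t θ * Real.cos (Real.arctan (t θ)) := by
            have h3 := Real.tan_arctan (t θ)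
            rw [Real.tan_eq_sin_div_cos] at h3
            have h4 : Real.cos (Real.arctan (t θ)) ≠ 0 := (Real.cos_arctan_pos _).ne'
            field_simp at h3
            linarith
          rw [Real.sin_two_mul, h2]
          have := Real.cos_sq_arctan (t θ)
          have h5 : 2 * (t θ * Real.cos (Real.arctan (t θ))) * Real.cos (Real.arctan (t θ))
            = 2 * t θ * (Real.cos (Real.arctan (t θ)) ^ 2) := by ring
          rw [h5, this]
          field_simp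
        have hout : -1/2 ≤ Real.cos (2 * Real.arctan (t θ)) := by
          rw [hcos, le_div_iff₀ hpos]
          linarith
        simp only [hΓ]
        unfold hh
        rw [AA_outer hout, hcos, hsin, ← htS]
        have hl : lam ≠ 0 := lpos.ne'
        have e5 : z0 * Real.cos (2 * θ) + z1 * Real.sin (2 * θ) = lam * (1 - t θ ^ 2) := by
          have : lam * (z0 * Real.cos (2 * θ) + z1 * Real.sin (2 * θ)) = lam * (lam * (1 - t θ ^ 2)) := by
            linarith
          exact mul_left_cancel₀ hl this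
        rw [e5]
        field_simp
        ring
      have hcov : ∀ θ, Γ θ ∈ U ∪ W := by
        intro θ
        rw [hUW]
        have h1 : (θp, vp) ∈ U ∪ W := Or.inl hpU
        rw [hUW] at h1
        have h2 : c < lam := h1
        show c < hh z0 z1 z2 z3 (Γ θ).1 (Γ θ).2
        rw [hcurve]; exact h2
      have hpre := isPreconnected_univ (α := ℝ)
      obtain ⟨x, hx⟩ := hpre (Γ ⁻¹' U) (Γ ⁻¹' W) (hU.preimage hΓc) (hW.preimage hΓc)
        (by intro θ _; exact hcov θ) ⟨θp, mem_univ _, hpΓ⟩ ⟨θq, mem_univ _, hqΓ⟩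
      exact Set.disjoint_left.1 hd hx.2.1 hx.2.2


/-- the Klein bottle map -/
noncomputable def FF (p : ℝ × ℝ) : EuclideanSpace ℝ (Fin 4) :=
  !₂[AA (2 * π * p.2) * Real.cos (2 * (π * p.1)), AA (2 * π * p.2) * Real.sin (2 * (π * p.1)),
    Real.sin (2 * π * p.2) * Real.cos (π * p.1), Real.sin (2 * π * p.2) * Real.sin (π * p.1)]

lemma FF_inner (v : EuclideanSpace ℝ (Fin 4)) (p : ℝ × ℝ) :
    inner ℝ v (FF p) = hh (v 0) (v 1) (v 2) (v 3) (π * p.1) (2 * π * p.2) := by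
  simp only [FF, PiLp.inner_apply, Fin.sum_univ_four, hh]
  simp
  ring

lemma FF_contDiff : ContDiff ℝ (⊤ : ℕ∞) FF := by
  rw [contDiff_euclidean]
  have h1 : ContDiff ℝ (⊤ : ℕ∞) (fun p : ℝ × ℝ => AA (2 * π * p.2)) :=
    contDiff_AA.comp (by fun_prop)
  intro i
  fin_cases i
  · simp [FF]; exact h1.mul (by fun_prop)
  · simp [FF]; exact h1.mul (by fun_prop)
  · simp [FF]; fun_prop
  · simp [FF]; fun_prop

lemma FF_sym (x y : ℝ) : FF (x + 1, -y) = FF (x, y) := by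
  have e1 : 2 * π * (-y) = -(2 * π * y) := by ring
  have e2 : π * (x + 1) = π * x + π := by ring
  have e3 : 2 * (π * x + π) = 2 * (π * x) + 2 * π := by ring
  simp only [FF, e1, e2, e3, AA_neg, Real.sin_neg, Real.cos_add_two_pi, Real.sin_add_two_pi,
    Real.cos_add_pi, Real.sin_add_pi, neg_mul_neg]

lemma FF_per (x y : ℝ) : FF (x, y + 1) = FF (x, y) := by
  have e1 : 2 * π * (y + 1) = 2 * π * y + 2 * π := by ring
  simp only [FF, e1, AA_periodic, Real.sin_add_two_pi]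

lemma FF_immersion (p : ℝ × ℝ) : Function.Injective (fderiv ℝ FF p) := by
  rw [injective_iff_map_eq_zero]
  intro w hw
  have hdiff : DifferentiableAt ℝ FF p := FF_contDiff.differentiable (by simp) p
  have hline : HasDerivAt (fun t : ℝ => p + t • w) w 0 := by
    simpa using ((hasDerivAt_id (0:ℝ)).smul_const w).const_add p
  have h0 : p + (0:ℝ) • w = p := by simp
  have hF : HasDerivAt (fun t : ℝ => FF (p + t • w)) 0 0 := by
    have h1 : HasFDerivAt FF (fderiv ℝ FF p) (p + (0:ℝ) • w) := by rw [h0]; exact hdiff.hasFDerivAt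
    have := h1.comp_hasDerivAt (0:ℝ) hline
    rw [hw] at this
    exact this
  have hcomp : ∀ i : Fin 4, HasDerivAt (fun t : ℝ => FF (p + t • w) i) 0 0 := by
    intro i
    have h2 := (EuclideanSpace.proj (𝕜 := ℝ) i).hasFDerivAt.comp_hasDerivAt (0:ℝ) hF
    refine HasDerivAt.congr_deriv (f := fun t : ℝ => FF (p + t • w) i) h2 ?_
    simp
  set v := 2 * π * p.2 with hv
  set u := π * p.1 with hu
  have hl1 : HasDerivAt (fun t : ℝ => π * (p.1 + t * w.1)) (π * w.1) 0 := by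
    simpa using (hasDerivAt_lin p.1 w.1 0).const_mul π
  have hl2 : HasDerivAt (fun t : ℝ => 2 * π * (p.2 + t * w.2)) (2 * π * w.2) 0 := by
    simpa using (hasDerivAt_lin p.2 w.2 0).const_mul (2 * π)
  have hl1' : HasDerivAt (fun t : ℝ => 2 * (π * (p.1 + t * w.1))) (2 * (π * w.1)) 0 := hl1.const_mul 2
  have hA : HasDerivAt (fun t : ℝ => AA (2 * π * (p.2 + t * w.2))) (AA1 v * (2 * π * w.2)) 0 := by
    have h3 : HasDerivAt AA (AA1 v) (2 * π * (p.2 + 0 * w.2)) := by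
      have : 2 * π * (p.2 + 0 * w.2) = v := by rw [hv]; ring
      rw [this]; exact hasDerivAt_AA v
    exact HasDerivAt.comp (0:ℝ) h3 hl2
  have c0 := (hA.mul hl1'.cos).unique (by
    refine (hcomp 0).congr_of_eventuallyEq (Filter.Eventually.of_forall (fun t => ?_))
    simp [FF])
  have c1 := (hA.mul hl1'.sin).unique (by
    refine (hcomp 1).congr_of_eventuallyEq (Filter.Eventually.of_forall (fun t => ?_))
    simp [FF])
  have c2 := (hl2.sin.mul hl1.cos).unique (by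
    refine (hcomp 2).congr_of_eventuallyEq (Filter.Eventually.of_forall (fun t => ?_))
    simp [FF])
  have c3 := (hl2.sin.mul hl1.sin).unique (by
    refine (hcomp 3).congr_of_eventuallyEq (Filter.Eventually.of_forall (fun t => ?_))
    simp [FF])
  have e1 : 2 * π * (p.2 + 0 * w.2) = v := by rw [hv]; ring
  have e2 : π * (p.1 + 0 * w.1) = u := by rw [hu]; ring
  simp only [e1, e2] at c0 c1 c2 c3
  have hpi : π ≠ 0 := Real.pi_ne_zero
  have hCS2 : Real.cos (2 * u) ^ 2 + Real.sin (2 * u) ^ 2 = 1 := Real.cos_sq_add_sin_sq _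
  have hCS : Real.cos u ^ 2 + Real.sin u ^ 2 = 1 := Real.cos_sq_add_sin_sq _
  have hw1 : w.1 = 0 := by
    have h4 : AA v * (2 * (π * w.1)) = 0 := by
      linear_combination (- Real.sin (2 * u)) * c0 + Real.cos (2 * u) * c1
        - (AA v * (2 * (π * w.1))) * hCS2
    have hApos := (AA_pos v).ne'
    have h5 := (mul_eq_zero.1 h4).resolve_left hApos
    have h6 := (mul_eq_zero.1 h5).resolve_left (by norm_num)
    exact (mul_eq_zero.1 h6).resolve_left hpi
  have k1 : AA1 v * (2 * π * w.2) = 0 := by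
    linear_combination (Real.cos (2 * u)) * c0 + Real.sin (2 * u) * c1
        - (AA1 v * (2 * π * w.2)) * hCS2
  have k2 : Real.cos v * (2 * π * w.2) = 0 := by
    linear_combination (Real.cos u) * c2 + Real.sin u * c3
        - (Real.cos v * (2 * π * w.2)) * hCS
  have hw2 : w.2 = 0 := by
    by_contra hne
    have hne' : 2 * π * w.2 ≠ 0 := by positivity
    have a1 := (mul_eq_zero.1 k1).resolve_right hne'
    have a2 := (mul_eq_zero.1 k2).resolve_right hne'
    unfold AA1 at a1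
    rw [a2, gb1_eq_zero (by norm_num)] at a1
    have a3 : Real.sin v = 0 := by linarith
    have := Real.cos_sq_add_sin_sq v
    rw [a2, a3] at this
    norm_num at this
  exact Prod.ext hw1 hw2

lemma FF_substantial (v : EuclideanSpace ℝ (Fin 4)) (c : ℝ) (hv : v ≠ 0) :
    ∃ p : ℝ × ℝ, inner ℝ v (FF p) ≠ c := by
  by_contra hcon
  push Not at hcon
  apply hv
  have h : ∀ θ φ : ℝ, hh (v 0) (v 1) (v 2) (v 3) θ φ = c := by
    intro θ φ
    have := hcon (θ / π, φ / (2 * π))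
    rw [FF_inner] at this
    have hpi : π ≠ 0 := Real.pi_ne_zero
    have e1 : π * (θ / π) = θ := by field_simp
    have e2 : 2 * π * (φ / (2 * π)) = φ := by field_simp
    simp only [e1, e2] at this
    exact this
  have hA0 : AA 0 = 1 := by
    rw [AA_outer (by rw [Real.cos_zero]; norm_num), Real.cos_zero]; norm_num
  have hA1 : AA (π / 2) = 1 / 2 := by
    rw [AA_outer (by rw [Real.cos_pi_div_two]; norm_num), Real.cos_pi_div_two]; norm_num
  have a1 := h 0 0
  have a2 := h (π / 2) 0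
  have a3 := h (π / 4) 0
  have b1 := h 0 (π / 2)
  have b2 := h (π / 2) (π / 2)
  unfold hh at a1 a2 a3 b1 b2
  have e3 : 2 * (π / 2) = π := by ring
  have e4 : 2 * (π / 4) = π / 2 := by ring
  rw [hA0] at a1 a2 a3
  rw [hA1] at b1 b2
  rw [e3] at a2 b2
  rw [e4] at a3
  simp only [mul_zero, Real.cos_zero, Real.sin_zero, Real.cos_pi, Real.sin_pi, Real.cos_pi_div_two,
    Real.sin_pi_div_two, zero_mul, add_zero, mul_one, one_mul, zero_add] at a1 a2 a3 b1 b2
  have v0 : v 0 = 0 := by linarith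
  have hc : c = 0 := by linarith
  have v1 : v 1 = 0 := by linarith
  have v2 : v 2 = 0 := by linarith
  have v3 : v 3 = 0 := by linarith
  ext i
  fin_cases i
  · simpa using v0
  · simpa using v1
  · simpa using v2
  · simpa using v3

lemma FF_tight (v : EuclideanSpace ℝ (Fin 4)) (c : ℝ) (A B : Set (ℝ × ℝ))
    (hA : IsOpen A) (hB : IsOpen B)
    (iA : ∀ x y : ℝ, ((x, y) ∈ A ↔ (x + 1, -y) ∈ A) ∧ ((x, y) ∈ A ↔ (x, y + 1) ∈ A))
    (iB : ∀ x y : ℝ, ((x, y) ∈ B ↔ (x + 1, -y) ∈ B) ∧ ((x, y) ∈ B ↔ (x, y + 1) ∈ B))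
    (hd : Disjoint A B) (hAB : A ∪ B = {p : ℝ × ℝ | c < inner ℝ v (FF p)}) : A = ∅ ∨ B = ∅ := by
  have hpi : π ≠ 0 := Real.pi_ne_zero
  set g : ℝ × ℝ → ℝ × ℝ := fun q => (q.1 / π, q.2 / (2 * π)) with hg
  have hgc : Continuous g := by
    rw [hg]; fun_prop
  have trans : ∀ {V : Set (ℝ × ℝ)}, (∀ x y : ℝ, ((x, y) ∈ V ↔ (x + 1, -y) ∈ V) ∧
      ((x, y) ∈ V ↔ (x, y + 1) ∈ V)) → ∀ θ φ : ℝ, (((θ, φ) ∈ g ⁻¹' V) ↔ ((θ + π, -φ) ∈ g ⁻¹' V)) ∧
      (((θ, φ) ∈ g ⁻¹' V) ↔ ((θ, φ + 2 * π) ∈ g ⁻¹' V)) := by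
    intro V iV θ φ
    have e1 : (θ + π) / π = θ / π + 1 := by field_simp
    have e2 : -φ / (2 * π) = -(φ / (2 * π)) := by ring
    have e3 : (φ + 2 * π) / (2 * π) = φ / (2 * π) + 1 := by field_simp
    simp only [mem_preimage, hg, e1, e2, e3]
    exact iV (θ / π) (φ / (2 * π))
  have hk := key (z0 := v 0) (z1 := v 1) (z2 := v 2) (z3 := v 3) (c := c)
    (hA.preimage hgc) (hB.preimage hgc) (trans iA) (trans iB) (hd.preimage g) (by
      rw [← preimage_union, hAB]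
      ext ⟨θ, φ⟩
      simp only [mem_preimage, Set.mem_ofPred_eq, FF_inner, hg]
      have e1 : π * (θ / π) = θ := by field_simp
      have e2 : 2 * π * (φ / (2 * π)) = φ := by field_simp
      rw [e1, e2])
  have hsurj : Function.Surjective g := by
    rintro ⟨x, y⟩
    refine ⟨(x * π, y * (2 * π)), ?_⟩
    simp only [hg]
    have e1 : x * π / π = x := by field_simp
    have e2 : y * (2 * π) / (2 * π) = y := by field_simp
    rw [e1, e2]
  rcases hk with h | h
  · left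
    exact (preimage_eq_empty_iff.1 h) |> fun hdis => by
      rw [hsurj.range_eq] at hdis
      exact Set.disjoint_univ.1 hdis
  · right
    exact (preimage_eq_empty_iff.1 h) |> fun hdis => by
      rw [hsurj.range_eq] at hdis
      exact Set.disjoint_univ.1 hdis

theorem result :
  ∃ F : ℝ × ℝ → EuclideanSpace ℝ (Fin 4),
    ContDiff ℝ (⊤ : ℕ∞) F ∧
    (∀ x y : ℝ, F (x + 1, -y) = F (x, y)) ∧
    (∀ x y : ℝ, F (x, y + 1) = F (x, y)) ∧
    (∀ p : ℝ × ℝ, Function.Injective (fderiv ℝ F p)) ∧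
    (∀ (v : EuclideanSpace ℝ (Fin 4)) (c : ℝ), v ≠ 0 → ∃ p : ℝ × ℝ, inner ℝ v (F p) ≠ c) ∧
    (∀ (v : EuclideanSpace ℝ (Fin 4)) (c : ℝ) (A B : Set (ℝ × ℝ)),
      IsOpen A → IsOpen B →
      (∀ x y : ℝ, ((x, y) ∈ A ↔ (x + 1, -y) ∈ A) ∧ ((x, y) ∈ A ↔ (x, y + 1) ∈ A)) →
      (∀ x y : ℝ, ((x, y) ∈ B ↔ (x + 1, -y) ∈ B) ∧ ((x, y) ∈ B ↔ (x, y + 1) ∈ B)) →
      Disjoint A B →
      A ∪ B = {p : ℝ × ℝ | c < inner ℝ v (F p)} →
      A = ∅ ∨ B = ∅) :=
  ⟨FF, FF_contDiff, FF_sym, FF_per, FF_immersion, FF_substantial,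
    fun v c A B hA hB iA iB hd hAB => FF_tight v c A B hA hB iA iB hd hAB⟩

end Pool.Agent.S12791
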