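import Pool.Statements.S13261
import Pool.Agent.H.MP_5f9601_gt.U.Final
import Pool.Agent.H.MP_5f9601_gt.U.Section4

set_option autoImplicit false
open Pool Pool.MP_5f9601_gt

namespace Pool.Agent.S13261

/-- For every odd prime p there are lens spaces L^{n_i}(p^{k_i}) with k_i→∞ and n_i>p^{k_i-k_0}, π1-surjective bonding maps, and sphere lifts such that for each i some finite composite of the lifts starting at level i is null-homotopic. -/
theorem result :
  ∀ p : ℕ, p.Prime → p ≠ 2 →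
  ∃ (n k : ℕ → ℕ)
    (f : ∀ i : ℕ, C(↥(Metric.sphere (0 : EuclideanSpace ℂ (Fin (n (i+1)))) 1),
                     ↥(Metric.sphere (0 : EuclideanSpace ℂ (Fin (n i))) 1)))
    (q : ∀ i : ℕ,
      C(Quot (fun x y : ↥(Metric.sphere (0 : EuclideanSpace ℂ (Fin (n (i+1)))) 1) =>
            ∃ j : ℕ, (y : EuclideanSpace ℂ (Fin (n (i+1)))) =
              Complex.exp (2 * (Real.pi : ℂ) * Complex.I / ((p ^ k (i+1) : ℕ) : ℂ)) ^ j •
                (x : EuclideanSpace ℂ (Fin (n (i+1))))),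
        Quot (fun x y : ↥(Metric.sphere (0 : EuclideanSpace ℂ (Fin (n i))) 1) =>
            ∃ j : ℕ, (y : EuclideanSpace ℂ (Fin (n i))) =
              Complex.exp (2 * (Real.pi : ℂ) * Complex.I / ((p ^ k i : ℕ) : ℂ)) ^ j •
                (x : EuclideanSpace ℂ (Fin (n i))))))
    (g : ∀ i j : ℕ, C(↥(Metric.sphere (0 : EuclideanSpace ℂ (Fin (n (i+j)))) 1),
                       ↥(Metric.sphere (0 : EuclideanSpace ℂ (Fin (n i))) 1))),
    Filter.Tendsto k Filter.atTop Filter.atTop ∧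
    (∀ i, p ^ (k i - k 0) < n i) ∧
    (∀ i x, q i (Quot.mk _ x) = Quot.mk _ (f i x)) ∧
    (∀ i x (δ : Path (q i x) (q i x)), ∃ γ : Path x x,
        (γ.map (q i).continuous).Homotopic δ) ∧
    (∀ i, g i 0 = ContinuousMap.id _) ∧
    (∀ i j, g i (j+1) = (g i j).comp (f (i+j))) ∧
    (∀ i, ∃ j, ∃ y, (g i j).Homotopic (ContinuousMap.const _ y)) :=
  Pool.Agent.H.MP_5f9601_gt.U.main_of_fillers fun _ hp _ =>
    Pool.Agent.H.MP_5f9601_gt.U.exists_fillers hp

end Pool.Agent.S13261
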