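import Pool.Statements.S13584
import Pool.Agent.H.MP_92a93b_gt.Asym

set_option autoImplicit false
open Bundle Filter Topology
open scoped Manifold ContDiff
open Pool Pool.MP_92a93b_gt

namespace Pool.Agent.S13584

open Pool.Agent.H.MP_92a93b_gt

instance simplyConn : SimplyConnectedSpace X := by
  have : ContractibleSpace E2 := inferInstance
  have : SimplyConnectedSpace E2 := inferInstance
  exact inferInstanceAs (SimplyConnectedSpace E2)

/-- The negation of the preceding statement: In a complete simply connected smooth Riemannian manifold where every geodesic is minimizing (no conjugate points), any two distinct unit-speed geodesics whose distance tends to 0 as t goes to minus infinity drift infinitely apart as t goes to plus infinity. -/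
theorem result :
    ¬ (∀ (d : ℕ) (M : Type) [MetricSpace M]
    [ChartedSpace (EuclideanSpace ℝ (Fin d)) M]
    [IsManifold (𝓘(ℝ, EuclideanSpace ℝ (Fin d))) ∞ M]
    [RiemannianBundle (fun x : M => TangentSpace (𝓘(ℝ, EuclideanSpace ℝ (Fin d))) x)]
    [IsContMDiffRiemannianBundle (𝓘(ℝ, EuclideanSpace ℝ (Fin d))) ∞
      (EuclideanSpace ℝ (Fin d))
      (fun x : M => TangentSpace (𝓘(ℝ, EuclideanSpace ℝ (Fin d))) x)]
    [IsRiemannianManifold (𝓘(ℝ, EuclideanSpace ℝ (Fin d))) M]
    [CompleteSpace M] [SimplyConnectedSpace M],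
    (∀ γ : ℝ → M,
      (∀ t : ℝ, ∃ ε > 0, ∀ s u : ℝ, |s - t| < ε → |u - t| < ε →
        dist (γ s) (γ u) = |s - u|) →
      ∀ s u : ℝ, dist (γ s) (γ u) = |s - u|) →
    ∀ α β : ℝ → M,
      (∀ t : ℝ, ∃ ε > 0, ∀ s u : ℝ, |s - t| < ε → |u - t| < ε →
        dist (α s) (α u) = |s - u|) →
      (∀ t : ℝ, ∃ ε > 0, ∀ s u : ℝ, |s - t| < ε → |u - t| < ε →
        dist (β s) (β u) = |s - u|) →
      α ≠ β →
      Tendsto (fun t => dist (α t) (β t)) atBot (𝓝 0) →
      Tendsto (fun t => dist (α t) (β t)) atTop atTop) := by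
  intro H
  have h := H 2 X
  have h1 : ∀ γ : ℝ → X,
      (∀ t : ℝ, ∃ ε > 0, ∀ s u : ℝ, |s - t| < ε → |u - t| < ε →
        dist (γ s) (γ u) = |s - u|) →
      ∀ s u : ℝ, dist (γ s) (γ u) = |s - u| := by
    intro γ hγ s u
    obtain ⟨l, hl, rfl⟩ := local_line γ hγ
    exact hl.dist_eq s u
  have h2 := h h1 alp bet
    (fun t => ⟨1, one_pos, fun s u _ _ => alp_line.dist_eq s u⟩)
    (fun t => ⟨1, one_pos, fun s u _ _ => bet_line.dist_eq s u⟩)
    alp_ne_bet dist_bot
  obtain ⟨C, hC⟩ := dist_top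
  obtain ⟨t, ht1, ht2⟩ := (hC.and (h2.eventually (eventually_gt_atTop C))).exists
  linarith

end Pool.Agent.S13584
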