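import Pool.Statements.S13772
import Pool.Agent.H.MP_b1ea19_gt.Sine

set_option autoImplicit false
open Pool Pool.MP_b1ea19_gt

namespace Pool.Agent.S13772

/-- The negation of the preceding statement: If X is a continuum in which every subcontinuum C has a connected set of local separating points, then any two distinct points of any connected subset of X are joined by an arc lying inside that subset. -/
theorem result :
    ¬ (∀ (X : Type) [MetricSpace X] [CompactSpace X] [ConnectedSpace X],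
      (∀ C : Set X, IsCompact C → IsConnected C →
        IsPreconnected {p : X | p ∈ C ∧ ∃ V : Set X, IsOpen V ∧ p ∈ V ∧
          ¬ IsPreconnected (connectedComponentIn (V ∩ C) p \ {p})}) →
      ∀ A : Set X, IsConnected A → ∀ x ∈ A, ∀ y ∈ A, x ≠ y →
        ∃ f : unitInterval → X, Continuous f ∧ Function.Injective f ∧
          f 0 = x ∧ f 1 = y ∧ Set.range f ⊆ A) := by
  intro H
  have h0 : Pool.Agent.H.MP_b1ea19_gt.fs (Pool.Agent.H.MP_b1ea19_gt.b 0) = 0 := by
    have h : ((0 : ℝ)) ∈ Set.Icc (-1 : ℝ) 1 := by norm_num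
    have := Pool.Agent.H.MP_b1ea19_gt.b_val h
    show (Pool.Agent.H.MP_b1ea19_gt.b 0).1.1 = 0
    rw [this]
  have h1 : Pool.Agent.H.MP_b1ea19_gt.fs (Pool.Agent.H.MP_b1ea19_gt.g 1) = 1 :=
    Pool.Agent.H.MP_b1ea19_gt.fs_g (by norm_num)
  have hne : Pool.Agent.H.MP_b1ea19_gt.b 0 ≠ Pool.Agent.H.MP_b1ea19_gt.g 1 := by
    intro h
    rw [h, h1] at h0
    exact one_ne_zero h0
  obtain ⟨f, hf, -, hf0, hf1, -⟩ := H Pool.Agent.H.MP_b1ea19_gt.X
    (fun C _ hC => Pool.Agent.H.MP_b1ea19_gt.loc_preconnected C hC)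
    Set.univ isConnected_univ _ (Set.mem_univ _) _ (Set.mem_univ _) hne
  exact Pool.Agent.H.MP_b1ea19_gt.no_path f hf (by rw [hf0]; exact h0) (by rw [hf1]; exact h1)

end Pool.Agent.S13772
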