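import Pool.Statements.S13813
import Pool.Agent.H.MP_b892c7_gt.Ends
import Pool.Agent.H.MP_b892c7_gt.Embed

set_option autoImplicit false
open Pool Pool.MP_b892c7_gt

namespace Pool.Agent.S13813

open Pool.Agent.H.MP_b892c7_gt in
/-- The embedding for a lattice given by a basis. -/
theorem embed_basis {d : Type*} [Fintype d] [DecidableEq d]
    {E : Type*} [NormedAddCommGroup E] [InnerProductSpace ℝ E]
    [FiniteDimensional ℝ E] [MeasurableSpace E] [BorelSpace E] (b : Module.Basis d ℝ E) :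
    ∃ f : E → lp (fun _ : ℕ => ℝ) 2, ∀ u v : E,
      (Real.pi / 4 * RR b (u - v) ^ 2 ≤ 264 * ‖f u - f v‖ ^ 2) ∧
      ∀ m, ‖f u - f v‖ ^ 2 ≤
        Real.pi * (2 * Fintype.card d * Real.log 2 + 1) * ‖(u - v) - lat b m‖ ^ 2 := by
  obtain ⟨N, T, A, hT, hA, hmain⟩ := main_bound b
  have hG := GS_dlat b
  have hpT : ∀ j, 0 < Real.pi * T j := fun j => mul_pos Real.pi_pos (hT j)
  let c : Fin N × (d → ℤ) → ℝ := fun p =>
    A p.1 * (Real.exp (-(Real.pi * T p.1) * ‖dlat b p.2‖ ^ 2) /
      th (dlat b) (Real.pi * T p.1) 0)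
  have hc : ∀ p, 0 ≤ c p := fun p => mul_nonneg (hA _)
    (div_nonneg (Real.exp_pos _).le (th_pos hG (hpT _) 0).le)
  have hcj : ∀ j : Fin N, Summable fun w => c (j, w) := fun j => by
    simp only [c]
    exact ((hG _ (hpT j)).div_const _).mul_left _
  have hs : Summable c := by
    rw [summable_prod_of_nonneg hc]
    exact ⟨hcj, (hasSum_fintype _).summable⟩
  obtain ⟨f, hf⟩ := embed c hc hs (fun p => dlat b p.2)
  have hval : ∀ u v : E, ‖f u - f v‖ ^ 2
      = ∑ j ∈ Finset.range N, A j * eT b (T j) (u - v) := by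
    intro u v
    rw [hf]
    have hsum : Summable fun p : Fin N × (d → ℤ) =>
        c p * (1 - Real.cos (2 * Real.pi * inner ℝ (dlat b p.2) (u - v))) := by
      refine Summable.of_nonneg_of_le (fun p => mul_nonneg (hc p) ?_) (fun p => ?_)
        (hs.mul_right 2)
      · linarith [Real.cos_le_one (2 * Real.pi * inner ℝ (dlat b p.2) (u - v))]
      · exact mul_le_mul_of_nonneg_left
          (by linarith [Real.neg_one_le_cos (2 * Real.pi * inner ℝ (dlat b p.2) (u - v))]) (hc p)
    rw [hsum.tsum_prod, tsum_fintype, ← Fin.sum_univ_eq_sum_range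
      (fun j => A j * eT b (T j) (u - v))]
    refine Finset.sum_congr rfl fun j _ => ?_
    unfold eT ee NN hh
    rw [← tsum_div_const, ← tsum_mul_left]
    refine tsum_congr fun w => ?_
    simp only [c]
    ring
  refine ⟨f, fun u v => ?_⟩
  rw [hval]
  exact hmain (u - v)

/-- There is an absolute constant C such that for every n ≥ 1 and every full-rank lattice L in ℝⁿ, the flat torus ℝⁿ/L (distance = distance to L of u−v) embeds into ℓ² with distortion at most C√n. -/
theorem result :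
    ∃ C : ℝ, 0 < C ∧ ∀ n : ℕ, 1 ≤ n →
      ∀ (L : Submodule ℤ (EuclideanSpace ℝ (Fin n))) [DiscreteTopology L] [IsZLattice ℝ L],
        ∃ (f : EuclideanSpace ℝ (Fin n) → lp (fun _ : ℕ => ℝ) 2) (s : ℝ), 0 < s ∧
          ∀ u v : EuclideanSpace ℝ (Fin n),
            s * Metric.infDist (u - v) (L : Set (EuclideanSpace ℝ (Fin n))) ≤ ‖f u - f v‖ ∧
            ‖f u - f v‖ ≤ C * Real.sqrt n * s *
              Metric.infDist (u - v) (L : Set (EuclideanSpace ℝ (Fin n))) := by
  refine ⟨80, by norm_num, fun n hn L _ _ => ?_⟩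
  classical
  let b0 := Module.Free.chooseBasis ℤ L
  let b := b0.ofZLatticeBasis ℝ L
  have hspan : Submodule.span ℤ (Set.range b) = L := b0.ofZLatticeBasis_span ℝ L
  have hcard : Fintype.card (Module.Free.ChooseBasisIndex ℤ L) = n := by
    have h1 := Module.finrank_eq_card_basis b
    rw [finrank_euclideanSpace_fin] at h1
    exact h1.symm
  have hL : (L : Set (EuclideanSpace ℝ (Fin n))) = Set.range (H.MP_b892c7_gt.lat b) := by
    ext x
    have hx : x ∈ L ↔ x ∈ Submodule.span ℤ (Set.range b) := by rw [hspan]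
    rw [SetLike.mem_coe, hx, Submodule.mem_span_range_iff_exists_fun, Set.mem_range]
    constructor
    · rintro ⟨c, hc⟩
      refine ⟨c, ?_⟩
      rw [← hc, H.MP_b892c7_gt.lat_apply]
      refine Finset.sum_congr rfl fun i _ => ?_
      rw [Int.cast_smul_eq_zsmul]
    · rintro ⟨c, hc⟩
      refine ⟨c, ?_⟩
      rw [← hc, H.MP_b892c7_gt.lat_apply]
      refine Finset.sum_congr rfl fun i _ => ?_
      rw [Int.cast_smul_eq_zsmul]
  obtain ⟨f, hf⟩ := embed_basis b
  have hpi : 3 < Real.pi := Real.pi_gt_three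
  have hpi4 : Real.pi < 4 := Real.pi_lt_four
  have hn1 : (1 : ℝ) ≤ n := by exact_mod_cast hn
  refine ⟨f, 1 / 20, by norm_num, fun u v => ?_⟩
  obtain ⟨h1, h2⟩ := hf u v
  rw [hL]
  have hRR : Metric.infDist (u - v) (Set.range (H.MP_b892c7_gt.lat b))
      = H.MP_b892c7_gt.RR b (u - v) := rfl
  rw [hRR]
  have hR0 := H.MP_b892c7_gt.RR_nonneg b (u - v)
  constructor
  · apply le_of_sq_le_sq _ (norm_nonneg _)
    nlinarith [sq_nonneg (H.MP_b892c7_gt.RR b (u - v))]
  · have hsn : 0 < Real.sqrt n := Real.sqrt_pos.mpr (by linarith)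
    have h3 : ‖f u - f v‖ / (4 * Real.sqrt n) ≤ H.MP_b892c7_gt.RR b (u - v) := by
      refine H.MP_b892c7_gt.le_RR b _ _ fun m => ?_
      rw [div_le_iff₀ (by positivity)]
      apply le_of_sq_le_sq _ (by positivity)
      refine (h2 m).trans ?_
      rw [mul_pow, mul_pow, Real.sq_sqrt (by linarith), hcard]
      have hlog : Real.log 2 < 0.6931471808 := Real.log_two_lt_d9
      have hq : 0 ≤ ‖u - v - H.MP_b892c7_gt.lat b m‖ ^ 2 := sq_nonneg _
      have hk : Real.pi * (2 * n * Real.log 2 + 1) ≤ 16 * n := by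
        have e1 : 2 * (n : ℝ) * Real.log 2 + 1 ≤ 2.4 * n := by nlinarith
        nlinarith
      nlinarith [mul_le_mul_of_nonneg_right hk hq]
    rw [div_le_iff₀ (by positivity)] at h3
    linarith
where
  le_of_sq_le_sq {a b : ℝ} (h : a ^ 2 ≤ b ^ 2) (hb : 0 ≤ b) : a ≤ b :=
    le_of_abs_le (by simpa [abs_of_nonneg hb] using sq_le_sq.mp h)

end Pool.Agent.S13813
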