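import Pool.Statements.S14539
import Pool.Agent.H.MP_2e666d_lc.Main
import Pool.Agent.H.MP_2e666d_lc.NegMain
import Pool.Agent.H.MP_2e666d_lc.Mirror
import Pool.Agent.H.MP_2e666d_lc.HgAB00
import Pool.Agent.H.MP_2e666d_lc.HgAB10
import Pool.Agent.H.MP_2e666d_lc.HgAB01
import Pool.Agent.H.MP_2e666d_lc.HgABA00
import Pool.Agent.H.MP_2e666d_lc.HgABA10
import Pool.Agent.H.MP_2e666d_lc.HgBAB00
import Pool.Agent.H.MP_2e666d_lc.HgBAB10

set_option autoImplicit false
open Pool Pool.MP_2e666d_lc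

namespace Pool.Agent.S14539

/-- There is a well-ordered type (an ordinal α) such that every triangle-free graph on α has an independent set of order type α, yet some K4-free graph on α has no independent set of order type α. -/
theorem result :
    ∃ (β : Type) (_ : LinearOrder β) (_ : WellFoundedLT β),
      (∀ G : SimpleGraph β, G.CliqueFree 3 →
          ∃ f : β ↪o β, ∀ x y, ¬ G.Adj (f x) (f y)) ∧
      ∃ G : SimpleGraph β, G.CliqueFree 4 ∧
          ∀ f : β ↪o β, ∃ x y, G.Adj (f x) (f y) := by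
  have hFS : Pool.Agent.H.MP_2e666d_lc.FS :=
    Pool.Agent.H.MP_2e666d_lc.T3.FS_of_seven (K := 40) (by norm_num)
      Pool.Agent.H.MP_2e666d_lc.HS.good_AB_00 Pool.Agent.H.MP_2e666d_lc.HS.good_AB_10
      Pool.Agent.H.MP_2e666d_lc.HS.good_AB_01 Pool.Agent.H.MP_2e666d_lc.HS.good_ABA_00
      Pool.Agent.H.MP_2e666d_lc.HS.good_ABA_10 Pool.Agent.H.MP_2e666d_lc.HS.good_BAB_00
      Pool.Agent.H.MP_2e666d_lc.HS.good_BAB_10
  exact ⟨Pool.Agent.H.MP_2e666d_lc.B, inferInstance, inferInstance,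
    fun G hG => Pool.Agent.H.MP_2e666d_lc.positive hFS G hG,
    Pool.Agent.H.MP_2e666d_lc.Neg.neg_half⟩

end Pool.Agent.S14539
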