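import Pool.Statements.S14823
import Pool.Agent.H.MP_670a4f_lc.Q46.Fin

/-!
# MP_670a4f_lc, Q1: YES. Helpers 40 (idea and plan), 46, 71, 73, 91.

PROOF. Let `rho` be a subadditive finite-to-one function on the pairs of `omega_1` (Todorcevic), `T_m` the tree order
`x <_m a` iff `x < a` and `rho x a ≤ m` (every point has finitely many predecessors), `r` an injection of `omega_1` into the
reals, `L` a ladder system on the limits and `o` Moore's rectangle colouring. A pair `a < b` is an edge of colour `m` if
* its nodes `x ≤ a`, `y ≤ b` (the first points of the `T_m`-paths of `a` and of `b` after their common part) are limits, and `a < y`;
* `r a` and `r b` differ below `m`, and `o x y` is the code of `(m, r a | m, r b | m)`;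
* the ladders of `x` and `y` interlock with two alternations from their first difference `p` on, `o (y_p) x` is the code of
  `r b | m`, and `o (x_p) y` is the code of `r a | m`.
Triangles `a < b < c` of edges of colour `m`: if two of the three pairs have the same nodes, the first code gives `r a | m = r b | m`
or `r b | m = r c | m`, a contradiction. Otherwise there are three nodes; if the three first differences of their ladders are not equal,
one of the other two codes gives the same contradiction, and if they are equal there is none by St/Comb (`caseA`, `d = 0`).
Realisation in an uncountable `X`: for stationarily many `d` there are two points `b_d`, `b'_d` of `X` above `d` with `rho ≤ m0`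
and the same `r | m0`; for large `m` press down the `T_k`-predecessors of `d`, `k ≤ m`, and `r | m` of the two points. A countably
additive version of the splitting types of St/Types and Moore's colouring give `x < y` in the stationary set with interlocking
ladders and the three codes; then `b_x < b'_y` is an edge of colour `m`, it is not one of a smaller colour because of the first code
(for `m0 ≤ k < m`) and of `r | m0` (for `k < m0`). The pair gets the least possible colour which is not a name of its ends; all
other pairs get names of the larger point, as in St/Colour.
-/

set_option autoImplicit false
open Pool Pool.MP_670a4f_lc

namespace Pool.Agent.S14823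

/-- There is a colouring of unordered pairs of countable ordinals by naturals with no monochromatic triangle, such that on every uncountable set of countable ordinals all but finitely many colours occur on pairs of distinct elements. -/
theorem result :
    ∃ c : Sym2 {o : Ordinal.{0} // o < (Cardinal.aleph 1).ord} → ℕ,
      (∀ a b d : {o : Ordinal.{0} // o < (Cardinal.aleph 1).ord},
          a ≠ b → b ≠ d → a ≠ d →
          ¬ (c s(a, b) = c s(b, d) ∧ c s(b, d) = c s(a, d))) ∧
      (∀ X : Set {o : Ordinal.{0} // o < (Cardinal.aleph 1).ord},
          ¬ X.Countable →
          {n : ℕ | ¬ ∃ a ∈ X, ∃ b ∈ X, a ≠ b ∧ c s(a, b) = n}.Finite) :=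
  Pool.Agent.H.MP_670a4f_lc.St.main

end Pool.Agent.S14823
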