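import Pool.Statements.S15177
import Pool.Agent.H.MP_a6e06b_lc.Final

set_option autoImplicit false
open MeasureTheory
open Pool Pool.MP_a6e06b_lc

namespace Pool.Agent.S15177

/-- For every Borel equivalence relation E on a standard Borel space, E has a Borel set meeting each class in a nonempty countable set iff there is a Borel map x to probability measures giving the class of x measure 1, with equivalent points getting measures with the same null sets. -/
theorem result :
    ∀ (X : Type) [MeasurableSpace X] [StandardBorelSpace X] (E : X → X → Prop),
      Equivalence E → MeasurableSet {p : X × X | E p.1 p.2} →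
      ((∃ B : Set X, MeasurableSet B ∧
          ∀ x : X, (B ∩ {y | E x y}).Countable ∧ (B ∩ {y | E x y}).Nonempty) ↔
       (∃ μ : X → Measure X, Measurable μ ∧
          (∀ x : X, IsProbabilityMeasure (μ x)) ∧
          (∀ x : X, μ x {y | E x y} = 1) ∧
          ∀ x y : X, E x y →
            (Measure.AbsolutelyContinuous (μ x) (μ y) ∧
             Measure.AbsolutelyContinuous (μ y) (μ x)))) := by
  intro X _ _ E hE hEm
  constructor
  · rintro ⟨B, hB, hB2⟩
    exact Pool.Agent.H.MP_a6e06b_lc.measure_of_section hE hEm hB hB2
  · rintro ⟨μ, hμ, hμp, hμ1, hac⟩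
    exact Pool.Agent.H.MP_a6e06b_lc.section_of_measure hE hEm μ hμ hμp hμ1 hac

end Pool.Agent.S15177
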