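import Pool.Statements.S15426
import Pool.Agent.H.MP_d546a0_lc.neg.Main2
import Pool.Agent.H.MP_d546a0_lc.neg.Coords
import Pool.Agent.H.MP_d546a0_lc.neg.Num1
import Pool.Agent.H.MP_d546a0_lc.neg.Num2
import Pool.Agent.H.MP_d546a0_lc.neg.Num3
import Pool.Agent.H.MP_d546a0_lc.neg.Num4
import Pool.Agent.H.MP_d546a0_lc.neg.Num5

set_option autoImplicit false
open Pool Pool.MP_d546a0_lc

namespace Pool.Agent.S15426

/-- The negation of the preceding statement: There are constants C>0 and D such that for every full binary tree of height h and every k, some matrix with at most Dk rows and a decoder satisfy: decoded error in ℓ1 is at most C times the ℓ1 distance from x to any rooted k-node-subtree-supported vector. -/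
theorem result :
    ¬ (∃ C : ℝ, 0 < C ∧ ∃ D : ℕ, ∀ h k : ℕ, 1 ≤ k → k ≤ 2 ^ h - 1 →
    ∃ m : ℕ, m ≤ D * k ∧ ∃ A : Matrix (Fin m) (Fin (2 ^ h - 1)) ℝ,
      ∃ R : (Fin m → ℝ) → (Fin (2 ^ h - 1) → ℝ),
        ∀ x x' : Fin (2 ^ h - 1) → ℝ,
          (∃ T : Finset (Fin (2 ^ h - 1)), T.card = k ∧ (∃ r ∈ T, r.val = 0) ∧
             (∀ i ∈ T, i.val ≠ 0 → ∃ j ∈ T, j.val + 1 = (i.val + 1) / 2) ∧
             (∀ i, i ∉ T → x' i = 0)) →
          ∑ i, |R (Matrix.mulVec A x) i - x i| ≤ C * ∑ i, |x' i - x i|) := by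
  rintro ⟨C0, hC0, D0, hyp⟩
  have hC : (1:ℝ) ≤ C0 + 1 := by linarith
  have hD : 1 ≤ D0 + 1 := by omega
  have hev := (D546neg.P.ev_levels (C0 + 1) (D0 + 1) hC hD).and
    ((D546neg.P.ev_delta (C0 + 1) (D0 + 1) hC hD).and
    ((D546neg.P.ev_num (C0 + 1) (D0 + 1) hC hD).and
    ((D546neg.P.ev_net (C0 + 1) (D0 + 1) hC hD).and
    ((D546neg.P.ev_radius (C0 + 1) (D0 + 1) hC hD).and
    ((D546neg.P.ev_d1 (C0 + 1) (D0 + 1) hC hD).and
    (D546neg.P.ev_closure.and D546neg.P.ev_basic))))))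
  obtain ⟨q, e1, e2, e3, e4, e5, e6, e7, e8, e9, e10, e11⟩ := hev.exists
  have hk1 : 1 ≤ D546neg.P.k q := by
    unfold D546neg.P.k
    exact Nat.one_le_two_pow
  obtain ⟨m', hm', A, R, hR⟩ := hyp (D546neg.P.H q + 1) (D546neg.P.k q) hk1 e11
  obtain ⟨m, hm1, hm2, a, ha1, ha2, hNSP⟩ := D546neg.coords (D546neg.P.H q + 1) (D546neg.P.k q)
    m' C0 hC0 hk1 e11 A R hR
  have hmM : (m : ℝ) ≤ D546neg.P.M (D0 + 1) q := by
    unfold D546neg.P.M
    have h1 : m ≤ (D0 + 1) * D546neg.P.k q :=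
      hm2.trans (hm'.trans (Nat.mul_le_mul_right _ (Nat.le_succ D0)))
    exact_mod_cast h1
  exact D546neg.no_system (C0 + 1) (D0 + 1) q hC hD e1 e2 e3 e4 e5 e6 e7 e8 e9 e10
    (D546neg.P.M_le (D0 + 1) q) (D546neg.P.A_le (C0 + 1) (D0 + 1) q hC hD)
    (D546neg.P.theta_lt_one (C0 + 1) (D0 + 1) q hC hD e10) hm1 hmM a ha1 ha2 hNSP

end Pool.Agent.S15426
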