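import Pool.Statements.S17425
import Pool.Agent.H.MP_7425ae_nt.Final

set_option autoImplicit false
open Pool Pool.MP_7425ae_nt

namespace Pool.Agent.S17425

/-- For primes p>3: the sum of C(6k,3k)C(3k,k)C(2k,k)/(-96)^(3k), k<p, is (-6/p)(x^2-2p) mod p^2 when (p/19)=1 and 4p=x^2+19y^2, and 0 when (p/19)=-1; the 342k+25 sum is 25p(-6/p) mod p^3; and a_n is integral, or 3a_n is integral and not divisible by 3 when 2n+1=3^m. -/
theorem result :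
  (∀ p : ℕ, p.Prime → 3 < p →
    ((jacobiSym (p : ℤ) 19 = 1 → ∀ x y : ℤ, 4 * (p : ℤ) = x ^ 2 + 19 * y ^ 2 →
      (∑ k ∈ Finset.range p,
        (((6 * k).choose (3 * k) * (3 * k).choose k * (2 * k).choose k : ℕ) : ZMod (p ^ 2)) *
          ((-96 : ZMod (p ^ 2)) ^ (3 * k))⁻¹)
        = ((jacobiSym (-6) p * (x ^ 2 - 2 * (p : ℤ)) : ℤ) : ZMod (p ^ 2))) ∧
    (jacobiSym (p : ℤ) 19 = -1 →
      (∑ k ∈ Finset.range p,
        (((6 * k).choose (3 * k) * (3 * k).choose k * (2 * k).choose k : ℕ) : ZMod (p ^ 2)) *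
          ((-96 : ZMod (p ^ 2)) ^ (3 * k))⁻¹) = 0) ∧
    ((∑ k ∈ Finset.range p,
        ((342 * k + 25 : ℕ) : ZMod (p ^ 3)) *
        (((6 * k).choose (3 * k) * (3 * k).choose k * (2 * k).choose k : ℕ) : ZMod (p ^ 3)) *
          ((-96 : ZMod (p ^ 3)) ^ (3 * k))⁻¹)
        = ((25 * (p : ℤ) * jacobiSym (-6) p : ℤ) : ZMod (p ^ 3))))) ∧
  (∀ n : ℕ, 2 ≤ n →
    ((¬ ∃ m : ℕ, 2 * n + 1 = 3 ^ m) →
      ∃ z : ℤ, (z : ℚ) =
        ((∑ k ∈ Finset.range n, ((342 * (k : ℤ) + 25) * (-(96 : ℤ) ^ 3) ^ (n - 1 - k) *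
            (((6 * k).choose (3 * k) * (3 * k).choose k * (2 * k).choose k : ℕ) : ℤ)) : ℤ) : ℚ) /
          ((2 * n * (2 * n + 1) * (2 * n).choose n : ℕ) : ℚ)) ∧
    ((∃ m : ℕ, 2 * n + 1 = 3 ^ m) →
      ∃ z : ℤ, (z : ℚ) = 3 *
        (((∑ k ∈ Finset.range n, ((342 * (k : ℤ) + 25) * (-(96 : ℤ) ^ 3) ^ (n - 1 - k) *
            (((6 * k).choose (3 * k) * (3 * k).choose k * (2 * k).choose k : ℕ) : ℤ)) : ℤ) : ℚ) /
          ((2 * n * (2 * n + 1) * (2 * n).choose n : ℕ) : ℚ)) ∧ ¬ (3 : ℤ) ∣ z)) := by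
  refine ⟨fun p hp h3 => ⟨fun hj x y hxy => ?_, fun hj => ?_, ?_⟩, fun n hn => ?_⟩
  · exact Pool.Agent.H.MP_7425ae_nt.part_a_split p hp h3 hj x y hxy
  · exact Pool.Agent.H.MP_7425ae_nt.part_a_inert p hp h3 hj
  · exact Pool.Agent.H.MP_7425ae_nt.part_b p hp h3
  · exact Pool.Agent.H.MP_7425ae_nt.c_global
      (fun p _ h5 m hm => Pool.Agent.H.MP_7425ae_nt.part_c_p p h5 m hm) n hn

end Pool.Agent.S17425
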