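import Pool.Statements.S17591
import Pool.Agent.H.MP_81c263_nt.Final

set_option autoImplicit false
open MeasureTheory Classical
open Pool Pool.MP_81c263_nt

namespace Pool.Agent.S17591

theorem result :
    ∀ p : ℝ, 1 ≤ p → ∀ d : ℕ, 2 ≤ d → ∃ C : ℝ, 0 < C ∧ ∀ N : ℕ,
      ∃ P : Finset (Fin d → ℝ), P.card = N ∧
        (∀ z ∈ P, ∀ i, z i ∈ Set.Ico (0 : ℝ) 1) ∧
        (∫ x in Set.pi Set.univ (fun _ : Fin d => Set.Ico (0 : ℝ) 1),
          ∫ y in Set.pi Set.univ (fun _ : Fin d => Set.Ico (0 : ℝ) 1),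
            |((P.filter (fun z => ∀ i : Fin d,
                  (x i ≤ y i ∧ x i ≤ z i ∧ z i < y i) ∨
                  (y i < x i ∧ (z i < y i ∨ x i ≤ z i)))).card : ℝ)
              - (N : ℝ) * ∏ i : Fin d,
                  (if x i ≤ y i then y i - x i else 1 - x i + y i)| ^ p)
          ^ (1 / p)
        ≤ C * (1 + Real.log (N : ℝ)) ^ (((d : ℝ) - 1) / 2) := by
  intro p hp d hd
  obtain ⟨m, rfl⟩ : ∃ m, d = m + 1 := ⟨d - 1, by lia⟩
  obtain ⟨C, hC, h⟩ := Pool.Agent.H.MP_81c263_nt.main p hp m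
  refine ⟨C, hC, fun N => ?_⟩
  obtain ⟨P, h1, h2, h3⟩ := h N
  refine ⟨P, h1, h2, ?_⟩
  have e : (((m + 1 : ℕ) : ℝ) - 1) / 2 = (m : ℝ) / 2 := by
    push_cast
    ring
  rw [e]
  simp only [Pool.Agent.H.MP_81c263_nt.inI, Pool.Agent.H.MP_81c263_nt.len] at h3
  convert h3
  all_goals exact (Finset.filter_congr_decidable _ _ _).symm

end Pool.Agent.S17591
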