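import Pool.Statements.S17654

set_option autoImplicit false
open scoped Classical
open Pool Pool.MP_870eb4_nt

namespace Pool.Agent.S17654

open Polynomial in
lemma card_factors_ge (K : Type) [Field K] (n i : ℕ) :
    i + 1 ≤ Multiset.card (UniqueFactorizationMonoid.normalizedFactors
      ((X : K[X]) ^ (2 ^ n * 3 ^ i) + 1)) := by
  have hne : ∀ m : ℕ, 0 < m → ((X : K[X]) ^ m + 1) ≠ 0 := by
    intro m hm h
    have h1 := congrArg (fun p : K[X] => p.eval 0) h
    simp [hm.ne'] at h1
  have hnu : ∀ m : ℕ, 0 < m → ¬ IsUnit ((X : K[X]) ^ m + 1) := by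
    intro m hm h
    have h1 := natDegree_eq_zero_of_isUnit h
    have h2 : ((X : K[X]) ^ m + 1).natDegree = m := by
      have := natDegree_X_pow_add_C (n := m) (r := (1:K))
      simpa using this
    omega
  induction i with
  | zero =>
    rw [zero_add, Nat.one_le_iff_ne_zero]
    intro h
    rw [Multiset.card_eq_zero] at h
    have h1 := UniqueFactorizationMonoid.prod_normalizedFactors (hne (2 ^ n * 3 ^ 0) (by positivity))
    rw [h, Multiset.prod_zero] at h1
    exact hnu (2 ^ n * 3 ^ 0) (by positivity) (h1.isUnit isUnit_one)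
  | succ i ih =>
    set Y : K[X] := X ^ (2 ^ n * 3 ^ i) with hY
    have e1 : (X : K[X]) ^ (2 ^ n * 3 ^ (i + 1)) + 1 = (Y + 1) * (Y ^ 2 - Y + 1) := by
      have : (X : K[X]) ^ (2 ^ n * 3 ^ (i + 1)) = Y ^ 3 := by
        rw [hY, ← pow_mul]; congr 1; ring
      rw [this]; ring
    have hprod := hne (2 ^ n * 3 ^ (i + 1)) (by positivity)
    rw [e1] at hprod ⊢
    have hq0 : (Y ^ 2 - Y + 1) ≠ 0 := right_ne_zero_of_mul hprod
    have hp0 : (Y + 1) ≠ 0 := left_ne_zero_of_mul hprod
    rw [UniqueFactorizationMonoid.normalizedFactors_mul hp0 hq0, Multiset.card_add]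
    have hq : 1 ≤ Multiset.card (UniqueFactorizationMonoid.normalizedFactors (Y ^ 2 - Y + 1)) := by
      rw [Nat.one_le_iff_ne_zero]
      intro h
      rw [Multiset.card_eq_zero] at h
      have h1 := UniqueFactorizationMonoid.prod_normalizedFactors hq0
      rw [h, Multiset.prod_zero] at h1
      have h2 : IsUnit (Y ^ 2 - Y + 1) := h1.isUnit isUnit_one
      have h3 := natDegree_eq_zero_of_isUnit h2
      have h4 := congrArg natDegree e1
      rw [natDegree_mul hp0 hq0, h3] at h4
      have h5 : (Y + 1).natDegree = 2 ^ n * 3 ^ i := by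
        have := natDegree_X_pow_add_C (n := 2 ^ n * 3 ^ i) (r := (1:K))
        simpa [hY] using this
      have h6 : ((X : K[X]) ^ (2 ^ n * 3 ^ (i + 1)) + 1).natDegree = 2 ^ n * 3 ^ (i + 1) := by
        have := natDegree_X_pow_add_C (n := 2 ^ n * 3 ^ (i + 1)) (r := (1:K))
        simpa using this
      rw [h5, h6, pow_succ] at h4
      have : 0 < 2 ^ n * 3 ^ i := by positivity
      have h7 : 2 ^ n * (3 ^ i * 3) = 3 * (2 ^ n * 3 ^ i) := by ring
      omega
    omega

lemma iter_eq (K : Type) [Field K] (n : ℕ) :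
    (fun g : RatFunc K => RatFunc.eval (algebraMap K (RatFunc K)) g
      (algebraMap (Polynomial K) (RatFunc K) (Polynomial.X ^ 6)))^[n] RatFunc.X
      = algebraMap (Polynomial K) (RatFunc K) (Polynomial.X ^ (6 ^ n)) := by
  induction n with
  | zero => simp
  | succ n ih =>
    rw [Function.iterate_succ_apply', ih, RatFunc.eval_algebraMap]
    simp only [Algebra.algebraMap_self, RingHom.id_apply, Polynomial.eval₂_pow, Polynomial.eval₂_X]
    rw [← map_pow, ← pow_mul, pow_succ]

/-- The negation of the preceding statement: For a number field K, a rational function f over K of degree at least 2, and α in K not periodic for f, the number of irreducible factors with multiplicity of F_n − αG_n in K[x] is bounded in n, where f^n = F_n/G_n in lowest terms. -/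
theorem result :
    ¬ (∀ (K : Type) [Field K] [NumberField K] (f : RatFunc K) (α : K),
      2 ≤ max f.num.natDegree f.denom.natDegree →
      (∀ n : ℕ, 1 ≤ n →
        (((fun g : RatFunc K => RatFunc.eval (algebraMap K (RatFunc K)) g f)^[n] RatFunc.X).num
          - Polynomial.C α *
            ((fun g : RatFunc K => RatFunc.eval (algebraMap K (RatFunc K)) g f)^[n] RatFunc.X).denom).eval α ≠ 0) →
      ∃ B : ℕ, ∀ n : ℕ, 1 ≤ n →
        Multiset.card (UniqueFactorizationMonoid.normalizedFactors
          (((fun g : RatFunc K => RatFunc.eval (algebraMap K (RatFunc K)) g f)^[n] RatFunc.X).num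
            - Polynomial.C α *
              ((fun g : RatFunc K => RatFunc.eval (algebraMap K (RatFunc K)) g f)^[n] RatFunc.X).denom)) ≤ B) := by
  intro H
  have hnum : (algebraMap (Polynomial ℚ) (RatFunc ℚ) (Polynomial.X ^ 6)).num = Polynomial.X ^ 6 :=
    RatFunc.num_algebraMap _
  obtain ⟨B, hB⟩ := H ℚ (algebraMap (Polynomial ℚ) (RatFunc ℚ) (Polynomial.X ^ 6)) (-1) (by
    rw [hnum, Polynomial.natDegree_X_pow]
    exact le_max_of_le_left (by norm_num)) (by
    intro n hn
    rw [iter_eq ℚ, RatFunc.num_algebraMap, RatFunc.denom_algebraMap]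
    have h6 : Even (6 ^ n) := (by decide : Even 6).pow_of_ne_zero (by omega)
    simp [h6.neg_one_pow])
  have h1 := hB (B + 1) (by omega)
  rw [iter_eq ℚ, RatFunc.num_algebraMap, RatFunc.denom_algebraMap] at h1
  have e1 : (Polynomial.X : Polynomial ℚ) ^ (6 ^ (B + 1)) - Polynomial.C (-1) * 1
      = Polynomial.X ^ (2 ^ (B + 1) * 3 ^ (B + 1)) + 1 := by
    have : (6:ℕ) ^ (B + 1) = 2 ^ (B + 1) * 3 ^ (B + 1) := by
      rw [← Nat.mul_pow]
    rw [this]
    simp
  rw [e1] at h1
  have h2 := card_factors_ge ℚ (B + 1) (B + 1)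
  omega

end Pool.Agent.S17654
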