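import Pool.Statements.S19127
import Pool.Agent.H.MP_08eaf3_pr.Main

set_option autoImplicit false
open Pool Pool.MP_08eaf3_pr

namespace Pool.Agent.S19127

/-- For SK couplings g_ij i.i.d. standard Gaussian and distinct positive inverse temperatures β, β', the expected product-Gibbs probability that the overlap of two replicas (one at β, one at β') has absolute value at least ε tends to 0 as N grows. -/
theorem result :
  ∀ β β' : ℝ, 0 < β → 0 < β' → β ≠ β' → ∀ ε : ℝ, 0 < ε →
    Filter.Tendsto (fun N : ℕ =>
      ∫ g : Fin N → Fin N → ℝ,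
        (∑ σ ∈ Fintype.piFinset (fun _ : Fin N => ({-1, 1} : Finset ℝ)),
          ∑ τ ∈ Fintype.piFinset (fun _ : Fin N => ({-1, 1} : Finset ℝ)),
            if ε ≤ |(∑ i, σ i * τ i) / (N : ℝ)| then
              Real.exp (β * ((∑ i, ∑ j, if i < j then g i j * σ i * σ j else 0) / Real.sqrt N)) *
              Real.exp (β' * ((∑ i, ∑ j, if i < j then g i j * τ i * τ j else 0) / Real.sqrt N))
            else 0) /
        ((∑ σ ∈ Fintype.piFinset (fun _ : Fin N => ({-1, 1} : Finset ℝ)),
            Real.exp (β * ((∑ i, ∑ j, if i < j then g i j * σ i * σ j else 0) / Real.sqrt N))) *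
         (∑ τ ∈ Fintype.piFinset (fun _ : Fin N => ({-1, 1} : Finset ℝ)),
            Real.exp (β' * ((∑ i, ∑ j, if i < j then g i j * τ i * τ j else 0) / Real.sqrt N))))
      ∂(MeasureTheory.Measure.pi (fun _ : Fin N =>
          MeasureTheory.Measure.pi (fun _ : Fin N => ProbabilityTheory.gaussianReal 0 1))))
    Filter.atTop (nhds 0) := by
  exact SKC.main_chaos

end Pool.Agent.S19127
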