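import Pool.Statements.S19204

set_option autoImplicit false
open MeasureTheory
open Pool Pool.MP_218893_pr

namespace Pool.Agent.S19204

open scoped ENNReal

/-- Integer weights (total 150) of the counterexample law; the first one is the weight at `0`. -/
def wt : Fin 16 → ℕ := ![123, 1, 2, 2, 2, 3, 2, 2, 3, 2, 2, 2, 1, 1, 1, 1]

/-- Atoms of the counterexample law. -/
def pt : Fin 16 → ℤ :=
  ![0, 1, -2, 4, 8, -16, 32, 64, -128, 256, 512, -1024, 2048, 4096, -8192, 16384]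

/-- Weighted number of triples with `a x + b y + c z = k`. -/
def cnt (a b c k : ℤ) : ℕ :=
  ∑ i, ∑ j, ∑ l, if a * pt i + b * pt j + c * pt l = k then wt i * wt j * wt l else 0

theorem cnt_a : cnt 1 2 4 0 = 1874520 := by decide +kernel

theorem cnt_w : ∀ a ∈ ({1, -1} : Finset ℤ), ∀ b ∈ ({1, -1} : Finset ℤ),
    ∀ c ∈ ({1, -1} : Finset ℤ), cnt a b c 0 ≤ 1874519 := by decide +kernel

theorem cnt_all : (∑ i, ∑ j, ∑ l, wt i * wt j * wt l) = 3375000 := by decide +kernel

/-- For `k ≠ 0` the triple `(0, 0, 0)` of weight `123 ^ 3` is not counted. -/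
theorem cnt_ne (a b c k : ℤ) (hk : k ≠ 0) : cnt a b c k ≤ 1874519 := by
  have h1 : cnt a b c k + 1860867 ≤ ∑ i, ∑ j, ∑ l, wt i * wt j * wt l := by
    have h2 : (1860867 : ℕ) = ∑ i, ∑ j, ∑ l,
        if (i = 0 ∧ j = 0 ∧ l = 0) then wt i * wt j * wt l else 0 := by decide +kernel
    rw [h2]
    unfold cnt
    simp only [← Finset.sum_add_distrib]
    refine Finset.sum_le_sum fun i _ => Finset.sum_le_sum fun j _ => Finset.sum_le_sum fun l _ => ?_
    by_cases h : i = 0 ∧ j = 0 ∧ l = 0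
    · obtain ⟨rfl, rfl, rfl⟩ := h
      have : ¬ (a * pt 0 + b * pt 0 + c * pt 0 = k) := by
        have h0 : pt 0 = 0 := rfl
        rw [h0]
        simpa using hk.symm
      simp [this]
    · rw [if_neg h]
      split_ifs <;> simp
  rw [cnt_all] at h1
  omega

theorem sum_wt : (∑ i, ((wt i : ℕ) : ℝ≥0∞) / 150) = 1 := by
  simp only [div_eq_mul_inv]
  rw [← Finset.sum_mul, ← Nat.cast_sum]
  have : (∑ i, wt i) = 150 := by decide
  rw [this]
  norm_num
  exact ENNReal.mul_inv_cancel (by norm_num) (by norm_num)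

/-- The law on indices. -/
noncomputable def p : PMF (Fin 16) := PMF.ofFintype (fun i => (wt i : ℝ≥0∞) / 150) sum_wt

/-- The counterexample law on `ℤ ^ 1`. -/
noncomputable def mu : Measure (Fin 1 → ℤ) := p.toMeasure.map (fun i _ => pt i)

instance : IsProbabilityMeasure mu := by
  unfold mu
  exact Measure.isProbabilityMeasure_map (measurable_of_countable _).aemeasurable

theorem pi_mu : Measure.pi (fun _ : Fin 3 => mu) =
    (Measure.pi (fun _ : Fin 3 => p.toMeasure)).map (fun x i _ => pt (x i)) := by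
  have : ∀ i : Fin 3, SigmaFinite ((fun _ : Fin 3 => p.toMeasure) i |>.map
      ((fun _ : Fin 3 => (fun (i : Fin 16) (_ : Fin 1) => pt i)) i)) := by
    intro i
    exact (inferInstance : SigmaFinite mu)
  exact (Measure.pi_map_pi (μ := fun _ : Fin 3 => p.toMeasure)
    (f := fun _ : Fin 3 => (fun (i : Fin 16) (_ : Fin 1) => pt i))
    (fun i => (measurable_of_countable _).aemeasurable)).symm

/-- Triples of indices as functions on `Fin 3`. -/
def e3 : (Fin 16 × Fin 16 × Fin 16) ≃ (Fin 3 → Fin 16) where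
  toFun q := ![q.1, q.2.1, q.2.2]
  invFun x := (x 0, x 1, x 2)
  left_inv q := rfl
  right_inv x := by
    ext i
    fin_cases i <;> rfl

theorem prob (a b c k : ℤ) :
    Measure.pi (fun _ : Fin 3 => p.toMeasure)
      {x : Fin 3 → Fin 16 | a * pt (x 0) + b * pt (x 1) + c * pt (x 2) = k}
      = (cnt a b c k : ℝ≥0∞) * (150⁻¹) ^ 3 := by
  classical
  have h1 : {x : Fin 3 → Fin 16 | a * pt (x 0) + b * pt (x 1) + c * pt (x 2) = k} =
      ((Finset.univ.filter (fun x : Fin 3 → Fin 16 =>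
        a * pt (x 0) + b * pt (x 1) + c * pt (x 2) = k) : Finset (Fin 3 → Fin 16)) :
        Set (Fin 3 → Fin 16)) := by
    ext x; simp
  rw [h1, ← sum_measure_singleton]
  have h2 : ∀ x : Fin 3 → Fin 16, Measure.pi (fun _ : Fin 3 => p.toMeasure) {x} =
      ((wt (x 0) * wt (x 1) * wt (x 2) : ℕ) : ℝ≥0∞) * (150⁻¹) ^ 3 := by
    intro x
    rw [Measure.pi_singleton, Fin.prod_univ_three]
    simp only [PMF.toMeasure_apply_singleton _ _ (measurableSet_singleton _)]
    simp only [p, PMF.ofFintype_apply]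
    push_cast
    simp only [div_eq_mul_inv]
    ring
  have h3 : (∑ x ∈ Finset.univ.filter (fun x : Fin 3 → Fin 16 =>
      a * pt (x 0) + b * pt (x 1) + c * pt (x 2) = k), wt (x 0) * wt (x 1) * wt (x 2))
      = cnt a b c k := by
    rw [Finset.sum_filter, ← e3.sum_comp]
    simp only [Fintype.sum_prod_type]
    unfold cnt
    refine Finset.sum_congr rfl fun i _ => Finset.sum_congr rfl fun j _ =>
      Finset.sum_congr rfl fun l _ => ?_
    have e0 : e3 (i, j, l) 0 = i := rfl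
    have e1 : e3 (i, j, l) 1 = j := rfl
    have e2 : e3 (i, j, l) 2 = l := rfl
    rw [e0, e1, e2]
  simp only [h2]
  rw [← Finset.sum_mul, ← Nat.cast_sum, h3]

theorem event_meas (S : Set (Fin 3 → Fin 1 → ℤ)) : MeasurableSet S :=
  S.to_countable.measurableSet

/-- The left side of the inequality for coefficients `1, 2, 4` and `x = 0`. -/
theorem left_eq : Measure.pi (fun _ : Fin 3 => mu)
      {ω : Fin 3 → Fin 1 → ℤ |
        ∑ i, (![1, 2, 4] : Fin 3 → ℝ) i • (fun j => ((ω i j : ℤ) : ℝ)) = (0 : Fin 1 → ℝ)}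
      = (1874520 : ℝ≥0∞) * (150⁻¹) ^ 3 := by
  rw [pi_mu, Measure.map_apply (measurable_of_countable _) (event_meas _)]
  have : (fun (x : Fin 3 → Fin 16) (i : Fin 3) (_ : Fin 1) => pt (x i)) ⁻¹'
      {ω : Fin 3 → Fin 1 → ℤ |
        ∑ i, (![1, 2, 4] : Fin 3 → ℝ) i • (fun j => ((ω i j : ℤ) : ℝ)) = (0 : Fin 1 → ℝ)} =
      {x : Fin 3 → Fin 16 | 1 * pt (x 0) + 2 * pt (x 1) + 4 * pt (x 2) = 0} := by
    ext x
    simp only [Set.mem_preimage, Set.mem_ofPred_eq]
    rw [funext_iff]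
    simp only [Fin.sum_univ_three, Finset.sum_apply, Pi.smul_apply, Pi.zero_apply,
      smul_eq_mul, Fin.forall_fin_one]
    simp only [Matrix.cons_val_zero, Matrix.cons_val_one, Matrix.cons_val]
    constructor
    · intro h; exact_mod_cast h
    · intro h; exact_mod_cast h
  rw [this, prob, cnt_a]
  norm_num

theorem right_le (w : Fin 3 → ℤ) (hw : ∀ i, w i = 1 ∨ w i = -1) (k : Fin 1 → ℤ) :
    Measure.pi (fun _ : Fin 3 => mu) {ω : Fin 3 → Fin 1 → ℤ | ∑ i, w i • ω i = k}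
      ≤ (1874519 : ℝ≥0∞) * (150⁻¹) ^ 3 := by
  rw [pi_mu, Measure.map_apply (measurable_of_countable _) (event_meas _)]
  have : (fun (x : Fin 3 → Fin 16) (i : Fin 3) (_ : Fin 1) => pt (x i)) ⁻¹'
      {ω : Fin 3 → Fin 1 → ℤ | ∑ i, w i • ω i = k} =
      {x : Fin 3 → Fin 16 | w 0 * pt (x 0) + w 1 * pt (x 1) + w 2 * pt (x 2) = k 0} := by
    ext x
    simp only [Set.mem_preimage, Set.mem_ofPred_eq]
    rw [funext_iff]
    simp only [Fin.sum_univ_three, Finset.sum_apply, Pi.smul_apply,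
      smul_eq_mul, Fin.forall_fin_one]
  rw [this, prob]
  gcongr
  have hmem : ∀ i, w i ∈ ({1, -1} : Finset ℤ) := by
    intro i
    rcases hw i with h | h <;> simp [h]
  have : cnt (w 0) (w 1) (w 2) (k 0) ≤ 1874519 := by
    by_cases hk : k 0 = 0
    · rw [hk]; exact cnt_w _ (hmem 0) _ (hmem 1) _ (hmem 2)
    · exact cnt_ne _ _ _ _ hk
  exact_mod_cast this

/-- The negation of the preceding statement: For every law μ on ℤ^d and iid X₁..Xₙ ~ μ, some signs wᵢ ∈ {±1} satisfy P(∑aᵢXᵢ = x) ≤ max over k ∈ ℤ^d of P(∑wᵢXᵢ = k), for all nonzero real aᵢ and all x ∈ ℝ^d. -/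
theorem result :
    ¬ (∀ (n d : ℕ) (μ : Measure (Fin d → ℤ)) [IsProbabilityMeasure μ],
      ∃ w : Fin n → ℤ, (∀ i, w i = 1 ∨ w i = -1) ∧
        ∀ a : Fin n → ℝ, (∀ i, a i ≠ 0) → ∀ x : Fin d → ℝ,
          Measure.pi (fun _ : Fin n => μ)
              {ω : Fin n → Fin d → ℤ | ∑ i, a i • (fun j => ((ω i j : ℤ) : ℝ)) = x}
            ≤ ⨆ k : Fin d → ℤ, Measure.pi (fun _ : Fin n => μ)
              {ω : Fin n → Fin d → ℤ | ∑ i, w i • ω i = k}) := by
  intro H
  obtain ⟨w, hw, h⟩ := H 3 1 mu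
  have h1 := h ![1, 2, 4] (by intro i; fin_cases i <;> norm_num) 0
  rw [left_eq] at h1
  have h2 := h1.trans (iSup_le (right_le w hw))
  have h3 : ((150 : ℝ≥0∞)⁻¹) ^ 3 ≠ 0 := by
    apply pow_ne_zero
    exact ENNReal.inv_ne_zero.mpr (by norm_num)
  have h4 : ((150 : ℝ≥0∞)⁻¹) ^ 3 ≠ ⊤ := by
    apply ENNReal.pow_ne_top
    exact ENNReal.inv_ne_top.mpr (by norm_num)
  have h5 := (ENNReal.mul_le_mul_iff_left h3 h4).mp h2
  norm_num at h5

end Pool.Agent.S19204
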