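import Pool.Statements.S19273
import Pool.Agent.H.MP_3b0279_pr.Main

set_option autoImplicit false
open Pool Pool.MP_3b0279_pr

namespace Pool.Agent.S19273

/-- For ε>0 and degree sequences on n vertices with at most (1−ε)n twos, surplus s_n→∞, and connected simple realizations existing: mean diameter of a uniform connected realization is O((1+√(n/s_n)) log s_n). -/
theorem result :
    ∀ ε : ℝ, 0 < ε → ∀ d : (n : ℕ) → Fin n → ℕ,
      (∀ n : ℕ, ((Finset.univ.filter (fun i : Fin n => d n i = 2)).card : ℝ) ≤ (1 - ε) * (n : ℝ)) →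
      Filter.Tendsto (fun n : ℕ => (∑ i : Fin n, (d n i : ℝ)) / 2 - (n : ℝ) + 1)
        Filter.atTop Filter.atTop →
      (∀ᶠ n in Filter.atTop,
        {G : SimpleGraph (Fin n) | G.Connected ∧ ∀ i : Fin n, (G.neighborSet i).ncard = d n i}.Nonempty) →
      ∃ C : ℝ, ∀ᶠ n in Filter.atTop,
        (∑ᶠ G ∈ {G : SimpleGraph (Fin n) | G.Connected ∧ ∀ i : Fin n, (G.neighborSet i).ncard = d n i},
            (G.diam : ℝ)) /
          (({G : SimpleGraph (Fin n) | G.Connected ∧ ∀ i : Fin n, (G.neighborSet i).ncard = d n i}.ncard : ℝ))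
        ≤ C * (1 + Real.sqrt ((n : ℝ) / ((∑ i : Fin n, (d n i : ℝ)) / 2 - (n : ℝ) + 1)))
            * Real.log ((∑ i : Fin n, (d n i : ℝ)) / 2 - (n : ℝ) + 1) := by
  intro ε hε d hd2 hs hne
  obtain ⟨C, s₀, hC, H⟩ := Pool.Agent.H.MP_3b0279_pr.main_V ε hε
  refine ⟨C, ?_⟩
  filter_upwards [hne, hs.eventually_ge_atTop (s₀ : ℝ), hs.eventually_ge_atTop 1] with n hn hsn hs1
  have hset : {G : SimpleGraph (Fin n) | G.Connected ∧
      ∀ i : Fin n, (G.neighborSet i).ncard = d n i}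
      = ((Pool.Agent.H.MP_3b0279_pr.grs (d n) : Finset (SimpleGraph (Fin n))) :
        Set (SimpleGraph (Fin n))) := by
    ext G
    rw [Finset.mem_coe, Pool.Agent.H.MP_3b0279_pr.mem_grs]
    exact Iff.rfl
  obtain ⟨G₀, hG₀⟩ := hn
  have heven := Pool.Agent.H.MP_3b0279_pr.sum_even (d n) G₀ hG₀
  obtain ⟨e, he⟩ := heven
  have hsum : (∑ i : Fin n, (d n i : ℝ)) = 2 * (e : ℝ) := by
    have : ((∑ i : Fin n, d n i : ℕ) : ℝ) = ((e + e : ℕ) : ℝ) := by rw [he]
    push_cast at this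
    linarith
  have hσ : (∑ i : Fin n, (d n i : ℝ)) / 2 - (n : ℝ) + 1 = (e : ℝ) + 1 - n := by
    rw [hsum]; ring
  rw [hσ] at hsn hs1
  have hen : n ≤ e := by
    have : (n : ℝ) ≤ e := by linarith
    exact_mod_cast this
  set s : ℕ := e + 1 - n with hsdef
  have hscast : ((s : ℕ) : ℝ) = (e : ℝ) + 1 - n := by
    rw [hsdef, Nat.cast_sub (by omega)]; push_cast; ring
  have hσ2 : (∑ i : Fin n, (d n i : ℝ)) / 2 - (n : ℝ) + 1 = (s : ℝ) := by
    rw [hσ, hscast]
  have hs₀ : s₀ ≤ s := by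
    have : (s₀ : ℝ) ≤ s := by rw [hscast]; exact hsn
    exact_mod_cast this
  have hmain := H (Fin n) (d n) s (by
      rw [Fintype.card_fin]
      convert hd2 n) (by
      rw [Fintype.card_fin]; omega) hs₀
  have hfin := finsum_mem_coe_finset (fun G : SimpleGraph (Fin n) => (G.diam : ℝ))
    (Pool.Agent.H.MP_3b0279_pr.grs (d n))
  rw [← hset] at hfin
  have hncard : ({G : SimpleGraph (Fin n) | G.Connected ∧
      ∀ i : Fin n, (G.neighborSet i).ncard = d n i}.ncard : ℝ)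
      = ((Pool.Agent.H.MP_3b0279_pr.grs (d n)).card : ℝ) := by
    rw [hset, Set.ncard_coe_finset]
  refine le_trans (le_of_eq (congrArg₂ (· / ·) hfin hncard)) ?_
  rw [hσ2]
  rw [Fintype.card_fin] at hmain
  have hpos : (0 : ℝ) < ((Pool.Agent.H.MP_3b0279_pr.grs (d n)).card : ℝ) := by
    have : G₀ ∈ Pool.Agent.H.MP_3b0279_pr.grs (d n) := by
      rw [Pool.Agent.H.MP_3b0279_pr.mem_grs]; exact hG₀
    exact_mod_cast Finset.card_pos.2 ⟨G₀, this⟩
  show (∑ G ∈ Pool.Agent.H.MP_3b0279_pr.grs (d n), (G.diam : ℝ))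
    / ((Pool.Agent.H.MP_3b0279_pr.grs (d n)).card : ℝ) ≤ _
  rw [div_le_iff₀ hpos]
  exact hmain

end Pool.Agent.S19273
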