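import Pool.Statements.S19459
import Pool.Agent.H.MP_8ae060_pr.Entropy

set_option autoImplicit false
open MeasureTheory
open Pool Pool.MP_8ae060_pr

namespace Pool.Agent.S19459

/-- For every probability law on the reals with a density, finite variance and finite entropy, with X,Y,Z i.i.d. of that law, h(X+Z)+h(Y+Z)−h(X+Y+Z)−h(Z) is at least ½log(4/3), which is the value for Gaussians. -/
theorem result :
    ∀ μ : Measure ℝ, IsProbabilityMeasure μ →
      μ ≪ volume →
      Integrable (fun x : ℝ => x ^ 2) μ →
      Integrable (fun x : ℝ => Real.negMulLog (μ.rnDeriv volume x).toReal) volume →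
      Integrable (fun x : ℝ =>
        Real.negMulLog ((Measure.conv μ μ).rnDeriv volume x).toReal) volume →
      Integrable (fun x : ℝ =>
        Real.negMulLog ((Measure.conv (Measure.conv μ μ) μ).rnDeriv volume x).toReal) volume →
      Real.log (4 / 3) / 2 ≤
        2 * (∫ x : ℝ, Real.negMulLog ((Measure.conv μ μ).rnDeriv volume x).toReal)
          - (∫ x : ℝ, Real.negMulLog
              ((Measure.conv (Measure.conv μ μ) μ).rnDeriv volume x).toReal)
          - (∫ x : ℝ, Real.negMulLog (μ.rnDeriv volume x).toReal) := by
  intro μ hP hμ _ i1 i2 i3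
  exact Pool.Agent.H.MP_8ae060_pr.main μ hμ i1 i2 i3

end Pool.Agent.S19459
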