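import Pool.Statements.S19473
import Pool.Agent.H.MP_8fbdb2_pr.Conn
import Pool.Agent.H.MP_8fbdb2_pr.Uni
import Pool.Agent.H.MP_8fbdb2_pr.Parts
import Pool.Agent.H.MP_8fbdb2_pr.LevelsB
import Pool.Agent.H.MP_8fbdb2_pr.Final

set_option autoImplicit false
open Pool Pool.MP_8fbdb2_pr

namespace Pool.Agent.S19473

open Pool.Agent.IRP MeasureTheory

/-- For every generic sample the constructed partition has all required properties. -/
theorem nice_of_gen (ω : Om) (hω : Gen ω) : Nice (part (Msk ω) (Usk ω)) := by
  apply nice_part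
  · exact conn_edgeSet (good ω) (good_symm ω) (good_hyp ω hω)
  · exact Msk_infinite ω hω
  · intro m
    apply conn_edgeSet
    · rintro v w ⟨h1, h2⟩
      exact ⟨h2, h1⟩
    · rintro v w c ⟨x, hx, _⟩ ⟨y, hy, _⟩ _
      have : NeZero (pr m) := ⟨(pr_prime m).ne_zero⟩
      have hn : chi ω m (c + ((1 - chi ω m c).val : ℤ) • v) = 1 := by
        rw [map_add, map_zsmul, hx, zsmul_eq_mul, mul_one, Int.cast_natCast,
          ZMod.natCast_zmod_val]
        ring
      exact ⟨((1 - chi ω m c).val : ℤ), ⟨hx, hn⟩, ⟨hy, hn⟩⟩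
  · exact Usk_int ω
  · exact Msk_disj ω
  · exact Usk_cob ω
  · intro m A B h1 h2 h3 h4 h5
    exact unicoherence (chi ω m) (chi_ne_zero ω m) A B h1 h2 h3 h4 h5

theorem closure_S : Subgroup.closure (S : Set G) = ⊤ := by
  rw [eq_top_iff, ← closure_E]
  apply Subgroup.closure_mono
  rintro g ⟨i, j, _, rfl⟩
  exact E_mem_S i j

/-- For some finite generating set of SL_3(Z), there is a left-invariant random partition of the group which almost surely has infinitely many parts, each infinite, each connected in the Cayley graph, and each adjacent to only finitely many parts. -/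
theorem result :
    ∃ S : Finset (Matrix.SpecialLinearGroup (Fin 3) ℤ),
      Subgroup.closure (S : Set (Matrix.SpecialLinearGroup (Fin 3) ℤ)) = ⊤ ∧
      ∃ μ : MeasureTheory.Measure
          (Matrix.SpecialLinearGroup (Fin 3) ℤ → Matrix.SpecialLinearGroup (Fin 3) ℤ → Bool),
        MeasureTheory.IsProbabilityMeasure μ ∧
        (∀ γ : Matrix.SpecialLinearGroup (Fin 3) ℤ,
          μ.map (fun r g h => r (γ⁻¹ * g) (γ⁻¹ * h)) = μ) ∧
        ∀ᵐ r ∂μ,
          Equivalence (fun g h => r g h = true) ∧
          (Set.range (fun g : Matrix.SpecialLinearGroup (Fin 3) ℤ =>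
              {h : Matrix.SpecialLinearGroup (Fin 3) ℤ | r g h = true})).Infinite ∧
          (∀ g : Matrix.SpecialLinearGroup (Fin 3) ℤ,
              {h : Matrix.SpecialLinearGroup (Fin 3) ℤ | r g h = true}.Infinite) ∧
          (∀ g : Matrix.SpecialLinearGroup (Fin 3) ℤ,
              ((SimpleGraph.fromRel
                  (fun a b : Matrix.SpecialLinearGroup (Fin 3) ℤ => a⁻¹ * b ∈ S)).induce
                {h : Matrix.SpecialLinearGroup (Fin 3) ℤ | r g h = true}).Connected) ∧
          (∀ g : Matrix.SpecialLinearGroup (Fin 3) ℤ,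
              ((fun y : Matrix.SpecialLinearGroup (Fin 3) ℤ =>
                  {h : Matrix.SpecialLinearGroup (Fin 3) ℤ | r y h = true}) ''
                {y : Matrix.SpecialLinearGroup (Fin 3) ℤ | ∃ x : Matrix.SpecialLinearGroup (Fin 3) ℤ,
                  r g x = true ∧
                  (SimpleGraph.fromRel
                    (fun a b : Matrix.SpecialLinearGroup (Fin 3) ℤ => a⁻¹ * b ∈ S)).Adj x y}).Finite) := by
  have hmeas := measurable_part
  refine ⟨Pool.Agent.IRP.S, closure_S, PP.map (fun ω : Om => part (Msk ω) (Usk ω)),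
    Measure.isProbabilityMeasure_map hmeas.aemeasurable, ?_, ?_⟩
  · intro γ
    have hshift : Measurable (fun (r : G → G → Bool) (g h : G) => r (γ⁻¹ * g) (γ⁻¹ * h)) := by
      apply measurable_pi_lambda
      intro g
      apply measurable_pi_lambda
      intro h
      exact (measurable_pi_apply (γ⁻¹ * h)).comp (measurable_pi_apply (γ⁻¹ * g))
    rw [Measure.map_map hshift hmeas]
    have hcomp : ((fun (r : G → G → Bool) (g h : G) => r (γ⁻¹ * g) (γ⁻¹ * h)) ∘
        fun ω : Om => part (Msk ω) (Usk ω)) =
        (fun ω : Om => part (Msk ω) (Usk ω)) ∘ act γ := by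
      funext ω g h
      exact (part_act γ ω g h).symm
    rw [hcomp, ← Measure.map_map hmeas (measurable_act γ), map_act]
  · have h1 : ∀ᵐ r ∂(PP.map (fun ω : Om => part (Msk ω) (Usk ω))), Nice r := by
      rw [ae_map_iff hmeas.aemeasurable measurableSet_nice]
      filter_upwards [ae_gen] with ω hω
      exact nice_of_gen ω hω
    exact h1.mono fun r hr => hr.frozen

end Pool.Agent.S19473
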